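import Pool.Agent.W868.Mos
import Pool.Agent.W868.Tool

/-!
# Transitive collapses of elementary submodels of models of ZF are models of ZF
-/

set_option autoImplicit false
set_option linter.unusedSectionVars false
set_option linter.unreachableTactic false
set_option linter.unusedTactic false

namespace Pool.Agent.H158_PC

open Pool.Agent.W868
open ZFSet (pair)

/-- Elimination of parameters. -/
theorem param_elim : ∀ {n : ℕ} (φ : Fml ZFSet.{0} n), ∃ (m : ℕ) (ψ : Fml Empty m)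
    (σ : Fin m → Fin n ⊕ ZFSet.{0}),
    (∀ S : Set ZFSet.{0}, ∅ ∈ S → φ.Over S → ∀ i, TOver S (σ i)) ∧
    ∀ (M : Set ZFSet.{0}) (v : Fin n → ZFSet.{0}), Sat M id φ v ↔
      Sat M Empty.elim ψ fun i => Sum.elim v id (σ i) := by
  intro n φ
  induction φ with
  | mem s t =>
    refine ⟨2, .mem (Sum.inl 0) (Sum.inl 1), ![s, t], fun S _ h i => ?_, fun M v => Iff.rfl⟩
    fin_cases i
    · exact h.1
    · exact h.2
  | eq s t =>
    refine ⟨2, .eq (Sum.inl 0) (Sum.inl 1), ![s, t], fun S _ h i => ?_, fun M v => Iff.rfl⟩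
    fin_cases i
    · exact h.1
    · exact h.2
  | neg φ ih =>
    obtain ⟨m, ψ, σ, h1, h2⟩ := ih
    exact ⟨m, .neg ψ, σ, h1, fun M v => not_congr (h2 M v)⟩
  | and φ φ' ih ih' =>
    obtain ⟨m, ψ, σ, h1, h2⟩ := ih
    obtain ⟨m', ψ', σ', h1', h2'⟩ := ih'
    refine ⟨m + m', .and (ψ.subst fun i => Sum.inl (Fin.castAdd m' i))
      (ψ'.subst fun i => Sum.inl (Fin.natAdd m i)), Fin.addCases σ σ', fun S h0 h i => ?_,
      fun M v => ?_⟩
    · refine Fin.addCases (fun i => ?_) (fun i => ?_) i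
      · show TOver S (Fin.addCases σ σ' (Fin.castAdd m' i))
        rw [Fin.addCases_left]
        exact h1 S h0 h.1 i
      · show TOver S (Fin.addCases σ σ' (Fin.natAdd m i))
        rw [Fin.addCases_right]
        exact h1' S h0 h.2 i
    · simp only [Sat, sat_subst, Sum.elim_inl, Fin.addCases_left, Fin.addCases_right]
      rw [h2, h2']
  | @ex n φ ih =>
    obtain ⟨m, ψ, σ, h1, h2⟩ := ih
    let τ : Fin (n + 1) ⊕ ZFSet.{0} → Fin n ⊕ ZFSet.{0} :=
      Sum.elim (Fin.cons (Sum.inr ∅) Sum.inl) Sum.inr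
    let r : Fin (n + 1) ⊕ ZFSet.{0} → Fin m → Fin (m + 1) ⊕ Empty := fun s i =>
      Sum.elim (Fin.cons (Sum.inl 0) fun _ => Sum.inl i.succ) (fun _ => Sum.inl i.succ) s
    refine ⟨m, .ex (ψ.subst fun i => r (σ i) i), fun i => τ (σ i), fun S h0 h i => ?_,
      fun M v => ?_⟩
    · have h3 := h1 S h0 h i
      show TOver S (τ (σ i))
      revert h3
      generalize σ i = s
      intro h3
      rcases s with k | a
      · refine Fin.cases ?_ (fun k => ?_) k
        · exact tOver_inr.2 h0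
        · exact TOver.inl _
      · exact tOver_inr.2 (h3 a rfl)
    · simp only [Sat]
      refine exists_congr fun a => and_congr_right fun ha => ?_
      rw [h2, sat_subst]
      have h3 : (fun i => Sum.elim (Fin.cons a v : Fin (n + 1) → ZFSet.{0}) id (σ i)) =
          fun k => Sum.elim (Fin.cons a (fun i => Sum.elim v id (τ (σ i))) :
            Fin (m + 1) → ZFSet.{0}) Empty.elim (r (σ k) k) := by
        funext i
        have key : ∀ (s : Fin (n + 1) ⊕ ZFSet.{0}) (w : Fin m → ZFSet.{0}),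
            w i = Sum.elim v id (τ s) →
            Sum.elim (Fin.cons a v : Fin (n + 1) → ZFSet.{0}) id s =
              Sum.elim (Fin.cons a w : Fin (m + 1) → ZFSet.{0}) Empty.elim (r s i) := by
          intro s w hw
          rcases s with k | b
          · revert hw
            refine Fin.cases ?_ (fun k => ?_) k
            · intro _
              rfl
            · intro hw
              exact hw.symm
          · exact hw.symm
        exact key (σ i) _ rfl
      rw [h3]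

/-- The relations `R` and `R'` are given in `X` and in `N` by the same formula. -/
def Rel (X N : Set ZFSet.{0}) {n : ℕ} (R R' : (Fin n → ZFSet.{0}) → Prop) : Prop :=
  ∃ φ : Fml Empty n, (∀ v, (∀ i, v i ∈ X) → (Sat X Empty.elim φ v ↔ R v)) ∧
    ∀ v, (∀ i, v i ∈ N) → (Sat N Empty.elim φ v ↔ R' v)

section

variable {X N : Set ZFSet.{0}} {n : ℕ} {R R' T T' : (Fin n → ZFSet.{0}) → Prop}

theorem Rel.mem (i j : Fin n) : Rel X N (fun v => v i ∈ v j) fun v => v i ∈ v j :=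
  ⟨.mem (Sum.inl i) (Sum.inl j), fun _ _ => Iff.rfl, fun _ _ => Iff.rfl⟩

theorem Rel.eq (i j : Fin n) : Rel X N (fun v => v i = v j) fun v => v i = v j :=
  ⟨.eq (Sum.inl i) (Sum.inl j), fun _ _ => Iff.rfl, fun _ _ => Iff.rfl⟩

theorem Rel.not (h : Rel X N R R') : Rel X N (fun v => ¬ R v) fun v => ¬ R' v := by
  obtain ⟨φ, h1, h2⟩ := h
  exact ⟨.neg φ, fun v hv => not_congr (h1 v hv), fun v hv => not_congr (h2 v hv)⟩

theorem Rel.and (h : Rel X N R R') (h' : Rel X N T T') :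
    Rel X N (fun v => R v ∧ T v) fun v => R' v ∧ T' v := by
  obtain ⟨φ, h1, h2⟩ := h
  obtain ⟨ψ, h3, h4⟩ := h'
  exact ⟨.and φ ψ, fun v hv => and_congr (h1 v hv) (h3 v hv),
    fun v hv => and_congr (h2 v hv) (h4 v hv)⟩

theorem Rel.congr (h : Rel X N R R') (h1 : ∀ v, R v ↔ T v) (h2 : ∀ v, R' v ↔ T' v) :
    Rel X N T T' := by
  obtain ⟨φ, h3, h4⟩ := h
  exact ⟨φ, fun v hv => (h3 v hv).trans (h1 v), fun v hv => (h4 v hv).trans (h2 v)⟩

theorem Rel.imp (h : Rel X N R R') (h' : Rel X N T T') :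
    Rel X N (fun v => R v → T v) fun v => R' v → T' v :=
  (h.and h'.not).not.congr (fun v => by tauto) fun v => by tauto

theorem Rel.or (h : Rel X N R R') (h' : Rel X N T T') :
    Rel X N (fun v => R v ∨ T v) fun v => R' v ∨ T' v :=
  (h.not.and h'.not).not.congr (fun v => by tauto) fun v => by tauto

theorem Rel.iff (h : Rel X N R R') (h' : Rel X N T T') :
    Rel X N (fun v => (R v ↔ T v)) fun v => (R' v ↔ T' v) :=
  ((h.imp h').and (h'.imp h)).congr (fun v => by tauto) fun v => by tauto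

theorem Rel.ex {Q Q' : (Fin (n + 1) → ZFSet.{0}) → Prop} (h : Rel X N Q Q') :
    Rel X N (fun v => ∃ a ∈ X, Q (Fin.cons a v)) fun v => ∃ a ∈ N, Q' (Fin.cons a v) := by
  obtain ⟨φ, h1, h2⟩ := h
  refine ⟨.ex φ, fun v hv => ?_, fun v hv => ?_⟩
  · refine exists_congr fun a => and_congr_right fun ha => h1 _ fun i => ?_
    exact Fin.cases ha hv i
  · refine exists_congr fun a => and_congr_right fun ha => h2 _ fun i => ?_
    exact Fin.cases ha hv i

theorem Rel.all {Q Q' : (Fin (n + 1) → ZFSet.{0}) → Prop} (h : Rel X N Q Q') :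
    Rel X N (fun v => ∀ a ∈ X, Q (Fin.cons a v)) fun v => ∀ a ∈ N, Q' (Fin.cons a v) :=
  h.not.ex.not.congr (fun v => by push Not; exact Iff.rfl) fun v => by push Not; exact Iff.rfl

theorem Rel.fml {m : ℕ} (ψ : Fml Empty m) (ρ : Fin m → Fin n) :
    Rel X N (fun v => Sat X Empty.elim ψ fun i => v (ρ i))
      fun v => Sat N Empty.elim ψ fun i => v (ρ i) :=
  ⟨ψ.subst fun i => Sum.inl (ρ i), fun v _ => sat_subst _ _ _ _ _, fun v _ => sat_subst _ _ _ _ _⟩

end

theorem over_univ : {n : ℕ} → (φ : Fml Empty n) → φ.Over Set.univ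
  | _, .mem _ _ => ⟨fun _ _ => trivial, fun _ _ => trivial⟩
  | _, .eq _ _ => ⟨fun _ _ => trivial, fun _ _ => trivial⟩
  | _, .neg φ => over_univ φ
  | _, .and φ ψ => ⟨over_univ φ, over_univ ψ⟩
  | _, .ex φ => over_univ φ

theorem dfn_fml {X : Set ZFSet.{0}} {m n : ℕ} (ψ : Fml Empty m) (F : Fin m → Fin n ⊕ ZFSet.{0})
    (hF : ∀ i, TOver X (F i)) :
    Dfn X X fun v => Sat X Empty.elim ψ fun i => Sum.elim v id (F i) := by
  refine ⟨(ψ.map (Empty.elim : Empty → ZFSet.{0})).subst F, over_subst _ _ hF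
    ((over_map _ ψ).2 (Fml.Over.mono (fun a _ => a.elim) (over_univ ψ))), fun v _ => ?_⟩
  rw [sat_subst, sat_map]
  have h : (id ∘ (Empty.elim : Empty → ZFSet.{0})) = Empty.elim := by
    funext a
    exact a.elim
  rw [h]

/-- The transitive collapse of an elementary submodel of a model of ZF is a model of ZF. -/
theorem isZF_elm {X N Y : Set ZFSet.{0}} {c : ZFSet.{0} → ZFSet.{0}} (hX : IsZF X) (hYX : Y ⊆ X)
    (hc : ∀ x ∈ N, ∃ y ∈ Y, c y = x) (hcm : ∀ y ∈ Y, c y ∈ N) (hN : ∀ x ∈ N, ∀ y ∈ x, y ∈ N)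
    (hω : ZFSet.omega ∈ N)
    (hel : ∀ {n : ℕ} (φ : Fml Empty n) (v : Fin n → ZFSet.{0}), (∀ i, v i ∈ Y) →
      (Sat N Empty.elim φ (fun i => c (v i)) ↔ Sat X Empty.elim φ v)) : IsZF N := by
  have tr : ∀ {n : ℕ} {R R' : (Fin n → ZFSet.{0}) → Prop}, Rel X N R R' →
      ∀ v : Fin n → ZFSet.{0}, (∀ i, v i ∈ Y) → R v → R' fun i => c (v i) := by
    rintro n R R' ⟨φ, h1, h2⟩ v hv h
    exact (h2 _ fun i => hcm _ (hv i)).1 ((hel φ v hv).2 ((h1 v fun i => hYX (hv i)).2 h))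
  have h0 : (∅ : ZFSet.{0}) ∈ N := hN _ hω _ ZFSet.omega_zero
  choose! d hd hd' using hc
  refine ⟨hN, ?_, ?_, hω, ?_, ?_, ?_⟩
  · intro x hx y hy
    have hr : Rel X N (n := 2) _ _ := Rel.ex (Rel.all (Rel.iff (Rel.mem (X := X) (N := N) (0 : Fin 4) 1)
      (Rel.or (Rel.eq (0 : Fin 4) 2) (Rel.eq (0 : Fin 4) 3))))
    have h1 := tr hr ![d x, d y] (by
      intro i
      fin_cases i
      · exact hd x hx
      · exact hd y hy) ⟨{d x, d y}, hX.pairing _ (hYX (hd x hx)) _ (hYX (hd y hy)), fun w _ => by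
        show w ∈ ({d x, d y} : ZFSet.{0}) ↔ w = d x ∨ w = d y
        exact ZFSet.mem_pair⟩
    obtain ⟨z, hz, h2⟩ := h1
    have h3 : ∀ w ∈ N, w ∈ z ↔ w = x ∨ w = y := by
      intro w hw
      have h4 : w ∈ z ↔ w = c (d x) ∨ w = c (d y) := h2 w hw
      rwa [hd' x hx, hd' y hy] at h4
    have h4 : ({x, y} : ZFSet.{0}) = z := by
      ext w
      rw [ZFSet.mem_pair]
      constructor
      · rintro (rfl | rfl)
        · exact (h3 w hx).2 (Or.inl rfl)
        · exact (h3 w hy).2 (Or.inr rfl)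
      · exact fun hw => (h3 w (hN _ hz _ hw)).1 hw
    rw [h4]
    exact hz
  · intro x hx
    have hr : Rel X N (n := 1) _ _ := Rel.ex (Rel.all (Rel.iff (Rel.mem (X := X) (N := N) (0 : Fin 3) 1)
      (Rel.ex (Rel.and (Rel.mem (0 : Fin 4) 3) (Rel.mem (1 : Fin 4) 0)))))
    have h1 := tr hr ![d x] (by
      intro i
      fin_cases i
      exact hd x hx) ⟨ZFSet.sUnion (d x), hX.union _ (hYX (hd x hx)), fun w _ => by
        show w ∈ (ZFSet.sUnion (d x) : ZFSet.{0}) ↔ ∃ y ∈ X, y ∈ d x ∧ w ∈ y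
        rw [ZFSet.mem_sUnion]
        exact ⟨fun ⟨y, hy, hw⟩ => ⟨y, hX.trans _ (hYX (hd x hx)) _ hy, hy, hw⟩,
          fun ⟨y, _, hy, hw⟩ => ⟨y, hy, hw⟩⟩⟩
    obtain ⟨z, hz, h2⟩ := h1
    have h3 : ∀ w ∈ N, w ∈ z ↔ ∃ y ∈ N, y ∈ x ∧ w ∈ y := by
      intro w hw
      have h4 : w ∈ z ↔ ∃ y ∈ N, y ∈ c (d x) ∧ w ∈ y := h2 w hw
      rwa [hd' x hx] at h4
    have h4 : (ZFSet.sUnion x : ZFSet.{0}) = z := by
      ext w
      rw [ZFSet.mem_sUnion]
      constructor
      · rintro ⟨y, hy, hw⟩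
        have hyN := hN _ hx _ hy
        exact (h3 w (hN _ hyN _ hw)).2 ⟨y, hyN, hy, hw⟩
      · intro hw
        obtain ⟨y, -, hy, hwy⟩ := (h3 w (hN _ hz _ hw)).1 hw
        exact ⟨y, hy, hwy⟩
    rw [h4]
    exact hz
  · intro x hx
    have hr : Rel X N (n := 1) _ _ := Rel.ex (Rel.all (Rel.iff (Rel.mem (X := X) (N := N) (0 : Fin 3) 1)
      (Rel.all (Rel.imp (Rel.mem (0 : Fin 4) 1) (Rel.mem (0 : Fin 4) 3)))))
    obtain ⟨y0, hy0, hy0'⟩ := hX.power (d x) (hYX (hd x hx))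
    have h1 := tr hr ![d x] (by
      intro i
      fin_cases i
      exact hd x hx) ⟨y0, hy0, fun w hw => by
        show w ∈ y0 ↔ ∀ u ∈ X, u ∈ w → u ∈ d x
        rw [hy0']
        exact ⟨fun h u _ hu => h.2 hu, fun h => ⟨hw, fun u hu => h u (hX.trans _ hw _ hu) hu⟩⟩⟩
    obtain ⟨z, hz, h2⟩ := h1
    have h3 : ∀ w ∈ N, w ∈ z ↔ ∀ u ∈ N, u ∈ w → u ∈ x := by
      intro w hw
      have h4 : w ∈ z ↔ ∀ u ∈ N, u ∈ w → u ∈ c (d x) := h2 w hw
      rwa [hd' x hx] at h4
    refine ⟨z, hz, fun w => ?_⟩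
    constructor
    · intro hw
      have hwN := hN _ hz _ hw
      exact ⟨hwN, fun u hu => (h3 w hwN).1 hw u (hN _ hwN _ hu) hu⟩
    · rintro ⟨hwN, h5⟩
      exact (h3 w hwN).2 fun u _ hu => h5 hu
  · intro φ hφ x hx
    obtain ⟨m, ψ, σ, h1, h2⟩ := param_elim φ
    have hσ := h1 N h0 hφ
    have hp : ∀ s : Fin 1 ⊕ ZFSet.{0}, TOver N s → ∃ y ∈ Y, ∀ z, Sum.elim (![z] : Fin 1 → ZFSet.{0}) id s =
        Sum.elim (fun _ => z) (fun _ => c y) s := by
      intro s hs
      rcases s with k | a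
      · refine ⟨d x, hd x hx, fun z => ?_⟩
        fin_cases k
        rfl
      · have ha : a ∈ N := hs a rfl
        exact ⟨d a, hd a ha, fun z => (hd' a ha).symm⟩
    choose p hpY hp' using fun i => hp (σ i) (hσ i)
    let ρ : Fin m → Fin (m + 3) := fun i => Sum.elim (fun _ => 0) (fun _ => i.succ.succ.succ) (σ i)
    have hr : Rel X N (n := m + 1) _ _ := Rel.ex (Rel.all (Rel.iff
      (Rel.mem (X := X) (N := N) (0 : Fin (m + 3)) (Fin.succ (0 : Fin (m + 2))))
      (Rel.and (Rel.mem (0 : Fin (m + 3)) (Fin.succ (Fin.succ (0 : Fin (m + 1))))) (Rel.fml ψ ρ))))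
    have hval : ∀ (z y x' : ZFSet.{0}) (q : Fin m → ZFSet.{0}),
        (fun i => (Fin.cons z (Fin.cons y (Fin.cons x' q : Fin (m + 1) → ZFSet.{0}) :
          Fin (m + 2) → ZFSet.{0}) : Fin (m + 3) → ZFSet.{0}) (ρ i)) =
        fun i => Sum.elim (fun _ => z) (fun _ => q i) (σ i) := by
      intro z y x' q
      funext i
      show (Fin.cons z (Fin.cons y (Fin.cons x' q : Fin (m + 1) → ZFSet.{0}) :
          Fin (m + 2) → ZFSet.{0}) : Fin (m + 3) → ZFSet.{0}) (Sum.elim (fun _ => 0) (fun _ => i.succ.succ.succ) (σ i)) = _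
      generalize σ i = s
      rcases s with k | a
      · rfl
      · rfl
    have hdf : Dfn X X fun v : Fin 1 → ZFSet.{0} => Sat X Empty.elim ψ fun i =>
        Sum.elim (fun _ => v 0) (fun _ => p i) (σ i) := by
      refine (dfn_fml (X := X) (n := 1) ψ (fun i => Sum.elim (fun _ => Sum.inl 0)
        (fun _ => Sum.inr (p i)) (σ i)) fun i => ?_).congr fun v _ => ?_
      · generalize σ i = s
        rcases s with k | a
        · exact TOver.inl _
        · exact tOver_inr.2 (hYX (hpY i))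
      · have h4 : (fun i => Sum.elim v id ((Sum.elim (fun _ => Sum.inl 0)
            (fun _ => Sum.inr (p i)) (σ i) : Fin 1 ⊕ ZFSet.{0}))) =
            fun i => Sum.elim (fun _ => v 0) (fun _ => p i) (σ i) := by
          funext i
          generalize σ i = s
          rcases s with k | a
          · rfl
          · rfl
        rw [h4]
    obtain ⟨yy, hyy, hyy'⟩ : ∃ yy ∈ X, ∀ z, z ∈ yy ↔ z ∈ d x ∧ Sat X Empty.elim ψ fun i =>
        Sum.elim (fun _ => z) (fun _ => p i) (σ i) :=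
      ⟨_, hX.sep_mem hdf (hYX (hd x hx)), fun z => ZFSet.mem_sep⟩
    have h3 := tr hr (Fin.cons (d x) p) (by
      intro i
      exact Fin.cases (hd x hx) hpY i) ⟨yy, hyy, fun z hz => by
        rw [hval z yy (d x) p]
        simp only [Fin.cons_zero, Fin.cons_succ]
        exact hyy' z⟩
    obtain ⟨y, hy, h4⟩ := h3
    refine ⟨y, hy, fun z => ?_⟩
    have key : ∀ z ∈ N, z ∈ y ↔ z ∈ x ∧ Sat N id φ ![z] := by
      intro z hz
      have h5 := h4 z hz
      have h6 : (fun i => c ((Fin.cons (d x) p : Fin (m + 1) → ZFSet.{0}) i)) =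
          Fin.cons (c (d x)) fun i => c (p i) := by
        funext i
        refine Fin.cases ?_ (fun i => ?_) i
        · rfl
        · rfl
      rw [h6] at h5
      have h7 : z ∈ y ↔ z ∈ c (d x) ∧ Sat N Empty.elim ψ _ := h5
      rw [hval z y (c (d x)) fun i => c (p i), hd' x hx] at h7
      rw [h7, h2]
      have h8 : (fun i => Sum.elim (![z] : Fin 1 → ZFSet.{0}) id (σ i)) =
          fun i => Sum.elim (fun _ => z) (fun _ => c (p i)) (σ i) := by
        funext i
        exact hp' i z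
      rw [h8]
    constructor
    · exact fun hz => (key z (hN _ hy _ hz)).1 hz
    · exact fun hz => (key z (hN _ hx _ hz.1)).2 hz
  · intro φ hφ x hx hfun
    obtain ⟨m, ψ, σ, h1, h2⟩ := param_elim φ
    have hσ := h1 N h0 hφ
    have hp : ∀ s : Fin 2 ⊕ ZFSet.{0}, TOver N s → ∃ y ∈ Y, ∀ z w,
        Sum.elim (![z, w] : Fin 2 → ZFSet.{0}) id s =
        Sum.elim (![z, w] : Fin 2 → ZFSet.{0}) (fun _ => c y) s := by
      intro s hs
      rcases s with k | a
      · exact ⟨d x, hd x hx, fun z w => rfl⟩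
      · have ha : a ∈ N := hs a rfl
        exact ⟨d a, hd a ha, fun z w => (hd' a ha).symm⟩
    choose p hpY hp' using fun i => hp (σ i) (hσ i)
    -- the functionality, and the conclusion
    let P : Set ZFSet.{0} → (Fin m → ZFSet.{0}) → ZFSet.{0} → ZFSet.{0} → Prop := fun K q z w =>
      Sat K Empty.elim ψ fun i => Sum.elim (![z, w] : Fin 2 → ZFSet.{0}) (fun _ => q i) (σ i)
    let ρ1 : Fin m → Fin (m + 3) := fun i =>
      Sum.elim (![Fin.succ (0 : Fin (m + 2)), 0] : Fin 2 → Fin (m + 3)) (fun _ => i.succ.succ.succ) (σ i)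
    let ρ2 : Fin m → Fin (m + 4) := fun i =>
      Sum.elim (![Fin.succ (Fin.succ (0 : Fin (m + 2))), 0] : Fin 2 → Fin (m + 4)) (fun _ => i.succ.succ.succ.succ) (σ i)
    let ρ3 : Fin m → Fin (m + 4) := fun i =>
      Sum.elim (![0, Fin.succ (0 : Fin (m + 3))] : Fin 2 → Fin (m + 4)) (fun _ => i.succ.succ.succ.succ) (σ i)
    have hr1 : Rel X N (n := m + 1) _ _ := Rel.all (Rel.imp
      (Rel.mem (X := X) (N := N) (0 : Fin (m + 2)) (Fin.succ (0 : Fin (m + 1))))
      (Rel.ex (Rel.and (Rel.fml ψ ρ1) (Rel.all (Rel.imp (Rel.fml ψ ρ2)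
        (Rel.eq (0 : Fin (m + 4)) (Fin.succ (0 : Fin (m + 3)))))))))
    have hr2 : Rel X N (n := m + 1) _ _ := Rel.ex (Rel.all (Rel.iff
      (Rel.mem (X := X) (N := N) (0 : Fin (m + 3)) (Fin.succ (0 : Fin (m + 2))))
      (Rel.ex (Rel.and (Rel.mem (0 : Fin (m + 4)) (Fin.succ (Fin.succ (Fin.succ (0 : Fin (m + 1)))))) (Rel.fml ψ ρ3)))))
    have hv1 : ∀ (w z x' : ZFSet.{0}) (q : Fin m → ZFSet.{0}),
        (fun i => (Fin.cons w (Fin.cons z (Fin.cons x' q : Fin (m + 1) → ZFSet.{0}) :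
          Fin (m + 2) → ZFSet.{0}) : Fin (m + 3) → ZFSet.{0}) (ρ1 i)) =
        fun i => Sum.elim (![z, w] : Fin 2 → ZFSet.{0}) (fun _ => q i) (σ i) := by
      intro w z x' q
      funext i
      show (Fin.cons w (Fin.cons z (Fin.cons x' q : Fin (m + 1) → ZFSet.{0}) :
          Fin (m + 2) → ZFSet.{0}) : Fin (m + 3) → ZFSet.{0}) (Sum.elim
          (![Fin.succ (0 : Fin (m + 2)), 0] : Fin 2 → Fin (m + 3)) (fun _ => i.succ.succ.succ) (σ i)) = _
      generalize σ i = s
      rcases s with k | a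
      · fin_cases k <;> rfl
      · rfl
    have hv2 : ∀ (w' w z x' : ZFSet.{0}) (q : Fin m → ZFSet.{0}),
        (fun i => (Fin.cons w' (Fin.cons w (Fin.cons z (Fin.cons x' q :
          Fin (m + 1) → ZFSet.{0}) : Fin (m + 2) → ZFSet.{0}) : Fin (m + 3) → ZFSet.{0}) :
          Fin (m + 4) → ZFSet.{0}) (ρ2 i)) =
        fun i => Sum.elim (![z, w'] : Fin 2 → ZFSet.{0}) (fun _ => q i) (σ i) := by
      intro w' w z x' q
      funext i
      show (Fin.cons w' (Fin.cons w (Fin.cons z (Fin.cons x' q :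
          Fin (m + 1) → ZFSet.{0}) : Fin (m + 2) → ZFSet.{0}) : Fin (m + 3) → ZFSet.{0}) :
          Fin (m + 4) → ZFSet.{0}) (Sum.elim
          (![Fin.succ (Fin.succ (0 : Fin (m + 2))), 0] : Fin 2 → Fin (m + 4)) (fun _ => i.succ.succ.succ.succ) (σ i)) = _
      generalize σ i = s
      rcases s with k | a
      · fin_cases k <;> rfl
      · rfl
    have hv3 : ∀ (z w y x' : ZFSet.{0}) (q : Fin m → ZFSet.{0}),
        (fun i => (Fin.cons z (Fin.cons w (Fin.cons y (Fin.cons x' q :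
          Fin (m + 1) → ZFSet.{0}) : Fin (m + 2) → ZFSet.{0}) : Fin (m + 3) → ZFSet.{0}) :
          Fin (m + 4) → ZFSet.{0}) (ρ3 i)) =
        fun i => Sum.elim (![z, w] : Fin 2 → ZFSet.{0}) (fun _ => q i) (σ i) := by
      intro z w y x' q
      funext i
      show (Fin.cons z (Fin.cons w (Fin.cons y (Fin.cons x' q :
          Fin (m + 1) → ZFSet.{0}) : Fin (m + 2) → ZFSet.{0}) : Fin (m + 3) → ZFSet.{0}) :
          Fin (m + 4) → ZFSet.{0}) (Sum.elim
          (![0, Fin.succ (0 : Fin (m + 3))] : Fin 2 → Fin (m + 4)) (fun _ => i.succ.succ.succ.succ) (σ i)) = _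
      generalize σ i = s
      rcases s with k | a
      · fin_cases k <;> rfl
      · rfl
    have hPd : ∀ z w, P N (fun i => c (p i)) z w ↔ Sat N id φ ![z, w] := by
      intro z w
      rw [h2]
      have h8 : (fun i => Sum.elim (![z, w] : Fin 2 → ZFSet.{0}) id (σ i)) =
          fun i => Sum.elim (![z, w] : Fin 2 → ZFSet.{0}) (fun _ => c (p i)) (σ i) := by
        funext i
        exact hp' i z w
      rw [h8]
    have hcons : (fun i => c ((Fin.cons (d x) p : Fin (m + 1) → ZFSet.{0}) i)) =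
        Fin.cons x fun i => c (p i) := by
      funext i
      refine Fin.cases ?_ (fun i => ?_) i
      · exact hd' x hx
      · rfl
    -- functionality in `X`
    have hYp : ∀ i, (Fin.cons (d x) p : Fin (m + 1) → ZFSet.{0}) i ∈ Y := by
      intro i
      exact Fin.cases (hd x hx) hpY i
    have hf : ∀ z ∈ X, z ∈ d x → ∃ w ∈ X, P X p z w ∧ ∀ w' ∈ X, P X p z w' → w' = w := by
      by_contra hcon
      have h3 := tr hr1.not (Fin.cons (d x) p) hYp (by
        intro h4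
        apply hcon
        intro z hz hzx
        obtain ⟨w, hw, h5, h6⟩ := h4 z hz hzx
        rw [hv1] at h5
        refine ⟨w, hw, h5, fun w' hw' h7 => h6 w' hw' ?_⟩
        rw [hv2]
        exact h7)
      apply h3
      rw [hcons]
      intro z hz hzx
      obtain ⟨w, ⟨hw, h5⟩, h6⟩ := hfun z hzx
      refine ⟨w, hw, ?_, fun w' hw' h7 => ?_⟩
      · rw [hv1]
        exact (hPd z w).2 h5
      · rw [hv2] at h7
        exact h6 w' ⟨hw', (hPd z w').1 h7⟩
    have hdf : Dfn X X fun v : Fin 2 → ZFSet.{0} => P X p (v 0) (v 1) := by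
      refine (dfn_fml (X := X) (n := 2) ψ (fun i => Sum.elim (fun k => Sum.inl k)
        (fun _ => Sum.inr (p i)) (σ i)) fun i => ?_).congr fun v _ => ?_
      · generalize σ i = s
        rcases s with k | a
        · exact TOver.inl _
        · exact tOver_inr.2 (hYX (hpY i))
      · have h4 : (fun i => Sum.elim v id ((Sum.elim (fun k => Sum.inl k)
            (fun _ => Sum.inr (p i)) (σ i) : Fin 2 ⊕ ZFSet.{0}))) =
            fun i => Sum.elim (![v 0, v 1] : Fin 2 → ZFSet.{0}) (fun _ => p i) (σ i) := by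
          funext i
          generalize σ i = s
          rcases s with k | a
          · fin_cases k <;> rfl
          · rfl
        rw [h4]
    obtain ⟨χ, hχ1, hχ2⟩ := hdf
    have hdx := hYX (hd x hx)
    have hχ3 : ∀ z ∈ X, ∀ w ∈ X, Sat X id χ ![z, w] ↔ P X p z w := by
      intro z hz w hw
      exact hχ2 ![z, w] (by
        intro i
        fin_cases i
        · exact hz
        · exact hw)
    obtain ⟨y, hy, hy'⟩ := hX.replacement χ hχ1 (d x) hdx (by
      intro z hz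
      have hzX := hX.trans _ hdx _ hz
      obtain ⟨w, hw, h5, h6⟩ := hf z hzX hz
      exact ⟨w, ⟨hw, (hχ3 z hzX w hw).2 h5⟩, fun w' h7 => h6 w' h7.1
        ((hχ3 z hzX w' h7.1).1 h7.2)⟩)
    have h3 := tr hr2 (Fin.cons (d x) p) hYp ⟨y, hy, fun w hw => by
      show w ∈ y ↔ ∃ z ∈ X, z ∈ d x ∧ Sat X Empty.elim ψ _
      rw [hy']
      constructor
      · rintro ⟨-, z, hz, h5⟩
        have hzX := hX.trans _ hdx _ hz
        refine ⟨z, hzX, hz, ?_⟩
        rw [hv3]
        exact (hχ3 z hzX w hw).1 h5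
      · rintro ⟨z, hzX, hz, h5⟩
        rw [hv3] at h5
        exact ⟨hw, z, hz, (hχ3 z hzX w hw).2 h5⟩⟩
    rw [hcons] at h3
    obtain ⟨y', hy', h4⟩ := h3
    refine ⟨y', hy', fun w => ?_⟩
    have key : ∀ w ∈ N, w ∈ y' ↔ ∃ z ∈ x, Sat N id φ ![z, w] := by
      intro w hw
      have h5 : w ∈ y' ↔ ∃ z ∈ N, z ∈ x ∧ Sat N Empty.elim ψ _ := h4 w hw
      rw [h5]
      constructor
      · rintro ⟨z, hz, hzx, h6⟩
        rw [hv3] at h6
        exact ⟨z, hzx, (hPd z w).1 h6⟩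
      · rintro ⟨z, hzx, h6⟩
        refine ⟨z, hN _ hx _ hzx, hzx, ?_⟩
        rw [hv3]
        exact (hPd z w).2 h6
    constructor
    · intro hw
      have hwN := hN _ hy' _ hw
      exact ⟨hwN, (key w hwN).1 hw⟩
    · rintro ⟨hwN, h⟩
      exact (key w hwN).2 h

end Pool.Agent.H158_PC
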