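import Pool.Agent.H158_PC.Dat
import Pool.Agent.H158_PC.Elm
import Pool.Agent.R597.Am2

/-!
# The ground model
-/

set_option autoImplicit false
set_option linter.unusedSectionVars false
set_option linter.unreachableTactic false
set_option linter.unusedTactic false

namespace Pool.Agent.H158_PC

open Pool.Agent.W868 Pool.Agent.W868.GM Pool.Agent.R597 Pool.Agent.Y588
open ZFSet (pair)

theorem hf_Z (π : Pkg Unit) {x : ZFSet.{0}} (h : IsHF x) : x ∈ π.Z ∧ π.hat x = x := by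
  refine IsHF.ind (Q := fun x => x ∈ π.Z ∧ π.hat x = x) ⟨π.empty_Z, π.hat_empty⟩ ?_ h
  rintro x y ⟨h1, h2⟩ ⟨h3, h4⟩
  exact ⟨π.insert_Z h1 h3, by rw [π.hat_insert h1, h2, h4]⟩

theorem hat_HF (π : Pkg Unit) {A : ZFSet.{0}} (hH : ∀ z ∈ A, IsHF z) : π.hat A = A := by
  ext z
  rw [π.mem_hat]
  constructor
  · rintro ⟨a, ha, hZ, rfl⟩
    rw [(hf_Z π (hH a ha)).2]
    exact ha
  · intro hz
    exact ⟨z, hz, (hf_Z π (hH z hz)).1, (hf_Z π (hH z hz)).2⟩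

theorem HFs_mem_W {W : ZFSet.{0}} (hW : IsRefl W) : HFs ∈ W := by
  have hB := isBase_univ
  have h0 : ∃ x : ZFSet.{0}, (∃ z ∈ x, ∀ u ∈ z, ¬ u = u) ∧ ∀ a ∈ x, ∀ b ∈ x, insert a b ∈ x :=
    ⟨HFs, ⟨∅, mem_HFs.2 isHF_empty, fun u hu => absurd hu (ZFSet.notMem_empty _)⟩,
      fun a ha b hb => mem_HFs.2 ((mem_HFs.1 ha).insert (mem_HFs.1 hb))⟩
  have hd : Dfn {x | x ∈ W} Set.univ fun w : Fin 1 → ZFSet.{0} =>
      (∃ z ∈ w 0, ∀ u ∈ z, ¬ u = u) ∧ ∀ a ∈ w 0, ∀ b ∈ w 0, insert a b ∈ w 0 := by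
    repeat' first
      | exact DfnF.proj _
      | apply hB.bex | apply hB.ball | apply Dfn.and | apply Dfn.or | apply Dfn.not
      | apply hB.pair' | apply hB.insert' | apply Dfn.mem | apply Dfn.eq
  obtain ⟨a, ha, h1, h2⟩ := hW.exists_W hd h0
  refine hW.sub a ha _ fun x hx => ?_
  refine (mem_HFs.1 hx).ind ?_ fun x y hx hy => h2 x hx y hy
  obtain ⟨z, hz, h3⟩ := h1
  have h4 : z = ∅ := by
    rw [ZFSet.eq_empty]
    intro y hy
    exact h3 y hy rfl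
  rwa [← h4]

theorem psi_hat (π : Pkg Unit) {A x f : ZFSet.{0}} (hA : A ∈ π.Z) (hx : x ∈ π.Z) (hf' : f ∈ π.Z) :
    Psi (π.hat A) (π.hat x) (π.hat f) ↔ Psi A x f := by
  have hV := π.isZF_V
  have h1 := psiF_spec (M := π.V) hV.trans (v := ![π.hat A, π.hat x, π.hat f]) (by
    intro i
    fin_cases i
    · exact π.of_hat_mem_V hA
    · exact π.of_hat_mem_V hx
    · exact π.of_hat_mem_V hf')
  have h2 := psiF_spec (M := Set.univ) (fun _ _ _ _ => trivial) (v := ![A, x, f])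
    fun _ => trivial
  have h3 := π.sat_V (psiF.map (Empty.elim : Empty → ZFSet.{0})) ((over_map _ psiF).2
    (Fml.Over.mono (fun a _ => a.elim) (over_univ psiF))) ![A, x, f] (by
      intro i
      fin_cases i
      · exact hA
      · exact hx
      · exact hf')
  rw [sat_map, sat_map] at h3
  have e1 : (π.hat ∘ (Empty.elim : Empty → ZFSet.{0})) = Empty.elim := by
    funext a
    exact a.elim
  have e2 : (id ∘ (Empty.elim : Empty → ZFSet.{0})) = Empty.elim := by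
    funext a
    exact a.elim
  have e3 : π.hat ∘ ![A, x, f] = ![π.hat A, π.hat x, π.hat f] := by
    funext i
    fin_cases i <;> rfl
  rw [e1, e2, e3, h1, h2] at h3
  exact h3

theorem ap_empty (t : ZFSet.{0}) : ap ∅ t = ∅ := by
  rw [ZFSet.eq_empty]
  intro y hy
  rw [ap, ZFSet.mem_sUnion] at hy
  obtain ⟨z, hz, -⟩ := hy
  obtain ⟨q, hq, -⟩ := mem_im.1 hz
  exact ZFSet.notMem_empty _ (ZFSet.mem_sep.1 hq).1

/-- Elementary submodels of transitive sets are extensional. -/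
theorem xt_of_elm {X Y : ZFSet.{0}} (hYX : Y ⊆ X) (hX : ∀ x ∈ X, ∀ y ∈ x, y ∈ X)
    (hel : ∀ {n : ℕ} (φ : Fml Empty n) (v : Fin n → ZFSet.{0}), (∀ i, v i ∈ Y) →
      (Sat {x | x ∈ Y} Empty.elim φ v ↔ Sat {x | x ∈ X} Empty.elim φ v)) : Xt Y := by
  intro x hx y hy h
  have hr : Rel {x | x ∈ X} {x | x ∈ Y} (n := 2) _ _ := Rel.all (Rel.iff (Rel.mem (0 : Fin 3) 1)
    (Rel.mem (0 : Fin 3) 2))
  obtain ⟨φ, h1, h2⟩ := hr
  have hv : ∀ i, (![x, y] : Fin 2 → ZFSet.{0}) i ∈ Y := by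
    intro i
    fin_cases i
    · exact hx
    · exact hy
  have h3 := (h1 ![x, y] fun i => hYX (hv i)).1 ((hel φ ![x, y] hv).1 ((h2 ![x, y] hv).2 (by
    intro z hz
    exact h z hz)))
  ext z
  constructor
  · intro hz
    exact (h3 z (hX _ (hYX hx) _ hz)).1 hz
  · intro hz
    exact (h3 z (hX _ (hYX hy) _ hz)).2 hz

/-- In a model of `V = L[A]`, a transitive set model of ZF has a countable transitive model with
the same theory. -/
theorem exists_small {V : Set ZFSet.{0}} (hL : IsLA dA V) {X : ZFSet.{0}} (hXV : X ∈ V)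
    (hX : IsZF {x | x ∈ X}) (hAX : dA ∈ X) {F : ZFSet.{0}} (hFV : F ∈ V) (hFX : F ∈ X)
    (hF : ∀ z ∈ F, IsHF z) :
    ∃ N ∈ V, (∀ x ∈ N, ∀ y ∈ x, y ∈ N) ∧ IsZF {x | x ∈ N} ∧ dA ∈ N ∧ F ∈ N ∧
      Inj V N ZFSet.omega := by
  classical
  have hZ := hL.zf
  have hB := hZ.base
  have hω := hZ.infinity
  have h0 := hZ.empty_mem
  have hA := hL.mem
  have hBk := bk_of hZ hA
  have hBX := bk_of hX hAX
  have hH := HFs_mem hZ hBk.eg
  set a : ZFSet.{0} := insert F (insert dA (insert ZFSet.omega HFs)) with ha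
  have haV : a ∈ V := hZ.insert_mem hFV (hZ.insert_mem hA (hZ.insert_mem hω hH))
  have hai : Inj V a ZFSet.omega :=
    Inj.insert hZ hL.gc hω isOrdinal_omega (fun _ h => h) hFV
      (hZ.insert_mem hA (hZ.insert_mem hω hH))
      (Inj.insert hZ hL.gc hω isOrdinal_omega (fun _ h => h) hA (hZ.insert_mem hω hH)
        (Inj.insert hZ hL.gc hω isOrdinal_omega (fun _ h => h) hω hH (HFs_inj hZ hBk.eg)))
  have hma : ∀ z, z ∈ a ↔ z = F ∨ z = dA ∨ z = ZFSet.omega ∨ IsHF z := by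
    intro z
    rw [ha, ZFSet.mem_insert_iff, ZFSet.mem_insert_iff, ZFSet.mem_insert_iff, mem_HFs]
  have haX : ∀ z ∈ a, z ∈ X := by
    intro z hz
    rcases (hma z).1 hz with rfl | rfl | rfl | hz
    · exact hFX
    · exact hAX
    · exact hX.infinity
    · exact hf_memK hX hz
  have hat : ∀ x ∈ a, ∀ y ∈ x, y ∈ a := by
    intro x hx y hy
    refine (hma y).2 (Or.inr (Or.inr (Or.inr ?_)))
    rcases (hma x).1 hx with rfl | rfl | rfl | hx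
    · exact hF y hy
    · exact isHF_dA hy
    · obtain ⟨n, rfl⟩ := mem_omega_iff.1 hy
      exact isHF_nat n
    · exact hx.mem hy
  obtain ⟨d, hd, hd'⟩ := exists_enum_inf hZ haV hai
  have hed : DfnF V V fun w : Fin 1 → ZFSet.{0} =>
      (if ap d (w 0) ∈ X then ap d (w 0) else ∅ : ZFSet.{0}) := by
    refine DfnF.ite ?_ (hZ.ap' (DfnF.const hd) (DfnF.proj 0)) (DfnF.const h0)
    exact Dfn.mem (hZ.ap' (DfnF.const hd) (DfnF.proj 0)) (DfnF.const hXV)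
  have h0X : (∅ : ZFSet.{0}) ∈ X := hX.empty_mem
  set e : ZFSet.{0} := im (fun z => pair z (if ap d z ∈ X then ap d z else ∅ : ZFSet.{0}))
    ZFSet.omega with he
  have heV : e ∈ V := hZ.im_mem hω (hB.pair' (DfnF.proj 0) hed)
  have hee : ∀ k : ℕ, ap e (nat k) = if ap d (nat k) ∈ X then ap d (nat k) else ∅ := by
    intro k
    refine ap_unique (mem_im.2 ⟨nat k, nat_mem_om k, rfl⟩) fun q hq h1 => ?_
    obtain ⟨z, -, rfl⟩ := mem_im.1 hq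
    rw [fs_pair] at h1
    rw [sn_pair, h1]
  obtain ⟨Y, hYV, hYX, hYi, hYe, -, hel⟩ := exists_csub (isZFC_of_gc hZ hL.gc) hXV heV h0
    (fun k => by
      rw [hee]
      split_ifs with h
      · exact h
      · exact h0X) (fun t _ => by rw [ap_empty]; exact h0X)
  have haY : a ⊆ Y := by
    intro z hz
    obtain ⟨n, -, hn⟩ := hd' z hz 0
    have h1 := hYe n
    rw [hee, hn, if_pos (haX z hz)] at h1
    exact h1
  have hXt := xt_of_elm hYX hX.trans hel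
  have hfix := col_fix hat haY
  have hmem : ∀ z ∈ a, z ∈ im (col Y) Y := fun z hz => mem_im.2 ⟨z, haY hz, (hfix z hz).symm⟩
  refine ⟨im (col Y) Y, col_im_mem hZ hYV, col_trans, ?_, hmem _ ((hma _).2 (Or.inr (Or.inl rfl))),
    hmem _ ((hma _).2 (Or.inl rfl)), Inj.image hZ hYV hω isOrdinal_omega hYi (dfn_col hZ hYV)⟩
  refine isZF_elm (X := {x | x ∈ X}) (N := {x | x ∈ im (col Y) Y}) (Y := {x | x ∈ Y})
    (c := col Y) hX hYX ?_ ?_ col_trans (hmem _ ((hma _).2 (Or.inr (Or.inr (Or.inl rfl))))) ?_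
  · intro x hx
    obtain ⟨y, hy, rfl⟩ := mem_im.1 hx
    exact ⟨y, hy, rfl⟩
  · exact fun y hy => mem_im.2 ⟨y, hy, rfl⟩
  · intro n φ v hv
    rw [sat_col hXt φ v hv, hel φ v hv]

/-- The ground model. -/
theorem exists_ground : ∃ V : Set ZFSet.{0}, V.Countable ∧ IsLA dA V ∧
    ∀ F ∈ V, (∀ z ∈ F, IsHF z) → ∃ N ∈ V, (∀ x ∈ N, ∀ y ∈ x, y ∈ N) ∧ IsZF {x | x ∈ N} ∧
      dA ∈ N ∧ F ∈ N ∧ Inj V N ZFSet.omega := by
  obtain ⟨W, hW⟩ := exists_refl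
  have hHW := HFs_mem_W hW
  have hdW : dA ∈ W := hW.sub _ hHW _ fun z hz => mem_HFs.2 (isHF_dA hz)
  obtain ⟨π, h1, -⟩ := exists_pkg' (P := Unit) {check W, check dA}
    ((Set.countable_singleton _).insert _) ()
  have hWZ : W ∈ π.Z := h1 (Set.mem_insert _ _)
  have hdZ : dA ∈ π.Z := h1 (Set.mem_insert_of_mem _ rfl)
  have hN := π.isZF_V
  have hB := hN.base
  have hM₀ := isZF_hatW hW π hWZ
  have hM₀V : π.hat W ∈ π.V := π.of_hat_mem_V hWZ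
  have hdh : π.hat dA = dA := hat_HF π fun z hz => isHF_dA hz
  have hdV : dA ∈ π.V := hdh ▸ π.of_hat_mem_V hdZ
  have hdM₀ : dA ∈ π.hat W := by
    have := (π.hat_mem_hat hdZ hWZ).2 hdW
    rwa [hdh] at this
  have hL := isLA_of_HF hN hdV fun z hz => isHF_dA hz
  -- the ordinals of `π.hat W`
  set κ : ZFSet.{0} := ZFSet.sep (fun x => x.IsOrdinal) (π.hat W) with hκ
  have hκV : κ ∈ π.V := hN.sep_mem (hB.isOrdinal' (DfnF.proj 0)) hM₀V
  have hκo : κ.IsOrdinal := by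
    rw [ZFSet.isOrdinal_iff_forall_mem_isOrdinal]
    constructor
    · intro y hy z hz
      obtain ⟨h2, h3⟩ := ZFSet.mem_sep.1 hy
      exact ZFSet.mem_sep.2 ⟨hM₀.trans _ h2 _ hz, h3.mem hz⟩
    · exact fun y hy => (ZFSet.mem_sep.1 hy).2
  have hX : {x | x ∈ Lv dA κ} = LC {x | x ∈ π.hat W} dA := by
    ext x
    constructor
    · intro hx
      obtain ⟨ξ, hξ, h2⟩ := mem_Lv.1 hx
      obtain ⟨h3, h4⟩ := ZFSet.mem_sep.1 hξ
      exact ⟨sc ξ, hM₀.sc_mem h3, isOrdinal_sc h4, by rwa [Lv_sc]⟩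
    · rintro ⟨ξ, h2, h3, h4⟩
      exact Lv_subset (ZFSet.mem_sep.2 ⟨h2, h3⟩) h4
  have hXZF : IsZF {x | x ∈ Lv dA κ} := by
    rw [hX]
    exact isZF_LC hM₀ hdM₀
  have hLX : ∀ x, x ∈ Lv dA κ ↔ x ∈ LC {x | x ∈ π.hat W} dA := fun x =>
    iff_of_eq (congrArg (fun S : Set ZFSet.{0} => x ∈ S) hX)
  refine ⟨LC π.V dA, (π.countable_W.mono π.V_subset_W).mono (LC_subset hN hdV), hL,
    fun F hF hFH => ?_⟩
  have hFV : F ∈ π.V := LC_subset hN hdV hF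
  refine exists_small hL (Lv_mem_LC hN hκV hκo) hXZF ?_ hF ?_ hFH
  · rw [hLX]
    exact (isLA_of_HF hM₀ hdM₀ fun z hz => isHF_dA hz).mem
  · rw [hLX]
    have hBM₀ := bk_of hM₀ hdM₀
    have hHM₀ : HFs ∈ π.hat W := HFs_mem hM₀ hBM₀.eg
    have hFM₀ : F ∈ π.hat W :=
      hatW_super hW π hWZ hHM₀ hFV fun z hz => mem_HFs.2 (hFH z hz)
    obtain ⟨F₀, hF₀W, hF₀Z, rfl⟩ := π.mem_hat.1 hFM₀
    obtain ⟨f, hfV, hpsi⟩ := exists_Psi hL hF
    obtain ⟨f₀, hf₀Z, rfl⟩ := LC_subset hN hdV hfV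
    rw [← hdh, psi_hat π hdZ hF₀Z hf₀Z] at hpsi
    have hdfn : ∀ S : Set ZFSet.{0}, dA ∈ S → F₀ ∈ S →
        Dfn S Set.univ fun w : Fin 1 → ZFSet.{0} => Psi dA F₀ (w 0) := by
      intro S h2 h3
      exact Dfn.comp3 (Q := Psi) (d0_Psi.dfn fun _ _ _ _ => trivial)
        (DfnF.const' (Set.mem_univ _) h2) (DfnF.const' (Set.mem_univ _) h3) (DfnF.proj 0)
    have h4 : ∃ f ∈ W, Psi dA F₀ f := hW.exists_W (Q := fun f => Psi dA F₀ f)
      (hdfn _ hdW hF₀W) ⟨f₀, hpsi⟩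
    obtain ⟨f₁, hf₁Z, hf₁W, hpsi₁⟩ := π.exists_Z (Q := fun f => f ∈ W ∧ Psi dA F₀ f)
      ((Dfn.mem (DfnF.proj 0) (DfnF.const' (Set.mem_univ _) hWZ)).and (hdfn _ hdZ hF₀Z)) h4
    rw [← psi_hat π hdZ hF₀Z hf₁Z, hdh] at hpsi₁
    obtain ⟨ξ, X', h5, h6, h7⟩ := hpsi₁.spec
    have h8 : π.hat f₁ ∈ π.hat W := (π.hat_mem_hat hf₁Z hWZ).2 hf₁W
    exact ⟨ξ, (hM₀.of_pair_mem (hM₀.trans _ h8 _ h5)).1, h6, h7⟩

end Pool.Agent.H158_PC
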