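import Pool.Agent.W868.Small
import Pool.Agent.W868.LZF

/-!
# The cumulative hierarchy of a transitive model, collection and choice functions
-/

set_option autoImplicit false
set_option linter.unreachableTactic false
set_option linter.unusedTactic false
set_option linter.unusedSectionVars false

namespace Pool.Agent.W868

open ZFSet (pair)

/-- The power set in the sense of `M`. -/
noncomputable def pwW (M : Set ZFSet.{0}) (y : ZFSet.{0}) : ZFSet.{0} :=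
  ZFSet.sep (fun z => z ∈ M) (ZFSet.powerset y)

theorem mem_pwW {M : Set ZFSet.{0}} {y z : ZFSet.{0}} : z ∈ pwW M y ↔ z ∈ M ∧ z ⊆ y := by
  rw [pwW, ZFSet.mem_sep, ZFSet.mem_powerset, and_comm]

/-- The cumulative hierarchy of `M`. -/
noncomputable def VlK (M : Set ZFSet.{0}) : ZFSet.{0} → ZFSet.{0} :=
  wfF (fun z => z) ZFSet.mem_wf fun _ g => ZFSet.sUnion (im (fun p => pwW M (sn p)) g)

theorem VlK_eq (M : Set ZFSet.{0}) (z : ZFSet.{0}) :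
    VlK M z = ZFSet.sUnion (im (fun p => pwW M (sn p)) (gr (VlK M) z)) := by
  rw [VlK, wfF_eq]

theorem mem_VlK {M : Set ZFSet.{0}} {z y : ZFSet.{0}} :
    y ∈ VlK M z ↔ ∃ u ∈ z, y ∈ M ∧ y ⊆ VlK M u := by
  rw [VlK_eq, ZFSet.mem_sUnion]
  constructor
  · rintro ⟨w, hw, hy⟩
    obtain ⟨p, hp, rfl⟩ := mem_im.1 hw
    obtain ⟨u, hu, rfl⟩ := mem_gr.1 hp
    rw [sn_pair] at hy
    exact ⟨u, hu, mem_pwW.1 hy⟩
  · rintro ⟨u, hu, h⟩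
    refine ⟨_, mem_im.2 ⟨pair u (VlK M u), mem_gr.2 ⟨u, hu, rfl⟩, rfl⟩, ?_⟩
    rw [sn_pair]
    exact mem_pwW.2 h

theorem VlK_mono {M : Set ZFSet.{0}} {z z' : ZFSet.{0}} (h : z ⊆ z') : VlK M z ⊆ VlK M z' :=
  fun _ hy => by
    obtain ⟨u, hu, h1⟩ := mem_VlK.1 hy
    exact mem_VlK.2 ⟨u, h hu, h1⟩

namespace IsZF

variable {M : Set ZFSet.{0}} (hM : IsZF M)

include hM

theorem pwW_mem {y : ZFSet.{0}} (hy : y ∈ M) : pwW M y ∈ M := by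
  obtain ⟨z, hz, h⟩ := hM.exists_pow hy
  have h1 : z = pwW M y := by
    ext w
    rw [h, mem_pwW]
  exact h1 ▸ hz

theorem pwW' {n : ℕ} {F : (Fin n → ZFSet.{0}) → ZFSet.{0}} (hF : DfnF M M F) :
    DfnF M M fun v => pwW M (F v) := by
  have hB := hM.base
  refine DfnF.of_unique (R := fun z v => ∀ w ∈ M, w ∈ z ↔ w ⊆ F v) ?_ ?_
  · apply Dfn.all
    apply Dfn.iff
    · exact Dfn.mem (DfnF.proj 0) (DfnF.proj 1)
    · exact hB.subset' (DfnF.proj 0) (hF.tail.tail)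
  · intro v hv
    refine ⟨hM.pwW_mem (hF.1 v hv), fun z hz => ?_⟩
    constructor
    · intro h
      ext w
      rw [mem_pwW]
      constructor
      · exact fun hw => ⟨hM.trans _ hz _ hw, (h w (hM.trans _ hz _ hw)).1 hw⟩
      · exact fun ⟨h1, h2⟩ => (h w h1).2 h2
    · rintro rfl w hw
      rw [mem_pwW]
      exact ⟨fun h => h.2, fun h => ⟨hw, h⟩⟩

theorem dfn_VlK : DfnF M M fun w : Fin 1 → ZFSet.{0} => VlK M (w 0) := by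
  have hB := hM.base
  refine hM.memrec (G := fun _ g => ZFSet.sUnion (im (fun p => pwW M (sn p)) g)) ?_ fun z => ?_
  · refine hB.sUnion' (hM.im' (h := fun p _ => pwW M (sn p)) (DfnF.proj 1) ?_)
    exact hM.pwW' (hM.sn' (DfnF.proj 0))
  · exact VlK_eq M z

theorem VlK_mem {z : ZFSet.{0}} (hz : z ∈ M) : VlK M z ∈ M :=
  (DfnF.comp1 (f := VlK M) hM.dfn_VlK (DfnF.const hz)).1 Fin.elim0 fun i => i.elim0

theorem exists_VlK_aux {x : ZFSet.{0}} (hx : x ∈ M) {Q : ZFSet.{0} → ZFSet.{0} → Prop}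
    (hQ : Dfn M M fun w : Fin 2 → ZFSet.{0} => Q (w 0) (w 1)) :
    ∃ δ ∈ M, δ.IsOrdinal ∧ ∀ z ∈ x, (∃ ξ ∈ M, ξ.IsOrdinal ∧ ∃ w ∈ VlK M ξ, Q w z) →
      ∃ w ∈ VlK M δ, Q w z := by
  have hB := hM.base
  have h1 : Dfn M M fun w : Fin 2 → ZFSet.{0} => ∃ y ∈ VlK M (w 0), Q y (w 1) := by
    apply hB.bex (DfnF.comp1 (f := VlK M) hM.dfn_VlK (DfnF.proj 0))
    exact Dfn.comp2 (Q := Q) hQ (DfnF.proj 0) (DfnF.proj 2)
  have h2 : DfnF M M fun w : Fin 1 → ZFSet.{0} => lo M fun η => ∃ y ∈ VlK M η, Q y (w 0) :=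
    hM.lo' (Q := fun η w => ∃ y ∈ VlK M η, Q y (w 0)) h1
  refine ⟨_, hM.union _ (hM.im_mem (h := fun z => lo M fun η => ∃ y ∈ VlK M η, Q y z) hx h2),
    isOrdinal_sUnion fun y hy => ?_, ?_⟩
  · obtain ⟨z, -, rfl⟩ := mem_im.1 hy
    exact lo_isOrdinal
  · rintro z hz ⟨ξ, h3, h4, w, h5, h6⟩
    obtain ⟨-, -, w', h7, h8⟩ := lo_spec (M := M) (P := fun η => ∃ y ∈ VlK M η, Q y z)
      ⟨ξ, h3, h4, w, h5, h6⟩
    exact ⟨w', VlK_mono (fun u hu => ZFSet.mem_sUnion.2 ⟨_, mem_im.2 ⟨z, hz, rfl⟩, hu⟩) h7, h8⟩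

theorem exists_VlK {y : ZFSet.{0}} (hy : y ∈ M) : ∃ ξ ∈ M, ξ.IsOrdinal ∧ y ∈ VlK M ξ := by
  induction y using ZFSet.inductionOn with
  | _ y ih =>
  obtain ⟨δ, hδ, hδo, h1⟩ := hM.exists_VlK_aux hy (Q := fun w z => w = z)
    (Dfn.eq (DfnF.proj 0) (DfnF.proj 1))
  refine ⟨sc δ, hM.sc_mem hδ, isOrdinal_sc hδo, mem_VlK.2 ⟨δ, ZFSet.mem_insert _ _, hy, ?_⟩⟩
  intro z hz
  obtain ⟨ξ, h2, h3, h4⟩ := ih z hz (hM.trans _ hy _ hz)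
  obtain ⟨w, hw, rfl⟩ := h1 z hz ⟨ξ, h2, h3, z, h4, rfl⟩
  exact hw

/-- Collection. -/
theorem collect {x : ZFSet.{0}} (hx : x ∈ M) {Q : ZFSet.{0} → ZFSet.{0} → Prop}
    (hQ : Dfn M M fun w : Fin 2 → ZFSet.{0} => Q (w 0) (w 1))
    (h : ∀ z ∈ x, ∃ w ∈ M, Q w z) : ∃ Y ∈ M, ∀ z ∈ x, ∃ w ∈ Y, Q w z := by
  obtain ⟨δ, hδ, -, h1⟩ := hM.exists_VlK_aux hx hQ
  refine ⟨_, hM.VlK_mem hδ, fun z hz => h1 z hz ?_⟩
  obtain ⟨w, hw, h2⟩ := h z hz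
  obtain ⟨ξ, h3, h4, h5⟩ := hM.exists_VlK hw
  exact ⟨ξ, h3, h4, w, h5, h2⟩

end IsZF

/-- Choice functions for definable relations. -/
theorem IsZFC.choose {M : Set ZFSet.{0}} (hM : IsZFC M) {x : ZFSet.{0}} (hx : x ∈ M)
    {Q : ZFSet.{0} → ZFSet.{0} → Prop}
    (hQ : Dfn M M fun w : Fin 2 → ZFSet.{0} => Q (w 0) (w 1))
    (h : ∀ z ∈ x, ∃ w ∈ M, Q w z) : ∃ f ∈ M, (∀ p ∈ f, ∃ z ∈ x, p = pair z (ap f z)) ∧
      (∀ z ∈ x, pair z (ap f z) ∈ f) ∧ ∀ z ∈ x, Q (ap f z) z := by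
  have hZ := hM.toIsZF
  have hB := hZ.base
  obtain ⟨Y, hY, h1⟩ := hZ.collect hx hQ h
  set S : ZFSet.{0} → ZFSet.{0} := fun z => ZFSet.sep (fun p => fs p = z ∧ Q (sn p) z)
    (ZFSet.prod x Y) with hS
  have hSd : DfnF M M fun w : Fin 1 → ZFSet.{0} => S (w 0) := by
    refine hZ.sep' (Q := fun p w => fs p = w 0 ∧ Q (sn p) (w 0)) (DfnF.const
      (hZ.prod_mem hx hY)) ?_
    apply Dfn.and
    · exact Dfn.eq (hZ.fs' (DfnF.proj 0)) (DfnF.proj 1)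
    · exact Dfn.comp2 (Q := Q) hQ (hZ.sn' (DfnF.proj 0)) (DfnF.proj 1)
  have hmem : ∀ z p, p ∈ S z ↔ ∃ w ∈ Y, z ∈ x ∧ p = pair z w ∧ Q w z := by
    intro z p
    simp only [hS, ZFSet.mem_sep, ZFSet.mem_prod]
    constructor
    · rintro ⟨⟨a, ha, b, hb, rfl⟩, h2, h3⟩
      rw [fs_pair] at h2
      rw [sn_pair] at h3
      subst h2
      exact ⟨b, hb, ha, rfl, h3⟩
    · rintro ⟨w, hw, hz, rfl, h2⟩
      refine ⟨⟨z, hz, w, hw, rfl⟩, fs_pair _ _, ?_⟩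
      rwa [sn_pair]
  have hfam : im S x ∈ M := hZ.im_mem hx hSd
  obtain ⟨c, hc, hc1⟩ := hM.choice _ hfam (by
    intro y hy
    obtain ⟨z, hz, rfl⟩ := mem_im.1 hy
    obtain ⟨w, hw, h2⟩ := h1 z hz
    exact ⟨pair z w, (hmem _ _).2 ⟨w, hw, hz, rfl, h2⟩⟩) (by
    intro y hy y' hy' p hp hp'
    obtain ⟨z, hz, rfl⟩ := mem_im.1 hy
    obtain ⟨z', hz', rfl⟩ := mem_im.1 hy'
    obtain ⟨w, -, -, h2, -⟩ := (hmem _ _).1 hp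
    obtain ⟨w', -, -, h3, -⟩ := (hmem _ _).1 hp'
    rw [h2] at h3
    rw [(ZFSet.pair_inj.1 h3).1])
  set f := ZFSet.sep (fun p => p ∈ c) (ZFSet.sUnion (im S x)) with hf
  have hfM : f ∈ M := by
    refine hZ.sep_mem (Q := fun p => p ∈ c) ?_ (hZ.union _ hfam)
    exact Dfn.mem (DfnF.proj 0) (DfnF.const hc)
  have hval : ∀ z ∈ x, ∃ w, pair z w ∈ f ∧ Q w z ∧ ∀ w', pair z w' ∈ f → w' = w := by
    intro z hz
    obtain ⟨p, ⟨hp1, hp2⟩, hp3⟩ := hc1 (S z) (mem_im.2 ⟨z, hz, rfl⟩)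
    obtain ⟨w, hw, -, rfl, h2⟩ := (hmem _ _).1 hp1
    refine ⟨w, ZFSet.mem_sep.2 ⟨ZFSet.mem_sUnion.2 ⟨_, mem_im.2 ⟨z, hz, rfl⟩, hp1⟩, hp2⟩, h2,
      fun w' hw' => ?_⟩
    obtain ⟨h3, h4⟩ := ZFSet.mem_sep.1 hw'
    obtain ⟨y, hy, h5⟩ := ZFSet.mem_sUnion.1 h3
    obtain ⟨z', hz', rfl⟩ := mem_im.1 hy
    have h6 := (hmem _ _).1 h5
    obtain ⟨w'', -, -, h7, -⟩ := h6
    obtain ⟨rfl, rfl⟩ := ZFSet.pair_inj.1 h7
    exact (ZFSet.pair_inj.1 (hp3 _ ⟨h5, h4⟩)).2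
  have hfun : ZFSet.IsFunc x Y f := by
    refine ⟨fun p hp => ?_, fun z hz => ?_⟩
    · obtain ⟨h3, -⟩ := ZFSet.mem_sep.1 hp
      obtain ⟨y, hy, h5⟩ := ZFSet.mem_sUnion.1 h3
      obtain ⟨z', hz', rfl⟩ := mem_im.1 hy
      obtain ⟨w, hw, hz, rfl, -⟩ := (hmem _ _).1 h5
      exact ZFSet.mem_prod.2 ⟨_, hz, _, hw, rfl⟩
    · obtain ⟨w, h2, -, h3⟩ := hval z hz
      exact ⟨w, h2, h3⟩
  have hap : ∀ z ∈ x, pair z (ap f z) ∈ f ∧ Q (ap f z) z := by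
    intro z hz
    obtain ⟨w, h2, h3, -⟩ := hval z hz
    rw [ap_func hfun h2]
    exact ⟨h2, h3⟩
  refine ⟨f, hfM, fun p hp => ?_, fun z hz => (hap z hz).1, fun z hz => (hap z hz).2⟩
  obtain ⟨z, hz, w, -, rfl⟩ := ZFSet.mem_prod.1 (hfun.1 hp)
  exact ⟨z, hz, by rw [ap_func hfun hp]⟩

end Pool.Agent.W868
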