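import Pool.Agent.Y588.Gen
import Pool.Agent.H158_PC.KC

/-!
# Symmetric systems in a transitive model of ZF: the action on names
-/

set_option autoImplicit false
set_option linter.unreachableTactic false
set_option linter.unusedTactic false
set_option linter.unusedSectionVars false

namespace Pool.Agent.H158_PC.AM

open Pool.Agent.W868 Pool.Agent.W868.GM Pool.Agent.Y588
open ZFSet (pair)

/-- A symmetric system in `M`: a set `Gr ∈ M` of automorphisms of the notion of forcing `P`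
(`ac g p` is the image of the condition `p` under `g`) and a set `Fl ∈ M` of subsets of `Gr`, a
basis of the filter of subgroups. -/
structure SymSys (M : Set ZFSet.{0}) (P Le : ZFSet.{0}) (ac : ZFSet.{0} → ZFSet.{0} → ZFSet.{0})
    (Gr Fl : ZFSet.{0}) : Prop where
  gr : Gr ∈ M
  fl : Fl ∈ M
  dac : DfnF M M fun w : Fin 2 → ZFSet.{0} => ac (w 0) (w 1)
  maps : ∀ g ∈ Gr, ∀ p ∈ P, ac g p ∈ P
  mono : ∀ g ∈ Gr, ∀ p ∈ P, ∀ q ∈ P, pair q p ∈ Le → pair (ac g q) (ac g p) ∈ Le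
  inv : ∀ g ∈ Gr, ∃ g' ∈ Gr, ∀ p ∈ P, ac g' (ac g p) = p ∧ ac g (ac g' p) = p
  mul : ∀ g ∈ Gr, ∀ h ∈ Gr, ∃ k ∈ Gr, ∀ p ∈ P, ac g (ac h p) = ac k p
  ne : ∃ H, H ∈ Fl
  sub : ∀ H ∈ Fl, H ⊆ Gr
  hone : ∀ H ∈ Fl, ∃ e ∈ H, ∀ p ∈ P, ac e p = p
  hinv : ∀ H ∈ Fl, ∀ g ∈ H, ∃ g' ∈ H, ∀ p ∈ P, ac g' (ac g p) = p ∧ ac g (ac g' p) = p
  dir : ∀ H ∈ Fl, ∀ K ∈ Fl, ∃ L ∈ Fl, L ⊆ H ∧ L ⊆ K
  conj : ∀ H ∈ Fl, ∀ g ∈ Gr, ∃ K ∈ Fl, ∀ k ∈ K, ∃ h ∈ H, ∀ p ∈ P,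
    ac k (ac g p) = ac g (ac h p)
  top : ∃ t ∈ P, (∀ p ∈ P, pair p t ∈ Le) ∧ ∀ g ∈ Gr, ac g t = t

/-- The predecessors of a pair of an automorphism and a name. -/
noncomputable def apr (z : ZFSet.{0}) : ZFSet.{0} := ZFSet.prod {fs z} (dm (sn z))

theorem mem_apr {u z : ZFSet.{0}} : u ∈ apr z ↔ ∃ y ∈ dm (sn z), u = pair (fs z) y := by
  rw [apr, ZFSet.mem_prod]
  constructor
  · rintro ⟨a, ha, b, hb, rfl⟩
    rw [ZFSet.mem_singleton] at ha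
    subst ha
    exact ⟨b, hb, rfl⟩
  · rintro ⟨y, hy, rfl⟩
    exact ⟨fs z, by simp, y, hy, rfl⟩

theorem apr_wf : WellFounded fun u z : ZFSet.{0} => u ∈ apr z := by
  refine Subrelation.wf (r := fun u z : ZFSet.{0} => (sn u).rank < (sn z).rank) ?_
    (InvImage.wf (fun z : ZFSet.{0} => (sn z).rank) Ordinal.lt_wf)
  intro u z h
  obtain ⟨y, hy, rfl⟩ := mem_apr.1 h
  rw [sn_pair]
  exact rank_dm_lt hy

section defs

variable (P : ZFSet.{0}) (ac : ZFSet.{0} → ZFSet.{0} → ZFSet.{0})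

/-- The action on names, on pairs. -/
noncomputable def actF : ZFSet.{0} → ZFSet.{0} := wfF apr apr_wf fun z h =>
  im (fun u => pair (ap h (pair (fs z) (fs u))) (ac (fs z) (sn u)))
    (ZFSet.sep (fun u => sn u ∈ P ∧ u = pair (fs u) (sn u)) (sn z))

/-- The action on names. -/
noncomputable def act (g x : ZFSet.{0}) : ZFSet.{0} := actF P ac (pair g x)

variable {P ac}

theorem mem_act {g x u : ZFSet.{0}} : u ∈ act P ac g x ↔ ∃ y c, pair y c ∈ x ∧ c ∈ P ∧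
    u = pair (act P ac g y) (ac g c) := by
  rw [act, actF, wfF_eq, mem_im, ← actF]
  simp only [fs_pair, sn_pair, ZFSet.mem_sep]
  have key : ∀ y ∈ dm x, ap (gr (actF P ac) (apr (pair g x))) (pair g y) = act P ac g y := by
    intro y hy
    exact ap_gr (mem_apr.2 ⟨y, by rwa [sn_pair], by rw [fs_pair]⟩)
  constructor
  · rintro ⟨v, ⟨hv, hc, hv'⟩, rfl⟩
    rw [hv'] at hv
    refine ⟨fs v, sn v, hv, hc, ?_⟩
    rw [key _ (mem_dm hv)]
  · rintro ⟨y, c, h, hc, rfl⟩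
    refine ⟨pair y c, ⟨h, by rwa [sn_pair], by rw [fs_pair, sn_pair]⟩, ?_⟩
    rw [fs_pair, sn_pair, key _ (mem_dm h)]

/-- The names below a name. -/
noncomputable def tcd : ZFSet.{0} → ZFSet.{0} := wfF dm dm_wf fun z h =>
  insert z (ZFSet.sUnion (im (ap h) (dm z)))

theorem mem_tcd {x y : ZFSet.{0}} : y ∈ tcd x ↔ y = x ∨ ∃ u ∈ dm x, y ∈ tcd u := by
  rw [tcd, wfF_eq, ZFSet.mem_insert_iff, ZFSet.mem_sUnion, ← tcd]
  refine or_congr Iff.rfl ?_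
  constructor
  · rintro ⟨w, hw, hy⟩
    obtain ⟨u, hu, rfl⟩ := mem_im.1 hw
    rw [ap_gr hu] at hy
    exact ⟨u, hu, hy⟩
  · rintro ⟨u, hu, hy⟩
    exact ⟨_, mem_im.2 ⟨u, hu, rfl⟩, by rwa [ap_gr hu]⟩

theorem self_mem_tcd (x : ZFSet.{0}) : x ∈ tcd x := mem_tcd.2 (Or.inl rfl)

variable (P ac) (Fl : ZFSet.{0})

/-- Symmetric names. -/
def Sy (x : ZFSet.{0}) : Prop := ∃ H ∈ Fl, ∀ g ∈ H, act P ac g x = x

/-- Hereditarily symmetric names. -/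
def HS (x : ZFSet.{0}) : Prop := ∀ y ∈ tcd x, Sy P ac Fl y

variable {P ac Fl}

theorem hs_iff {x : ZFSet.{0}} : HS P ac Fl x ↔ Sy P ac Fl x ∧ ∀ y ∈ dm x, HS P ac Fl y := by
  constructor
  · intro h
    exact ⟨h x (self_mem_tcd x), fun y hy z hz => h z (mem_tcd.2 (Or.inr ⟨y, hy, hz⟩))⟩
  · rintro ⟨h1, h2⟩ y hy
    rcases mem_tcd.1 hy with rfl | ⟨u, hu, hy⟩
    · exact h1
    · exact h2 u hu y hy

end defs

section dfn

variable {M : Set ZFSet.{0}} (hM : IsZF M) {P Le Gr Fl : ZFSet.{0}}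
  {ac : ZFSet.{0} → ZFSet.{0} → ZFSet.{0}}

include hM

theorem apr' {n : ℕ} {F : (Fin n → ZFSet.{0}) → ZFSet.{0}} (hF : DfnF M M F) :
    DfnF M M fun v => apr (F v) :=
  hM.prod' (hM.base.single' (hM.fs' hF)) (dm' hM (hM.sn' hF))

theorem dfn_tcd : DfnF M M fun w : Fin 1 → ZFSet.{0} => tcd (w 0) := by
  have hB := hM.base
  refine hM.wfrec dm_wf (dm' hM (DfnF.proj 0)) (G := fun z h =>
    insert z (ZFSet.sUnion (im (ap h) (dm z)))) ?_ (fun z => wfF_eq _ _ _ _)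
  refine hB.insert' (DfnF.proj 0) (hB.sUnion' ?_)
  exact hM.im' (h := fun p w => ap (w 1) p) (dm' hM (DfnF.proj 0))
    (hM.ap' (DfnF.proj 2) (DfnF.proj 0))

variable (hP : P ∈ M) (hac : DfnF M M fun w : Fin 2 → ZFSet.{0} => ac (w 0) (w 1))

include hP hac

theorem dfn_actF : DfnF M M fun w : Fin 1 → ZFSet.{0} => actF P ac (w 0) := by
  have hB := hM.base
  refine hM.wfrec apr_wf (apr' hM (DfnF.proj 0)) (G := fun z h =>
    im (fun u => pair (ap h (pair (fs z) (fs u))) (ac (fs z) (sn u)))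
    (ZFSet.sep (fun u => sn u ∈ P ∧ u = pair (fs u) (sn u)) (sn z))) ?_ (fun z => wfF_eq _ _ _ _)
  refine hM.im' (h := fun u w => pair (ap (w 1) (pair (fs (w 0)) (fs u))) (ac (fs (w 0)) (sn u)))
    (hM.sep' (Q := fun u w => sn u ∈ P ∧ u = pair (fs u) (sn u)) (hM.sn' (DfnF.proj 0)) ?_) ?_
  · exact (Dfn.mem (hM.sn' (DfnF.proj 0)) (DfnF.const hP)).and
      (Dfn.eq (DfnF.proj 0) (hB.pair' (hM.fs' (DfnF.proj 0)) (hM.sn' (DfnF.proj 0))))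
  · refine hB.pair' (hM.ap' (DfnF.proj 2) (hB.pair' (hM.fs' (DfnF.proj 1))
      (hM.fs' (DfnF.proj 0)))) ?_
    exact DfnF.comp2 (f := ac) hac (hM.fs' (DfnF.proj 1)) (hM.sn' (DfnF.proj 0))

theorem act' {n : ℕ} {F G : (Fin n → ZFSet.{0}) → ZFSet.{0}} (hF : DfnF M M F)
    (hG : DfnF M M G) : DfnF M M fun v => act P ac (F v) (G v) :=
  DfnF.comp1 (f := actF P ac) (dfn_actF hM hP hac) (hM.base.pair' hF hG)

theorem act_mem {g x : ZFSet.{0}} (hg : g ∈ M) (hx : x ∈ M) : act P ac g x ∈ M :=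
  (act' hM hP hac (DfnF.const hg) (DfnF.const hx)).1 Fin.elim0 fun i => i.elim0

theorem dfn_sy (hFl : Fl ∈ M) {n : ℕ} {F : (Fin n → ZFSet.{0}) → ZFSet.{0}}
    (hF : DfnF M M F) : Dfn M M fun v => Sy P ac Fl (F v) := by
  have hB := hM.base
  refine Dfn.comp1 (Q := Sy P ac Fl) ?_ hF
  refine hB.bex (Q := fun H w => ∀ g ∈ H, act P ac g (w 0) = w 0) (DfnF.const hFl) ?_
  refine hB.ball (Q := fun g w => act P ac g (w 1) = w 1) (DfnF.proj 0) ?_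
  exact Dfn.eq (act' hM hP hac (DfnF.proj 0) (DfnF.proj 2)) (DfnF.proj 2)

theorem dfn_hs (hFl : Fl ∈ M) {n : ℕ} {F : (Fin n → ZFSet.{0}) → ZFSet.{0}}
    (hF : DfnF M M F) : Dfn M M fun v => HS P ac Fl (F v) := by
  have hB := hM.base
  refine Dfn.comp1 (Q := HS P ac Fl) ?_ hF
  refine hB.ball (Q := fun y w => Sy P ac Fl y)
    (DfnF.comp1 (f := tcd) (dfn_tcd hM) (DfnF.proj 0)) ?_
  exact dfn_sy hM hP hac hFl (DfnF.proj 0)

end dfn

/-! ### Algebra of the action -/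

section alg

variable {P : ZFSet.{0}} {ac : ZFSet.{0} → ZFSet.{0} → ZFSet.{0}}

theorem mem_dm' {x y : ZFSet.{0}} : y ∈ dm x ↔ ∃ u ∈ x, y = fs u := mem_im

/-- Two products of automorphisms that agree on conditions agree on names. -/
theorem act_act_congr {a b c d : ZFSet.{0}} (hb : ∀ p ∈ P, ac b p ∈ P) (hd : ∀ p ∈ P, ac d p ∈ P)
    (h : ∀ p ∈ P, ac a (ac b p) = ac c (ac d p)) (x : ZFSet.{0}) :
    act P ac a (act P ac b x) = act P ac c (act P ac d x) := by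
  induction x using dm_ind with
  | _ x ih =>
  ext u
  rw [mem_act, mem_act]
  constructor
  · rintro ⟨y, p, h1, h2, rfl⟩
    obtain ⟨y', p', h3, h4, h5⟩ := mem_act.1 h1
    obtain ⟨rfl, rfl⟩ := ZFSet.pair_inj.1 h5
    refine ⟨_, _, mem_act.2 ⟨y', p', h3, h4, rfl⟩, hd _ h4, ?_⟩
    rw [ih y' (mem_dm h3), h p' h4]
  · rintro ⟨y, p, h1, h2, rfl⟩
    obtain ⟨y', p', h3, h4, h5⟩ := mem_act.1 h1
    obtain ⟨rfl, rfl⟩ := ZFSet.pair_inj.1 h5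
    refine ⟨_, _, mem_act.2 ⟨y', p', h3, h4, rfl⟩, hb _ h4, ?_⟩
    rw [ih y' (mem_dm h3), h p' h4]

theorem act_congr {a b : ZFSet.{0}} (h : ∀ p ∈ P, ac a p = ac b p) (x : ZFSet.{0}) :
    act P ac a x = act P ac b x := by
  induction x using dm_ind with
  | _ x ih =>
  ext u
  rw [mem_act, mem_act]
  constructor
  · rintro ⟨y, p, h1, h2, rfl⟩
    exact ⟨y, p, h1, h2, by rw [ih y (mem_dm h1), h p h2]⟩
  · rintro ⟨y, p, h1, h2, rfl⟩
    exact ⟨y, p, h1, h2, by rw [ih y (mem_dm h1), h p h2]⟩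

/-- The product of two automorphisms. -/
theorem act_mul {a b c : ZFSet.{0}} (hb : ∀ p ∈ P, ac b p ∈ P)
    (h : ∀ p ∈ P, ac a (ac b p) = ac c p) (x : ZFSet.{0}) :
    act P ac a (act P ac b x) = act P ac c x := by
  induction x using dm_ind with
  | _ x ih =>
  ext u
  rw [mem_act, mem_act]
  constructor
  · rintro ⟨y, p, h1, h2, rfl⟩
    obtain ⟨y', p', h3, h4, h5⟩ := mem_act.1 h1
    obtain ⟨rfl, rfl⟩ := ZFSet.pair_inj.1 h5
    exact ⟨_, _, h3, h4, by rw [ih y' (mem_dm h3), h p' h4]⟩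
  · rintro ⟨y, p, h1, h2, rfl⟩
    refine ⟨_, _, mem_act.2 ⟨y, p, h1, h2, rfl⟩, hb _ h2, ?_⟩
    rw [ih y (mem_dm h1), h p h2]

variable {M : Set ZFSet.{0}} {Le Gr Fl : ZFSet.{0}} (hS : SymSys M P Le ac Gr Fl)

include hS

theorem act_id {x : ZFSet.{0}} (hx : Sy P ac Fl x) {e : ZFSet.{0}}
    (he : ∀ p ∈ P, ac e p = p) : act P ac e x = x := by
  obtain ⟨H, hH, h⟩ := hx
  obtain ⟨e', he', h'⟩ := hS.hone H hH
  rw [← h e' he']
  exact act_mul (fun p hp => by rw [h' p hp]; exact hp) (fun p hp => by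
    rw [h' p hp, he p hp]) x

theorem act_inv {x : ZFSet.{0}} (hx : Sy P ac Fl x) {g g' : ZFSet.{0}} (hg : g ∈ Gr)
    (h : ∀ p ∈ P, ac g' (ac g p) = p) : act P ac g' (act P ac g x) = x := by
  obtain ⟨H, hH⟩ := hS.ne
  obtain ⟨e, he, h'⟩ := hS.hone H hH
  rw [act_mul (c := e) (hS.maps g hg) (fun p hp => by rw [h p hp, h' p hp]) x]
  exact act_id hS hx h'

theorem sy_act {x : ZFSet.{0}} (hx : Sy P ac Fl x) {g : ZFSet.{0}} (hg : g ∈ Gr) :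
    Sy P ac Fl (act P ac g x) := by
  obtain ⟨H, hH, h⟩ := hx
  obtain ⟨K, hK, hK'⟩ := hS.conj H hH g hg
  refine ⟨K, hK, fun k hk => ?_⟩
  obtain ⟨h0, hh0, h1⟩ := hK' k hk
  rw [act_act_congr (c := g) (d := h0) (hS.maps g hg) (hS.maps h0 (hS.sub H hH hh0)) h1,
    h h0 hh0]

theorem hs_act {x : ZFSet.{0}} (hx : HS P ac Fl x) {g : ZFSet.{0}} (hg : g ∈ Gr) :
    HS P ac Fl (act P ac g x) := by
  induction x using dm_ind with
  | _ x ih =>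
  obtain ⟨h1, h2⟩ := hs_iff.1 hx
  refine hs_iff.2 ⟨sy_act hS h1 hg, fun y hy => ?_⟩
  obtain ⟨u, hu, rfl⟩ := mem_dm'.1 hy
  obtain ⟨z, c, hz, hc, rfl⟩ := mem_act.1 hu
  rw [fs_pair]
  exact ih z (mem_dm hz) (h2 z (mem_dm hz))

/-- The elements of a symmetric name are pairs of a name and a condition. -/
theorem sy_pair {x u : ZFSet.{0}} (hx : Sy P ac Fl x) (hu : u ∈ x) :
    ∃ y c, u = pair y c ∧ pair y c ∈ x ∧ c ∈ P := by
  obtain ⟨H, hH, h⟩ := hx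
  obtain ⟨e, he, h'⟩ := hS.hone H hH
  have hu' := hu
  rw [← h e he] at hu'
  obtain ⟨y, c, hy, hc, rfl⟩ := mem_act.1 hu'
  refine ⟨_, _, rfl, hu, ?_⟩
  rw [h' c hc]
  exact hc

end alg

end Pool.Agent.H158_PC.AM
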