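import Pool.Agent.H158_PC.Sig2
import Pool.Agent.H158_IT.Gx
import Pool.Agent.R597.Fold

/-!
# Absoluteness of branches, for coded trees, and the relation to be forced
-/

set_option autoImplicit false
set_option linter.unusedSectionVars false
set_option linter.unreachableTactic false
set_option linter.unusedTactic false

namespace Pool.Agent.H158_PC

open Pool.Agent.W868 Pool.Agent.W868.GM Pool.Agent.R597 Pool.Agent.Y588
open ZFSet (pair)

/-- The conversion of finite sequences. -/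
noncomputable def Lq : ZFSet.{0} → ZFSet.{0} :=
  fold (fun r a => pair (insert (fs r) (fs r)) (insert (pair (fs r) a) (sn r))) (pair ∅ ∅)

theorem rs_zero (f : ℕ → ℕ) : rs f 0 = ∅ := by
  rw [ZFSet.eq_empty]
  intro y hy
  obtain ⟨i, hi, -⟩ := mem_rs.1 hy
  omega

theorem rs_succ (f : ℕ → ℕ) (n : ℕ) :
    rs f (n + 1) = insert (pair (nat n) (nat (f n))) (rs f n) := by
  ext z
  rw [mem_rs, ZFSet.mem_insert_iff, mem_rs]
  constructor
  · rintro ⟨i, hi, rfl⟩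
    rcases Nat.lt_succ_iff_lt_or_eq.1 hi with h | rfl
    · exact Or.inr ⟨i, h, rfl⟩
    · exact Or.inl rfl
  · rintro (rfl | ⟨i, hi, rfl⟩)
    · exact ⟨n, Nat.lt_succ_self n, rfl⟩
    · exact ⟨i, by omega, rfl⟩

theorem Lq_seq (f : ℕ → ℕ) (n : ℕ) : Lq (seq (fun k => nat (f k)) n) = pair (nat n) (rs f n) := by
  induction n with
  | zero =>
    rw [rs_zero]
    exact fold_empty _ _
  | succ n ih =>
    rw [seq, Lq, fold_pair, ← Lq, ih, fs_pair, sn_pair, rs_succ]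
    rfl

theorem dfn_Lq {M : Set ZFSet.{0}} (hM : IsZF M) :
    DfnF M M fun w : Fin 1 → ZFSet.{0} => Lq (w 0) := by
  have hB := hM.base
  have h0 := hM.empty_mem
  refine dfn_fold hM (hM.pair_mem h0 h0) ?_
  exact hB.pair' (hB.insert' (hM.fs' (DfnF.proj 0)) (hM.fs' (DfnF.proj 0)))
    (hB.insert' (hB.pair' (hM.fs' (DfnF.proj 0)) (DfnF.proj 1)) (hM.sn' (DfnF.proj 0)))

theorem isHF_seq (f : ℕ → ℕ) (n : ℕ) : IsHF (seq (fun k => nat (f k)) n) := by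
  induction n with
  | zero => exact isHF_empty
  | succ n ih => exact ih.pair (isHF_nat _)

/-- Absoluteness of branches. -/
theorem bra {M : Set ZFSet.{0}} (hM : IsZF M) (he : eg ∈ M) {x : ℕ → ℕ} (hx : x ∈ Rls M)
    {T : ZFSet.{0}} (hT : T ∈ M) {y : ℕ → ℕ} (hy : ∀ n, pair (rs x n) (rs y n) ∈ T) :
    ∃ y' ∈ Rls M, ∀ n, pair (rs x n) (rs y' n) ∈ T := by
  have hB := hM.base
  have hH := HFs_mem hM he
  have hω := hM.infinity
  have hx' : code x ∈ M := hx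
  have hLq := dfn_Lq hM
  have hd : DfnF M M fun w : Fin 1 → ZFSet.{0} => sn (Lq (w 0)) := hM.sn' hLq
  set T' : ZFSet.{0} := ZFSet.sep (fun t => pair (rst (code x) (sn (Lq t))) (sn (Lq t)) ∈ T) HFs
    with hT'
  have hT'M : T' ∈ M := by
    refine hM.sep_mem (Q := fun t => pair (rst (code x) (sn (Lq t))) (sn (Lq t)) ∈ T) ?_ hH
    exact Dfn.mem (hB.pair' (dfn_rst hM hx' hd) hd) (DfnF.const hT)
  have hmem : ∀ (f : ℕ → ℕ) (n : ℕ), seq (fun k => nat (f k)) n ∈ T' ↔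
      pair (rs x n) (rs f n) ∈ T := by
    intro f n
    rw [hT', ZFSet.mem_sep, Lq_seq, sn_pair, rst_code]
    exact ⟨fun h => h.2, fun h => ⟨mem_HFs.2 (isHF_seq f n), h⟩⟩
  obtain ⟨S, hS, hST, hS0, hSn⟩ := exists_pruned hM hT'M hω (f := fun k => nat (y k))
    (fun n => nat_mem_om _) fun n => (hmem y n).2 (hy n)
  obtain ⟨g, hg, hg'⟩ := exists_branch' hM hS hS0 hSn
  exact ⟨g, hg, fun n => (hmem g n).1 (hST (hg' n))⟩

/-! ### The relation -/

/-- `a` is the restriction of `Y` to `n`. -/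
def IsRs (a Y n : ZFSet.{0}) : Prop :=
  (∀ p ∈ a, p ∈ Y ∧ ∃ c d, p = pair c d ∧ c ∈ n) ∧ ∀ p ∈ Y, ∃ c d, p = pair c d ∧ (c ∈ n → p ∈ a)

theorem isRs_code {a : ZFSet.{0}} {x : ℕ → ℕ} {n : ℕ} : IsRs a (code x) (nat n) ↔ a = rs x n := by
  constructor
  · rintro ⟨h1, h2⟩
    ext p
    rw [mem_rs]
    constructor
    · intro hp
      obtain ⟨h3, c, d, rfl, h4⟩ := h1 p hp
      obtain ⟨i, h5⟩ := mem_code.1 h3
      obtain ⟨rfl, rfl⟩ := ZFSet.pair_inj.1 h5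
      obtain ⟨j, hj, h6⟩ := mem_natK.1 h4
      rw [nat_injective h6]
      exact ⟨j, hj, rfl⟩
    · rintro ⟨i, hi, rfl⟩
      obtain ⟨c, d, h3, h4⟩ := h2 _ (pair_mem_code.2 rfl : pair (nat i) (nat (x i)) ∈ code x)
      obtain ⟨rfl, rfl⟩ := ZFSet.pair_inj.1 h3
      exact h4 (mem_natK.2 ⟨i, hi, rfl⟩)
  · rintro rfl
    constructor
    · intro p hp
      obtain ⟨i, hi, rfl⟩ := mem_rs.1 hp
      exact ⟨pair_mem_code.2 rfl, _, _, rfl, mem_natK.2 ⟨i, hi, rfl⟩⟩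
    · intro p hp
      obtain ⟨i, rfl⟩ := mem_code.1 hp
      refine ⟨_, _, rfl, fun h => ?_⟩
      obtain ⟨j, hj, h1⟩ := mem_natK.1 h
      rw [nat_injective h1]
      exact mem_rs.2 ⟨j, hj, rfl⟩

/-- `f` is a function from `x` to `y`. -/
def FN (x y f : ZFSet.{0}) : Prop :=
  (∀ p ∈ f, ∃ a b, p = pair a b ∧ a ∈ x ∧ b ∈ y) ∧
    ∀ z ∈ x, ∃ p ∈ f, ∃ a b, p = pair a b ∧ a = z ∧ ∀ q ∈ f, ∃ c d, q = pair c d ∧ (c = z → d = b)

theorem FN_iff {x y f : ZFSet.{0}} : FN x y f ↔ ZFSet.IsFunc x y f := by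
  constructor
  · rintro ⟨h1, h2⟩
    refine ⟨fun p hp => ?_, fun z hz => ?_⟩
    · obtain ⟨a, b, rfl, ha, hb⟩ := h1 p hp
      exact ZFSet.pair_mem_prod.2 ⟨ha, hb⟩
    · obtain ⟨p, hp, a, b, rfl, rfl, h3⟩ := h2 z hz
      refine ⟨b, hp, fun w hw => ?_⟩
      obtain ⟨c, d, h4, h5⟩ := h3 _ hw
      obtain ⟨rfl, rfl⟩ := ZFSet.pair_inj.1 h4
      exact h5 rfl
  · rintro ⟨h1, h2⟩
    refine ⟨fun p hp => ?_, fun z hz => ?_⟩
    · obtain ⟨a, ha, b, hb, rfl⟩ := ZFSet.mem_prod.1 (h1 hp)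
      exact ⟨a, b, rfl, ha, hb⟩
    · obtain ⟨w, hw, h3⟩ := h2 z hz
      refine ⟨_, hw, z, w, rfl, rfl, fun q hq => ?_⟩
      obtain ⟨a, ha, b, hb, rfl⟩ := ZFSet.mem_prod.1 (h1 hq)
      refine ⟨a, b, rfl, fun h => ?_⟩
      subst h
      exact h3 b hq

/-- `y` is a branch through the section at `Y` of the tree `T`. -/
def BR (y Y T om : ZFSet.{0}) : Prop :=
  FN om om y ∧ ∀ n ∈ om, ∃ w ∈ T, ∃ a b, w = pair a b ∧ IsRs a Y n ∧ IsRs b y n

theorem BR_iff {y T : ZFSet.{0}} {x : ℕ → ℕ} : BR y (code x) T ZFSet.omega ↔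
    ∃ y' : ℕ → ℕ, y = code y' ∧ ∀ n, pair (rs x n) (rs y' n) ∈ T := by
  constructor
  · rintro ⟨h1, h2⟩
    obtain ⟨y', rfl⟩ := exists_code (FN_iff.1 h1)
    refine ⟨y', rfl, fun n => ?_⟩
    obtain ⟨w, hw, a, b, rfl, h3, h4⟩ := h2 (nat n) (nat_mem_om n)
    rw [isRs_code] at h3 h4
    rw [← h3, ← h4]
    exact hw
  · rintro ⟨y', rfl, h⟩
    refine ⟨FN_iff.2 (isFunc_code y'), fun n hn => ?_⟩
    obtain ⟨n, rfl⟩ := mem_omega_iff.1 hn
    exact ⟨_, h n, _, _, rfl, isRs_code.2 rfl, isRs_code.2 rfl⟩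

theorem d0_FN {n : ℕ} {F G H : (Fin n → ZFSet.{0}) → ZFSet.{0}} (hF : D0v F) (hG : D0v G)
    (hH : D0v H) : D0 fun v => FN (F v) (G v) (H v) := by
  obtain ⟨i, hi⟩ := hF
  obtain ⟨j, hj⟩ := hG
  obtain ⟨k, hk⟩ := hH
  have h : D0 fun v : Fin n → ZFSet.{0} => FN (v i) (v j) (v k) := by
    unfold FN
    (repeat' first
      | assumption
      | exact D0v.proj _
      | apply D0.not | apply D0.and | apply D0.expair | apply D0.or | apply D0.isPair | apply D0.pairMem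
      | apply D0.bex | apply D0.ball | apply D0.imp | apply D0.iff | apply D0.subset
      | apply D0.eq | apply D0.mem)
  exact h.congr fun v => by rw [hi, hj, hk]

theorem d0_BR : D0 fun v : Fin 4 → ZFSet.{0} => BR (v 0) (v 1) (v 2) (v 3) := by
  unfold BR FN IsRs
  (repeat' first
    | assumption
    | exact D0v.proj _
    | apply D0.not | apply D0.and | apply D0.expair | apply D0.or | apply D0.isPair | apply D0.pairMem
    | apply D0.bex | apply D0.ball | apply D0.imp | apply D0.iff | apply D0.subset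
    | apply D0.eq | apply D0.mem)

/-- The formula which says that `Y` is a real and that the section of `T` at `Y` has no
branch. -/
theorem exists_psiB : ∃ ψ : Fml Empty 3, ∀ K : Set ZFSet.{0}, (∀ x ∈ K, ∀ y ∈ x, y ∈ K) →
    ∀ v : Fin 3 → ZFSet.{0}, (∀ i, v i ∈ K) → (Sat K Empty.elim ψ v ↔
      FN (v 2) (v 2) (v 0) ∧ ¬ ∃ y ∈ K, BR y (v 0) (v 1) (v 2)) := by
  obtain ⟨φ, hφ⟩ : D0 fun v : Fin 3 → ZFSet.{0} => FN (v 2) (v 2) (v 0) :=
    d0_FN (D0v.proj 2) (D0v.proj 2) (D0v.proj 0)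
  obtain ⟨χ, hχ⟩ := d0_BR
  refine ⟨.and φ (.neg (.ex χ)), fun K hK v hv => and_congr (hφ K hK v hv) (not_congr ?_)⟩
  refine exists_congr fun y => and_congr_right fun hy => ?_
  have h1 : ∀ i, (Fin.cons y v : Fin 4 → ZFSet.{0}) i ∈ K := fun i => Fin.cases hy hv i
  exact hχ K hK _ h1

/-- Sentences that are true in an extension are forced. -/
theorem ftF {N : Set ZFSet.{0}} (hN : IsZF N) {P L : ZFSet.{0}} (hP : IsForcing N P L) {n : ℕ}
    (φ : Fml Empty n) {v : Fin n → ZFSet.{0}} (hv : ∀ i, v i ∈ N) {G : ZFSet.{0}}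
    (hG : IsGeneric N P L G) (hr : Sat (ext N G) Empty.elim φ (ev G ∘ v)) :
    ∃ p ∈ G, ∀ G', IsGeneric N P L G' → p ∈ G' → Sat (ext N G') Empty.elim φ (ev G' ∘ v) := by
  have key : ∀ G', IsGeneric N P L G' → (Sat (ext N G') Empty.elim φ (ev G' ∘ v) ↔
      ∃ p ∈ G', Frc P L N (φ.map Empty.elim) v p) := by
    intro G' hG'
    rw [← sat_empty (ext N G') (ev G') φ (ev G' ∘ v),
      truth hN hP hG' _ (over_empty φ) v hv]
  obtain ⟨p, hp, h2⟩ := (key G hG).1 hr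
  exact ⟨p, hp, fun G' hG' hp' => (key G' hG').2 ⟨p, hp', h2⟩⟩

end Pool.Agent.H158_PC
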