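import Pool.Agent.H158_PC.Pi
import Pool.Agent.H158_PC.Gnd

/-!
# Countable choice for coanalytic sets in the symmetric model
-/

set_option autoImplicit false
set_option linter.unusedSectionVars false
set_option linter.unreachableTactic false
set_option linter.unusedTactic false

namespace Pool.Agent.H158_PC

open Pool.Agent.W868 Pool.Agent.W868.GM Pool.Agent.R597 Pool.Agent.Y588 AM
open ZFSet (pair)

theorem mem_fam {B : ℕ → Set (ℕ → ℕ)} {u : ZFSet.{0}} :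
    u ∈ fam B ↔ ∃ k, ∃ x ∈ B k, u = pair (nat k) (code x) := by
  rw [fam, ZFSet.mem_range]
  constructor
  · rintro ⟨⟨⟨k, x⟩, hx⟩, rfl⟩
    exact ⟨k, x, hx, rfl⟩
  · rintro ⟨k, x, hx, rfl⟩
    exact ⟨⟨⟨k, x⟩, hx⟩, rfl⟩

theorem mem_seqr' {f : ℕ → ℕ → ℕ} {z : ZFSet.{0}} :
    z ∈ seqr f ↔ ∃ k, z = pair (nat k) (code (f k)) := by
  rw [seqr, ZFSet.mem_range]
  exact exists_congr fun k => eq_comm

/-- Choice from a family of sets with members in an inner model with a definable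
well-ordering. -/
theorem choice_of {M K : Set ZFSet.{0}} (hM : IsZF M) (hKM : K ⊆ M) (hK : IsZF K)
    {e : ZFSet.{0} → ZFSet.{0}} (hg : GC K e) {B : ℕ → Set (ℕ → ℕ)} (hfam : fam B ∈ M)
    (h : ∀ k, ∃ x ∈ B k, code x ∈ K) : ∃ f : ℕ → ℕ → ℕ, (∀ k, f k ∈ B k) ∧ seqr f ∈ M := by
  have hB := hM.base
  have hRV := fnX_mem hK hK.infinity
  have hmRV : ∀ x : ℕ → ℕ, code x ∈ fnX K ZFSet.omega ↔ code x ∈ K := by
    intro x
    rw [mem_fnX]
    exact ⟨fun h => h.1, fun h => ⟨h, isFunc_code x⟩⟩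
  set Eg : ZFSet.{0} := im (fun x => pair x (e x)) (fnX K ZFSet.omega) with hEg
  have hEgM : Eg ∈ M := hKM (hK.im_mem hRV (hK.base.pair' (DfnF.proj 0) hg.dfn))
  have hRVM : fnX K ZFSet.omega ∈ M := hKM hRV
  have hap : ∀ x, x ∈ fnX K ZFSet.omega → ap Eg x = e x := by
    intro x hx
    refine ap_unique (mem_im.2 ⟨x, hx, rfl⟩) fun q hq h1 => ?_
    obtain ⟨y, -, rfl⟩ := mem_im.1 hq
    rw [fs_pair] at h1
    rw [sn_pair, h1]
  have hmin : ∀ k, ∃ x, x ∈ B k ∧ code x ∈ K ∧ ∀ y, y ∈ B k → code y ∈ K →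
      e (code y) ∉ e (code x) := by
    intro k
    have hne : {x : ℕ → ℕ | x ∈ B k ∧ code x ∈ K}.Nonempty := by
      obtain ⟨x, h1, h2⟩ := h k
      exact ⟨x, h1, h2⟩
    have hwf : WellFounded fun x y : ℕ → ℕ => e (code x) ∈ e (code y) :=
      InvImage.wf (fun x : ℕ → ℕ => e (code x)) ZFSet.mem_wf
    obtain ⟨h1, h2⟩ := hwf.min_mem _ hne
    exact ⟨_, h1, h2, fun y h3 h4 => hwf.not_lt_min _ (show y ∈ {x : ℕ → ℕ | x ∈ B k ∧ code x ∈ K}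
      from ⟨h3, h4⟩)⟩
  choose f hf1 hf2 hf3 using hmin
  refine ⟨f, hf1, ?_⟩
  have h1 : seqr f = ZFSet.sep (fun u => sn u ∈ fnX K ZFSet.omega ∧ ∀ w ∈ fam B,
      ¬ (fs w = fs u ∧ sn w ∈ fnX K ZFSet.omega ∧ ap Eg (sn w) ∈ ap Eg (sn u))) (fam B) := by
    ext u
    rw [mem_seqr', ZFSet.mem_sep]
    constructor
    · rintro ⟨k, rfl⟩
      refine ⟨mem_fam.2 ⟨k, _, hf1 k, rfl⟩, ?_, fun w hw => ?_⟩
      · rw [sn_pair]
        exact (hmRV _).2 (hf2 k)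
      · rintro ⟨h2, h3, h4⟩
        obtain ⟨k', x, hx, rfl⟩ := mem_fam.1 hw
        rw [fs_pair, fs_pair] at h2
        have h5 := nat_injective h2
        subst h5
        rw [sn_pair] at h3 h4
        rw [sn_pair, hap _ h3, hap _ ((hmRV _).2 (hf2 k'))] at h4
        exact hf3 k' x hx ((hmRV _).1 h3) h4
    · rintro ⟨h2, h3, h4⟩
      obtain ⟨k, x, hx, rfl⟩ := mem_fam.1 h2
      rw [sn_pair] at h3
      have hxK := (hmRV _).1 h3
      refine ⟨k, ?_⟩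
      have h5 : ¬ e (code (f k)) ∈ e (code x) := by
        intro h6
        refine h4 _ (mem_fam.2 ⟨k, _, hf1 k, rfl⟩) ⟨?_, ?_, ?_⟩
        · rw [fs_pair, fs_pair]
        · rw [sn_pair]
          exact (hmRV _).2 (hf2 k)
        · rw [sn_pair, sn_pair, hap _ h3, hap _ ((hmRV _).2 (hf2 k))]
          exact h6
      have h6 := hf3 k x hx hxK
      rcases (hg.ord (code x)).mem_trichotomous (hg.ord (code (f k))) with h7 | h7 | h7
      · exact absurd h7 h6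
      · rw [hg.inj _ hxK _ (hf2 k) h7]
      · exact absurd h7 h5
  rw [h1]
  refine hM.sep_mem (Q := fun u => sn u ∈ fnX K ZFSet.omega ∧ ∀ w ∈ fam B,
      ¬ (fs w = fs u ∧ sn w ∈ fnX K ZFSet.omega ∧ ap Eg (sn w) ∈ ap Eg (sn u))) ?_ hfam
  refine (Dfn.mem (hM.sn' (DfnF.proj 0)) (DfnF.const hRVM)).and ?_
  refine hB.ball (Q := fun w v => ¬ (fs w = fs (v 0) ∧ sn w ∈ fnX K ZFSet.omega ∧
    ap Eg (sn w) ∈ ap Eg (sn (v 0)))) (DfnF.const hfam) ?_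
  refine ((Dfn.eq (hM.fs' (DfnF.proj 0)) (hM.fs' (DfnF.proj 1))).and
    ((Dfn.mem (hM.sn' (DfnF.proj 0)) (DfnF.const hRVM)).and ?_)).not
  exact Dfn.mem (hM.ap' (DfnF.const hEgM) (hM.sn' (DfnF.proj 0)))
    (hM.ap' (DfnF.const hEgM) (hM.sn' (DfnF.proj 1)))

/-- Countable choice for coanalytic sets holds in the symmetric model. -/
theorem AC_pi {V : Set ZFSet.{0}} (hc : V.Countable) (hL : IsLA dA V)
    (hst : ∀ F ∈ V, (∀ z ∈ F, IsHF z) → ∃ N ∈ V, (∀ x ∈ N, ∀ y ∈ x, y ∈ N) ∧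
      IsZF {x | x ∈ N} ∧ dA ∈ N ∧ F ∈ N ∧ Inj V N ZFSet.omega)
    {g : Set ℕ} (hg : Gn V g) : ACw (MM V g) (Pi11 (MM V g)) := by
  intro B hne hpi hfam
  obtain ⟨m, hm⟩ := pi_real hc hL hst hg hne hpi hfam
  have hM := zfM hL hg
  have hA := Ac_mem hM (V_sub_M hL hg hL.mem) (cut_mem hL hg m)
  have hLm := isLA_of_HF hM hA fun z hz => isHF_Ac (fun z hz => by
    obtain ⟨i, -, rfl⟩ := mem_nm.1 hz
    exact isHF_nat i) hz
  exact choice_of hM (LC_subset hM hA) hLm.zf hLm.gc hfam hm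

/-- The main theorem. -/
theorem main_sigma : ∃ M : Set ZFSet.{0}, M.Countable ∧ IsZF M ∧ ACw M (Pi11 M) ∧
    ¬ ACw M (Sigma12 M) := by
  obtain ⟨V, hc, hL, hst⟩ := exists_ground
  have he := (bk_of hL.zf hL.mem).eg
  obtain ⟨G, hG, -⟩ := exists_gen hc (forcing_PP hL.zf he) (cn_mem_PP 0 ∅)
  obtain ⟨g, rfl, hg⟩ := Gn_of_gen hL.zf he hG
  exact ⟨MM V g, (hc.image _).mono nm_sub, zfM hL hg, AC_pi hc hL hst hg, not_AC_sigma hL hg⟩

end Pool.Agent.H158_PC
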