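import Pool.Agent.H158_PC.Tru

/-!
# Symmetric systems in a transitive model of ZF: the symmetric submodel is a model of ZF
-/

set_option autoImplicit false
set_option linter.unreachableTactic false
set_option linter.unusedTactic false
set_option linter.unusedSectionVars false

namespace Pool.Agent.H158_PC.AM

open Pool.Agent.W868 Pool.Agent.W868.GM Pool.Agent.Y588
open ZFSet (pair)

section

variable {M : Set ZFSet.{0}} (hM : IsZF M) {P Le Gr Fl : ZFSet.{0}}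
  {ac : ZFSet.{0} → ZFSet.{0} → ZFSet.{0}} (hP : IsForcing M P Le)
  (hS : SymSys M P Le ac Gr Fl) {G : ZFSet.{0}} (hG : IsGeneric M P Le G)

include hS

/-- A set of pairs of symmetric names and conditions that is closed under a subgroup is fixed by
the subgroup. -/
theorem fix_of_closed {σ H : ZFSet.{0}} (hH : H ∈ Fl)
    (h1 : ∀ u ∈ σ, ∃ y c, u = pair y c ∧ c ∈ P ∧ Sy P ac Fl y)
    (h2 : ∀ g ∈ H, ∀ y c, pair y c ∈ σ → c ∈ P → pair (act P ac g y) (ac g c) ∈ σ) :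
    ∀ g ∈ H, act P ac g σ = σ := by
  intro g hg
  obtain ⟨g', hg', hi⟩ := hS.hinv H hH g hg
  ext u
  rw [mem_act]
  constructor
  · rintro ⟨y, c, h3, h4, rfl⟩
    exact h2 g hg y c h3 h4
  · intro hu
    obtain ⟨y, c, rfl, hc, hy⟩ := h1 u hu
    refine ⟨_, _, h2 g' hg' y c hu hc, hS.maps g' (hS.sub H hH hg') c hc, ?_⟩
    rw [act_inv hS hy (hS.sub H hH hg') fun p hp => (hi p hp).2, (hi c hc).2]

/-- Construction of hereditarily symmetric names. -/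
theorem mk_sn {σ : ZFSet.{0}} (hσ : σ ∈ M)
    (h1 : ∀ u ∈ σ, ∃ y c, u = pair y c ∧ c ∈ P ∧ HS P ac Fl y)
    (h2 : ∃ H ∈ Fl, ∀ g ∈ H, ∀ y c, pair y c ∈ σ → c ∈ P →
      pair (act P ac g y) (ac g c) ∈ σ) : σ ∈ Sn M P ac Fl := by
  obtain ⟨H, hH, h3⟩ := h2
  refine ⟨hσ, hs_iff.2 ⟨⟨H, hH, fix_of_closed hS hH (fun u hu => ?_) h3⟩, fun y hy => ?_⟩⟩
  · obtain ⟨y, c, rfl, hc, hy⟩ := h1 u hu
    exact ⟨y, c, rfl, hc, (hs_iff.1 hy).1⟩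
  · obtain ⟨u, hu, rfl⟩ := mem_dm'.1 hy
    obtain ⟨y, c, rfl, hc, hy⟩ := h1 u hu
    rwa [fs_pair]

include hM hP

/-- The canonical names are hereditarily symmetric. -/
theorem chk_sn {t : ZFSet.{0}} (ht : t ∈ P) (htg : ∀ g ∈ Gr, ac g t = t) {x : ZFSet.{0}}
    (hx : x ∈ M) : chk t x ∈ Sn M P ac Fl ∧ ∀ g ∈ Gr, act P ac g (chk t x) = chk t x := by
  have htM := hM.trans _ hP.mem _ ht
  induction x using ZFSet.inductionOn with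
  | _ x ih =>
  have ih' := fun y (hy : y ∈ x) => ih y hy (hM.trans _ hx _ hy)
  have h3 : ∀ g ∈ Gr, ∀ y c, pair y c ∈ chk t x → c ∈ P →
      pair (act P ac g y) (ac g c) ∈ chk t x := by
    intro g hg y c hyc _
    obtain ⟨z, hz, h4⟩ := mem_chk.1 hyc
    obtain ⟨rfl, rfl⟩ := ZFSet.pair_inj.1 h4
    rw [(ih' z hz).2 g hg, htg g hg]
    exact hyc
  have h1 : ∀ u ∈ chk t x, ∃ y c, u = pair y c ∧ c ∈ P ∧ HS P ac Fl y := by
    intro u hu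
    obtain ⟨z, hz, rfl⟩ := mem_chk.1 hu
    exact ⟨_, _, rfl, ht, (ih' z hz).1.2⟩
  constructor
  · obtain ⟨H, hH⟩ := hS.ne
    exact mk_sn hS (chk_mem hM htM hx) h1 ⟨H, hH, fun g hg => h3 g (hS.sub H hH hg)⟩
  · intro g hg
    obtain ⟨g', hg', hi⟩ := hS.inv g hg
    ext u
    rw [mem_act]
    constructor
    · rintro ⟨y, c, h4, h5, rfl⟩
      exact h3 g hg y c h4 h5
    · intro hu
      obtain ⟨z, hz, rfl⟩ := mem_chk.1 hu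
      refine ⟨_, _, hu, ht, ?_⟩
      rw [(ih' z hz).2 g hg, htg g hg]

omit hM hP in
theorem nm_trans (hM : IsZF M) : ∀ x ∈ Nm M P ac Fl G, ∀ y ∈ x, y ∈ Nm M P ac Fl G := by
  rintro _ ⟨x, hx, rfl⟩ y hy
  obtain ⟨z, p, h1, -, rfl⟩ := mem_ev.1 hy
  exact ⟨z, ⟨(hM.of_pair_mem (hM.trans _ hx.1 _ h1)).1, (hs_iff.1 hx.2).2 z (mem_dm h1)⟩, rfl⟩

omit hM hP hS in
theorem nm_sub : Nm M P ac Fl G ⊆ ext M G := by
  rintro _ ⟨x, hx, rfl⟩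
  exact ⟨x, hx.1, rfl⟩

/-- The elements of the domain of a symmetric name are moved into the domain. -/
theorem dm_act {x y g : ZFSet.{0}} (hx : Sy P ac Fl x) (hgx : act P ac g x = x)
    (hy : y ∈ dm x) : act P ac g y ∈ dm x := by
  obtain ⟨u, hu, rfl⟩ := mem_dm'.1 hy
  obtain ⟨z, c, rfl, hz, hc⟩ := sy_pair hS hx hu
  rw [fs_pair]
  have h1 : pair (act P ac g z) (ac g c) ∈ act P ac g x := mem_act.2 ⟨z, c, hz, hc, rfl⟩
  rw [hgx] at h1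
  exact mem_dm h1

include hG

theorem sub_nm : M ⊆ Nm M P ac Fl G := by
  intro x hx
  obtain ⟨t, ht, htop, htg⟩ := hS.top
  obtain ⟨p, hp⟩ := hG.nonempty
  exact ⟨chk t x, (chk_sn hM hP hS ht htg hx).1,
    ev_chk (hG.up p hp t ht (htop p (hG.sub hp))) x⟩

/-- A set in the symmetric submodel that contains the values of the names in `X`. -/
theorem coverS {X : ZFSet.{0}} (hX : X ∈ M) (hXS : ∀ x ∈ X, HS P ac Fl x)
    (hc : ∃ H ∈ Fl, ∀ g ∈ H, ∀ x ∈ X, act P ac g x ∈ X) :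
    ∃ Y ∈ Nm M P ac Fl G, ∀ z, z ∈ Y ↔ ∃ x ∈ X, z = ev G x := by
  obtain ⟨t, ht, htop, htg⟩ := hS.top
  obtain ⟨p, hp⟩ := hG.nonempty
  have htG : t ∈ G := hG.up p hp t ht (htop p (hG.sub hp))
  have htM := hM.trans _ hP.mem _ ht
  obtain ⟨H, hH, hc⟩ := hc
  refine ⟨_, ⟨ZFSet.prod X {t}, mk_sn hS (hM.prod_mem hX (hM.single_mem htM)) ?_ ⟨H, hH, ?_⟩,
    rfl⟩, fun z => ?_⟩
  · intro u hu
    obtain ⟨a, ha, b, hb, rfl⟩ := ZFSet.mem_prod.1 hu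
    rw [ZFSet.mem_singleton] at hb
    subst hb
    exact ⟨a, b, rfl, ht, hXS a ha⟩
  · intro g hg y c hyc _
    rw [ZFSet.pair_mem_prod] at hyc ⊢
    rw [ZFSet.mem_singleton] at hyc ⊢
    rw [hyc.2]
    exact ⟨hc g hg y hyc.1, htg g (hS.sub H hH hg)⟩
  · rw [mem_ev]
    constructor
    · rintro ⟨y, p, h1, h2, rfl⟩
      exact ⟨y, (ZFSet.pair_mem_prod.1 h1).1, rfl⟩
    · rintro ⟨y, hy, rfl⟩
      exact ⟨y, t, ZFSet.pair_mem_prod.2 ⟨hy, by simp⟩, htG, rfl⟩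

/-- Separation, for names. -/
theorem sepS {n : ℕ} (φ : Fml ZFSet.{0} (n + 1)) (hφ : φ.Over (Sn M P ac Fl))
    {v : Fin n → ZFSet.{0}} (hv : ∀ i, v i ∈ Sn M P ac Fl) {X : ZFSet.{0}}
    (hX : X ∈ Sn M P ac Fl) :
    ∃ σ ∈ Sn M P ac Fl, σ ⊆ ZFSet.prod (dm X) P ∧ ∀ z, z ∈ ev G σ ↔ z ∈ ev G X ∧
      Sat (Nm M P ac Fl G) (ev G) φ (Fin.cons z (ev G ∘ v)) := by
  have hPM := hP.mem
  have hLM := hP.le_mem
  have hB := hM.base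
  have hφM : φ.Over M := Fml.Over.mono (S := Sn M P ac Fl) (fun _ h => h.1) hφ
  have hd : Dfn M M fun w : Fin 1 → ZFSet.{0} => Qmem P Le (fs (w 0)) X (sn (w 0)) ∧
      Frc P Le (Sn M P ac Fl) φ (Fin.cons (fs (w 0)) v) (sn (w 0)) := by
    refine (dfn_qmem hM hPM hLM (hM.fs' (DfnF.proj 0)) (DfnF.const hX.1)
      (hM.sn' (DfnF.proj 0))).and ?_
    exact dfn_frcS2 hM hP hS φ hφM (v := v) (fun i => (hv i).1) (hM.fs' (DfnF.proj 0))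
      (hM.sn' (DfnF.proj 0))
  have hdX := dm_mem hM hX.1
  have hXS : ∀ y ∈ dm X, HS P ac Fl y := (hs_iff.1 hX.2).2
  refine ⟨ZFSet.sep (fun u => Qmem P Le (fs u) X (sn u) ∧
      Frc P Le (Sn M P ac Fl) φ (Fin.cons (fs u) v) (sn u)) (ZFSet.prod (dm X) P), ?_,
    fun u hu => (ZFSet.mem_sep.1 hu).1, fun z => ?_⟩
  · refine mk_sn hS (hM.sep_mem hd (hM.prod_mem hdX hPM)) ?_ ?_
    · intro u hu
      obtain ⟨a, ha, b, hb, rfl⟩ := ZFSet.mem_prod.1 (ZFSet.mem_sep.1 hu).1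
      exact ⟨a, b, rfl, hb, hXS a ha⟩
    · obtain ⟨H1, hH1, h1⟩ := supp_fml hP hS φ hφ
      obtain ⟨H2, hH2, h2⟩ := supp_vec hP hS v hv
      obtain ⟨H3, hH3, h3⟩ := (hs_iff.1 hX.2).1
      obtain ⟨L1, hL1, hl1, hl2⟩ := hS.dir H1 hH1 H2 hH2
      obtain ⟨L, hL, hl3, hl4⟩ := hS.dir L1 hL1 H3 hH3
      refine ⟨L, hL, fun g hg y c hyc _ => ?_⟩
      have hgG := hS.sub L hL hg
      rw [ZFSet.mem_sep, ZFSet.pair_mem_prod, fs_pair, sn_pair] at hyc ⊢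
      obtain ⟨⟨hy, hc⟩, h4, h5⟩ := hyc
      have hgX := h3 g (hl4 hg)
      refine ⟨⟨dm_act hM hP hS (hs_iff.1 hX.2).1 hgX hy, hS.maps g hgG c hc⟩, ?_, ?_⟩
      · have h6 := qmem_act hP hS hgG hc h4
        rwa [hgX] at h6
      · have hyS : y ∈ Sn M P ac Fl := ⟨hM.trans _ hdX _ hy, hXS y hy⟩
        have h6 := frc_fix hM hP hS φ hφ (cons_mem hyS hv) hc hgG (h1 g (hl1 (hl3 hg))) h5
        rw [comp_cons] at h6
        have h7 : act P ac g ∘ v = v := by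
          funext i
          exact h2 g (hl2 (hl3 hg)) i
        rwa [h7] at h6
  · rw [mem_ev]
    have key : ∀ y ∈ Sn M P ac Fl, ((ev G y ∈ ev G X ∧
        Sat (Nm M P ac Fl G) (ev G) φ (Fin.cons (ev G y) (ev G ∘ v)))
        ↔ ∃ p ∈ G, Qmem P Le y X p ∧ Frc P Le (Sn M P ac Fl) φ (Fin.cons y v) p) := by
      intro y hy
      rw [← comp_cons, truthS hM hP hS hG φ hφ _ (cons_mem hy hv), ev_mem_iff hM hP hG hy.1 hX.1]
      constructor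
      · rintro ⟨⟨p, hp, h1⟩, ⟨q, hq, h2⟩⟩
        obtain ⟨r, hr, hrp, hrq⟩ := hG.dir p hp q hq
        exact ⟨r, hr, h1.mono hP (hG.sub hp) (hG.sub hr) hrp,
          frc_mono hP (hG.sub hq) h2 (hG.sub hr) hrq⟩
      · rintro ⟨p, hp, h1, h2⟩
        exact ⟨⟨p, hp, h1⟩, ⟨p, hp, h2⟩⟩
    constructor
    · rintro ⟨y, p, h1, h2, rfl⟩
      rw [ZFSet.mem_sep, ZFSet.pair_mem_prod, fs_pair, sn_pair] at h1
      exact (key y ⟨hM.trans _ hdX _ h1.1.1, hXS y h1.1.1⟩).2 ⟨p, h2, h1.2⟩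
    · rintro ⟨hz, h⟩
      obtain ⟨y, p, h1, -, rfl⟩ := mem_ev.1 hz
      have hy := mem_dm h1
      obtain ⟨q, hq, h2⟩ := (key y ⟨hM.trans _ hdX _ hy, hXS y hy⟩).1 ⟨hz, h⟩
      refine ⟨y, q, ?_, hq, rfl⟩
      rw [ZFSet.mem_sep, ZFSet.pair_mem_prod, fs_pair, sn_pair]
      exact ⟨⟨hy, hG.sub hq⟩, h2⟩

omit hM hP hS hG in
/-- A choice of names. -/
theorem exists_nmS (N S : Set ZFSet.{0}) (h : N = ev G '' S) : ∃ nm : ZFSet.{0} → ZFSet.{0},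
    ∀ x ∈ N, nm x ∈ S ∧ ev G (nm x) = x := by
  classical
  subst h
  refine ⟨fun x => if h : x ∈ ev G '' S then h.choose else ∅, fun x hx => ?_⟩
  simp only [dif_pos hx]
  exact hx.choose_spec

omit hM hP hS hG in
theorem sat_nmS {N S : Set ZFSet.{0}} {nm : ZFSet.{0} → ZFSet.{0}}
    (h : ∀ x ∈ N, nm x ∈ S ∧ ev G (nm x) = x) {n : ℕ} (φ : Fml ZFSet.{0} n) (hφ : φ.Over N)
    (v : Fin n → ZFSet.{0}) :
    (Sat N id φ v ↔ Sat N (ev G) (φ.map nm) v) ∧ (φ.map nm).Over S := by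
  constructor
  · rw [sat_map]
    exact sat_congr N (S := N) (fun a ha => (h a ha).2.symm) φ hφ v
  · rw [over_map]
    exact hφ.mono fun a ha => (h a ha).1

/-- Separation. -/
theorem nm_sep (φ : Fml ZFSet.{0} 1) (hφ : φ.Over (Nm M P ac Fl G)) (x : ZFSet.{0})
    (hx : x ∈ Nm M P ac Fl G) :
    ∃ y ∈ Nm M P ac Fl G, ∀ z, z ∈ y ↔ z ∈ x ∧ Sat (Nm M P ac Fl G) id φ ![z] := by
  obtain ⟨nm, hnm⟩ := exists_nmS (G := G) (Nm M P ac Fl G) (Sn M P ac Fl) rfl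
  obtain ⟨X, hX, rfl⟩ := hx
  obtain ⟨σ, h1, -, h2⟩ := sepS hM hP hS hG (φ.map nm) (sat_nmS hnm φ hφ ![∅]).2
    (v := Fin.elim0) (fun i => i.elim0) hX
  refine ⟨_, ⟨σ, h1, rfl⟩, fun z => ?_⟩
  rw [h2, (sat_nmS hnm φ hφ _).1]
  have h3 : (Fin.cons z (ev G ∘ Fin.elim0) : Fin 1 → ZFSet.{0}) = ![z] := by
    funext i
    fin_cases i
    rfl
  rw [h3]

theorem nm_pairing : ∀ x ∈ Nm M P ac Fl G, ∀ y ∈ Nm M P ac Fl G,
    ({x, y} : ZFSet.{0}) ∈ Nm M P ac Fl G := by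
  rintro _ ⟨x, hx, rfl⟩ _ ⟨y, hy, rfl⟩
  obtain ⟨H, hH, h1⟩ := (hs_iff.1 hx.2).1
  obtain ⟨K, hK, h2⟩ := (hs_iff.1 hy.2).1
  obtain ⟨L, hL, hLH, hLK⟩ := hS.dir H hH K hK
  obtain ⟨Y, hY, h⟩ := coverS hM hP hS hG (hM.pairing _ hx.1 _ hy.1) (by
    intro z hz
    rcases ZFSet.mem_pair.1 hz with rfl | rfl
    · exact hx.2
    · exact hy.2) ⟨L, hL, by
    intro g hg z hz
    rcases ZFSet.mem_pair.1 hz with rfl | rfl
    · rw [h1 g (hLH hg)]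
      exact hz
    · rw [h2 g (hLK hg)]
      exact hz⟩
  have h1 : Y = {ev G x, ev G y} := by
    ext z
    rw [h, ZFSet.mem_pair]
    constructor
    · rintro ⟨u, hu, rfl⟩
      rcases ZFSet.mem_pair.1 hu with rfl | rfl
      · exact Or.inl rfl
      · exact Or.inr rfl
    · rintro (rfl | rfl)
      · exact ⟨x, by simp, rfl⟩
      · exact ⟨y, by simp, rfl⟩
  rwa [← h1]

theorem nm_union : ∀ x ∈ Nm M P ac Fl G, (ZFSet.sUnion x : ZFSet.{0}) ∈ Nm M P ac Fl G := by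
  intro x' hx'
  have hx'' := hx'
  obtain ⟨x, hx, rfl⟩ := hx'
  have hB := hM.base
  have h1 : ZFSet.sUnion (im dm (dm x)) ∈ M :=
    hM.union _ (hM.im_mem (dm_mem hM hx.1) (dm' hM (DfnF.proj 0)))
  have hxS : ∀ y ∈ dm x, HS P ac Fl y := (hs_iff.1 hx.2).2
  obtain ⟨Y, hY, h2⟩ := coverS hM hP hS hG h1 (by
    intro z hz
    obtain ⟨w, hw, hz⟩ := ZFSet.mem_sUnion.1 hz
    obtain ⟨y, hy, rfl⟩ := mem_im.1 hw
    exact (hs_iff.1 (hxS y hy)).2 z hz) (by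
    obtain ⟨H, hH, h3⟩ := (hs_iff.1 hx.2).1
    refine ⟨H, hH, fun g hg z hz => ?_⟩
    obtain ⟨w, hw, hz⟩ := ZFSet.mem_sUnion.1 hz
    obtain ⟨y, hy, rfl⟩ := mem_im.1 hw
    refine ZFSet.mem_sUnion.2 ⟨_, mem_im.2 ⟨act P ac g y,
      dm_act hM hP hS (hs_iff.1 hx.2).1 (h3 g hg) hy, rfl⟩, ?_⟩
    obtain ⟨u, hu, rfl⟩ := mem_dm'.1 hz
    obtain ⟨a, c, rfl, ha, hc⟩ := sy_pair hS (hs_iff.1 (hxS y hy)).1 hu
    rw [fs_pair]
    exact mem_dm (mem_act.2 ⟨a, c, ha, hc, rfl⟩))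
  -- the union is a definable subset of Y
  obtain ⟨y, hy, h3⟩ := nm_sep hM hP hS hG
    (.ex (.and (.mem (Sum.inl 0) (Sum.inr (ev G x))) (.mem (Sum.inl 1) (Sum.inl 0))))
    ⟨⟨TOver.inl _, tOver_inr.2 hx''⟩, TOver.inl _, TOver.inl _⟩ Y hY
  have h4 : y = ZFSet.sUnion (ev G x) := by
    ext z
    rw [h3, ZFSet.mem_sUnion]
    constructor
    · rintro ⟨-, a, -, h5, h6⟩
      exact ⟨a, h5, h6⟩
    · rintro ⟨a, h5, h6⟩
      refine ⟨?_, a, nm_trans hS hM _ hx'' _ h5, h5, h6⟩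
      obtain ⟨b, p, h7, h8, rfl⟩ := mem_ev.1 h5
      obtain ⟨c, q, h9, h10, rfl⟩ := mem_ev.1 h6
      rw [h2]
      exact ⟨c, ZFSet.mem_sUnion.2 ⟨_, mem_im.2 ⟨b, mem_dm h7, rfl⟩, mem_dm h9⟩, rfl⟩
  exact h4 ▸ hy

theorem nm_power : ∀ x ∈ Nm M P ac Fl G, ∃ y ∈ Nm M P ac Fl G, ∀ z, z ∈ y ↔
    z ∈ Nm M P ac Fl G ∧ z ⊆ x := by
  intro x' hx'
  have hx'' := hx'
  obtain ⟨x, hx, rfl⟩ := hx'
  have hB := hM.base
  obtain ⟨W0, hW0, h10⟩ := hM.power _ (hM.prod_mem (dm_mem hM hx.1) hP.mem)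
  have hW : ZFSet.sep (fun τ => HS P ac Fl τ) W0 ∈ M :=
    hM.sep_mem (dfn_hs hM hP.mem hS.dac hS.fl (DfnF.proj 0)) hW0
  set W := ZFSet.sep (fun τ => HS P ac Fl τ) W0 with hWd
  have h1 : ∀ τ, τ ∈ W ↔ τ ∈ Sn M P ac Fl ∧ τ ⊆ ZFSet.prod (dm x) P := by
    intro τ
    rw [hWd, ZFSet.mem_sep, h10]
    exact ⟨fun h => ⟨⟨h.1.1, h.2⟩, h.1.2⟩, fun h => ⟨⟨h.1.1, h.2⟩, h.1.2⟩⟩
  obtain ⟨Y, hY, h2⟩ := coverS hM hP hS hG hW (fun τ hτ => ((h1 τ).1 hτ).1.2) (by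
    obtain ⟨H, hH, h3⟩ := (hs_iff.1 hx.2).1
    refine ⟨H, hH, fun g hg τ hτ => (h1 _).2 ⟨sn_act hM hP hS (hS.sub H hH hg) ((h1 τ).1 hτ).1,
      fun u hu => ?_⟩⟩
    obtain ⟨y, c, hyc, hc, rfl⟩ := mem_act.1 hu
    have h4 := ZFSet.pair_mem_prod.1 (((h1 τ).1 hτ).2 hyc)
    exact ZFSet.pair_mem_prod.2 ⟨dm_act hM hP hS (hs_iff.1 hx.2).1 (h3 g hg) h4.1,
      hS.maps g (hS.sub H hH hg) c hc⟩)
  obtain ⟨y, hy, h3⟩ := nm_sep hM hP hS hG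
    (.neg (.ex (.and (.mem (Sum.inl 0) (Sum.inl 1)) (.neg (.mem (Sum.inl 0)
      (Sum.inr (ev G x)))))))
    ⟨⟨TOver.inl _, TOver.inl _⟩, TOver.inl _, tOver_inr.2 hx''⟩ Y hY
  refine ⟨y, hy, fun z => ?_⟩
  rw [h3]
  have h4 : ∀ z ∈ Nm M P ac Fl G, (Sat (Nm M P ac Fl G) id (.neg (.ex (.and
      (.mem (Sum.inl 0) (Sum.inl 1))
      (.neg (.mem (Sum.inl 0) (Sum.inr (ev G x))))))) ![z] ↔ z ⊆ ev G x) := by
    intro z hz
    constructor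
    · intro h5 a ha
      by_contra h6
      exact h5 ⟨a, nm_trans hS hM _ hz _ ha, ha, h6⟩
    · rintro h5 ⟨a, -, h6, h7⟩
      exact h7 (h5 h6)
  constructor
  · rintro ⟨h5, h6⟩
    have hz := nm_trans hS hM _ hY _ h5
    exact ⟨hz, (h4 z hz).1 h6⟩
  · rintro ⟨hz, h5⟩
    refine ⟨?_, (h4 z hz).2 h5⟩
    obtain ⟨τ, hτ, rfl⟩ := hz
    obtain ⟨σ, hσ, h6, h7⟩ := sepS hM hP hS hG
      (.mem (Sum.inl 0) (Sum.inr τ) : Fml ZFSet.{0} 1) ⟨TOver.inl _, tOver_inr.2 hτ⟩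
      (v := Fin.elim0) (fun i => i.elim0) hx
    rw [h2]
    refine ⟨σ, (h1 σ).2 ⟨hσ, h6⟩, ?_⟩
    ext z
    rw [h7]
    exact ⟨fun hz => ⟨h5 hz, hz⟩, fun hz => hz.2⟩

/-- Replacement. -/
theorem nm_replacement (φ : Fml ZFSet.{0} 2) (hφ : φ.Over (Nm M P ac Fl G)) (x : ZFSet.{0})
    (hx : x ∈ Nm M P ac Fl G)
    (h : ∀ z ∈ x, ∃! w, w ∈ Nm M P ac Fl G ∧ Sat (Nm M P ac Fl G) id φ ![z, w]) :
    ∃ y ∈ Nm M P ac Fl G, ∀ w, w ∈ y ↔ w ∈ Nm M P ac Fl G ∧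
      ∃ z ∈ x, Sat (Nm M P ac Fl G) id φ ![z, w] := by
  obtain ⟨nm, hnm⟩ := exists_nmS (G := G) (Nm M P ac Fl G) (Sn M P ac Fl) rfl
  have hx' := hx
  obtain ⟨X, hX, rfl⟩ := hx
  have hB := hM.base
  have hPM := hP.mem
  have hLM := hP.le_mem
  obtain ⟨-, hO⟩ := sat_nmS hnm φ hφ ![∅, ∅]
  have hOM : (φ.map nm).Over M := Fml.Over.mono (S := Sn M P ac Fl) (fun _ h => h.1) hO
  -- the witnesses
  set Q : ZFSet.{0} → ZFSet.{0} → Prop := fun w u => HS P ac Fl w ∧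
    Frc P Le (Sn M P ac Fl) (φ.map nm) ![fs u, w] (sn u) with hQ
  have hd : Dfn M M fun w : Fin 2 → ZFSet.{0} => Q (w 0) (w 1) := by
    refine (dfn_hs hM hPM hS.dac hS.fl (DfnF.proj 0)).and ?_
    refine (dfn_frcS hM hP hS (φ.map nm) hOM (m := 2)
      (Fin.cons (fun w => fs (w 1)) fun _ w => w 0) (by
        intro i
        refine Fin.cases ?_ (fun i => ?_) i
        · exact hM.fs' (DfnF.proj 1)
        · exact DfnF.proj 0) (H := fun w => sn (w 1)) (hM.sn' (DfnF.proj 1))).congr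
        fun w _ => ?_
    have h3 : (fun i => (Fin.cons (fun w => fs (w 1)) (fun _ w => w 0) :
        Fin 2 → (Fin 2 → ZFSet.{0}) → ZFSet.{0}) i w) = ![fs (w 1), w 0] := by
      funext i
      fin_cases i <;> rfl
    rw [h3]
  have hx1 : ZFSet.sep (fun u => ∃ w ∈ M, Q w u) (ZFSet.prod (dm X) P) ∈ M := by
    refine hM.sep_mem ?_ (hM.prod_mem (dm_mem hM hX.1) hPM)
    exact Dfn.ex (Q := fun w u => Q w (u 0)) hd
  obtain ⟨Y0, hY0, h10⟩ := hM.collect hx1 hd fun u hu => (ZFSet.mem_sep.1 hu).2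
  -- closure under the group
  have hY1 : ZFSet.sep (fun w => HS P ac Fl w) Y0 ∈ M :=
    hM.sep_mem (dfn_hs hM hPM hS.dac hS.fl (DfnF.proj 0)) hY0
  have hY2 : im (fun u => act P ac (fs u) (sn u))
      (ZFSet.prod Gr (ZFSet.sep (fun w => HS P ac Fl w) Y0)) ∈ M :=
    hM.im_mem (hM.prod_mem hS.gr hY1)
      (act' hM hPM hS.dac (hM.fs' (DfnF.proj 0)) (hM.sn' (DfnF.proj 0)))
  set B := im (fun u => act P ac (fs u) (sn u))
      (ZFSet.prod Gr (ZFSet.sep (fun w => HS P ac Fl w) Y0)) with hB'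
  have hmB : ∀ z, z ∈ B ↔ ∃ g ∈ Gr, ∃ w ∈ Y0, HS P ac Fl w ∧ z = act P ac g w := by
    intro z
    rw [hB', mem_im]
    constructor
    · rintro ⟨u, hu, rfl⟩
      obtain ⟨g, hg, w, hw, rfl⟩ := ZFSet.mem_prod.1 hu
      rw [ZFSet.mem_sep] at hw
      exact ⟨g, hg, w, hw.1, hw.2, by rw [fs_pair, sn_pair]⟩
    · rintro ⟨g, hg, w, hw, hw', rfl⟩
      exact ⟨pair g w, ZFSet.pair_mem_prod.2 ⟨hg, ZFSet.mem_sep.2 ⟨hw, hw'⟩⟩,
        by rw [fs_pair, sn_pair]⟩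
  obtain ⟨Y, hY', h2⟩ := coverS hM hP hS hG hY2 (by
    intro z hz
    obtain ⟨g, hg, w, hw, hw', rfl⟩ := (hmB z).1 hz
    exact hs_act hS hw' hg) (by
    obtain ⟨H, hH⟩ := hS.ne
    refine ⟨H, hH, fun g hg z hz => ?_⟩
    obtain ⟨h0, hh0, w, hw, hw', rfl⟩ := (hmB z).1 hz
    obtain ⟨k, hk, h3⟩ := hS.mul g (hS.sub H hH hg) h0 hh0
    exact (hmB _).2 ⟨k, hk, w, hw, hw', act_mul (hS.maps h0 hh0) h3 w⟩)
  obtain ⟨y, hy, h3⟩ := nm_sep hM hP hS hG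
    (.ex (.and (.mem (Sum.inl 0) (Sum.inr (ev G X)))
      (φ.subst ![Sum.inl 0, Sum.inl 1])))
    ⟨⟨TOver.inl _, tOver_inr.2 hx'⟩, over_subst _ _ (fun k => by
      fin_cases k <;> exact TOver.inl _) hφ⟩ Y hY'
  have h4 : ∀ w, Sat (Nm M P ac Fl G) id (.ex (.and (.mem (Sum.inl 0) (Sum.inr (ev G X)))
      (φ.subst ![Sum.inl 0, Sum.inl 1]))) ![w] ↔
      ∃ z ∈ ev G X, Sat (Nm M P ac Fl G) id φ ![z, w] := by
    intro w
    simp only [Sat, sat_subst]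
    have h5 : ∀ a, (fun k => Sum.elim (Fin.cons a ![w] : Fin 2 → ZFSet.{0}) id
        ((![Sum.inl 0, Sum.inl 1] : Fin 2 → Fin 2 ⊕ ZFSet.{0}) k)) = ![a, w] := by
      intro a
      funext k
      fin_cases k <;> rfl
    constructor
    · rintro ⟨a, -, h6, h7⟩
      rw [h5] at h7
      exact ⟨a, h6, h7⟩
    · rintro ⟨a, h6, h7⟩
      refine ⟨a, nm_trans hS hM _ hx' _ h6, h6, ?_⟩
      rw [h5]
      exact h7
  refine ⟨y, hy, fun w => ?_⟩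
  rw [h3, h4]
  constructor
  · rintro ⟨h5, h6⟩
    exact ⟨nm_trans hS hM _ hY' _ h5, h6⟩
  · rintro ⟨hw, z, hz, h6⟩
    refine ⟨?_, z, hz, h6⟩
    have hzz := hz
    obtain ⟨a, p, h7, h8, rfl⟩ := mem_ev.1 hz
    obtain ⟨τ, hτ, rfl⟩ := hw
    have haS : a ∈ Sn M P ac Fl :=
      ⟨hM.trans _ (dm_mem hM hX.1) _ (mem_dm h7), (hs_iff.1 hX.2).2 a (mem_dm h7)⟩
    have h9 := (sat_nmS hnm φ hφ ![ev G a, ev G τ]).1.1 h6
    have h10' : ∀ τ', (![ev G a, ev G τ'] : Fin 2 → ZFSet.{0}) = ev G ∘ ![a, τ'] := by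
      intro τ'
      funext k
      fin_cases k <;> rfl
    have hin : ∀ τ' ∈ Sn M P ac Fl, ∀ i, (![a, τ'] : Fin 2 → ZFSet.{0}) i ∈ Sn M P ac Fl := by
      intro τ' hτ' i
      fin_cases i
      · exact haS
      · exact hτ'
    rw [h10', truthS hM hP hS hG (φ.map nm) hO ![a, τ] (hin τ hτ)] at h9
    obtain ⟨q, hq, h11⟩ := h9
    have h12 : pair a q ∈ ZFSet.sep (fun u => ∃ w ∈ M, Q w u) (ZFSet.prod (dm X) P) := by
      refine ZFSet.mem_sep.2 ⟨ZFSet.pair_mem_prod.2 ⟨mem_dm h7, hG.sub hq⟩, τ, hτ.1, hτ.2, ?_⟩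
      rw [fs_pair, sn_pair]
      exact h11
    obtain ⟨w, hw, hwS, hwf⟩ := h10 _ h12
    rw [fs_pair, sn_pair] at hwf
    have hwN : w ∈ Sn M P ac Fl := ⟨hM.trans _ hY0 _ hw, hwS⟩
    have h14 := (truthS hM hP hS hG (φ.map nm) hO ![a, w] (hin w hwN)).2 ⟨q, hq, hwf⟩
    rw [← h10', ← (sat_nmS hnm φ hφ _).1] at h14
    have h16 := (h _ hzz).unique ⟨⟨_, hwN, rfl⟩, h14⟩ ⟨⟨_, hτ, rfl⟩, h6⟩
    rw [h2, ← h16]
    obtain ⟨H, hH⟩ := hS.ne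
    obtain ⟨e, he, he'⟩ := hS.hone H hH
    refine ⟨w, (hmB w).2 ⟨e, hS.sub H hH he, w, hw, hwS, ?_⟩, rfl⟩
    exact (act_id hS (hs_iff.1 hwS).1 he').symm

/-- The symmetric submodel is a model of ZF. -/
theorem isZF_nm : IsZF (Nm M P ac Fl G) where
  trans := nm_trans hS hM
  pairing := nm_pairing hM hP hS hG
  union := nm_union hM hP hS hG
  infinity := sub_nm hM hP hS hG hM.infinity
  power := nm_power hM hP hS hG
  separation := nm_sep hM hP hS hG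
  replacement := nm_replacement hM hP hS hG

/-- The symmetric submodel has the ordinals of the ground model. -/
theorem ord_nm (x : ZFSet.{0}) (hx : x.IsOrdinal) : x ∈ Nm M P ac Fl G ↔ x ∈ M :=
  ⟨fun h => ord_of_ext hM (nm_sub h) hx, fun h => sub_nm hM hP hS hG h⟩

end

end Pool.Agent.H158_PC.AM
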