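import Pool.Agent.H158_PC.Dat
import Pool.Agent.H158_PC.Zf
import Pool.Agent.H158_IT.Gx
import Pool.Agent.H158_PC.Zfe

/-!
# Cohen forcing and the group of flips
-/

set_option autoImplicit false
set_option linter.unusedSectionVars false
set_option linter.unreachableTactic false
set_option linter.unusedTactic false

namespace Pool.Agent.H158_PC

open Pool.Agent.W868 Pool.Agent.W868.GM Pool.Agent.R597 Pool.Agent.Y588 AM
open ZFSet (pair)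

/-- The elements of `b` below `n`. -/
noncomputable def sb (b : Set ℕ) (n : ℕ) : ZFSet.{0} :=
  ZFSet.range fun i : {i : ℕ // i < n ∧ i ∈ b} => nat i.1

theorem mem_sb {b : Set ℕ} {n : ℕ} {z : ZFSet.{0}} :
    z ∈ sb b n ↔ ∃ i, i < n ∧ i ∈ b ∧ z = nat i := by
  rw [sb, ZFSet.mem_range]
  constructor
  · rintro ⟨⟨i, h1, h2⟩, rfl⟩
    exact ⟨i, h1, h2, rfl⟩
  · rintro ⟨i, h1, h2, rfl⟩
    exact ⟨⟨i, h1, h2⟩, rfl⟩

theorem nat_mem_sb {b : Set ℕ} {n i : ℕ} : nat i ∈ sb b n ↔ i < n ∧ i ∈ b := by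
  rw [mem_sb]
  constructor
  · rintro ⟨j, h1, h2, h⟩
    rw [nat_injective h]
    exact ⟨h1, h2⟩
  · exact fun h => ⟨i, h.1, h.2, rfl⟩

theorem isHF_sb (b : Set ℕ) (n : ℕ) : IsHF (sb b n) := by
  classical
  have h : sb b n = fsr ((Finset.range n).filter fun i => i ∈ b) nat := by
    ext z
    rw [mem_sb, mem_fsr]
    refine exists_congr fun i => ?_
    rw [Finset.mem_filter, Finset.mem_range]
    tauto
  rw [h]
  exact isHF_fsr fun i _ => isHF_nat i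

/-- The condition of length `n` given by `b`. -/
noncomputable def cn (n : ℕ) (b : Set ℕ) : ZFSet.{0} := pair (nat n) (sb b n)

theorem sb_congr {b c : Set ℕ} {n : ℕ} (h : ∀ i < n, (i ∈ b ↔ i ∈ c)) : sb b n = sb c n := by
  ext z
  rw [mem_sb, mem_sb]
  refine exists_congr fun i => and_congr_right fun hi => ?_
  rw [h i hi]

theorem sb_inj {b c : Set ℕ} {n : ℕ} (h : sb b n = sb c n) : ∀ i < n, (i ∈ b ↔ i ∈ c) := by
  intro i hi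
  have h1 : nat i ∈ sb b n ↔ nat i ∈ sb c n := by rw [h]
  rw [nat_mem_sb, nat_mem_sb] at h1
  tauto

theorem cn_congr {b c : Set ℕ} {n : ℕ} (h : ∀ i < n, (i ∈ b ↔ i ∈ c)) : cn n b = cn n c := by
  rw [cn, cn, sb_congr h]

theorem cn_inj {b c : Set ℕ} {n m : ℕ} (h : cn n b = cn m c) :
    n = m ∧ ∀ i < n, (i ∈ b ↔ i ∈ c) := by
  obtain ⟨h1, h2⟩ := ZFSet.pair_inj.1 h
  have h3 := nat_injective h1
  subst h3
  exact ⟨rfl, sb_inj h2⟩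

theorem isHF_cn (n : ℕ) (b : Set ℕ) : IsHF (cn n b) := (isHF_nat n).pair (isHF_sb b n)

/-- Cohen forcing. -/
noncomputable def PP : ZFSet.{0} := ZFSet.range fun p : ℕ × Set ℕ => cn p.1 p.2

theorem mem_PP {z : ZFSet.{0}} : z ∈ PP ↔ ∃ n b, z = cn n b := by
  rw [PP, ZFSet.mem_range]
  constructor
  · rintro ⟨⟨n, b⟩, rfl⟩
    exact ⟨n, b, rfl⟩
  · rintro ⟨n, b, rfl⟩
    exact ⟨⟨n, b⟩, rfl⟩

theorem cn_mem_PP (n : ℕ) (b : Set ℕ) : cn n b ∈ PP := mem_PP.2 ⟨n, b, rfl⟩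

/-- The order of Cohen forcing. -/
noncomputable def LL : ZFSet.{0} :=
  ZFSet.sep (fun z => fs (sn z) ⊆ fs (fs z) ∧ ∀ x ∈ fs (sn z), (x ∈ sn (fs z) ↔ x ∈ sn (sn z)))
    (ZFSet.prod PP PP)

theorem nat_sub {m n : ℕ} : nat m ⊆ nat n ↔ m ≤ n := by
  constructor
  · intro h
    by_contra hc
    have h1 : nat n ∈ nat m := mem_natK.2 ⟨n, by omega, rfl⟩
    obtain ⟨i, hi, h2⟩ := mem_natK.1 (h h1)
    have := nat_injective h2
    omega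
  · intro h z hz
    obtain ⟨i, hi, rfl⟩ := mem_natK.1 hz
    exact mem_natK.2 ⟨i, by omega, rfl⟩

theorem le_iff {n m : ℕ} {b c : Set ℕ} :
    pair (cn m c) (cn n b) ∈ LL ↔ n ≤ m ∧ ∀ i < n, (i ∈ c ↔ i ∈ b) := by
  rw [LL, ZFSet.mem_sep, fs_pair, sn_pair, cn, cn, fs_pair, sn_pair, fs_pair, sn_pair, nat_sub]
  constructor
  · rintro ⟨-, h1, h2⟩
    refine ⟨h1, fun i hi => ?_⟩
    have h3 := h2 (nat i) (mem_natK.2 ⟨i, hi, rfl⟩)
    rw [nat_mem_sb, nat_mem_sb] at h3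
    have h4 : i < m := by omega
    tauto
  · rintro ⟨h1, h2⟩
    refine ⟨ZFSet.pair_mem_prod.2 ⟨cn_mem_PP m c, cn_mem_PP n b⟩, h1, fun x hx => ?_⟩
    obtain ⟨i, hi, rfl⟩ := mem_natK.1 hx
    rw [nat_mem_sb, nat_mem_sb, h2 i hi]
    have h4 : i < m := by omega
    tauto

/-- The set `b` as a set of numbers. -/
noncomputable def nm (b : Set ℕ) : ZFSet.{0} := ZFSet.range fun i : {i : ℕ // i ∈ b} => nat i.1

theorem mem_nm {b : Set ℕ} {z : ZFSet.{0}} : z ∈ nm b ↔ ∃ i, i ∈ b ∧ z = nat i := by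
  rw [nm, ZFSet.mem_range]
  constructor
  · rintro ⟨⟨i, h1⟩, rfl⟩
    exact ⟨i, h1, rfl⟩
  · rintro ⟨i, h1, rfl⟩
    exact ⟨⟨i, h1⟩, rfl⟩

theorem nat_mem_nm {b : Set ℕ} {i : ℕ} : nat i ∈ nm b ↔ i ∈ b := by
  rw [mem_nm]
  constructor
  · rintro ⟨j, h1, h⟩
    rwa [nat_injective h]
  · exact fun h => ⟨i, h, rfl⟩

theorem nm_sub_om (b : Set ℕ) : nm b ⊆ ZFSet.omega := by
  intro z hz
  obtain ⟨i, -, rfl⟩ := mem_nm.1 hz
  exact nat_mem_om i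

/-- The set of numbers given by `t`. -/
def st (t : ZFSet.{0}) : Set ℕ := {i | nat i ∈ t}

theorem mem_st {t : ZFSet.{0}} {i : ℕ} : i ∈ st t ↔ nat i ∈ t := Iff.rfl

theorem st_nm (b : Set ℕ) : st (nm b) = b := by
  ext i
  rw [mem_st, nat_mem_nm]

theorem nm_st {t : ZFSet.{0}} (ht : t ⊆ ZFSet.omega) : nm (st t) = t := by
  ext z
  rw [mem_nm]
  constructor
  · rintro ⟨i, h, rfl⟩
    exact h
  · intro hz
    obtain ⟨i, rfl⟩ := mem_omega_iff.1 (ht hz)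
    exact ⟨i, hz, rfl⟩

theorem nm_inj {b c : Set ℕ} (h : nm b = nm c) : b = c := by rw [← st_nm b, h, st_nm]

section mem

variable {K : Set ZFSet.{0}} (hK : IsZF K) (he : eg ∈ K)

include hK he

theorem PP_mem : PP ∈ K := by
  have hB := hK.base
  have hω := hK.infinity
  have hH := HFs_mem hK he
  have h1 : PP = im (fun u => pair (fs u) (ZFSet.sep (fun x => x ∈ sn u) (fs u)))
      (ZFSet.prod ZFSet.omega HFs) := by
    ext z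
    rw [mem_PP, mem_im]
    constructor
    · rintro ⟨n, b, rfl⟩
      refine ⟨cn n b, ZFSet.pair_mem_prod.2 ⟨nat_mem_om n, mem_HFs.2 (isHF_sb b n)⟩, ?_⟩
      rw [cn, fs_pair, sn_pair]
      congr 1
      ext x
      rw [ZFSet.mem_sep]
      constructor
      · intro h
        obtain ⟨i, h1, h2, rfl⟩ := mem_sb.1 h
        exact ⟨mem_natK.2 ⟨i, h1, rfl⟩, h⟩
      · exact fun h => h.2
    · rintro ⟨u, hu, rfl⟩
      obtain ⟨a, ha, b, hb, rfl⟩ := ZFSet.mem_prod.1 hu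
      obtain ⟨n, rfl⟩ := mem_omega_iff.1 ha
      refine ⟨n, st b, ?_⟩
      rw [cn, fs_pair, sn_pair]
      congr 1
      ext x
      rw [ZFSet.mem_sep, mem_sb, mem_natK]
      constructor
      · rintro ⟨⟨i, hi, rfl⟩, h⟩
        exact ⟨i, hi, h, rfl⟩
      · rintro ⟨i, hi, h, rfl⟩
        exact ⟨⟨i, hi, rfl⟩, h⟩
  rw [h1]
  refine hK.im_mem (hK.prod_mem hω hH) (hB.pair' (hK.fs' (DfnF.proj 0)) ?_)
  exact hK.sep' (Q := fun x w => x ∈ sn (w 0)) (hK.fs' (DfnF.proj 0))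
    (Dfn.mem (DfnF.proj 0) (hK.sn' (DfnF.proj 1)))

theorem LL_mem : LL ∈ K := by
  have hB := hK.base
  have hP := PP_mem hK he
  refine hK.sep_mem ?_ (hK.prod_mem hP hP)
  refine (hB.subset' (hK.fs' (hK.sn' (DfnF.proj 0))) (hK.fs' (hK.fs' (DfnF.proj 0)))).and ?_
  refine hB.ball (hK.fs' (hK.sn' (DfnF.proj 0))) ?_
  exact (Dfn.mem (DfnF.proj 0) (hK.sn' (hK.fs' (DfnF.proj 1)))).iff
    (Dfn.mem (DfnF.proj 0) (hK.sn' (hK.sn' (DfnF.proj 1))))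

theorem forcing_PP : IsForcing K PP LL where
  mem := PP_mem hK he
  le_mem := LL_mem hK he
  refl := by
    intro p hp
    obtain ⟨n, b, rfl⟩ := mem_PP.1 hp
    exact le_iff.2 ⟨le_rfl, fun _ _ => Iff.rfl⟩
  trans := by
    intro p hp q hq r hr h1 h2
    obtain ⟨n, b, rfl⟩ := mem_PP.1 hp
    obtain ⟨m, c, rfl⟩ := mem_PP.1 hq
    obtain ⟨l, d, rfl⟩ := mem_PP.1 hr
    rw [le_iff] at h1 h2 ⊢
    exact ⟨by omega, fun i hi => (h1.2 i (by omega)).trans (h2.2 i hi)⟩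
  top := ⟨cn 0 ∅, cn_mem_PP _ _, fun p hp => by
    obtain ⟨n, b, rfl⟩ := mem_PP.1 hp
    exact le_iff.2 ⟨by omega, fun i hi => by omega⟩⟩

end mem

/-- The filter of the set `g`. -/
noncomputable def Gf (g : Set ℕ) : ZFSet.{0} := ZFSet.range fun n : ℕ => cn n g

theorem mem_Gf {g : Set ℕ} {z : ZFSet.{0}} : z ∈ Gf g ↔ ∃ n, z = cn n g := by
  rw [Gf, ZFSet.mem_range]
  exact exists_congr fun n => eq_comm

theorem cn_mem_Gf {g b : Set ℕ} {n : ℕ} : cn n b ∈ Gf g ↔ ∀ i < n, (i ∈ b ↔ i ∈ g) := by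
  rw [mem_Gf]
  constructor
  · rintro ⟨m, h⟩
    exact (cn_inj h).2
  · exact fun h => ⟨n, cn_congr h⟩

theorem Gf_inj {g h : Set ℕ} (hg : Gf g = Gf h) : g = h := by
  ext i
  have h1 : cn (i + 1) g ∈ Gf h := hg ▸ mem_Gf.2 ⟨i + 1, rfl⟩
  exact cn_mem_Gf.1 h1 i (Nat.lt_succ_self i)

/-- The set `g` is Cohen generic over `K`. -/
def Gn (K : Set ZFSet.{0}) (g : Set ℕ) : Prop :=
  ∀ D ∈ K, D ⊆ PP → (∀ p ∈ PP, ∃ q ∈ D, pair q p ∈ LL) → ∃ n, cn n g ∈ D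

theorem gen_of_Gn {K : Set ZFSet.{0}} {g : Set ℕ} (h : Gn K g) : IsGeneric K PP LL (Gf g) where
  sub := by
    intro z hz
    obtain ⟨n, rfl⟩ := mem_Gf.1 hz
    exact cn_mem_PP n g
  nonempty := ⟨cn 0 g, mem_Gf.2 ⟨0, rfl⟩⟩
  up := by
    intro q hq p hp hqp
    obtain ⟨n, rfl⟩ := mem_Gf.1 hq
    obtain ⟨m, c, rfl⟩ := mem_PP.1 hp
    rw [le_iff] at hqp
    exact cn_mem_Gf.2 fun i hi => (hqp.2 i hi).symm
  dir := by
    intro p hp q hq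
    obtain ⟨n, rfl⟩ := mem_Gf.1 hp
    obtain ⟨m, rfl⟩ := mem_Gf.1 hq
    exact ⟨cn (max n m) g, mem_Gf.2 ⟨_, rfl⟩, le_iff.2 ⟨le_max_left _ _, fun _ _ => Iff.rfl⟩,
      le_iff.2 ⟨le_max_right _ _, fun _ _ => Iff.rfl⟩⟩
  meet := by
    intro D hD hDP hd
    obtain ⟨n, hn⟩ := h D hD hDP hd
    exact ⟨_, hn, mem_Gf.2 ⟨n, rfl⟩⟩

theorem Gn_of_gen {K : Set ZFSet.{0}} (hK : IsZF K) (he : eg ∈ K) {G : ZFSet.{0}}
    (hG : IsGeneric K PP LL G) : ∃ g, G = Gf g ∧ Gn K g := by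
  have hB := hK.base
  have hP := PP_mem hK he
  set g : Set ℕ := {i | ∃ p ∈ G, nat i ∈ sn p} with hg
  have hA : ∀ n b, cn n b ∈ G → cn n b = cn n g := by
    intro n b hb
    refine cn_congr fun i hi => ?_
    constructor
    · intro h
      exact ⟨_, hb, by rw [cn, sn_pair]; exact nat_mem_sb.2 ⟨hi, h⟩⟩
    · rintro ⟨p, hp, h⟩
      obtain ⟨n', b', rfl⟩ := mem_PP.1 (hG.sub hp)
      rw [cn, sn_pair, nat_mem_sb] at h
      obtain ⟨r, hr, h1, h2⟩ := hG.dir _ hb _ hp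
      obtain ⟨m, c, rfl⟩ := mem_PP.1 (hG.sub hr)
      rw [le_iff] at h1 h2
      exact (h1.2 i hi).1 ((h2.2 i h.1).2 h.2)
  have hL : ∀ n : ℕ, ∃ m b, n ≤ m ∧ cn m b ∈ G := by
    intro n
    have hn := hK.nat_mem n
    obtain ⟨q, hq, hqG⟩ := hG.meet (ZFSet.sep (fun p => nat n ⊆ fs p) PP)
      (hK.sep_mem (Q := fun p => nat n ⊆ fs p)
        (hB.subset' (DfnF.const hn) (hK.fs' (DfnF.proj 0))) hP)
      (fun z hz => (ZFSet.mem_sep.1 hz).1) (by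
        intro p hp
        obtain ⟨m, b, rfl⟩ := mem_PP.1 hp
        refine ⟨cn (max n m) b, ZFSet.mem_sep.2 ⟨cn_mem_PP _ _, ?_⟩,
          le_iff.2 ⟨le_max_right _ _, fun _ _ => Iff.rfl⟩⟩
        rw [cn, fs_pair, nat_sub]
        exact le_max_left _ _)
    obtain ⟨h1, h2⟩ := ZFSet.mem_sep.1 hq
    obtain ⟨m, b, rfl⟩ := mem_PP.1 h1
    rw [cn, fs_pair, nat_sub] at h2
    exact ⟨m, b, h2, hqG⟩
  have hall : ∀ n, cn n g ∈ G := by
    intro n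
    obtain ⟨m, b, hm, hb⟩ := hL n
    have h1 := hb
    rw [hA m b hb] at h1
    exact hG.up _ h1 _ (cn_mem_PP n g) (le_iff.2 ⟨hm, fun _ _ => Iff.rfl⟩)
  have hGg : G = Gf g := by
    ext z
    rw [mem_Gf]
    constructor
    · intro hz
      obtain ⟨n, b, rfl⟩ := mem_PP.1 (hG.sub hz)
      exact ⟨n, hA n b hz⟩
    · rintro ⟨n, rfl⟩
      exact hall n
  refine ⟨g, hGg, fun D hD hDP hd => ?_⟩
  obtain ⟨q, hq, hqG⟩ := hG.meet D hD hDP hd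
  rw [hGg, mem_Gf] at hqG
  obtain ⟨n, rfl⟩ := hqG
  exact ⟨n, hq⟩

theorem Gn.mono {K K' : Set ZFSet.{0}} {g : Set ℕ} (h : Gn K g) (hK : K' ⊆ K) : Gn K' g :=
  fun D hD hDP hd => h D (hK hD) hDP hd

/-! ### The flips -/

/-- The symmetric difference. -/
def xr (b c : Set ℕ) : Set ℕ := {i | ¬ (i ∈ b ↔ i ∈ c)}

theorem mem_xr {b c : Set ℕ} {i : ℕ} : i ∈ xr b c ↔ ¬ (i ∈ b ↔ i ∈ c) := Iff.rfl

theorem xr_xr (b c : Set ℕ) : xr (xr b c) c = b := by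
  ext i
  rw [mem_xr, mem_xr]
  tauto

/-- The flip of a condition. -/
noncomputable def ac (t p : ZFSet.{0}) : ZFSet.{0} :=
  pair (fs p) (ZFSet.sep (fun x => ¬ (x ∈ sn p ↔ x ∈ t)) (fs p))

theorem ac_cn (t : ZFSet.{0}) (n : ℕ) (b : Set ℕ) : ac t (cn n b) = cn n (xr b (st t)) := by
  rw [ac, cn, cn, fs_pair, sn_pair]
  congr 1
  ext x
  rw [ZFSet.mem_sep, mem_natK]
  constructor
  · rintro ⟨⟨i, hi, rfl⟩, h⟩
    refine nat_mem_sb.2 ⟨hi, ?_⟩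
    rw [nat_mem_sb] at h
    rw [mem_xr, mem_st]
    tauto
  · intro hx
    obtain ⟨i, hi, h, rfl⟩ := mem_sb.1 hx
    refine ⟨⟨i, hi, rfl⟩, ?_⟩
    rw [nat_mem_sb]
    rw [mem_xr, mem_st] at h
    tauto

theorem ac_ac (t : ZFSet.{0}) {p : ZFSet.{0}} (hp : p ∈ PP) : ac t (ac t p) = p := by
  obtain ⟨n, b, rfl⟩ := mem_PP.1 hp
  rw [ac_cn, ac_cn, xr_xr]

theorem ac_mem (t : ZFSet.{0}) {p : ZFSet.{0}} (hp : p ∈ PP) : ac t p ∈ PP := by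
  obtain ⟨n, b, rfl⟩ := mem_PP.1 hp
  rw [ac_cn]
  exact cn_mem_PP _ _

theorem ac_mem_Gf (t : ZFSet.{0}) {g : Set ℕ} {p : ZFSet.{0}} (hp : p ∈ PP) :
    ac t p ∈ Gf g ↔ p ∈ Gf (xr g (st t)) := by
  obtain ⟨n, b, rfl⟩ := mem_PP.1 hp
  rw [ac_cn, cn_mem_Gf, cn_mem_Gf]
  refine forall_congr' fun i => forall_congr' fun _ => ?_
  rw [mem_xr, mem_xr]
  tauto

/-- The sets of numbers in the model. -/
noncomputable def Grp (V : Set ZFSet.{0}) : ZFSet.{0} :=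
  ZFSet.sep (fun z => z ∈ V) (ZFSet.powerset ZFSet.omega)

theorem mem_Grp {V : Set ZFSet.{0}} {z : ZFSet.{0}} : z ∈ Grp V ↔ z ∈ V ∧ z ⊆ ZFSet.omega := by
  rw [Grp, ZFSet.mem_sep, ZFSet.mem_powerset]
  exact and_comm

/-- The flips that do not touch the columns below `z`. -/
noncomputable def Hm (V : Set ZFSet.{0}) (z : ZFSet.{0}) : ZFSet.{0} :=
  ZFSet.sep (fun t => ∀ x ∈ t, ¬ x ∈ Sm z) (Grp V)

theorem mem_Hm {V : Set ZFSet.{0}} {m : ℕ} {t : ZFSet.{0}} : t ∈ Hm V (nat m) ↔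
    t ∈ Grp V ∧ ∀ i ∈ st t, m ≤ i.unpair.1 := by
  rw [Hm, ZFSet.mem_sep]
  refine and_congr_right fun ht => ?_
  constructor
  · intro h i hi
    by_contra hc
    exact h (nat i) hi (nat_mem_Sm.2 (by omega))
  · intro h x hx hxm
    obtain ⟨i, hi, rfl⟩ := mem_Sm.1 hxm
    have := h i hx
    omega

noncomputable def Fl (V : Set ZFSet.{0}) : ZFSet.{0} := im (Hm V) ZFSet.omega

theorem mem_Fl {V : Set ZFSet.{0}} {H : ZFSet.{0}} : H ∈ Fl V ↔ ∃ m : ℕ, H = Hm V (nat m) := by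
  rw [Fl, mem_im]
  constructor
  · rintro ⟨a, ha, rfl⟩
    obtain ⟨m, rfl⟩ := mem_omega_iff.1 ha
    exact ⟨m, rfl⟩
  · rintro ⟨m, rfl⟩
    exact ⟨_, nat_mem_om m, rfl⟩

section sys

variable {V : Set ZFSet.{0}} (hV : IsZF V) (hA : dA ∈ V)

include hV

theorem Grp_mem : Grp V ∈ V := by
  obtain ⟨y, hy, h⟩ := hV.power _ hV.infinity
  have h1 : Grp V = y := by
    ext z
    rw [mem_Grp, h]
  rw [h1]
  exact hy

theorem dfn_ac : DfnF V V fun w : Fin 2 → ZFSet.{0} => ac (w 0) (w 1) := by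
  have hB := hV.base
  refine hB.pair' (hV.fs' (DfnF.proj 1)) ?_
  refine hV.sep' (Q := fun x w => ¬ (x ∈ sn (w 1) ↔ x ∈ w 0)) (hV.fs' (DfnF.proj 1)) ?_
  exact ((Dfn.mem (DfnF.proj 0) (hV.sn' (DfnF.proj 2))).iff
    (Dfn.mem (DfnF.proj 0) (DfnF.proj 1))).not

/-- The symmetric difference of two sets of numbers in the model. -/
theorem xr_mem {b c : Set ℕ} (hb : nm b ∈ V) (hc : nm c ∈ V) : nm (xr b c) ∈ V := by
  have h1 : nm (xr b c) = ZFSet.sep (fun x => ¬ (x ∈ nm b ↔ x ∈ nm c)) ZFSet.omega := by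
    ext x
    rw [ZFSet.mem_sep]
    constructor
    · intro hx
      obtain ⟨i, hi, rfl⟩ := mem_nm.1 hx
      refine ⟨nat_mem_om i, ?_⟩
      rw [nat_mem_nm, nat_mem_nm]
      exact hi
    · rintro ⟨hx, h⟩
      obtain ⟨i, rfl⟩ := mem_omega_iff.1 hx
      rw [nat_mem_nm, nat_mem_nm] at h
      exact nat_mem_nm.2 h
  rw [h1]
  refine hV.sep_mem ?_ hV.infinity
  exact ((Dfn.mem (DfnF.proj 0) (DfnF.const hb)).iff (Dfn.mem (DfnF.proj 0) (DfnF.const hc))).not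

theorem nm_mem_Grp {b : Set ℕ} (hb : nm b ∈ V) : nm b ∈ Grp V := mem_Grp.2 ⟨hb, nm_sub_om b⟩

include hA

theorem dfn_Hm : DfnF V V fun w : Fin 1 → ZFSet.{0} => Hm V (w 0) := by
  have hB := hV.base
  refine hV.sep' (Q := fun t w => ∀ x ∈ t, ¬ x ∈ Sm (w 0)) (DfnF.const (Grp_mem hV)) ?_
  refine hB.ball (DfnF.proj 0) ?_
  exact (Dfn.mem (DfnF.proj 0) (dfn_Sm hV (SS_mem hV hA) (DfnF.proj 2))).not

theorem symSys : SymSys V PP LL ac (Grp V) (Fl V) where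
  gr := Grp_mem hV
  fl := hV.im_mem hV.infinity (dfn_Hm hV hA)
  dac := dfn_ac hV
  maps := fun g _ p hp => ac_mem g hp
  mono := by
    intro g _ p hp q hq h
    obtain ⟨n, b, rfl⟩ := mem_PP.1 hp
    obtain ⟨m, c, rfl⟩ := mem_PP.1 hq
    rw [ac_cn, ac_cn, le_iff]
    rw [le_iff] at h
    refine ⟨h.1, fun i hi => ?_⟩
    rw [mem_xr, mem_xr, h.2 i hi]
  inv := fun g hg => ⟨g, hg, fun p hp => ⟨ac_ac g hp, ac_ac g hp⟩⟩
  mul := by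
    intro g hg h hh
    obtain ⟨h1, h2⟩ := mem_Grp.1 hg
    obtain ⟨h3, h4⟩ := mem_Grp.1 hh
    rw [← nm_st h2] at h1
    rw [← nm_st h4] at h3
    refine ⟨nm (xr (st g) (st h)), nm_mem_Grp hV (xr_mem hV h1 h3), fun p hp => ?_⟩
    obtain ⟨n, b, rfl⟩ := mem_PP.1 hp
    rw [ac_cn, ac_cn, ac_cn, st_nm]
    refine cn_congr fun i _ => ?_
    simp only [mem_xr]
    tauto
  ne := ⟨_, mem_Fl.2 ⟨0, rfl⟩⟩
  sub := by
    intro H hH
    obtain ⟨m, rfl⟩ := mem_Fl.1 hH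
    exact fun t ht => (mem_Hm.1 ht).1
  hone := by
    intro H hH
    obtain ⟨m, rfl⟩ := mem_Fl.1 hH
    refine ⟨∅, mem_Hm.2 ⟨mem_Grp.2 ⟨hV.empty_mem, fun z hz => absurd hz
      (ZFSet.notMem_empty _)⟩, fun i hi => absurd hi (ZFSet.notMem_empty _)⟩, fun p hp => ?_⟩
    obtain ⟨n, b, rfl⟩ := mem_PP.1 hp
    rw [ac_cn]
    refine cn_congr fun i _ => ?_
    have h : ¬ i ∈ st ∅ := ZFSet.notMem_empty _
    rw [mem_xr]
    tauto
  hinv := fun H _ g hg => ⟨g, hg, fun p hp => ⟨ac_ac g hp, ac_ac g hp⟩⟩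
  dir := by
    intro H hH K hK
    obtain ⟨m, rfl⟩ := mem_Fl.1 hH
    obtain ⟨l, rfl⟩ := mem_Fl.1 hK
    refine ⟨_, mem_Fl.2 ⟨max m l, rfl⟩, fun t ht => ?_, fun t ht => ?_⟩
    · obtain ⟨h1, h2⟩ := mem_Hm.1 ht
      exact mem_Hm.2 ⟨h1, fun i hi => le_trans (le_max_left _ _) (h2 i hi)⟩
    · obtain ⟨h1, h2⟩ := mem_Hm.1 ht
      exact mem_Hm.2 ⟨h1, fun i hi => le_trans (le_max_right _ _) (h2 i hi)⟩
  conj := by
    intro H hH g _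
    refine ⟨H, hH, fun k hk => ⟨k, hk, fun p hp => ?_⟩⟩
    obtain ⟨n, b, rfl⟩ := mem_PP.1 hp
    rw [ac_cn, ac_cn, ac_cn, ac_cn]
    refine cn_congr fun i _ => ?_
    simp only [mem_xr]
    tauto
  top := ⟨cn 0 ∅, cn_mem_PP _ _, fun p hp => by
    obtain ⟨n, b, rfl⟩ := mem_PP.1 hp
    exact le_iff.2 ⟨by omega, fun i hi => by omega⟩, fun g _ => by
    rw [ac_cn]
    exact cn_congr fun i hi => by omega⟩

omit hA in
/-- Flips in the model preserve genericity. -/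
theorem Gn_flip {g : Set ℕ} (hg : Gn V g) {t : ZFSet.{0}} (ht : t ∈ V) :
    Gn V (xr g (st t)) := by
  intro D hD hDP hd
  have h1 : im (ac t) D ∈ V := hV.im_mem hD
    (DfnF.comp2 (f := ac) (dfn_ac hV) (DfnF.const ht) (DfnF.proj 0))
  obtain ⟨n, hn⟩ := hg _ h1 (by
    intro z hz
    obtain ⟨p, hp, rfl⟩ := mem_im.1 hz
    exact ac_mem t (hDP hp)) (by
    intro p hp
    obtain ⟨q, hq, h2⟩ := hd (ac t p) (ac_mem t hp)
    refine ⟨ac t q, mem_im.2 ⟨q, hq, rfl⟩, ?_⟩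
    obtain ⟨n, b, rfl⟩ := mem_PP.1 hp
    obtain ⟨m, c, rfl⟩ := mem_PP.1 (hDP hq)
    rw [ac_cn] at h2 ⊢
    rw [le_iff] at h2 ⊢
    refine ⟨h2.1, fun i hi => ?_⟩
    have h3 := h2.2 i hi
    rw [mem_xr] at h3
    rw [mem_xr]
    tauto)
  obtain ⟨q, hq, h2⟩ := mem_im.1 hn
  obtain ⟨m, c, rfl⟩ := mem_PP.1 (hDP hq)
  rw [ac_cn] at h2
  obtain ⟨rfl, h3⟩ := cn_inj h2
  refine ⟨n, ?_⟩
  have h4 : cn n (xr g (st t)) = cn n c := by
    refine cn_congr fun i hi => ?_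
    have h5 := h3 i hi
    rw [mem_xr] at h5
    rw [mem_xr]
    tauto
  rw [h4]
  exact hq

end sys

/-- The value of a moved name. -/
theorem ev_act (t : ZFSet.{0}) (g : Set ℕ) (x : ZFSet.{0}) :
    ev (Gf g) (act PP ac t x) = ev (Gf (xr g (st t))) x := by
  induction x using dm_ind with
  | _ x ih =>
  ext z
  rw [mem_ev, mem_ev]
  constructor
  · rintro ⟨y, p, h1, h2, rfl⟩
    obtain ⟨y', c, h3, h4, h5⟩ := mem_act.1 h1
    obtain ⟨rfl, rfl⟩ := ZFSet.pair_inj.1 h5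
    exact ⟨y', c, h3, (ac_mem_Gf t h4).1 h2, (ih y' (mem_dm h3)).symm⟩
  · rintro ⟨y, p, h1, h2, rfl⟩
    have hp : p ∈ PP := by
      obtain ⟨n, rfl⟩ := mem_Gf.1 h2
      exact cn_mem_PP _ _
    exact ⟨_, _, mem_act.2 ⟨y, p, h1, hp, rfl⟩, (ac_mem_Gf t hp).2 h2, ih y (mem_dm h1)⟩

end Pool.Agent.H158_PC
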