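import Pool.Agent.H158_PC.Sk
import Pool.Agent.W868.Cond

/-!
# Coded structures that witness constructibility
-/

set_option autoImplicit false
set_option linter.unusedSectionVars false
set_option linter.unreachableTactic false
set_option linter.unusedTactic false

namespace Pool.Agent.H158_PC

open Pool.Agent.W868
open ZFSet (pair)

/-- The formula that defines constructibility witnesses. -/
noncomputable def psiF : Fml Empty 3 := d0_Psi.choose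

theorem psiF_spec {M : Set ZFSet.{0}} (hM : ∀ x ∈ M, ∀ y ∈ x, y ∈ M) {v : Fin 3 → ZFSet.{0}}
    (hv : ∀ i, v i ∈ M) : Sat M Empty.elim psiF v ↔ Psi (v 0) (v 1) (v 2) :=
  d0_Psi.choose_spec M hM v hv

def wE (w : ℕ → ℕ) (a b : ℕ) : Prop := w (Nat.pair 0 (Nat.pair 0 (Nat.pair a b))) ≠ 0

def wd (w : ℕ → ℕ) (a b : ℕ) : ℕ := w (Nat.pair 0 (Nat.pair 1 (Nat.pair a b)))

def wg (w : ℕ → ℕ) (z : ℕ) : ℕ := w (Nat.pair 0 (Nat.pair 2 z))

def wQ (w : ℕ → ℕ) (a b : ℕ) : Prop := wE w (wd w a b) a ↔ wE w (wd w a b) b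

def ixH (i : ℕ) : ℕ := Nat.pair 0 i

def ixA : ℕ := Nat.pair 2 0

def ixY : ℕ := Nat.pair 3 0

def ixF : ℕ := Nat.pair 4 0

def s0 : ℕ := Nat.pair ixA (Nat.pair ixY (Nat.pair ixF 0))

/-- The real `w` codes a structure in which the set of the natural numbers at which `y` and `a`
differ is constructible relative to the set given by `χ`. -/
def Cond (y w χ a : ℕ → ℕ) : Prop :=
  (∀ a' b z, wQ w a' b → (wE w z a' ↔ wE w z b)) ∧
  (∀ a' b u, wQ w a' b → wE w a' u → wE w b u) ∧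
  (∀ i j : ℕ, j.testBit i = true → wE w (ixH i) (ixH j)) ∧
  (∀ z j : ℕ, wE w z (ixH j) → j.testBit (wg w z) = true ∧ wQ w z (ixH (wg w z))) ∧
  (∀ i, wE w (ixH i) ixA ↔ χ i ≠ 0) ∧
  (∀ z, wE w z ixA → wQ w z (ixH (wg w z))) ∧
  (∀ n, wE w (ixH (nu n)) ixY ↔ y n ≠ a n) ∧
  (∀ z, wE w z ixY → wQ w z (ixH (wg w z)) ∧ ∃ n, wg w z = nu n) ∧
  (Good (wE w) (wQ w) psiF fun n => w (Nat.pair 1 n)) ∧
  (w (Nat.pair 1 (Nat.pair 0 s0)) ≠ 0) ∧ ∀ n, y n = 0 ∨ y n = 1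

section cp

variable {ι : Type}

theorem ld_wE {f g : (ι → ℕ → ℕ) → ℕ} (i : ι) (hf' : LF f) (hg : LF g) :
    LD fun v => wE (v i) (f v) (g v) :=
  LD.of ((hf'.map2 hg fun a b => Nat.pair 0 (Nat.pair 0 (Nat.pair a b))).app i) fun m => m ≠ 0

theorem lf_wd {f g : (ι → ℕ → ℕ) → ℕ} (i : ι) (hf' : LF f) (hg : LF g) :
    LF fun v => wd (v i) (f v) (g v) :=
  (hf'.map2 hg fun a b => Nat.pair 0 (Nat.pair 1 (Nat.pair a b))).app i

theorem lf_wg {f : (ι → ℕ → ℕ) → ℕ} (i : ι) (hf' : LF f) :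
    LF fun v => wg (v i) (f v) :=
  (hf'.map fun a => Nat.pair 0 (Nat.pair 2 a)).app i

theorem ld_wQ {f g : (ι → ℕ → ℕ) → ℕ} (i : ι) (hf' : LF f) (hg : LF g) :
    LD fun v => wQ (v i) (f v) (g v) :=
  (ld_wE i (lf_wd i hf' hg) hf').iff (ld_wE i (lf_wd i hf' hg) hg)

theorem cp_cond : CP fun v : Fin 4 → ℕ → ℕ => Cond (v 0) (v 1) (v 2) (v 3) := by
  unfold Cond
  have c : ∀ n : ℕ, LF fun _ : Fin 4 → ℕ → ℕ => n := LF.cst
  refine CP.and ?_ (CP.and ?_ (CP.and ?_ (CP.and ?_ (CP.and ?_ (CP.and ?_ (CP.and ?_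
    (CP.and ?_ (CP.and ?_ (CP.and ?_ ?_)))))))))
  · exact CP.all fun a => CP.all fun b => CP.all fun z => CP.of
      ((ld_wQ 1 (c a) (c b)).imp ((ld_wE 1 (c z) (c a)).iff (ld_wE 1 (c z) (c b))))
  · exact CP.all fun a => CP.all fun b => CP.all fun u => CP.of
      ((ld_wQ 1 (c a) (c b)).imp ((ld_wE 1 (c a) (c u)).imp (ld_wE 1 (c b) (c u))))
  · exact CP.all fun i => CP.all fun j => CP.of
      ((LD.of (c 0) fun _ => j.testBit i = true).imp (ld_wE 1 (c (ixH i)) (c (ixH j))))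
  · exact CP.all fun z => CP.all fun j => CP.of
      ((ld_wE 1 (c z) (c (ixH j))).imp ((LD.of (lf_wg 1 (c z)) fun m => j.testBit m = true).and
        (ld_wQ 1 (c z) ((lf_wg 1 (c z)).map ixH))))
  · exact CP.all fun i => CP.of
      ((ld_wE 1 (c (ixH i)) (c ixA)).iff (LD.of ((c i).app 2) fun m => m ≠ 0))
  · exact CP.all fun z => CP.of
      ((ld_wE 1 (c z) (c ixA)).imp (ld_wQ 1 (c z) ((lf_wg 1 (c z)).map ixH)))
  · exact CP.all fun n => CP.of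
      ((ld_wE 1 (c (ixH (nu n))) (c ixY)).iff (LD.of2 ((c n).app 0) ((c n).app 3)
        fun p q => p ≠ q))
  · exact CP.all fun z => CP.of
      ((ld_wE 1 (c z) (c ixY)).imp ((ld_wQ 1 (c z) ((lf_wg 1 (c z)).map ixH)).and
        (LD.of (lf_wg 1 (c z)) fun m => ∃ n, m = nu n)))
  · exact good_cp (E := fun v : Fin 4 → ℕ → ℕ => wE (v 1)) (Q := fun v => wQ (v 1))
      (fun a b => ld_wE 1 (c a) (c b)) (fun a b => ld_wQ 1 (c a) (c b)) psiF
      (fun v n => v 1 (Nat.pair 1 n)) fun f hf' => (hf'.map fun m => Nat.pair 1 m).app 1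
  · exact CP.of (LD.of ((c _).app 1) fun m => m ≠ 0)
  · exact CP.all fun n => CP.of ((LD.of ((c n).app 0) fun m => m = 0).or
      (LD.of ((c n).app 0) fun m => m = 1))

end cp

/-! ### The collapse -/

section val

variable {E : ℕ → ℕ → Prop} (h : WellFounded E)

/-- The collapse. -/
noncomputable def vl : ℕ → ZFSet.{0} :=
  h.fix fun p ih => ZFSet.range fun q : {q // E q p} => ih q.1 q.2

theorem mem_vl {p : ℕ} {z : ZFSet.{0}} : z ∈ vl h p ↔ ∃ q, E q p ∧ z = vl h q := by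
  have h1 : vl h p = ZFSet.range fun q : {q // E q p} => vl h q.1 := h.fix_eq _ p
  rw [h1, ZFSet.mem_range]
  constructor
  · rintro ⟨⟨q, hq⟩, rfl⟩
    exact ⟨q, hq, rfl⟩
  · rintro ⟨q, hq, rfl⟩
    exact ⟨⟨q, hq⟩, rfl⟩

end val

section sound

variable {y w χ a : ℕ → ℕ} (hw : WellFounded (wE w)) (hc : Cond y w χ a)

include hc

theorem vl_pred : ∀ p q, vl hw p = vl hw q → ∀ z, wE w z p ↔ wE w z q := by
  obtain ⟨c1, c2, -⟩ := hc
  intro p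
  induction p using hw.induction with
  | _ p ih =>
  intro q hpq z
  have key : ∀ u u', vl hw u = vl hw u' → wE w u p → wQ w u u' ∧ wQ w u' u := by
    intro u u' huu hu
    have h1 := ih u hu u' huu
    exact ⟨h1 _, (h1 _).symm⟩
  constructor
  · intro hz
    have h1 : vl hw z ∈ vl hw q := hpq ▸ (mem_vl hw).2 ⟨z, hz, rfl⟩
    obtain ⟨z', hz', h2⟩ := (mem_vl hw).1 h1
    exact c2 _ _ _ (key z z' h2 hz).2 hz'
  · intro hz
    have h1 : vl hw z ∈ vl hw p := hpq ▸ (mem_vl hw).2 ⟨z, hz, rfl⟩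
    obtain ⟨z', hz', h2⟩ := (mem_vl hw).1 h1
    exact c2 _ _ _ (key z' z h2.symm hz').1 hz'

theorem wQ_iff (p q : ℕ) : wQ w p q ↔ vl hw p = vl hw q := by
  constructor
  · intro h
    ext x
    rw [mem_vl, mem_vl]
    exact exists_congr fun z => and_congr_left fun _ => hc.1 p q z h
  · intro h
    exact vl_pred hw hc p q h _

theorem wE_iff (p q : ℕ) : wE w p q ↔ vl hw p ∈ vl hw q := by
  rw [mem_vl]
  constructor
  · intro h
    exact ⟨p, h, rfl⟩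
  · rintro ⟨p', hp', h⟩
    exact hc.2.1 _ _ _ ((wQ_iff hw hc _ _).2 h.symm) hp'

theorem vl_hf (j : ℕ) : vl hw (ixH j) = hf j := by
  induction j using Nat.strong_induction_on with
  | _ j ih =>
  obtain ⟨-, -, c3, c4, -⟩ := id hc
  ext x
  rw [mem_vl, mem_hf]
  constructor
  · rintro ⟨z, hz, rfl⟩
    obtain ⟨h1, h2⟩ := c4 z j hz
    exact ⟨_, h1, ((wQ_iff hw hc _ _).1 h2).trans (ih _ (lt_of_tb h1))⟩
  · rintro ⟨i, hi, rfl⟩
    exact ⟨_, c3 i j hi, (ih _ (lt_of_tb hi)).symm⟩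

theorem vl_A (x : ZFSet.{0}) : x ∈ vl hw ixA ↔ ∃ i, χ i ≠ 0 ∧ x = hf i := by
  obtain ⟨-, -, -, -, c5, c6, -⟩ := id hc
  rw [mem_vl]
  constructor
  · rintro ⟨z, hz, rfl⟩
    have h1 := (wQ_iff hw hc _ _).1 (c6 z hz)
    refine ⟨_, (c5 _).1 (hc.2.1 _ _ _ (c6 z hz) hz), h1.trans (vl_hf hw hc _)⟩
  · rintro ⟨i, hi, rfl⟩
    exact ⟨_, (c5 i).2 hi, (vl_hf hw hc _).symm⟩

theorem vl_Y (x : ZFSet.{0}) : x ∈ vl hw ixY ↔ ∃ n, y n ≠ a n ∧ x = nat n := by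
  obtain ⟨-, -, -, -, -, -, c7, c8, -⟩ := id hc
  rw [mem_vl]
  constructor
  · rintro ⟨z, hz, rfl⟩
    obtain ⟨h1, n, hn⟩ := c8 z hz
    rw [hn] at h1
    refine ⟨n, (c7 n).1 (hc.2.1 _ _ _ h1 hz), ?_⟩
    rw [(wQ_iff hw hc _ _).1 h1, vl_hf hw hc, hf_nu]
  · rintro ⟨n, hn, rfl⟩
    exact ⟨_, (c7 n).2 hn, by rw [vl_hf hw hc, hf_nu]⟩

theorem vl_psi : Psi (vl hw ixA) (vl hw ixY) (vl hw ixF) := by
  obtain ⟨-, -, -, -, -, -, -, -, c9, c10, -⟩ := id hc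
  have h1 := (good_sound (c := vl hw) (wE_iff hw hc) (wQ_iff hw hc) psiF _ c9 s0).1 c10
  rw [psiF_spec (M := Set.range (vl hw))] at h1
  · have e0 : asn s0 ((0 : Fin 3) : ℕ) = ixA := asn_pair_zero _ _
    have e1 : asn s0 ((1 : Fin 3) : ℕ) = ixY := by
      show asn s0 (0 + 1) = ixY
      rw [s0, asn_pair_succ, asn_pair_zero]
    have e2 : asn s0 ((2 : Fin 3) : ℕ) = ixF := by
      show asn s0 (0 + 1 + 1) = ixF
      rw [s0, asn_pair_succ, asn_pair_succ, asn_pair_zero]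
    rwa [e0, e1, e2] at h1
  · rintro _ ⟨p, rfl⟩ x hx
    obtain ⟨q, -, rfl⟩ := (mem_vl hw).1 hx
    exact ⟨q, rfl⟩
  · exact fun i => ⟨_, rfl⟩

end sound

end Pool.Agent.H158_PC
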