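import Pool.Agent.H158_PC.Sig2

/-!
# The data set
-/

set_option autoImplicit false
set_option linter.unusedSectionVars false
set_option linter.unreachableTactic false
set_option linter.unusedTactic false

namespace Pool.Agent.H158_PC

open Pool.Agent.W868 Pool.Agent.R597
open ZFSet (pair)

/-- The pairs `(m, i)` such that the column of `i` is below `m`. -/
noncomputable def SS : ZFSet.{0} :=
  ZFSet.range fun p : {p : ℕ × ℕ // p.2.unpair.1 < p.1} => pair (nat p.1.1) (nat p.1.2)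

theorem mem_SS {z : ZFSet.{0}} : z ∈ SS ↔ ∃ m i : ℕ, i.unpair.1 < m ∧ z = pair (nat m) (nat i) := by
  rw [SS, ZFSet.mem_range]
  constructor
  · rintro ⟨⟨⟨m, i⟩, h⟩, rfl⟩
    exact ⟨m, i, h, rfl⟩
  · rintro ⟨m, i, h, rfl⟩
    exact ⟨⟨⟨m, i⟩, h⟩, rfl⟩

/-- The first columns. -/
noncomputable def Sm (z : ZFSet.{0}) : ZFSet.{0} := im sn (ZFSet.sep (fun q => fs q = z) SS)

theorem mem_Sm {m : ℕ} {x : ZFSet.{0}} : x ∈ Sm (nat m) ↔ ∃ i : ℕ, i.unpair.1 < m ∧ x = nat i := by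
  rw [Sm, mem_im]
  constructor
  · rintro ⟨q, hq, rfl⟩
    obtain ⟨h1, h2⟩ := ZFSet.mem_sep.1 hq
    obtain ⟨m', i, h3, rfl⟩ := mem_SS.1 h1
    rw [fs_pair] at h2
    rw [nat_injective h2] at h3
    exact ⟨i, h3, sn_pair _ _⟩
  · rintro ⟨i, hi, rfl⟩
    exact ⟨pair (nat m) (nat i), ZFSet.mem_sep.2 ⟨mem_SS.2 ⟨m, i, hi, rfl⟩, fs_pair _ _⟩,
      (sn_pair _ _).symm⟩

theorem nat_mem_Sm {m i : ℕ} : nat i ∈ Sm (nat m) ↔ i.unpair.1 < m := by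
  rw [mem_Sm]
  constructor
  · rintro ⟨j, hj, h⟩
    rwa [nat_injective h]
  · exact fun h => ⟨i, h, rfl⟩

theorem dfn_Sm {M : Set ZFSet.{0}} (hM : IsZF M) (hS : SS ∈ M) {n : ℕ}
    {F : (Fin n → ZFSet.{0}) → ZFSet.{0}} (hF : DfnF M M F) : DfnF M M fun v => Sm (F v) := by
  refine hM.im' (h := fun q _ => sn q) (hM.sep' (Q := fun q w => fs q = F w) (DfnF.const hS) ?_)
    (hM.sn' (DfnF.proj 0))
  exact Dfn.eq (hM.fs' (DfnF.proj 0)) hF.tail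

/-- The parts of the data set. -/
noncomputable def Yd : ℕ → ZFSet.{0}
  | 0 => eg
  | 1 => PRg
  | 2 => SS
  | 3 => TC
  | (i + 4) => code (Fx i)

theorem isHF_Yd : ∀ {j : ℕ} {z : ZFSet.{0}}, z ∈ Yd j → IsHF z
  | 0, z, h => by
    obtain ⟨n, rfl⟩ := mem_eg.1 h
    exact (isHF_nat n).pair ⟨n, rfl⟩
  | 1, z, h => by
    obtain ⟨i, j, rfl⟩ := mem_PRg.1 h
    exact ((isHF_nat _).pair (isHF_nat _)).pair (isHF_nat _)
  | 2, z, h => by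
    obtain ⟨m, i, -, rfl⟩ := mem_SS.1 h
    exact (isHF_nat _).pair (isHF_nat _)
  | 3, z, h => isHF_TC h
  | (i + 4), z, h => isHF_of_code h

/-- The data set. -/
noncomputable def dA : ZFSet.{0} :=
  ZFSet.range fun p : {p : ℕ × ℕ // hf p.2 ∈ Yd p.1} => pair (nat p.1.1) (hf p.1.2)

theorem mem_dA {z : ZFSet.{0}} : z ∈ dA ↔ ∃ j x, x ∈ Yd j ∧ z = pair (nat j) x := by
  rw [dA, ZFSet.mem_range]
  constructor
  · rintro ⟨⟨⟨j, i⟩, h⟩, rfl⟩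
    exact ⟨j, hf i, h, rfl⟩
  · rintro ⟨j, x, h, rfl⟩
    obtain ⟨i, rfl⟩ := isHF_Yd h
    exact ⟨⟨⟨j, i⟩, h⟩, rfl⟩

theorem isHF_dA {z : ZFSet.{0}} (h : z ∈ dA) : IsHF z := by
  obtain ⟨j, x, hx, rfl⟩ := mem_dA.1 h
  exact (isHF_nat j).pair (isHF_Yd hx)

/-- A part of a set of pairs. -/
theorem part_mem {K : Set ZFSet.{0}} (hK : IsZF K) {A Y : ZFSet.{0}} (hA : A ∈ K) {j : ℕ}
    (h : ∀ x, pair (nat j) x ∈ A ↔ x ∈ Y) (hp : ∀ z ∈ A, ∃ a b, z = pair a b) : Y ∈ K := by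
  have hn := hK.nat_mem j
  have h1 : Y = im sn (ZFSet.sep (fun q => fs q = nat j) A) := by
    ext x
    rw [mem_im]
    constructor
    · intro hx
      exact ⟨_, ZFSet.mem_sep.2 ⟨(h x).2 hx, fs_pair _ _⟩, (sn_pair _ _).symm⟩
    · rintro ⟨q, hq, rfl⟩
      obtain ⟨h1, h2⟩ := ZFSet.mem_sep.1 hq
      obtain ⟨a, b, rfl⟩ := hp q h1
      rw [fs_pair] at h2
      subst h2
      rw [sn_pair]
      exact (h b).1 h1
  rw [h1]
  refine hK.im_mem (hK.sep_mem ?_ hA) (hK.sn' (DfnF.proj 0))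
  exact Dfn.eq (hK.fs' (DfnF.proj 0)) (DfnF.const hn)

theorem Yd_mem {K : Set ZFSet.{0}} (hK : IsZF K) (hA : dA ∈ K) (j : ℕ) : Yd j ∈ K := by
  refine part_mem hK hA (j := j) (fun x => ?_) fun z hz => ?_
  · rw [mem_dA]
    constructor
    · rintro ⟨j', x', h, h1⟩
      obtain ⟨h2, rfl⟩ := ZFSet.pair_inj.1 h1
      rwa [nat_injective h2]
    · exact fun h => ⟨j, x, h, rfl⟩
  · obtain ⟨j', x, -, rfl⟩ := mem_dA.1 hz
    exact ⟨_, _, rfl⟩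

theorem bk_of {K : Set ZFSet.{0}} (hK : IsZF K) (hA : dA ∈ K) : Bk K :=
  ⟨hK, Yd_mem hK hA 0, Yd_mem hK hA 1, fun i => Yd_mem hK hA (i + 4)⟩

theorem SS_mem {K : Set ZFSet.{0}} (hK : IsZF K) (hA : dA ∈ K) : SS ∈ K := Yd_mem hK hA 2

theorem TC_mem {K : Set ZFSet.{0}} (hK : IsZF K) (hA : dA ∈ K) : TC ∈ K := Yd_mem hK hA 3

/-- The data set together with the set `c`. -/
noncomputable def Ac (c : ZFSet.{0}) : ZFSet.{0} :=
  im (fun z => pair (nat 0) z) dA ∪ im (fun z => pair (nat 1) z) c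

theorem mem_Ac {c z : ZFSet.{0}} : z ∈ Ac c ↔ (∃ x ∈ dA, z = pair (nat 0) x) ∨
    ∃ x ∈ c, z = pair (nat 1) x := by
  rw [Ac, ZFSet.mem_union, mem_im, mem_im]

theorem nat0_ne_nat1 : nat 0 ≠ nat 1 := fun h => by
  have := nat_injective h
  omega

theorem isHF_Ac {c : ZFSet.{0}} (hc : ∀ z ∈ c, IsHF z) {z : ZFSet.{0}} (h : z ∈ Ac c) :
    IsHF z := by
  rcases mem_Ac.1 h with ⟨x, hx, rfl⟩ | ⟨x, hx, rfl⟩
  · exact (isHF_nat 0).pair (isHF_dA hx)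
  · exact (isHF_nat 1).pair (hc x hx)

theorem dfn_Ac {M : Set ZFSet.{0}} (hM : IsZF M) (hA : dA ∈ M) {n : ℕ}
    {F : (Fin n → ZFSet.{0}) → ZFSet.{0}} (hF : DfnF M M F) : DfnF M M fun v => Ac (F v) := by
  have hB := hM.base
  refine hB.union' ?_ ?_
  · refine hM.im' (h := fun z _ => pair (nat 0) z) (DfnF.const hA) ?_
    exact hB.pair' (DfnF.const (hM.nat_mem 0)) (DfnF.proj 0)
  · refine hM.im' (h := fun z _ => pair (nat 1) z) hF ?_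
    exact hB.pair' (DfnF.const (hM.nat_mem 1)) (DfnF.proj 0)

theorem Ac_mem {M : Set ZFSet.{0}} (hM : IsZF M) (hA : dA ∈ M) {c : ZFSet.{0}} (hc : c ∈ M) :
    Ac c ∈ M := (dfn_Ac hM hA (n := 1) (DfnF.proj 0)).1 (fun _ => c) fun _ => hc

theorem of_Ac {K : Set ZFSet.{0}} (hK : IsZF K) {c : ZFSet.{0}} (h : Ac c ∈ K) :
    dA ∈ K ∧ c ∈ K := by
  have hp : ∀ z ∈ Ac c, ∃ a b, z = pair a b := by
    intro z hz
    rcases mem_Ac.1 hz with ⟨x, -, rfl⟩ | ⟨x, -, rfl⟩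
    · exact ⟨_, _, rfl⟩
    · exact ⟨_, _, rfl⟩
  constructor
  · refine part_mem hK h (j := 0) (fun x => ?_) hp
    rw [mem_Ac]
    constructor
    · rintro (⟨y, hy, h1⟩ | ⟨y, hy, h1⟩)
      · obtain ⟨-, rfl⟩ := ZFSet.pair_inj.1 h1
        exact hy
      · exact absurd (ZFSet.pair_inj.1 h1).1 nat0_ne_nat1
    · exact fun hx => Or.inl ⟨x, hx, rfl⟩
  · refine part_mem hK h (j := 1) (fun x => ?_) hp
    rw [mem_Ac]
    constructor
    · rintro (⟨y, hy, h1⟩ | ⟨y, hy, h1⟩)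
      · exact absurd (ZFSet.pair_inj.1 h1).1.symm nat0_ne_nat1
      · obtain ⟨-, rfl⟩ := ZFSet.pair_inj.1 h1
        exact hy
    · exact fun hx => Or.inr ⟨x, hx, rfl⟩

/-- The class of the sets that are constructible relative to a set of hereditarily finite sets. -/
theorem isLA_of_HF {M : Set ZFSet.{0}} (hM : IsZF M) {A : ZFSet.{0}} (hA : A ∈ M)
    (hH : ∀ z ∈ A, IsHF z) : IsLA A (LC M A) := by
  obtain ⟨δ, h1, h2, h3⟩ := exists_level hM hA hA (Q := fun w z => w = z)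
    (Dfn.eq (DfnF.proj 0) (DfnF.proj 1))
  refine isLA_LC hM hA h1 h2 fun z hz => ?_
  obtain ⟨w, hw, rfl⟩ := h3 z hz ⟨z, hf_memK (isZF_LC hM hA) (hH z hz), rfl⟩
  exact hw

end Pool.Agent.H158_PC
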