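import Pool.Agent.W868.Defs

/-!
# Projective sets of reals and countable choice in transitive models of ZF: the definitions

Everything takes place inside the type `ZFSet.{0}` of all sets. A set `M : Set ZFSet.{0}` is viewed
as the structure `(M, ∈)`; transitive models of ZF (`IsZF`) and the natural numbers as sets (`nat`)
are the ones of `Pool.Agent.W868.Defs`. A real is a function from `ℕ` to `ℕ`.
-/

set_option autoImplicit false

namespace Pool.Agent.H158_PC

open ZFSet (pair)
open Pool.Agent.W868 (nat)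

/-- The finite sequence `(x 0, ..., x (n - 1))` as a set of pairs. -/
noncomputable def rs (x : ℕ → ℕ) (n : ℕ) : ZFSet.{0} :=
  ZFSet.range fun i : {i : ℕ // i < n} => pair (nat i.1) (nat (x i.1))

/-- The real `x` as a set of pairs. -/
noncomputable def code (x : ℕ → ℕ) : ZFSet.{0} :=
  ZFSet.range fun i : ℕ => pair (nat i) (nat (x i))

/-- The reals of `M`. -/
def Rls (M : Set ZFSet.{0}) : Set (ℕ → ℕ) := {x | code x ∈ M}

/-- In `M`, the set of reals `B` is boldface `Π¹₁`: the complement of the projection of the closed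
set given by a set `T ∈ M` of pairs of finite sequences. -/
def Pi11 (M : Set ZFSet.{0}) (B : Set (ℕ → ℕ)) : Prop :=
  ∃ T ∈ M, ∀ x, x ∈ B ↔ x ∈ Rls M ∧ ∀ y ∈ Rls M, ∃ n, pair (rs x n) (rs y n) ∉ T

/-- In `M`, the set of reals `B` is boldface `Σ¹₂`: the projection of the complement of the
projection of the closed set given by a set `T ∈ M` of triples of finite sequences. -/
def Sigma12 (M : Set ZFSet.{0}) (B : Set (ℕ → ℕ)) : Prop :=
  ∃ T ∈ M, ∀ x, x ∈ B ↔ x ∈ Rls M ∧ ∃ y ∈ Rls M, ∀ z ∈ Rls M, ∃ n,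
    pair (rs x n) (pair (rs y n) (rs z n)) ∉ T

/-- In `M`, the set of reals `B` is boldface `Π¹₂`, that is, its complement is boldface `Σ¹₂`. -/
def Pi12 (M : Set ZFSet.{0}) (B : Set (ℕ → ℕ)) : Prop :=
  ∃ T ∈ M, ∀ x, x ∈ B ↔ x ∈ Rls M ∧ ∀ y ∈ Rls M, ∃ z ∈ Rls M, ∀ n,
    pair (rs x n) (pair (rs y n) (rs z n)) ∈ T

/-- The sequence of sets of reals `A` as a set: the set of the pairs `(k, x)` with `x ∈ A k`. -/
noncomputable def fam (A : ℕ → Set (ℕ → ℕ)) : ZFSet.{0} :=
  ZFSet.range fun p : {p : ℕ × (ℕ → ℕ) // p.2 ∈ A p.1} => pair (nat p.1.1) (code p.1.2)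

/-- The sequence of reals `f` as a set: the set of the pairs `(k, f k)`. -/
noncomputable def seqr (f : ℕ → ℕ → ℕ) : ZFSet.{0} :=
  ZFSet.range fun k : ℕ => pair (nat k) (code (f k))

/-- In `M`, the (non-uniform) principle of countable choice for the class `Γ` of sets of reals:
every sequence in `M` of nonempty sets in `Γ` has a choice function in `M`. -/
def ACw (M : Set ZFSet.{0}) (Γ : Set (ℕ → ℕ) → Prop) : Prop :=
  ∀ A : ℕ → Set (ℕ → ℕ), (∀ k, (A k).Nonempty) → (∀ k, Γ (A k)) → fam A ∈ M →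
    ∃ f : ℕ → ℕ → ℕ, (∀ k, f k ∈ A k) ∧ seqr f ∈ M

end Pool.Agent.H158_PC
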