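import Pool.Agent.H158_PC.Cst

/-!
# Constructible sets of natural numbers have codes
-/

set_option autoImplicit false
set_option linter.unusedSectionVars false
set_option linter.unreachableTactic false
set_option linter.unusedTactic false

namespace Pool.Agent.H158_PC

open Pool.Agent.W868
open ZFSet (pair)

theorem HFs_mem {K : Set ZFSet.{0}} (hK : IsZF K) (he : eg ∈ K) : HFs ∈ K := by
  have h : HFs = im sn eg := by
    ext x
    rw [mem_HFs, mem_im]
    constructor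
    · rintro ⟨n, rfl⟩
      exact ⟨_, mem_eg.2 ⟨n, rfl⟩, (sn_pair _ _).symm⟩
    · rintro ⟨p, hp, rfl⟩
      obtain ⟨n, rfl⟩ := mem_eg.1 hp
      exact ⟨n, sn_pair _ _⟩
  rw [h]
  exact hK.im_mem he (hK.sn' (DfnF.proj 0))

theorem HFs_inj {K : Set ZFSet.{0}} (hK : IsZF K) (he : eg ∈ K) : Inj K HFs ZFSet.omega := by
  have hB := hK.base
  refine ⟨im (fun p => pair (sn p) (fs p)) eg, hK.im_mem he
    (hB.pair' (hK.sn' (DfnF.proj 0)) (hK.fs' (DfnF.proj 0))), ⟨?_, ?_⟩, ?_⟩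
  · intro p hp
    obtain ⟨q, hq, rfl⟩ := mem_im.1 hp
    obtain ⟨n, rfl⟩ := mem_eg.1 hq
    rw [fs_pair, sn_pair]
    exact ZFSet.pair_mem_prod.2 ⟨mem_HFs.2 ⟨n, rfl⟩, nat_mem_om n⟩
  · intro z hz
    obtain ⟨n, rfl⟩ := mem_HFs.1 hz
    refine ⟨nat n, mem_im.2 ⟨_, mem_eg.2 ⟨n, rfl⟩, by rw [fs_pair, sn_pair]⟩, fun w hw => ?_⟩
    obtain ⟨q, hq, h1⟩ := mem_im.1 hw
    obtain ⟨m, rfl⟩ := mem_eg.1 hq
    rw [fs_pair, sn_pair] at h1
    obtain ⟨h2, rfl⟩ := ZFSet.pair_inj.1 h1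
    rw [hf_inj h2]
  · intro a b c ha hb
    obtain ⟨q, hq, h1⟩ := mem_im.1 ha
    obtain ⟨q', hq', h1'⟩ := mem_im.1 hb
    obtain ⟨m, rfl⟩ := mem_eg.1 hq
    obtain ⟨m', rfl⟩ := mem_eg.1 hq'
    rw [fs_pair, sn_pair] at h1 h1'
    obtain ⟨rfl, h2⟩ := ZFSet.pair_inj.1 h1
    obtain ⟨rfl, h3⟩ := ZFSet.pair_inj.1 h1'
    rw [nat_injective (h2.symm.trans h3)]

/-- The function enumerating a countable transitive set. -/
theorem exists_enumN {K : Set ZFSet.{0}} (hB : Bk K) {A' Y f N j : ZFSet.{0}}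
    (hN : N ∈ K) (hNt : ∀ x ∈ N, ∀ y ∈ x, y ∈ N) (hHF : HFs ⊆ N) (hA : A' ∈ N) (hY : Y ∈ N)
    (hf' : f ∈ N) (hj : j ∈ K) (hji : IsInj N ZFSet.omega j) :
    ∃ (c : ℕ → ZFSet.{0}) (gc : ZFSet.{0}), gc ∈ K ∧ (∀ z, z ∈ gc ↔ ∃ n, z = pair (nat n) (c n)) ∧
      (∀ n, c n ∈ N) ∧ (∀ x ∈ N, ∃ n, x = c n) ∧ (∀ i, c (ixH i) = hf i) ∧ c ixA = A' ∧
      c ixY = Y ∧ c ixF = f := by
  classical
  have hK := hB.zf
  have hKB := hK.base
  have hω := hK.infinity
  have h0 : (∅ : ZFSet.{0}) ∈ K := hK.empty_mem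
  have he := hB.eg
  have hp := hB.pr
  have hAK := hK.trans _ hN _ hA
  have hYK := hK.trans _ hN _ hY
  have hfK := hK.trans _ hN _ hf'
  have hn1 := hK.nat_mem 1
  have hn2 := hK.nat_mem 2
  have hn3 := hK.nat_mem 3
  have h0N : (∅ : ZFSet.{0}) ∈ N := hHF (mem_HFs.2 isHF_empty)
  let jj : ℕ → ZFSet.{0} := fun k => if h : ∃ x ∈ N, pair x (nat k) ∈ j then h.choose else ∅
  have hjj : ∀ k x, x ∈ N → (jj k = x ↔ pair x (nat k) ∈ j ∨
      (x = ∅ ∧ ¬ ∃ x' ∈ N, pair x' (nat k) ∈ j)) := by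
    intro k x hx
    by_cases h : ∃ x ∈ N, pair x (nat k) ∈ j
    · have h1 : jj k = h.choose := by simp only [jj, dif_pos h]
      rw [h1]
      constructor
      · rintro rfl
        exact Or.inl h.choose_spec.2
      · rintro (h2 | ⟨-, h2⟩)
        · exact hji.2 _ _ _ h.choose_spec.2 h2
        · exact absurd h h2
    · have h1 : jj k = ∅ := by simp only [jj, dif_neg h]
      rw [h1]
      constructor
      · rintro rfl
        exact Or.inr ⟨rfl, h⟩
      · rintro (h2 | ⟨h2, -⟩)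
        · exact absurd ⟨x, hx, h2⟩ h
        · exact h2.symm
  let c : ℕ → ZFSet.{0} := fun n => if n.unpair.1 = 0 then hf n.unpair.2 else
    if n.unpair.1 = 1 then jj n.unpair.2 else if n.unpair.1 = 2 then A' else
    if n.unpair.1 = 3 then Y else f
  have hcN : ∀ n, c n ∈ N := by
    intro n
    simp only [c]
    split_ifs
    · exact hHF (mem_HFs.2 ⟨_, rfl⟩)
    · by_cases h : ∃ x ∈ N, pair x (nat n.unpair.2) ∈ j
      · simp only [jj, dif_pos h]
        exact h.choose_spec.1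
      · simp only [jj, dif_neg h]
        exact h0N
    · exact hA
    · exact hY
    · exact hf'
  have hcp : ∀ a b, c (Nat.pair a b) = if a = 0 then hf b else if a = 1 then jj b else
      if a = 2 then A' else if a = 3 then Y else f := by
    intro a b
    simp only [c, Nat.unpair_pair]
  let R : ZFSet.{0} → ZFSet.{0} → Prop := fun n x =>
    ∃ a ∈ (ZFSet.omega : ZFSet.{0}), ∃ b ∈ (ZFSet.omega : ZFSet.{0}), pair (pair a b) n ∈ PRg ∧
      ((a = ∅ ∧ pair b x ∈ eg) ∨ (a = nat 1 ∧ (pair x b ∈ j ∨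
        (x = ∅ ∧ ¬ ∃ x' ∈ N, pair x' b ∈ j))) ∨ (a = nat 2 ∧ x = A') ∨ (a = nat 3 ∧ x = Y) ∨
        (¬ a = ∅ ∧ ¬ a = nat 1 ∧ ¬ a = nat 2 ∧ ¬ a = nat 3 ∧ x = f))
  have hR : ∀ n x, x ∈ N → (R (nat n) x ↔ x = c n) := by
    intro n x hx
    have hne : ∀ m k : ℕ, m ≠ k → nat m ≠ nat k := fun m k h h' => h (nat_injective h')
    have key : ∀ a b : ℕ, ((nat a = ∅ ∧ pair (nat b) x ∈ eg) ∨ (nat a = nat 1 ∧
        (pair x (nat b) ∈ j ∨ (x = ∅ ∧ ¬ ∃ x' ∈ N, pair x' (nat b) ∈ j))) ∨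
        (nat a = nat 2 ∧ x = A') ∨ (nat a = nat 3 ∧ x = Y) ∨
        (¬ nat a = ∅ ∧ ¬ nat a = nat 1 ∧ ¬ nat a = nat 2 ∧ ¬ nat a = nat 3 ∧ x = f)) ↔
        x = c (Nat.pair a b) := by
      intro a b
      have h00 : (∅ : ZFSet.{0}) = nat 0 := rfl
      rw [hcp, ← hjj b x hx]
      simp only [h00, nat_injective.eq_iff]
      have heg : pair (nat b) x ∈ eg ↔ x = hf b := by
        rw [mem_eg]
        constructor
        · rintro ⟨m, h⟩
          obtain ⟨h1, rfl⟩ := ZFSet.pair_inj.1 h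
          rw [nat_injective h1]
        · rintro rfl
          exact ⟨b, rfl⟩
      rw [heg]
      by_cases ha0 : a = 0
      · subst ha0
        simp
      · by_cases ha1 : a = 1
        · subst ha1
          simp [eq_comm]
        · by_cases ha2 : a = 2
          · subst ha2
            simp
          · by_cases ha3 : a = 3
            · subst ha3
              simp
            · simp [ha0, ha1, ha2, ha3]
    constructor
    · rintro ⟨a, ha, b, hb, h1, h2⟩
      obtain ⟨a, rfl⟩ := mem_omega_iff.1 ha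
      obtain ⟨b, rfl⟩ := mem_omega_iff.1 hb
      rw [pair_mem_PRg] at h1
      rw [h1]
      exact (key a b).1 h2
    · rintro rfl
      refine ⟨_, nat_mem_om n.unpair.1, _, nat_mem_om n.unpair.2, ?_, ?_⟩
      · rw [pair_mem_PRg, Nat.pair_unpair]
      · rw [key, Nat.pair_unpair]
  refine ⟨c, ZFSet.sep (fun u => R (fs u) (sn u)) (ZFSet.prod ZFSet.omega N), ?_, ?_, hcN, ?_, ?_,
    ?_, ?_, ?_⟩
  · refine hK.sep_mem (Q := fun u => R (fs u) (sn u)) ?_ (hK.prod_mem hω hN)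
    refine Dfn.comp2 (Q := R) ?_ (hK.fs' (DfnF.proj 0)) (hK.sn' (DfnF.proj 0))
    simp only [R]
    repeat' first
      | exact DfnF.proj _
      | exact DfnF.const (by assumption)
      | apply hKB.bex | apply hKB.ball | apply Dfn.and | apply Dfn.or | apply Dfn.not
      | apply hKB.pair' | apply Dfn.mem | apply Dfn.eq
  · intro z
    rw [ZFSet.mem_sep, ZFSet.mem_prod]
    constructor
    · rintro ⟨⟨a, ha, b, hb, rfl⟩, h1⟩
      obtain ⟨n, rfl⟩ := mem_omega_iff.1 ha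
      rw [fs_pair, sn_pair, hR n b hb] at h1
      exact ⟨n, by rw [h1]⟩
    · rintro ⟨n, rfl⟩
      refine ⟨⟨_, nat_mem_om n, _, hcN n, rfl⟩, ?_⟩
      rw [fs_pair, sn_pair, hR n _ (hcN n)]
  · intro x hx
    obtain ⟨b, hb, h1⟩ := fun_exists hji.1 hx
    obtain ⟨k, rfl⟩ := mem_omega_iff.1 hb
    refine ⟨Nat.pair 1 k, ?_⟩
    rw [hcp]
    simp only [one_ne_zero, if_false, if_true]
    exact ((hjj k x hx).2 (Or.inl h1)).symm
  · intro i
    rw [ixH, hcp]
    simp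
  · rw [ixA, hcp]
    simp
  · rw [ixY, hcp]
    simp
  · rw [ixF, hcp]
    simp

theorem nat01 : nat 1 ≠ ∅ := fun h => by
  have h1 : nat 1 = nat 0 := h
  have := nat_injective h1
  omega

/-- The characteristic function of membership. -/
theorem exists_eR {K : Set ZFSet.{0}} (hB : Bk K) {N gc : ZFSet.{0}} {c : ℕ → ZFSet.{0}}
    (hN : N ∈ K) (hgc : gc ∈ K) (hgc' : ∀ z, z ∈ gc ↔ ∃ n, z = pair (nat n) (c n))
    (hcN : ∀ n, c n ∈ N) :
    ∃ e ∈ Rls K, ∀ a b, e (Nat.pair a b) ≠ 0 ↔ c a ∈ c b := by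
  classical
  have hK := hB.zf
  have hKB := hK.base
  have hω := hK.infinity
  have h0 : (∅ : ZFSet.{0}) ∈ K := hK.empty_mem
  have hp := hB.pr
  have hn1 := hK.nat_mem 1
  refine ⟨fun k => if c k.unpair.1 ∈ c k.unpair.2 then 1 else 0, ?_, fun a b => ?_⟩
  · refine mkR hK (Q := fun k l => ∃ a ∈ (ZFSet.omega : ZFSet.{0}),
      ∃ b ∈ (ZFSet.omega : ZFSet.{0}), ∃ x ∈ N, ∃ x' ∈ N, pair (pair a b) k ∈ PRg ∧
        pair a x ∈ gc ∧ pair b x' ∈ gc ∧ ((x ∈ x' ∧ l = nat 1) ∨ (¬ x ∈ x' ∧ l = ∅))) _ ?_ ?_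
    · repeat' first
        | exact DfnF.proj _
        | exact DfnF.const (by assumption)
        | apply hKB.bex | apply hKB.ball | apply Dfn.and | apply Dfn.or | apply Dfn.not
        | apply hKB.pair' | apply Dfn.mem | apply Dfn.eq
    · intro k l
      have hg : ∀ (a : ℕ) (x : ZFSet.{0}), pair (nat a) x ∈ gc ↔ x = c a := by
        intro a x
        rw [hgc']
        constructor
        · rintro ⟨n, h⟩
          obtain ⟨h1, rfl⟩ := ZFSet.pair_inj.1 h
          rw [nat_injective h1]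
        · rintro rfl
          exact ⟨a, rfl⟩
      constructor
      · rintro ⟨a, ha, b, hb, x, hx, x', hx', h1, h2, h3, h4⟩
        obtain ⟨a, rfl⟩ := mem_omega_iff.1 ha
        obtain ⟨b, rfl⟩ := mem_omega_iff.1 hb
        rw [pair_mem_PRg] at h1
        rw [hg] at h2 h3
        subst h1 h2 h3
        rw [Nat.unpair_pair]
        rcases h4 with ⟨h5, h6⟩ | ⟨h5, h6⟩
        · rw [if_pos h5]
          exact nat_injective h6
        · rw [if_neg h5]
          exact nat_injective h6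
      · rintro rfl
        refine ⟨_, nat_mem_om k.unpair.1, _, nat_mem_om k.unpair.2, _, hcN _, _, hcN _,
          ?_, (hg _ _).2 rfl, (hg _ _).2 rfl, ?_⟩
        · rw [pair_mem_PRg, Nat.pair_unpair]
        · split_ifs with h
          · exact Or.inl ⟨h, rfl⟩
          · exact Or.inr ⟨h, rfl⟩
  · simp only [Nat.unpair_pair]
    split_ifs with h
    · simp [h]
    · simp [h]

/-- Constructible sets of natural numbers have codes. -/
theorem ex_cond {K : Set ZFSet.{0}} {A' : ZFSet.{0}} (hL : IsLA A' K) (hB : Bk K)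
    (hA : ∀ z ∈ A', IsHF z) {Y : ZFSet.{0}} (hY : Y ∈ K) (hYω : Y ⊆ ZFSet.omega) :
    ∃ w ∈ Rls K, WellFounded (wE w) ∧ ∀ y χ a : ℕ → ℕ, (∀ i, χ i ≠ 0 ↔ hf i ∈ A') →
      (∀ n, y n ≠ a n ↔ nat n ∈ Y) → (∀ n, y n = 0 ∨ y n = 1) → Cond y w χ a := by
  classical
  have hK := hL.zf
  have hKB := hK.base
  have hω := hK.infinity
  have hH := HFs_mem hK hB.eg
  obtain ⟨N, hN, hNt, haN, ⟨j, hj, hji⟩, hNf⟩ := condensation hL hω isOrdinal_omega
    (fun _ h => h) (a := insert A' (insert Y HFs)) (hK.insert_mem hL.mem (hK.insert_mem hY hH))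
    (by
      intro x hx z hz
      have h1 : IsHF z := by
        rw [ZFSet.mem_insert_iff, ZFSet.mem_insert_iff, mem_HFs] at hx
        rcases hx with rfl | rfl | hx
        · exact hA z hz
        · obtain ⟨n, rfl⟩ := mem_omega_iff.1 (hYω hz)
          exact isHF_nat n
        · exact hx.mem hz
      exact ZFSet.mem_insert_iff.2 (Or.inr (ZFSet.mem_insert_iff.2 (Or.inr (mem_HFs.2 h1)))))
    (ZFSet.mem_insert _ _)
    (Inj.insert hK hL.gc hω isOrdinal_omega (fun _ h => h) hL.mem (hK.insert_mem hY hH)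
      (Inj.insert hK hL.gc hω isOrdinal_omega (fun _ h => h) hY hH (HFs_inj hK hB.eg)))
  have hAN : A' ∈ N := haN (ZFSet.mem_insert _ _)
  have hYN : Y ∈ N := haN (ZFSet.mem_insert_iff.2 (Or.inr (ZFSet.mem_insert _ _)))
  have hHN : HFs ⊆ N := fun x hx => haN (ZFSet.mem_insert_iff.2 (Or.inr
    (ZFSet.mem_insert_iff.2 (Or.inr hx))))
  obtain ⟨f, hf', hpsi⟩ := hNf Y hYN
  obtain ⟨c, gc, hgc, hgc', hcN, hcs, hcH, hcA, hcY, hcF⟩ :=
    exists_enumN hB hN hNt hHN hAN hYN hf' hj hji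
  obtain ⟨e, he, he'⟩ := exists_eR hB hN hgc hgc' hcN
  -- the difference function
  obtain ⟨d, hd, hd'⟩ : ∃ d ∈ Rls K, ∀ a b, c a ≠ c b →
      ¬ (c (d (Nat.pair a b)) ∈ c a ↔ c (d (Nat.pair a b)) ∈ c b) := by
    let T : ℕ → ℕ := fun n => Fx 5 (Nat.pair (e (Nat.pair n.unpair.1 n.unpair.2.unpair.1))
      (e (Nat.pair n.unpair.1 n.unpair.2.unpair.2)))
    have hT : T ∈ Rls K := hB.comp (hB.fx 5) (hB.mk2
      (hB.comp he (hB.mk2 (hB.un1 hB.idf) (hB.un1 (hB.un2 hB.idf))))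
      (hB.comp he (hB.mk2 (hB.un1 hB.idf) (hB.un2 (hB.un2 hB.idf)))))
    have hT' : ∀ z a b, T (Nat.pair z (Nat.pair a b)) ≠ 0 ↔ ¬ (c z ∈ c a ↔ c z ∈ c b) := by
      intro z a b
      simp only [T, Fx, Nat.unpair_pair, he']
      split_ifs with h
      · simp [h]
      · simp [h]
    refine ⟨fun s => Fx 6 (mu T s), hB.comp (hB.fx 6) (mu_mem hK hB.pr hT), fun a b hab => ?_⟩
    have h1 : mu T (Nat.pair a b) ≠ 0 := by
      intro h2
      rw [mu_zero] at h2
      apply hab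
      ext z
      by_contra h3
      have hz : z ∈ N := by
        by_cases h4 : z ∈ c a
        · exact hNt _ (hcN a) _ h4
        · by_cases h5 : z ∈ c b
          · exact hNt _ (hcN b) _ h5
          · exact absurd (iff_of_false h4 h5) h3
      obtain ⟨n, rfl⟩ := hcs z hz
      exact (hT' n a b).2 h3 (h2 n)
    have h2 := mu_spec h1
    rw [hT'] at h2
    simpa only [Fx] using h2
  -- the decision of equality
  obtain ⟨q, hq, hq'⟩ : ∃ q ∈ Rls K, ∀ a b, q (Nat.pair a b) ≠ 0 ↔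
      (e (Nat.pair (d (Nat.pair a b)) a) ≠ 0 ↔ e (Nat.pair (d (Nat.pair a b)) b) ≠ 0) := by
    refine ⟨fun s => Fx 2 (Fx 5 (Nat.pair (e (Nat.pair (d s) s.unpair.1))
      (e (Nat.pair (d s) s.unpair.2)))), hB.comp (hB.fx 2) (hB.comp (hB.fx 5) (hB.mk2
      (hB.comp he (hB.mk2 hd (hB.un1 hB.idf)))
      (hB.comp he (hB.mk2 hd (hB.un2 hB.idf))))), fun a b => ?_⟩
    simp only [Fx, Nat.unpair_pair]
    split_ifs with h1 h2
    · simp_all
    · simp_all
    · simp_all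
    · simp_all
  have hqc : ∀ a b, q (Nat.pair a b) ≠ 0 ↔ c a = c b := by
    intro a b
    rw [hq', he', he']
    constructor
    · intro h
      by_contra h1
      exact hd' a b h1 h
    · intro h
      rw [h]
  -- the numbers of hereditarily finite sets
  obtain ⟨g, hg, hg'⟩ : ∃ g ∈ Rls K, ∀ z i, c z = hf i → g z = i := by
    let T : ℕ → ℕ := fun n => q (Nat.pair n.unpair.2 (Nat.pair 0 n.unpair.1))
    have hT : T ∈ Rls K := hB.comp hq (hB.mk2 (hB.un2 hB.idf) (hB.mk2 (hB.cst 0)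
      (hB.un1 hB.idf)))
    have hT' : ∀ i z, T (Nat.pair i z) ≠ 0 ↔ c z = hf i := by
      intro i z
      simp only [T, Nat.unpair_pair]
      rw [hqc]
      rw [show Nat.pair 0 i = ixH i from rfl, hcH]
    refine ⟨fun s => Fx 6 (mu T s), hB.comp (hB.fx 6) (mu_mem hK hB.pr hT), fun z i hzi => ?_⟩
    have h1 : mu T z ≠ 0 := by
      intro h2
      rw [mu_zero] at h2
      exact (hT' i z).2 hzi (h2 i)
    have h2 := mu_spec h1
    rw [hT', hzi] at h2
    simp only [Fx]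
    exact (hf_inj h2).symm
  obtain ⟨w0, hw0, hwe, hwd, hwg⟩ := hB.join he hd hg
  obtain ⟨t, ht, htG⟩ := ex_good hB he hq (E := fun a b => e (Nat.pair a b) ≠ 0)
    (Q := fun a b => q (Nat.pair a b) ≠ 0) (fun _ _ => Iff.rfl) (fun _ _ => Iff.rfl) psiF
  obtain ⟨w, hw, hw0', hwt, -⟩ := hB.join hw0 ht hB.idf
  have hE : ∀ a b, wE w a b ↔ c a ∈ c b := by
    intro a b
    rw [wE, hw0', hwe, he']
  have hD : ∀ a b, wd w a b = d (Nat.pair a b) := by
    intro a b
    rw [wd, hw0', hwd]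
  have hG : ∀ z, wg w z = g z := by
    intro z
    rw [wg, hw0', hwg]
  have hQ0 : ∀ a b, wQ w a b ↔ q (Nat.pair a b) ≠ 0 := by
    intro a b
    rw [wQ, hE, hE, hD, hq', he', he']
  have hQ : ∀ a b, wQ w a b ↔ c a = c b := fun a b => (hQ0 a b).trans (hqc a b)
  have hgQ : ∀ z i, c z = hf i → c z = c (ixH (wg w z)) ∧ wg w z = i := by
    intro z i hzi
    rw [hG, hg' z i hzi, hcH]
    exact ⟨hzi, rfl⟩
  refine ⟨w, hw, ?_, fun y χ a hχ hya hy => ?_⟩
  · refine Subrelation.wf (r := InvImage (fun x y : ZFSet.{0} => x ∈ y) c) ?_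
      (InvImage.wf _ ZFSet.mem_wf)
    intro a b h
    exact (hE a b).1 h
  · refine ⟨fun a b z h => ?_, fun a b u h => ?_, fun i j' h => ?_, fun z j' h => ?_, fun i => ?_,
      fun z h => ?_, fun n => ?_, fun z h => ?_, ?_, ?_, hy⟩
    · rw [hE, hE, (hQ a b).1 h]
    · rw [hE, hE, (hQ a b).1 h]
      exact id
    · rw [hE, hcH, hcH]
      exact mem_hf.2 ⟨i, h, rfl⟩
    · rw [hE, hcH] at h
      obtain ⟨i, hi, h1⟩ := mem_hf.1 h
      obtain ⟨h2, h3⟩ := hgQ z i h1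
      rw [h3]
      refine ⟨hi, ?_⟩
      rw [hQ, h1, hcH]
    · rw [hE, hcH, hcA]
      exact (hχ i).symm
    · rw [hE, hcA] at h
      obtain ⟨i, h1⟩ := hA _ h
      rw [hQ]
      exact (hgQ z i h1).1
    · rw [hE, hcH, hcY, hf_nu]
      exact (hya n).symm
    · rw [hE, hcY] at h
      obtain ⟨n, h1⟩ := mem_omega_iff.1 (hYω h)
      rw [← hf_nu] at h1
      rw [hQ]
      exact ⟨(hgQ z _ h1).1, n, (hgQ z _ h1).2⟩
    · have e1 : wE w = fun a b => e (Nat.pair a b) ≠ 0 := by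
        funext a b
        exact propext ((hE a b).trans (he' a b).symm)
      have e2 : wQ w = fun a b => q (Nat.pair a b) ≠ 0 := by
        funext a b
        exact propext (hQ0 a b)
      rw [e1, e2]
      simp only [hwt]
      exact htG
    · rw [hwt]
      refine (good_sound (c := c) (fun a b => he' a b) (fun a b => hqc a b) psiF t htG s0).2 ?_
      rw [psiF_spec (M := Set.range c)]
      · have e0 : asn s0 ((0 : Fin 3) : ℕ) = ixA := asn_pair_zero _ _
        have e1 : asn s0 ((1 : Fin 3) : ℕ) = ixY := by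
          show asn s0 (0 + 1) = ixY
          rw [s0, asn_pair_succ, asn_pair_zero]
        have e2 : asn s0 ((2 : Fin 3) : ℕ) = ixF := by
          show asn s0 (0 + 1 + 1) = ixF
          rw [s0, asn_pair_succ, asn_pair_succ, asn_pair_zero]
        rw [e0, e1, e2, hcA, hcY, hcF]
        exact hpsi
      · rintro _ ⟨p, rfl⟩ x hx
        obtain ⟨n, rfl⟩ := hcs x (hNt _ (hcN p) _ hx)
        exact ⟨n, rfl⟩
      · exact fun i => ⟨_, rfl⟩

end Pool.Agent.H158_PC
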