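import Pool.Agent.H158_PC.Sym

/-!
# The family without a choice function
-/

set_option autoImplicit false
set_option linter.unusedSectionVars false
set_option linter.unreachableTactic false
set_option linter.unusedTactic false

namespace Pool.Agent.H158_PC

open Pool.Agent.W868 Pool.Agent.W868.GM Pool.Agent.R597 Pool.Agent.Y588 AM
open ZFSet (pair)

/-- The characteristic function of a set of natural numbers. -/
noncomputable def chr (b : Set ℕ) (n : ℕ) : ℕ :=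
  open Classical in if n ∈ b then 1 else 0

theorem chr_pos {b : Set ℕ} {n : ℕ} (h : n ∈ b) : chr b n = 1 := by
  unfold chr
  rw [if_pos h]

theorem chr_neg {b : Set ℕ} {n : ℕ} (h : n ∉ b) : chr b n = 0 := by
  unfold chr
  rw [if_neg h]

theorem chr_01 (b : Set ℕ) (n : ℕ) : chr b n = 0 ∨ chr b n = 1 := by
  by_cases h : n ∈ b
  · exact Or.inr (chr_pos h)
  · exact Or.inl (chr_neg h)

theorem chr_eq_one {b : Set ℕ} {n : ℕ} : chr b n = 1 ↔ n ∈ b := by
  by_cases h : n ∈ b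
  · simp [chr_pos h, h]
  · simp [chr_neg h, h]

theorem eq_chr {y : ℕ → ℕ} (h : ∀ n, y n = 0 ∨ y n = 1) : y = chr {n | y n = 1} := by
  funext n
  rcases h n with h1 | h1
  · rw [chr_neg, h1]
    intro h2
    have h3 : y n = 1 := h2
    omega
  · rw [chr_pos, h1]
    exact h1

/-- The characteristic function as a set. -/
noncomputable def cde (z : ZFSet.{0}) : ZFSet.{0} :=
  ZFSet.sep (fun q => (pair (nat 1) (fs q) ∈ z ∧ sn q = nat 1) ∨
    (¬ pair (nat 1) (fs q) ∈ z ∧ sn q = nat 0)) (ZFSet.prod ZFSet.omega (nat 2))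

theorem cde_eq (z : ZFSet.{0}) : cde z = code (chr {i | pair (nat 1) (nat i) ∈ z}) := by
  ext q
  rw [cde, ZFSet.mem_sep, ZFSet.mem_prod, mem_code]
  constructor
  · rintro ⟨⟨a, ha, b, -, rfl⟩, h⟩
    obtain ⟨i, rfl⟩ := mem_omega_iff.1 ha
    rw [fs_pair, sn_pair] at h
    refine ⟨i, ?_⟩
    rcases h with ⟨h1, rfl⟩ | ⟨h1, rfl⟩
    · rw [chr_pos]
      exact h1
    · rw [chr_neg]
      exact h1
  · rintro ⟨i, rfl⟩
    rw [fs_pair, sn_pair]
    by_cases h : pair (nat 1) (nat i) ∈ z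
    · rw [chr_pos (show i ∈ {i | pair (nat 1) (nat i) ∈ z} from h)]
      exact ⟨⟨_, nat_mem_om i, _, mem_natK.2 ⟨1, by omega, rfl⟩, rfl⟩, Or.inl ⟨h, rfl⟩⟩
    · rw [chr_neg (show i ∉ {i | pair (nat 1) (nat i) ∈ z} from h)]
      exact ⟨⟨_, nat_mem_om i, _, mem_natK.2 ⟨0, by omega, rfl⟩, rfl⟩, Or.inr ⟨h, rfl⟩⟩

theorem dfn_cde {M : Set ZFSet.{0}} (hM : IsZF M) {n : ℕ} {F : (Fin n → ZFSet.{0}) → ZFSet.{0}}
    (hF : DfnF M M F) : DfnF M M fun v => cde (F v) := by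
  have hB := hM.base
  have h0 := hM.nat_mem 0
  have h1 := hM.nat_mem 1
  refine hM.sep' (Q := fun q v => (pair (nat 1) (fs q) ∈ F v ∧ sn q = nat 1) ∨
    (¬ pair (nat 1) (fs q) ∈ F v ∧ sn q = nat 0))
    (DfnF.const (hM.prod_mem hM.infinity (hM.nat_mem 2))) ?_
  exact ((Dfn.mem (hB.pair' (DfnF.const h1) (hM.fs' (DfnF.proj 0))) hF.tail).and
    (Dfn.eq (hM.sn' (DfnF.proj 0)) (DfnF.const h1))).or
    (((Dfn.mem (hB.pair' (DfnF.const h1) (hM.fs' (DfnF.proj 0))) hF.tail).not).and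
    (Dfn.eq (hM.sn' (DfnF.proj 0)) (DfnF.const h0)))

section

variable {V : Set ZFSet.{0}} (hL : IsLA dA V) {g : Set ℕ} (hg : Gn V g)

variable (V g) in
/-- The family. -/
def Af (k : ℕ) : Set (ℕ → ℕ) :=
  {y | y ∈ Rls (MM V g) ∧ (∀ n, y n = 0 ∨ y n = 1) ∧ df y (chr (cut g k)) ∈ V}

include hL hg

theorem bkM : Bk (MM V g) := bk_of (zfM hL hg) (V_sub_M hL hg hL.mem)

/-- The members of the family are given by the sets of numbers in `V`. -/
theorem ob_chr {k : ℕ} {c : Set ℕ} :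
    {i | pair (nat 1) (nat i) ∈ ob g k c} = {i | ¬ (i ∈ cut g k ↔ i ∈ c)} := by
  ext i
  rw [Set.mem_setOf_eq, mem_ob]
  constructor
  · rintro (h1 | ⟨j, hj, h1⟩)
    · exact absurd (ZFSet.pair_inj.1 h1).1.symm nat0_ne_nat1
    · rw [nat_injective (ZFSet.pair_inj.1 h1).2]
      exact hj
  · exact fun h => Or.inr ⟨i, h, rfl⟩

theorem mem_Af {k : ℕ} {y : ℕ → ℕ} : y ∈ Af V g k ↔
    ∃ c, nm c ∈ V ∧ y = chr {i | ¬ (i ∈ cut g k ↔ i ∈ c)} := by
  constructor
  · rintro ⟨h1, h2, h3⟩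
    refine ⟨st (df y (chr (cut g k))), ?_, ?_⟩
    · rw [nm_st]
      · exact h3
      · intro z hz
        obtain ⟨n, -, rfl⟩ := mem_df.1 hz
        exact nat_mem_om n
    · have h4 : {n | y n = 1} =
          {i | ¬ (i ∈ cut g k ↔ i ∈ st (df y (chr (cut g k))))} := by
        ext i
        rw [Set.mem_setOf_eq, Set.mem_setOf_eq, mem_st, mem_df]
        have h5 : (∃ n, y n ≠ chr (cut g k) n ∧ nat i = nat n) ↔ y i ≠ chr (cut g k) i := by
          constructor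
          · rintro ⟨n, hn, h⟩
            rwa [nat_injective h]
          · exact fun h => ⟨i, h, rfl⟩
        rw [h5]
        by_cases h6 : i ∈ cut g k
        · rw [chr_pos h6]
          rcases h2 i with h7 | h7
          · rw [h7]
            simp [h6]
          · rw [h7]
            simp [h6]
        · rw [chr_neg h6]
          rcases h2 i with h7 | h7
          · rw [h7]
            simp [h6]
          · rw [h7]
            simp [h6]
      rw [← h4]
      exact eq_chr h2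
  · rintro ⟨c, hc, rfl⟩
    refine ⟨?_, chr_01 _, ?_⟩
    · show code _ ∈ MM V g
      rw [← ob_chr hL hg, ← cde_eq]
      exact (dfn_cde (zfM hL hg) (n := 1) (DfnF.proj 0)).1 (fun _ => ob g k c)
        fun _ => ob_mem hL hg hc
    · have h1 : df (chr {i | ¬ (i ∈ cut g k ↔ i ∈ c)}) (chr (cut g k)) = nm c := by
        ext z
        rw [mem_df, mem_nm]
        refine exists_congr fun n => and_congr_left fun _ => ?_
        by_cases h2 : n ∈ cut g k <;> by_cases h3 : n ∈ c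
        · rw [chr_neg (b := {i | ¬ (i ∈ cut g k ↔ i ∈ c)}) (by
            intro h
            exact h ⟨fun _ => h3, fun _ => h2⟩), chr_pos h2]
          simp [h3]
        · rw [chr_pos (b := {i | ¬ (i ∈ cut g k ↔ i ∈ c)}) (by
            intro h
            exact h3 (h.1 h2)), chr_pos h2]
          simp [h3]
        · rw [chr_pos (b := {i | ¬ (i ∈ cut g k ↔ i ∈ c)}) (by
            intro h
            exact h2 (h.2 h3)), chr_neg h2]
          simp [h3]
        · rw [chr_neg (b := {i | ¬ (i ∈ cut g k ↔ i ∈ c)}) (by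
            intro h
            exact h ⟨fun h' => absurd h' h2, fun h' => absurd h' h3⟩), chr_neg h2]
          simp [h3]
      rw [h1]
      exact hc

theorem cut_Rls (k : ℕ) : chr (cut g k) ∈ Rls (MM V g) := by
  have h1 : chr (cut g k) ∈ Af V g k := by
    refine (mem_Af hL hg).2 ⟨∅, nm_empty hL hg, ?_⟩
    congr 1
    ext i
    have h2 : ¬ i ∈ (∅ : Set ℕ) := fun h => h
    rw [Set.mem_setOf_eq]
    tauto
  exact h1.1

theorem Af_nonempty (k : ℕ) : (Af V g k).Nonempty :=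
  ⟨_, (mem_Af hL hg).2 ⟨∅, nm_empty hL hg, rfl⟩⟩

theorem fam_mem : fam (Af V g) ∈ MM V g := by
  have hM := zfM hL hg
  have hB := hM.base
  obtain ⟨OO, hOO, h1⟩ := exists_OO hL hg
  have h2 : fam (Af V g) = im (fun z => pair (ap z (nat 0)) (cde z)) OO := by
    have hap : ∀ (k : ℕ) (c : Set ℕ), ap (ob g k c) (nat 0) = nat k := by
      intro k c
      refine ap_unique (mem_ob.2 (Or.inl rfl)) fun q hq h => ?_
      rcases mem_ob.1 hq with rfl | ⟨i, -, rfl⟩
      · exact sn_pair _ _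
      · rw [fs_pair] at h
        exact absurd h.symm nat0_ne_nat1
    ext z
    rw [fam, ZFSet.mem_range, mem_im]
    constructor
    · rintro ⟨⟨⟨k, y⟩, hy⟩, rfl⟩
      obtain ⟨c, hc, h3⟩ := (mem_Af hL hg).1 hy
      refine ⟨ob g k c, (h1 _).2 ⟨k, c, hc, rfl⟩, ?_⟩
      have h3' : y = chr {i | ¬ (i ∈ cut g k ↔ i ∈ c)} := h3
      show pair (nat k) (code y) = _
      rw [hap, cde_eq, ob_chr hL hg, h3']
    · rintro ⟨o, ho, rfl⟩
      obtain ⟨k, c, hc, rfl⟩ := (h1 _).1 ho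
      rw [hap, cde_eq, ob_chr hL hg]
      exact ⟨⟨⟨k, _⟩, (mem_Af hL hg).2 ⟨c, hc, rfl⟩⟩, rfl⟩
  rw [h2]
  exact hM.im_mem hOO (hB.pair' (hM.ap' (DfnF.proj 0) (DfnF.const (hM.nat_mem 0)))
    (dfn_cde hM (DfnF.proj 0)))

/-- The ground model is a constructible universe of the symmetric model. -/
theorem LC_eq : LC (MM V g) dA = V := by
  have hV := hL.zf
  ext x
  constructor
  · rintro ⟨ξ, h1, h2, h3⟩
    exact hV.trans _ (Lv_mem_M hV hL.mem (ord_M hL hg h2 h1)) _ h3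
  · intro hx
    obtain ⟨ξ, h1, h2, h3⟩ := hL.lev x hx
    exact ⟨ξ, V_sub_M hL hg h1, h2, h3⟩

theorem Af_sigma (k : ℕ) : Sigma12 (MM V g) (Af V g k) := by
  have hM := zfM hL hg
  have hV := hL.zf
  have hAM := V_sub_M hL hg hL.mem
  have hLC := LC_eq hL hg
  obtain ⟨T, hT, h1⟩ := sig12 (bkM hL hg) (TC_mem hM hAM) hAM (fun z hz => isHF_dA hz)
    (by rw [hLC]; exact bk_of hV hL.mem) (by rw [hLC]; exact hL) (cut_Rls hL hg k)
  refine ⟨T, hT, fun y => ?_⟩
  rw [← h1 y, hLC]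
  exact Iff.rfl

omit hg in
/-- The canonical name of the generic set. -/
theorem exists_gn : ∃ gn ∈ V, ∀ g', ev (Gf g') gn = nm g' := by
  have hV := hL.zf
  have hB := hV.base
  have he := (bk_of hV hL.mem).eg
  have ht := t0_mem_V hL
  refine ⟨im (fun u => pair (chk t0 (sn u)) (fs u))
    (ZFSet.sep (fun u => sn u ∈ sn (fs u)) (ZFSet.prod PP ZFSet.omega)), ?_, fun g' => ?_⟩
  · refine hV.im_mem (hV.sep_mem (Q := fun u => sn u ∈ sn (fs u)) ?_
      (hV.prod_mem (PP_mem hV he) hV.infinity)) ?_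
    · exact Dfn.mem (hV.sn' (DfnF.proj 0)) (hV.sn' (hV.fs' (DfnF.proj 0)))
    · exact hB.pair' (DfnF.comp1 (f := chk t0) (dfn_chk hV ht) (hV.sn' (DfnF.proj 0)))
        (hV.fs' (DfnF.proj 0))
  · ext z
    rw [mem_ev, mem_nm]
    constructor
    · rintro ⟨y, p, h1, h2, rfl⟩
      obtain ⟨u, hu, h3⟩ := mem_im.1 h1
      obtain ⟨h4, h5⟩ := ZFSet.mem_sep.1 hu
      obtain ⟨q, hq, x, hx, rfl⟩ := ZFSet.mem_prod.1 h4
      rw [fs_pair, sn_pair] at h3 h5
      obtain ⟨rfl, rfl⟩ := ZFSet.pair_inj.1 h3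
      obtain ⟨n, rfl⟩ := mem_Gf.1 h2
      rw [cn, sn_pair] at h5
      obtain ⟨i, -, h6, rfl⟩ := mem_sb.1 h5
      exact ⟨i, h6, ev_chk (t0_mem_Gf g') _⟩
    · rintro ⟨i, hi, rfl⟩
      refine ⟨_, cn (i + 1) g', mem_im.2 ⟨pair (cn (i + 1) g') (nat i), ZFSet.mem_sep.2
        ⟨ZFSet.pair_mem_prod.2 ⟨cn_mem_PP _ _, nat_mem_om i⟩, ?_⟩, ?_⟩, mem_Gf.2 ⟨_, rfl⟩,
        ev_chk (t0_mem_Gf g') _⟩
      · rw [sn_pair, fs_pair, cn, sn_pair]
        exact nat_mem_sb.2 ⟨Nat.lt_succ_self i, hi⟩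
      · rw [sn_pair, fs_pair]

omit hL hg in
/-- The relation that says how the values of a choice function depend on the generic set. -/
theorem d0_dep : D0 fun v : Fin 7 → ZFSet.{0} => ∀ w ∈ v 1, ∃ a u, w = pair a u ∧
    (a = v 2 → ∀ x ∈ v 5, (pair x (v 6) ∈ u ↔ ¬ ((x ∈ v 0 ∧ x ∈ v 3) ↔ x ∈ v 4))) := by
  (repeat' first
    | assumption
    | exact D0v.proj _
    | apply D0.not | apply D0.and | apply D0.expair | apply D0.or | apply D0.isPair | apply D0.pairMem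
    | apply D0.bex | apply D0.ball | apply D0.imp | apply D0.iff | apply D0.subset
    | apply D0.eq | apply D0.mem)

theorem mem_seqr {f : ℕ → ℕ → ℕ} {z : ZFSet.{0}} :
    z ∈ seqr f ↔ ∃ k, z = pair (nat k) (code (f k)) := by
  rw [seqr, ZFSet.mem_range]
  exact exists_congr fun k => eq_comm

/-- The family has no choice function in the symmetric model. -/
theorem no_choice {f : ℕ → ℕ → ℕ} (hf' : ∀ k, f k ∈ Af V g k) : seqr f ∉ MM V g := by
  rintro ⟨τ, hτ, hev⟩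
  have hV := hL.zf
  obtain ⟨H, hH, hs⟩ := (hs_iff.1 hτ.2).1
  obtain ⟨m, rfl⟩ := mem_Fl.1 hH
  obtain ⟨gn, hgn, hgn'⟩ := exists_gn hL
  obtain ⟨c, hc, hc'⟩ := (mem_Af hL hg).1 (hf' (m + 1))
  have hSm : Sm (nat (m + 1)) ∈ V :=
    (dfn_Sm hV (SS_mem hV hL.mem) (n := 1) (DfnF.proj 0)).1 (fun _ => nat (m + 1))
      fun _ => hV.nat_mem _
  have hv : ∀ i, (![gn, τ, chk t0 (nat (m + 1)), chk t0 (Sm (nat (m + 1))), chk t0 (nm c),
      chk t0 ZFSet.omega, chk t0 (nat 1)] : Fin 7 → ZFSet.{0}) i ∈ V := by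
    intro i
    fin_cases i
    · exact hgn
    · exact hτ.1
    · exact chk_mem_V hL (hV.nat_mem _)
    · exact chk_mem_V hL hSm
    · exact chk_mem_V hL hc
    · exact chk_mem_V hL hV.infinity
    · exact chk_mem_V hL (hV.nat_mem 1)
  have hval : ∀ g', ev (Gf g') τ = seqr f → ((∀ w ∈ ev (Gf g') τ, ∃ a u, w = pair a u ∧
      (a = ev (Gf g') (chk t0 (nat (m + 1))) → ∀ x ∈ ev (Gf g') (chk t0 ZFSet.omega),
        (pair x (ev (Gf g') (chk t0 (nat 1))) ∈ u ↔
        ¬ ((x ∈ ev (Gf g') gn ∧ x ∈ ev (Gf g') (chk t0 (Sm (nat (m + 1))))) ↔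
          x ∈ ev (Gf g') (chk t0 (nm c)))))) ↔
      ∀ i : ℕ, (f (m + 1) i = 1 ↔ ¬ ((i ∈ g' ∧ i.unpair.1 < m + 1) ↔ i ∈ c))) := by
    intro g' he
    rw [he, hgn', ev_chk (t0_mem_Gf g'), ev_chk (t0_mem_Gf g'), ev_chk (t0_mem_Gf g'),
      ev_chk (t0_mem_Gf g'), ev_chk (t0_mem_Gf g')]
    constructor
    · intro h i
      obtain ⟨a, u, h1, h2⟩ := h _ ((mem_seqr hL hg).2 ⟨m + 1, rfl⟩)
      obtain ⟨rfl, rfl⟩ := ZFSet.pair_inj.1 h1
      have h3 := h2 rfl (nat i) (nat_mem_om i)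
      rw [pair_mem_code, nat_mem_nm, nat_mem_nm, nat_mem_Sm] at h3
      exact h3
    · intro h w hw
      obtain ⟨k, rfl⟩ := (mem_seqr hL hg).1 hw
      refine ⟨_, _, rfl, fun hk x hx => ?_⟩
      have h4 := nat_injective hk
      subst h4
      obtain ⟨i, rfl⟩ := mem_omega_iff.1 hx
      rw [pair_mem_code, nat_mem_nm, nat_mem_nm, nat_mem_Sm]
      exact h i
  have hfac : ∀ i : ℕ, (f (m + 1) i = 1 ↔ ¬ ((i ∈ g ∧ i.unpair.1 < m + 1) ↔ i ∈ c)) := by
    intro i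
    rw [hc', chr_eq_one]
    exact Iff.rfl
  obtain ⟨n, hn⟩ := ftg hL hg d0_dep hv ((hval g hev).2 hfac)
  -- the flip of one point
  set i : ℕ := Nat.pair m n with hi
  have hin : n ≤ i := Nat.right_le_pair m n
  have him : i.unpair.1 = m := by rw [hi, Nat.unpair_pair]
  have htV : nm {i} ∈ V := by
    have h1 : nm {i} = {nat i} := by
      ext z
      rw [mem_nm, ZFSet.mem_singleton]
      constructor
      · rintro ⟨j, hj, rfl⟩
        have : j = i := hj
        rw [this]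
      · rintro rfl
        exact ⟨i, rfl, rfl⟩
    rw [h1]
    exact hV.single_mem (hV.nat_mem i)
  have hst : st (nm {i}) = {i} := st_nm _
  have htH : nm {i} ∈ Hm V (nat m) := by
    refine mem_Hm.2 ⟨nm_mem_Grp hV htV, fun j hj => ?_⟩
    rw [hst] at hj
    have : j = i := hj
    rw [this, him]
  have h1 := hn (xr g (st (nm {i}))) (Gn_flip hV hg htV) (fun j hj => by
    have h2 : ¬ j ∈ st (nm {i}) := by
      rw [hst]
      intro h
      have : j = i := h
      omega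
    rw [mem_xr]
    tauto)
  have h3 : ev (Gf (xr g (st (nm {i})))) τ = seqr f := by
    rw [← ev_act, hs _ htH]
    exact hev
  have h4 := (hval _ h3).1 h1 i
  have h5 := hfac i
  have h6 : i ∈ xr g (st (nm {i})) ↔ ¬ i ∈ g := by
    have h7 : i ∈ st (nm {i}) := by
      rw [hst]
      exact rfl
    rw [mem_xr]
    tauto
  rw [h6] at h4
  rw [h5] at h4
  have h8 : i.unpair.1 < m + 1 := by omega
  tauto

theorem not_AC_sigma : ¬ ACw (MM V g) (Sigma12 (MM V g)) := by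
  intro h
  obtain ⟨f, h1, h2⟩ := h (Af V g) (Af_nonempty hL hg) (Af_sigma hL hg) (fam_mem hL hg)
  exact no_choice hL hg h1 h2

end

end Pool.Agent.H158_PC
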