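import Pool.Agent.H158_PC.Cn
import Pool.Agent.R597.LS

/-!
# Generic reals over small models, and pairs of generic reals
-/

set_option autoImplicit false
set_option linter.unusedSectionVars false
set_option linter.unreachableTactic false
set_option linter.unusedTactic false

namespace Pool.Agent.H158_PC

open Pool.Agent.W868 Pool.Agent.W868.GM Pool.Agent.R597 Pool.Agent.Y588 AM
open ZFSet (pair)

/-- Recursion along the natural numbers with choices. -/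
theorem exists_sq {V : Set ZFSet.{0}} (hV : IsZF V) {e : ZFSet.{0} → ZFSet.{0}} (hg : GC V e)
    {W a0 : ZFSet.{0}} (hW : W ∈ V) (ha0 : a0 ∈ W) {R : ZFSet.{0} → ZFSet.{0} → Prop}
    (hR : Dfn V V fun w : Fin 2 → ZFSet.{0} => R (w 0) (w 1)) (hs : ∀ a ∈ W, ∃ b ∈ W, R a b) :
    ∃ F : ZFSet.{0} → ZFSet.{0}, DfnF V V (fun w : Fin 1 → ZFSet.{0} => F (w 0)) ∧
      F (nat 0) = a0 ∧ ∀ n : ℕ, F (nat n) ∈ W ∧ R (F (nat n)) (F (nat (n + 1))) := by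
  classical
  have hB := hV.base
  have h0 := hV.empty_mem
  have ha0V := hV.trans _ hW _ ha0
  let G : ZFSet.{0} → ZFSet.{0} → ZFSet.{0} := fun z g =>
    if z = ∅ then a0 else chs V e fun b => b ∈ W ∧ R (ap g (ZFSet.sUnion z)) b
  let F : ZFSet.{0} → ZFSet.{0} := wfF (fun z => z) ZFSet.mem_wf G
  have hF : ∀ z, F z = G z (gr F z) := fun z => wfF_eq _ _ _ _
  have hGd : DfnF V V fun w : Fin 2 → ZFSet.{0} => G (w 0) (w 1) := by
    refine DfnF.ite (Dfn.eq (DfnF.proj 0) (DfnF.const h0)) (DfnF.const ha0V) ?_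
    refine hV.chs' hg (Q := fun b w => b ∈ W ∧ R (ap (w 1) (ZFSet.sUnion (w 0))) b) ?_
    refine (Dfn.mem (DfnF.proj 0) (DfnF.const hW)).and ?_
    exact Dfn.comp2 (Q := R) hR (hV.ap' (DfnF.proj 2) (hB.sUnion' (DfnF.proj 1))) (DfnF.proj 0)
  have hz : F (nat 0) = a0 := by
    rw [hF]
    exact if_pos rfl
  have hsucc : ∀ n : ℕ, F (nat (n + 1)) = chs V e fun b => b ∈ W ∧ R (F (nat n)) b := by
    intro n
    rw [hF]
    show (if nat (n + 1) = ∅ then a0 else _) = _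
    rw [if_neg (nat_succ_ne n), sUnion_nat_succ,
      ap_gr (show nat n ∈ nat (n + 1) from ZFSet.mem_insert _ _)]
  have hstep : ∀ n : ℕ, F (nat n) ∈ W → F (nat (n + 1)) ∈ W ∧ R (F (nat n)) (F (nat (n + 1))) := by
    intro n hn
    obtain ⟨b, hb, h1⟩ := hs _ hn
    have h2 := chs_spec (C := V) (e := e) (P := fun b => b ∈ W ∧ R (F (nat n)) b)
      ⟨b, hV.trans _ hW _ hb, hb, h1⟩
    rw [← hsucc] at h2
    exact h2.2
  have hall : ∀ n : ℕ, F (nat n) ∈ W := by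
    intro n
    induction n with
    | zero => rw [hz]; exact ha0
    | succ n ih => exact (hstep n ih).1
  exact ⟨F, hV.memrec hGd hF, hz, fun n => ⟨hall n, (hstep n (hall n)).2⟩⟩

/-- Generic reals over countable models. -/
theorem exists_genV {V : Set ZFSet.{0}} (hL : IsLA dA V) {N : ZFSet.{0}} (hN : N ∈ V)
    (hNi : Inj V N ZFSet.omega) (n : ℕ) (b : Set ℕ) :
    ∃ X : Set ℕ, nm X ∈ V ∧ Gn {x | x ∈ N} X ∧ ∀ i < n, (i ∈ X ↔ i ∈ b) := by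
  have hV := hL.zf
  have hB := hV.base
  have hω := hV.infinity
  have he := (bk_of hV hL.mem).eg
  have hP := PP_mem hV he
  have hLe := LL_mem hV he
  obtain ⟨d, hd, hd'⟩ := exists_enum_inf hV hN hNi
  have hW : ZFSet.prod ZFSet.omega PP ∈ V := hV.prod_mem hω hP
  let R : ZFSet.{0} → ZFSet.{0} → Prop := fun a b => fs b = insert (fs a) (fs a) ∧
    pair (sn b) (sn a) ∈ LL ∧ ((∀ p ∈ PP, ∃ q ∈ ap d (fs a), q ∈ PP ∧ pair q p ∈ LL) →
      sn b ∈ ap d (fs a))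
  have hR : Dfn V V fun w : Fin 2 → ZFSet.{0} => R (w 0) (w 1) := by
    refine (Dfn.eq (hV.fs' (DfnF.proj 1)) (hB.insert' (hV.fs' (DfnF.proj 0))
      (hV.fs' (DfnF.proj 0)))).and ((Dfn.mem (hB.pair' (hV.sn' (DfnF.proj 1))
      (hV.sn' (DfnF.proj 0))) (DfnF.const hLe)).and (Dfn.imp ?_ ?_))
    · refine hB.ball (Q := fun p w => ∃ q ∈ ap d (fs (w 0)), q ∈ PP ∧ pair q p ∈ LL)
        (DfnF.const hP) ?_
      refine hB.bex (Q := fun q w => q ∈ PP ∧ pair q (w 0) ∈ LL)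
        (hV.ap' (DfnF.const hd) (hV.fs' (DfnF.proj 1))) ?_
      exact (Dfn.mem (DfnF.proj 0) (DfnF.const hP)).and
        (Dfn.mem (hB.pair' (DfnF.proj 0) (DfnF.proj 1)) (DfnF.const hLe))
    · exact Dfn.mem (hV.sn' (DfnF.proj 1)) (hV.ap' (DfnF.const hd) (hV.fs' (DfnF.proj 0)))
  obtain ⟨F, hFd, hF0, hFs⟩ := exists_sq hV hL.gc hW (a0 := pair (nat 0) (cn n b))
    (ZFSet.pair_mem_prod.2 ⟨nat_mem_om 0, cn_mem_PP n b⟩) hR (by
      intro a ha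
      obtain ⟨x, hx, p, hp, rfl⟩ := ZFSet.mem_prod.1 ha
      obtain ⟨k, rfl⟩ := mem_omega_iff.1 hx
      by_cases hc : ∀ p ∈ PP, ∃ q ∈ ap d (nat k), q ∈ PP ∧ pair q p ∈ LL
      · obtain ⟨q, hq, hqP, hqp⟩ := hc p hp
        refine ⟨pair (nat (k + 1)) q, ZFSet.pair_mem_prod.2 ⟨nat_mem_om _, hqP⟩, ?_⟩
        refine ⟨?_, ?_, fun _ => ?_⟩
        · rw [fs_pair, fs_pair]
          rfl
        · rw [sn_pair, sn_pair]
          exact hqp
        · rw [sn_pair, fs_pair]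
          exact hq
      · refine ⟨pair (nat (k + 1)) p, ZFSet.pair_mem_prod.2 ⟨nat_mem_om _, hp⟩, ?_⟩
        refine ⟨?_, ?_, fun h => absurd ?_ hc⟩
        · rw [fs_pair, fs_pair]
          rfl
        · rw [sn_pair, sn_pair]
          exact (forcing_PP hV he).refl p hp
        · rw [fs_pair] at h
          exact h)
  have hfs : ∀ k : ℕ, fs (F (nat k)) = nat k := by
    intro k
    induction k with
    | zero => rw [hF0, fs_pair]
    | succ k ih => rw [(hFs k).2.1, ih]; rfl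
  have hsn : ∀ k : ℕ, ∃ l c, sn (F (nat k)) = cn l c := by
    intro k
    obtain ⟨x, -, p, hp, h⟩ := ZFSet.mem_prod.1 (hFs k).1
    rw [h, sn_pair]
    exact mem_PP.1 hp
  choose l c hlc using hsn
  have hle : ∀ k, l k ≤ l (k + 1) ∧ ∀ i < l k, (i ∈ c (k + 1) ↔ i ∈ c k) := by
    intro k
    have h := (hFs k).2.2.1
    rw [hlc, hlc, le_iff] at h
    exact h
  have hle2 : ∀ k j, l k ≤ l (k + j) ∧ ∀ i < l k, (i ∈ c (k + j) ↔ i ∈ c k) := by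
    intro k j
    induction j with
    | zero => exact ⟨le_rfl, fun _ _ => Iff.rfl⟩
    | succ j ih =>
      obtain ⟨h1, h2⟩ := hle (k + j)
      exact ⟨le_trans ih.1 h1, fun i hi => (h2 i (lt_of_lt_of_le hi ih.1)).trans (ih.2 i hi)⟩
  set X : Set ℕ := {i | ∃ k, i < l k ∧ i ∈ c k} with hX
  have hXc : ∀ k, ∀ i < l k, (i ∈ X ↔ i ∈ c k) := by
    intro k i hi
    constructor
    · rintro ⟨k', h1, h2⟩
      rcases le_total k k' with h | h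
      · obtain ⟨j, rfl⟩ := Nat.exists_eq_add_of_le h
        exact ((hle2 k j).2 i hi).1 h2
      · obtain ⟨j, rfl⟩ := Nat.exists_eq_add_of_le h
        exact ((hle2 k' j).2 i h1).2 h2
    · exact fun h => ⟨k, hi, h⟩
  refine ⟨X, ?_, ?_, ?_⟩
  · have h1 : nm X = ZFSet.sUnion (im (fun z => sn (sn (F z))) ZFSet.omega) := by
      ext x
      rw [ZFSet.mem_sUnion]
      constructor
      · intro hx
        obtain ⟨i, ⟨k, h1, h2⟩, rfl⟩ := mem_nm.1 hx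
        refine ⟨sn (sn (F (nat k))), mem_im.2 ⟨nat k, nat_mem_om k, rfl⟩, ?_⟩
        rw [hlc, cn, sn_pair]
        exact nat_mem_sb.2 ⟨h1, h2⟩
      · rintro ⟨y, hy, hxy⟩
        obtain ⟨z, hz, rfl⟩ := mem_im.1 hy
        obtain ⟨k, rfl⟩ := mem_omega_iff.1 hz
        rw [hlc, cn, sn_pair] at hxy
        obtain ⟨i, h1, h2, rfl⟩ := mem_sb.1 hxy
        exact mem_nm.2 ⟨i, ⟨k, h1, h2⟩, rfl⟩
    rw [h1]
    exact hV.union _ (hV.im_mem hω (hV.sn' (hV.sn' hFd)))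
  · intro D hD hDP hdense
    obtain ⟨k, -, hk⟩ := hd' D hD 0
    have h1 := (hFs k).2.2.2
    rw [hfs, hk] at h1
    have h2 := h1 (by
      intro p hp
      obtain ⟨q, hq, hqp⟩ := hdense p hp
      exact ⟨q, hq, hDP hq, hqp⟩)
    rw [hlc] at h2
    refine ⟨l (k + 1), ?_⟩
    rw [cn_congr (hXc (k + 1))]
    exact h2
  · intro i hi
    have h1 := hlc 0
    rw [hF0, sn_pair] at h1
    obtain ⟨h2, h3⟩ := cn_inj h1
    rw [h3 i hi]
    exact hXc 0 i (h2 ▸ hi)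

/-! ### Pairs of reals -/

/-- The condition for two reals. -/
noncomputable def cn2 (n : ℕ) (b c : Set ℕ) : ZFSet.{0} := pair (nat n) (pair (sb b n) (sb c n))

theorem cn2_congr {b c b' c' : Set ℕ} {n : ℕ} (h : ∀ i < n, (i ∈ b ↔ i ∈ b'))
    (h' : ∀ i < n, (i ∈ c ↔ i ∈ c')) : cn2 n b c = cn2 n b' c' := by
  rw [cn2, cn2, sb_congr h, sb_congr h']

theorem cn2_inj {b c b' c' : Set ℕ} {n m : ℕ} (h : cn2 n b c = cn2 m b' c') :
    n = m ∧ (∀ i < n, (i ∈ b ↔ i ∈ b')) ∧ ∀ i < n, (i ∈ c ↔ i ∈ c') := by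
  obtain ⟨h1, h2⟩ := ZFSet.pair_inj.1 h
  have h3 := nat_injective h1
  subst h3
  obtain ⟨h4, h5⟩ := ZFSet.pair_inj.1 h2
  exact ⟨rfl, sb_inj h4, sb_inj h5⟩

/-- The coordinates of a condition. -/
noncomputable def c1 (u : ZFSet.{0}) : ZFSet.{0} := pair (fs u) (fs (sn u))

noncomputable def c2 (u : ZFSet.{0}) : ZFSet.{0} := pair (fs u) (sn (sn u))

theorem c1_cn2 (n : ℕ) (b c : Set ℕ) : c1 (cn2 n b c) = cn n b := by
  rw [c1, cn2, fs_pair, sn_pair, fs_pair, cn]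

theorem c2_cn2 (n : ℕ) (b c : Set ℕ) : c2 (cn2 n b c) = cn n c := by
  rw [c2, cn2, fs_pair, sn_pair, sn_pair, cn]

noncomputable def PP2 : ZFSet.{0} :=
  ZFSet.range fun p : ℕ × Set ℕ × Set ℕ => cn2 p.1 p.2.1 p.2.2

theorem mem_PP2 {z : ZFSet.{0}} : z ∈ PP2 ↔ ∃ n b c, z = cn2 n b c := by
  rw [PP2, ZFSet.mem_range]
  constructor
  · rintro ⟨⟨n, b, c⟩, rfl⟩
    exact ⟨n, b, c, rfl⟩
  · rintro ⟨n, b, c, rfl⟩
    exact ⟨⟨n, b, c⟩, rfl⟩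

theorem cn2_mem (n : ℕ) (b c : Set ℕ) : cn2 n b c ∈ PP2 := mem_PP2.2 ⟨n, b, c, rfl⟩

noncomputable def LL2 : ZFSet.{0} :=
  ZFSet.sep (fun z => pair (c1 (fs z)) (c1 (sn z)) ∈ LL ∧ pair (c2 (fs z)) (c2 (sn z)) ∈ LL)
    (ZFSet.prod PP2 PP2)

theorem le2_iff {n m : ℕ} {b c b' c' : Set ℕ} : pair (cn2 m b' c') (cn2 n b c) ∈ LL2 ↔
    n ≤ m ∧ (∀ i < n, (i ∈ b' ↔ i ∈ b)) ∧ ∀ i < n, (i ∈ c' ↔ i ∈ c) := by
  rw [LL2, ZFSet.mem_sep, fs_pair, sn_pair, c1_cn2, c1_cn2, c2_cn2, c2_cn2, le_iff, le_iff]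
  constructor
  · rintro ⟨-, h1, h2⟩
    exact ⟨h1.1, h1.2, h2.2⟩
  · rintro ⟨h1, h2, h3⟩
    exact ⟨ZFSet.pair_mem_prod.2 ⟨cn2_mem _ _ _, cn2_mem _ _ _⟩, ⟨h1, h2⟩, h1, h3⟩

theorem c1' {K : Set ZFSet.{0}} (hK : IsZF K) {n : ℕ} {F : (Fin n → ZFSet.{0}) → ZFSet.{0}}
    (hF : DfnF K K F) : DfnF K K fun v => c1 (F v) :=
  hK.base.pair' (hK.fs' hF) (hK.fs' (hK.sn' hF))

theorem c2' {K : Set ZFSet.{0}} (hK : IsZF K) {n : ℕ} {F : (Fin n → ZFSet.{0}) → ZFSet.{0}}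
    (hF : DfnF K K F) : DfnF K K fun v => c2 (F v) :=
  hK.base.pair' (hK.fs' hF) (hK.sn' (hK.sn' hF))

section mem2

variable {K : Set ZFSet.{0}} (hK : IsZF K) (he : eg ∈ K)

include hK he

theorem PP2_mem : PP2 ∈ K := by
  have hB := hK.base
  have hP := PP_mem hK he
  have h1 : PP2 = im (fun z => pair (fs (fs z)) (pair (sn (fs z)) (sn (sn z))))
      (ZFSet.sep (fun z => fs (fs z) = fs (sn z)) (ZFSet.prod PP PP)) := by
    ext z
    rw [mem_PP2, mem_im]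
    constructor
    · rintro ⟨n, b, c, rfl⟩
      refine ⟨pair (cn n b) (cn n c), ZFSet.mem_sep.2 ⟨ZFSet.pair_mem_prod.2
        ⟨cn_mem_PP _ _, cn_mem_PP _ _⟩, ?_⟩, ?_⟩
      · rw [fs_pair, sn_pair, cn, cn, fs_pair, fs_pair]
      · rw [fs_pair, sn_pair, cn, cn, fs_pair, sn_pair, sn_pair, cn2]
    · rintro ⟨u, hu, rfl⟩
      obtain ⟨h2, h3⟩ := ZFSet.mem_sep.1 hu
      obtain ⟨p, hp, q, hq, rfl⟩ := ZFSet.mem_prod.1 h2
      obtain ⟨n, b, rfl⟩ := mem_PP.1 hp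
      obtain ⟨m, c, rfl⟩ := mem_PP.1 hq
      rw [fs_pair, sn_pair, cn, cn, fs_pair, fs_pair] at h3
      have h4 := nat_injective h3
      subst h4
      refine ⟨n, b, c, ?_⟩
      rw [fs_pair, sn_pair, cn, cn, fs_pair, sn_pair, sn_pair, cn2]
  rw [h1]
  refine hK.im_mem (hK.sep_mem (Q := fun z => fs (fs z) = fs (sn z)) ?_ (hK.prod_mem hP hP)) ?_
  · exact Dfn.eq (hK.fs' (hK.fs' (DfnF.proj 0))) (hK.fs' (hK.sn' (DfnF.proj 0)))
  · exact hB.pair' (hK.fs' (hK.fs' (DfnF.proj 0))) (hB.pair' (hK.sn' (hK.fs' (DfnF.proj 0)))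
      (hK.sn' (hK.sn' (DfnF.proj 0))))

theorem LL2_mem : LL2 ∈ K := by
  have hB := hK.base
  have hP := PP2_mem hK he
  have hL := LL_mem hK he
  refine hK.sep_mem ?_ (hK.prod_mem hP hP)
  exact (Dfn.mem (hB.pair' (c1' hK (hK.fs' (DfnF.proj 0))) (c1' hK (hK.sn' (DfnF.proj 0))))
    (DfnF.const hL)).and (Dfn.mem (hB.pair' (c2' hK (hK.fs' (DfnF.proj 0)))
    (c2' hK (hK.sn' (DfnF.proj 0)))) (DfnF.const hL))

theorem forcing_PP2 : IsForcing K PP2 LL2 where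
  mem := PP2_mem hK he
  le_mem := LL2_mem hK he
  refl := by
    intro p hp
    obtain ⟨n, b, c, rfl⟩ := mem_PP2.1 hp
    exact le2_iff.2 ⟨le_rfl, fun _ _ => Iff.rfl, fun _ _ => Iff.rfl⟩
  trans := by
    intro p hp q hq r hr h1 h2
    obtain ⟨n, b, c, rfl⟩ := mem_PP2.1 hp
    obtain ⟨m, b', c', rfl⟩ := mem_PP2.1 hq
    obtain ⟨l, b'', c'', rfl⟩ := mem_PP2.1 hr
    rw [le2_iff] at h1 h2 ⊢
    exact ⟨by omega, fun i hi => (h1.2.1 i (by omega)).trans (h2.2.1 i hi),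
      fun i hi => (h1.2.2 i (by omega)).trans (h2.2.2 i hi)⟩
  top := ⟨cn2 0 ∅ ∅, cn2_mem _ _ _, fun p hp => by
    obtain ⟨n, b, c, rfl⟩ := mem_PP2.1 hp
    exact le2_iff.2 ⟨by omega, fun i hi => by omega, fun i hi => by omega⟩⟩

end mem2

noncomputable def Gf2 (g h : Set ℕ) : ZFSet.{0} := ZFSet.range fun n : ℕ => cn2 n g h

theorem mem_Gf2 {g h : Set ℕ} {z : ZFSet.{0}} : z ∈ Gf2 g h ↔ ∃ n, z = cn2 n g h := by
  rw [Gf2, ZFSet.mem_range]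
  exact exists_congr fun n => eq_comm

/-- The pair of `g` and `h` is Cohen generic over `K`. -/
def Gn2 (K : Set ZFSet.{0}) (g h : Set ℕ) : Prop :=
  ∀ D ∈ K, D ⊆ PP2 → (∀ p ∈ PP2, ∃ q ∈ D, pair q p ∈ LL2) → ∃ n, cn2 n g h ∈ D

theorem gen_of_Gn2 {K : Set ZFSet.{0}} {g h : Set ℕ} (hg : Gn2 K g h) :
    IsGeneric K PP2 LL2 (Gf2 g h) where
  sub := by
    intro z hz
    obtain ⟨n, rfl⟩ := mem_Gf2.1 hz
    exact cn2_mem _ _ _
  nonempty := ⟨cn2 0 g h, mem_Gf2.2 ⟨0, rfl⟩⟩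
  up := by
    intro q hq p hp hqp
    obtain ⟨n, rfl⟩ := mem_Gf2.1 hq
    obtain ⟨m, b, c, rfl⟩ := mem_PP2.1 hp
    rw [le2_iff] at hqp
    exact mem_Gf2.2 ⟨m, cn2_congr (fun i hi => (hqp.2.1 i hi).symm)
      fun i hi => (hqp.2.2 i hi).symm⟩
  dir := by
    intro p hp q hq
    obtain ⟨n, rfl⟩ := mem_Gf2.1 hp
    obtain ⟨m, rfl⟩ := mem_Gf2.1 hq
    exact ⟨cn2 (max n m) g h, mem_Gf2.2 ⟨_, rfl⟩,
      le2_iff.2 ⟨le_max_left _ _, fun _ _ => Iff.rfl, fun _ _ => Iff.rfl⟩,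
      le2_iff.2 ⟨le_max_right _ _, fun _ _ => Iff.rfl, fun _ _ => Iff.rfl⟩⟩
  meet := by
    intro D hD hDP hd
    obtain ⟨n, hn⟩ := hg D hD hDP hd
    exact ⟨_, hn, mem_Gf2.2 ⟨n, rfl⟩⟩

/-- Products of a real that is generic over `V` and a real of `V` that is generic over a small
model. -/
theorem Gn2_of {V : Set ZFSet.{0}} (hV : IsZF V) (he : eg ∈ V) {N : ZFSet.{0}} (hN : N ∈ V)
    (hNZ : IsZF {x | x ∈ N}) (heN : eg ∈ N) {g X : Set ℕ} (hg : Gn V g) (hX : Gn {x | x ∈ N} X)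
    (hXV : nm X ∈ V) : Gn2 {x | x ∈ N} g X := by
  intro D hD hDP hd
  have hB := hV.base
  have hDV := hV.trans _ hN _ hD
  have hP := PP_mem hV he
  have hsX : ∀ n : ℕ, ZFSet.sep (fun x => x ∈ nm X) (nat n) = sb X n := by
    intro n
    ext x
    rw [ZFSet.mem_sep, mem_natK]
    constructor
    · rintro ⟨⟨i, hi, rfl⟩, h⟩
      exact nat_mem_sb.2 ⟨hi, nat_mem_nm.1 h⟩
    · intro hx
      obtain ⟨i, hi, h, rfl⟩ := mem_sb.1 hx
      exact ⟨⟨i, hi, rfl⟩, nat_mem_nm.2 h⟩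
  obtain ⟨n, hn⟩ := hg (ZFSet.sep (fun p => pair (fs p) (pair (sn p)
    (ZFSet.sep (fun x => x ∈ nm X) (fs p))) ∈ D) PP) (by
      refine hV.sep_mem (Q := fun p => pair (fs p) (pair (sn p)
        (ZFSet.sep (fun x => x ∈ nm X) (fs p))) ∈ D) ?_ hP
      refine Dfn.mem (hB.pair' (hV.fs' (DfnF.proj 0)) (hB.pair' (hV.sn' (DfnF.proj 0)) ?_))
        (DfnF.const hDV)
      exact hV.sep' (Q := fun x w => x ∈ nm X) (hV.fs' (DfnF.proj 0))
        (Dfn.mem (DfnF.proj 0) (DfnF.const hXV)))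
    (fun z hz => (ZFSet.mem_sep.1 hz).1) (by
      intro p hp
      obtain ⟨n, b, rfl⟩ := mem_PP.1 hp
      have hBN := hNZ.base
      have hcn : cn n b ∈ N := hf_memK hNZ (isHF_cn n b)
      have hnN : nat n ∈ N := hNZ.nat_mem n
      have hPN := PP_mem hNZ heN
      have hLN := LL_mem hNZ heN
      obtain ⟨n', hn'⟩ := hX (ZFSet.sep (fun q => nat n ⊆ fs q ∧ ∃ r ∈ D, c2 r = q ∧
        pair (c1 r) (cn n b) ∈ LL) PP) (by
          refine hNZ.sep_mem (Q := fun q => nat n ⊆ fs q ∧ ∃ r ∈ D, c2 r = q ∧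
            pair (c1 r) (cn n b) ∈ LL) ?_ hPN
          refine (hBN.subset' (DfnF.const hnN) (hNZ.fs' (DfnF.proj 0))).and ?_
          refine hBN.bex (Q := fun r w => c2 r = w 0 ∧ pair (c1 r) (cn n b) ∈ LL)
            (DfnF.const hD) ?_
          exact (Dfn.eq (c2' hNZ (DfnF.proj 0)) (DfnF.proj 1)).and
            (Dfn.mem (hBN.pair' (c1' hNZ (DfnF.proj 0)) (DfnF.const hcn)) (DfnF.const hLN)))
        (fun z hz => (ZFSet.mem_sep.1 hz).1) (by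
          intro q hq
          obtain ⟨m, c, rfl⟩ := mem_PP.1 hq
          obtain ⟨r, hr, h1⟩ := hd (cn2 (max n m) b c) (cn2_mem _ _ _)
          obtain ⟨l, b', c', rfl⟩ := mem_PP2.1 (hDP hr)
          rw [le2_iff] at h1
          have hnl : n ≤ l := le_trans (le_max_left _ _) h1.1
          have hml : m ≤ l := le_trans (le_max_right _ _) h1.1
          refine ⟨cn l c', ZFSet.mem_sep.2 ⟨cn_mem_PP _ _, ?_, _, hr, c2_cn2 _ _ _, ?_⟩, ?_⟩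
          · rw [cn, fs_pair, nat_sub]
            exact hnl
          · rw [c1_cn2, le_iff]
            exact ⟨hnl, fun i hi => h1.2.1 i (lt_of_lt_of_le hi (le_max_left _ _))⟩
          · rw [le_iff]
            exact ⟨hml, fun i hi => h1.2.2 i (lt_of_lt_of_le hi (le_max_right _ _))⟩)
      obtain ⟨-, h1, r, hr, h2, h3⟩ := ZFSet.mem_sep.1 hn'
      obtain ⟨l, b', c', rfl⟩ := mem_PP2.1 (hDP hr)
      rw [c2_cn2] at h2
      rw [c1_cn2] at h3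
      obtain ⟨rfl, h4⟩ := cn_inj h2
      refine ⟨cn l b', ZFSet.mem_sep.2 ⟨cn_mem_PP _ _, ?_⟩, h3⟩
      rw [cn, fs_pair, sn_pair, hsX, ← cn2]
      rw [cn2_congr (fun _ _ => Iff.rfl) h4] at hr
      exact hr)
  obtain ⟨-, h1⟩ := ZFSet.mem_sep.1 hn
  rw [cn, fs_pair, sn_pair, hsX, ← cn2] at h1
  exact ⟨n, h1⟩

/-- The automorphism of the forcing for two reals. -/
noncomputable def af (u : ZFSet.{0}) : ZFSet.{0} := pair (fs u) (pair (fs (sn u))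
  (ZFSet.sep (fun x => ¬ (x ∈ fs (sn u) ↔ x ∈ sn (sn u))) (fs u)))

theorem af_cn2 (n : ℕ) (b c : Set ℕ) : af (cn2 n b c) = cn2 n b (xr b c) := by
  rw [af, cn2, cn2, fs_pair, sn_pair, fs_pair, sn_pair]
  congr 2
  ext x
  rw [ZFSet.mem_sep, mem_natK]
  constructor
  · rintro ⟨⟨i, hi, rfl⟩, h⟩
    refine nat_mem_sb.2 ⟨hi, ?_⟩
    rw [nat_mem_sb, nat_mem_sb] at h
    rw [mem_xr]
    tauto
  · intro hx
    obtain ⟨i, hi, h, rfl⟩ := mem_sb.1 hx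
    refine ⟨⟨i, hi, rfl⟩, ?_⟩
    rw [nat_mem_sb, nat_mem_sb]
    rw [mem_xr] at h
    tauto

theorem Gn2.xr {K : Set ZFSet.{0}} (hK : IsZF K) {g X : Set ℕ} (h : Gn2 K g X) :
    Gn2 K g (xr g X) := by
  intro D hD hDP hd
  have hB := hK.base
  obtain ⟨n, hn⟩ := h (im af D) (by
    refine hK.im_mem hD (hB.pair' (hK.fs' (DfnF.proj 0)) (hB.pair'
      (hK.fs' (hK.sn' (DfnF.proj 0))) ?_))
    refine hK.sep' (Q := fun x w => ¬ (x ∈ fs (sn (w 0)) ↔ x ∈ sn (sn (w 0))))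
      (hK.fs' (DfnF.proj 0)) ?_
    exact ((Dfn.mem (DfnF.proj 0) (hK.fs' (hK.sn' (DfnF.proj 1)))).iff
      (Dfn.mem (DfnF.proj 0) (hK.sn' (hK.sn' (DfnF.proj 1))))).not) (by
    intro z hz
    obtain ⟨u, hu, rfl⟩ := mem_im.1 hz
    obtain ⟨n, b, c, rfl⟩ := mem_PP2.1 (hDP hu)
    rw [af_cn2]
    exact cn2_mem _ _ _) (by
    intro p hp
    obtain ⟨n, b, c, rfl⟩ := mem_PP2.1 hp
    obtain ⟨q, hq, h1⟩ := hd (cn2 n b (H158_PC.xr b c)) (cn2_mem _ _ _)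
    obtain ⟨m, b', c', rfl⟩ := mem_PP2.1 (hDP hq)
    refine ⟨af (cn2 m b' c'), mem_im.2 ⟨_, hq, rfl⟩, ?_⟩
    rw [af_cn2]
    rw [le2_iff] at h1 ⊢
    refine ⟨h1.1, h1.2.1, fun i hi => ?_⟩
    have h2 := h1.2.1 i hi
    have h3 := h1.2.2 i hi
    rw [mem_xr] at h3
    rw [mem_xr]
    tauto)
  obtain ⟨u, hu, h1⟩ := mem_im.1 hn
  obtain ⟨m, b, c, rfl⟩ := mem_PP2.1 (hDP hu)
  rw [af_cn2] at h1
  obtain ⟨rfl, h2, h3⟩ := cn2_inj h1
  refine ⟨n, ?_⟩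
  have h4 : cn2 n g (H158_PC.xr g X) = cn2 n b c := by
    refine cn2_congr h2 fun i hi => ?_
    have h5 := h2 i hi
    have h6 := h3 i hi
    rw [mem_xr] at h6
    rw [mem_xr]
    tauto
  rw [h4]
  exact hu

end Pool.Agent.H158_PC
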