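import Pool.Agent.H158_PC.Defs
import Pool.Agent.W868.Small

/-!
# The hereditarily finite sets
-/

set_option autoImplicit false
set_option linter.unusedSectionVars false

namespace Pool.Agent.H158_PC

open Pool.Agent.W868
open ZFSet (pair)

/-- The hereditarily finite set with the number `n`. -/
noncomputable def hf (n : ℕ) : ZFSet.{0} :=
  ZFSet.range fun i : {i : ℕ // i < n ∧ n.testBit i = true} => hf i.1
termination_by n
decreasing_by exact i.2.1

theorem lt_of_tb {n i : ℕ} (h : n.testBit i = true) : i < n :=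
  lt_of_lt_of_le Nat.lt_two_pow_self (Nat.ge_two_pow_of_testBit h)

theorem mem_hf {n : ℕ} {x : ZFSet.{0}} : x ∈ hf n ↔ ∃ i, n.testBit i = true ∧ x = hf i := by
  rw [hf, ZFSet.mem_range]
  constructor
  · rintro ⟨⟨i, h1, h2⟩, rfl⟩
    exact ⟨i, h2, rfl⟩
  · rintro ⟨i, h, rfl⟩
    exact ⟨⟨i, lt_of_tb h, h⟩, rfl⟩

theorem hf_inj' : ∀ N m n : ℕ, m < N → n < N → hf m = hf n → m = n := by
  intro N
  induction N with
  | zero => intro m n h; omega
  | succ N ih =>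
    intro m n hm hn h
    refine Nat.eq_of_testBit_eq fun i => ?_
    have key : ∀ a b : ℕ, a < N + 1 → b < N + 1 → hf a = hf b → a.testBit i = true →
        b.testBit i = true := by
      intro a b ha hb hab hi
      have h1 : hf i ∈ hf b := hab ▸ mem_hf.2 ⟨i, hi, rfl⟩
      obtain ⟨j, hj, hij⟩ := mem_hf.1 h1
      have h2 := lt_of_tb hi
      have h3 := lt_of_tb hj
      rw [ih i j (by omega) (by omega) hij]
      exact hj
    by_cases h1 : m.testBit i = true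
    · rw [h1, key m n hm hn h h1]
    · by_cases h2 : n.testBit i = true
      · exact absurd (key n m hn hm h.symm h2) h1
      · simp only [Bool.not_eq_true] at h1 h2
        rw [h1, h2]

theorem hf_inj {m n : ℕ} (h : hf m = hf n) : m = n :=
  hf_inj' (m + n + 1) m n (by omega) (by omega) h

theorem hf_zero : hf 0 = ∅ := by
  rw [ZFSet.eq_empty]
  intro y hy
  obtain ⟨i, hi, -⟩ := mem_hf.1 hy
  simp at hi

theorem hf_insert (a b : ℕ) : hf (b ||| 2 ^ a) = insert (hf a) (hf b) := by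
  ext x
  rw [mem_hf, ZFSet.mem_insert_iff, mem_hf]
  constructor
  · rintro ⟨i, hi, rfl⟩
    rw [Nat.testBit_or, Nat.testBit_two_pow, Bool.or_eq_true, decide_eq_true_iff] at hi
    rcases hi with hi | rfl
    · exact Or.inr ⟨i, hi, rfl⟩
    · exact Or.inl rfl
  · rintro (rfl | ⟨i, hi, rfl⟩)
    · exact ⟨a, by rw [Nat.testBit_or, Nat.testBit_two_pow_self, Bool.or_true], rfl⟩
    · exact ⟨i, by rw [Nat.testBit_or, hi, Bool.true_or], rfl⟩

/-- The set `x` is hereditarily finite. -/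
def IsHF (x : ZFSet.{0}) : Prop := ∃ n, x = hf n

theorem isHF_empty : IsHF ∅ := ⟨0, hf_zero.symm⟩

theorem IsHF.insert {x y : ZFSet.{0}} (hx : IsHF x) (hy : IsHF y) :
    IsHF (Insert.insert x y) := by
  obtain ⟨a, rfl⟩ := hx
  obtain ⟨b, rfl⟩ := hy
  exact ⟨_, (hf_insert a b).symm⟩

theorem IsHF.single {x : ZFSet.{0}} (hx : IsHF x) : IsHF {x} := by
  have h : ({x} : ZFSet.{0}) = Insert.insert x ∅ := by
    ext z
    simp
  rw [h]
  exact hx.insert isHF_empty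

theorem IsHF.upair {x y : ZFSet.{0}} (hx : IsHF x) (hy : IsHF y) :
    IsHF ({x, y} : ZFSet.{0}) := hx.insert hy.single

theorem IsHF.pair {x y : ZFSet.{0}} (hx : IsHF x) (hy : IsHF y) : IsHF (ZFSet.pair x y) :=
  hx.single.upair (hx.upair hy)

theorem isHF_nat (n : ℕ) : IsHF (nat n) := by
  induction n with
  | zero => exact isHF_empty
  | succ n ih => exact ih.insert ih

theorem IsHF.mem {x y : ZFSet.{0}} (hy : IsHF y) (hx : x ∈ y) : IsHF x := by
  obtain ⟨n, rfl⟩ := hy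
  obtain ⟨i, -, rfl⟩ := mem_hf.1 hx
  exact ⟨i, rfl⟩

/-- The set of the values of `f` on a finite set. -/
noncomputable def fsr (s : Finset ℕ) (f : ℕ → ZFSet.{0}) : ZFSet.{0} :=
  ZFSet.range fun i : {i : ℕ // i ∈ s} => f i.1

theorem mem_fsr {s : Finset ℕ} {f : ℕ → ZFSet.{0}} {x : ZFSet.{0}} :
    x ∈ fsr s f ↔ ∃ i ∈ s, x = f i := by
  rw [fsr, ZFSet.mem_range]
  constructor
  · rintro ⟨⟨i, hi⟩, rfl⟩
    exact ⟨i, hi, rfl⟩
  · rintro ⟨i, hi, rfl⟩
    exact ⟨⟨i, hi⟩, rfl⟩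

open Classical in
theorem fsr_ind {Q : ZFSet.{0} → Prop} (h0 : Q ∅) (h1 : ∀ x y, Q x → Q y → Q (insert x y))
    (f : ℕ → ZFSet.{0}) (s : Finset ℕ) (h : ∀ i ∈ s, Q (f i)) : Q (fsr s f) := by
  induction s using Finset.induction_on with
  | empty =>
    have : fsr ∅ f = ∅ := by
      rw [ZFSet.eq_empty]
      intro y hy
      obtain ⟨i, hi, -⟩ := mem_fsr.1 hy
      simp at hi
    rw [this]
    exact h0
  | insert a s ha ih =>
    have h2 : fsr (insert a s) f = insert (f a) (fsr s f) := by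
      ext z
      rw [mem_fsr, ZFSet.mem_insert_iff, mem_fsr]
      constructor
      · rintro ⟨i, hi, rfl⟩
        rcases Finset.mem_insert.1 hi with rfl | hi
        · exact Or.inl rfl
        · exact Or.inr ⟨i, hi, rfl⟩
      · rintro (rfl | ⟨i, hi, rfl⟩)
        · exact ⟨a, Finset.mem_insert_self _ _, rfl⟩
        · exact ⟨i, Finset.mem_insert_of_mem hi, rfl⟩
    rw [h2]
    exact h1 _ _ (h a (Finset.mem_insert_self _ _))
      (ih fun i hi => h i (Finset.mem_insert_of_mem hi))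

/-- Induction on hereditarily finite sets. -/
theorem hf_ind {Q : ZFSet.{0} → Prop} (h0 : Q ∅) (h1 : ∀ x y, Q x → Q y → Q (insert x y))
    (n : ℕ) : Q (hf n) := by
  induction n using Nat.strong_induction_on with
  | _ n ih =>
    have h2 : hf n = fsr ((Finset.range n).filter fun i => n.testBit i = true) hf := by
      ext x
      rw [mem_hf, mem_fsr]
      refine exists_congr fun i => ?_
      rw [Finset.mem_filter, Finset.mem_range]
      exact ⟨fun h => ⟨⟨lt_of_tb h.1, h.1⟩, h.2⟩, fun h => ⟨h.1.2, h.2⟩⟩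
    rw [h2]
    refine fsr_ind h0 h1 _ _ fun i hi => ih i ?_
    exact Finset.mem_range.1 (Finset.mem_filter.1 hi).1

theorem IsHF.ind {Q : ZFSet.{0} → Prop} (h0 : Q ∅) (h1 : ∀ x y, Q x → Q y → Q (Insert.insert x y))
    {x : ZFSet.{0}} (hx : IsHF x) : Q x := by
  obtain ⟨n, rfl⟩ := hx
  exact hf_ind h0 h1 n

theorem isHF_fsr {s : Finset ℕ} {f : ℕ → ZFSet.{0}} (h : ∀ i ∈ s, IsHF (f i)) :
    IsHF (fsr s f) := fsr_ind isHF_empty (fun _ _ hx hy => hx.insert hy) f s h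

theorem mem_rs {x : ℕ → ℕ} {n : ℕ} {z : ZFSet.{0}} :
    z ∈ rs x n ↔ ∃ i < n, z = pair (nat i) (nat (x i)) := by
  rw [rs, ZFSet.mem_range]
  constructor
  · rintro ⟨⟨i, hi⟩, rfl⟩
    exact ⟨i, hi, rfl⟩
  · rintro ⟨i, hi, rfl⟩
    exact ⟨⟨i, hi⟩, rfl⟩

theorem mem_code {x : ℕ → ℕ} {z : ZFSet.{0}} :
    z ∈ code x ↔ ∃ i, z = pair (nat i) (nat (x i)) := by
  rw [code, ZFSet.mem_range]
  exact exists_congr fun i => eq_comm

theorem pair_mem_code {x : ℕ → ℕ} {i j : ℕ} : pair (nat i) (nat j) ∈ code x ↔ x i = j := by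
  rw [mem_code]
  constructor
  · rintro ⟨k, h⟩
    obtain ⟨h1, h2⟩ := ZFSet.pair_inj.1 h
    rw [nat_injective h1, nat_injective h2]
  · rintro rfl
    exact ⟨i, rfl⟩

theorem pair_mem_rs {x : ℕ → ℕ} {i j n : ℕ} :
    pair (nat i) (nat j) ∈ rs x n ↔ i < n ∧ x i = j := by
  rw [mem_rs]
  constructor
  · rintro ⟨k, hk, h⟩
    obtain ⟨h1, h2⟩ := ZFSet.pair_inj.1 h
    rw [nat_injective h1, nat_injective h2]
    exact ⟨hk, rfl⟩
  · rintro ⟨h, rfl⟩
    exact ⟨i, h, rfl⟩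

theorem isHF_rs (x : ℕ → ℕ) (n : ℕ) : IsHF (rs x n) := by
  have h : rs x n = fsr (Finset.range n) fun i => pair (nat i) (nat (x i)) := by
    ext z
    rw [mem_rs, mem_fsr]
    simp only [Finset.mem_range]
  rw [h]
  exact isHF_fsr fun i _ => (isHF_nat _).pair (isHF_nat _)

theorem rs_congr {x y : ℕ → ℕ} {n : ℕ} (h : ∀ i < n, x i = y i) : rs x n = rs y n := by
  ext z
  rw [mem_rs, mem_rs]
  refine exists_congr fun i => and_congr_right fun hi => ?_
  rw [h i hi]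

theorem rs_inj {x y : ℕ → ℕ} {n m : ℕ} (h : rs x n = rs y m) : n = m ∧ ∀ i < n, x i = y i := by
  have h1 : ∀ i, i < n ↔ i < m := by
    intro i
    constructor
    · intro hi
      have : pair (nat i) (nat (x i)) ∈ rs y m := h ▸ pair_mem_rs.2 ⟨hi, rfl⟩
      exact (pair_mem_rs.1 this).1
    · intro hi
      have : pair (nat i) (nat (y i)) ∈ rs x n := h ▸ pair_mem_rs.2 ⟨hi, rfl⟩
      exact (pair_mem_rs.1 this).1
  refine ⟨?_, fun i hi => ?_⟩
  · have h2 := h1 n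
    have h3 := h1 m
    omega
  · have : pair (nat i) (nat (x i)) ∈ rs y m := h ▸ pair_mem_rs.2 ⟨hi, rfl⟩
    exact (pair_mem_rs.1 this).2.symm

theorem isHF_of_code {x : ℕ → ℕ} {z : ZFSet.{0}} (h : z ∈ code x) : IsHF z := by
  obtain ⟨i, rfl⟩ := mem_code.1 h
  exact (isHF_nat _).pair (isHF_nat _)

theorem code_inj {x y : ℕ → ℕ} (h : code x = code y) : x = y := by
  funext i
  exact (pair_mem_code.1 (h ▸ pair_mem_code.2 rfl : pair (nat i) (nat (x i)) ∈ code y)).symm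

theorem isFunc_code (x : ℕ → ℕ) : ZFSet.IsFunc ZFSet.omega ZFSet.omega (code x) := by
  constructor
  · intro p hp
    obtain ⟨i, rfl⟩ := mem_code.1 hp
    exact ZFSet.pair_mem_prod.2 ⟨mem_omega_iff.2 ⟨_, rfl⟩, mem_omega_iff.2 ⟨_, rfl⟩⟩
  · intro z hz
    obtain ⟨i, rfl⟩ := mem_omega_iff.1 hz
    refine ⟨nat (x i), pair_mem_code.2 rfl, fun w hw => ?_⟩
    obtain ⟨k, h⟩ := mem_code.1 hw
    obtain ⟨h1, rfl⟩ := ZFSet.pair_inj.1 h
    rw [nat_injective h1]

theorem exists_code {F : ZFSet.{0}} (h : ZFSet.IsFunc ZFSet.omega ZFSet.omega F) :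
    ∃ x : ℕ → ℕ, F = code x := by
  have h1 : ∀ i : ℕ, ∃ j : ℕ, pair (nat i) (nat j) ∈ F := by
    intro i
    obtain ⟨w, hw, -⟩ := h.2 (nat i) (mem_omega_iff.2 ⟨i, rfl⟩)
    obtain ⟨j, rfl⟩ := mem_omega_iff.1 (ZFSet.pair_mem_prod.1 (h.1 hw)).2
    exact ⟨j, hw⟩
  choose x hx using h1
  refine ⟨x, ZFSet.ext fun z => ⟨fun hz => ?_, fun hz => ?_⟩⟩
  · obtain ⟨a, ha, b, hb, rfl⟩ := ZFSet.mem_prod.1 (h.1 hz)
    obtain ⟨i, rfl⟩ := mem_omega_iff.1 ha
    obtain ⟨w, -, hu⟩ := h.2 (nat i) ha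
    rw [hu b hz, ← hu _ (hx i)]
    exact pair_mem_code.2 rfl
  · obtain ⟨i, rfl⟩ := mem_code.1 hz
    exact hx i

/-- The set of the hereditarily finite sets. -/
noncomputable def HFs : ZFSet.{0} := ZFSet.range hf

theorem mem_HFs {x : ZFSet.{0}} : x ∈ HFs ↔ IsHF x := by
  rw [HFs, ZFSet.mem_range]
  exact exists_congr fun n => eq_comm

/-- The enumeration of the hereditarily finite sets. -/
noncomputable def eg : ZFSet.{0} := ZFSet.range fun n : ℕ => pair (nat n) (hf n)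

theorem mem_eg {x : ZFSet.{0}} : x ∈ eg ↔ ∃ n, x = pair (nat n) (hf n) := by
  rw [eg, ZFSet.mem_range]
  exact exists_congr fun n => eq_comm

/-- The graph of the pairing function. -/
noncomputable def PRg : ZFSet.{0} :=
  ZFSet.range fun p : ℕ × ℕ => pair (pair (nat p.1) (nat p.2)) (nat (Nat.pair p.1 p.2))

theorem mem_PRg {x : ZFSet.{0}} : x ∈ PRg ↔
    ∃ i j, x = pair (pair (nat i) (nat j)) (nat (Nat.pair i j)) := by
  rw [PRg, ZFSet.mem_range]
  constructor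
  · rintro ⟨⟨i, j⟩, rfl⟩
    exact ⟨i, j, rfl⟩
  · rintro ⟨i, j, rfl⟩
    exact ⟨⟨i, j⟩, rfl⟩

theorem pair_mem_PRg {i j k : ℕ} :
    pair (pair (nat i) (nat j)) (nat k) ∈ PRg ↔ k = Nat.pair i j := by
  rw [mem_PRg]
  constructor
  · rintro ⟨i', j', h⟩
    obtain ⟨h1, h2⟩ := ZFSet.pair_inj.1 h
    obtain ⟨h3, h4⟩ := ZFSet.pair_inj.1 h1
    rw [nat_injective h2, nat_injective h3, nat_injective h4]
  · rintro rfl
    exact ⟨i, j, rfl⟩

theorem hf_memK {K : Set ZFSet.{0}} (hK : IsZF K) {x : ZFSet.{0}} (hx : IsHF x) : x ∈ K :=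
  hx.ind hK.empty_mem fun _ _ h1 h2 => hK.insert_mem h1 h2

theorem nat_mem_om (n : ℕ) : nat n ∈ (ZFSet.omega : ZFSet.{0}) := mem_omega_iff.2 ⟨n, rfl⟩

end Pool.Agent.H158_PC
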