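import Pool.Agent.H158_PC.Fam

/-!
# Definability of relative constructibility, with a variable parameter
-/

set_option autoImplicit false
set_option linter.unusedSectionVars false
set_option linter.unreachableTactic false
set_option linter.unusedTactic false

namespace Pool.Agent.H158_PC

open Pool.Agent.W868 Pool.Agent.W868.GM Pool.Agent.R597 Pool.Agent.Y588 AM

open ZFSet (pair)

/-- The pairs of the parameter and an element. -/
noncomputable def pr2 (p : ZFSet.{0}) : ZFSet.{0} := im (fun u => pair (fs p) u) (sn p)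

/-- The levels of the hierarchy, as a function of the pair of the parameter and the index. -/
noncomputable def Lw (p : ZFSet.{0}) : ZFSet.{0} := Lv (fs p) (sn p)

theorem pr2_wf : WellFounded fun q p => q ∈ pr2 p := by
  refine Subrelation.wf ?_ (InvImage.wf (fun p : ZFSet.{0} => sn p) ZFSet.mem_wf)
  intro q p h
  obtain ⟨u, hu, rfl⟩ := mem_im.1 h
  show sn (pair (fs p) u) ∈ sn p
  rw [sn_pair]
  exact hu

theorem Lw_eq (p : ZFSet.{0}) :
    Lw p = ZFSet.sUnion (im (fun q => step (fs p) (sn q)) (gr Lw (pr2 p))) := by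
  ext y
  rw [Lw, mem_Lv, ZFSet.mem_sUnion]
  constructor
  · rintro ⟨u, hu, h⟩
    refine ⟨_, mem_im.2 ⟨_, mem_gr.2 ⟨pair (fs p) u, mem_im.2 ⟨u, hu, rfl⟩, rfl⟩, rfl⟩, ?_⟩
    rw [sn_pair, Lw, fs_pair, sn_pair]
    exact h
  · rintro ⟨w, hw, h⟩
    obtain ⟨q, hq, rfl⟩ := mem_im.1 hw
    obtain ⟨r, hr, rfl⟩ := mem_gr.1 hq
    obtain ⟨u, hu, rfl⟩ := mem_im.1 hr
    rw [sn_pair, Lw, fs_pair, sn_pair] at h
    exact ⟨u, hu, h⟩

section

variable {M : Set ZFSet.{0}} (hM : IsZF M)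

include hM

theorem dfn_stepN2 (k : ℕ) :
    DfnF M M fun w : Fin 2 → ZFSet.{0} => stepN (w 0) (w 1) k := by
  have hB := hM.base
  induction k with
  | zero => exact DfnF.proj 1
  | succ k ih =>
    refine hB.union' ih ?_
    have h1 : DfnF M M fun w : Fin 2 → ZFSet.{0} => (insert (w 1) (w 1) : ZFSet.{0}) :=
      hB.insert' (DfnF.proj 1) (DfnF.proj 1)
    refine hM.im' (h := fun p w => ZFSet.sep (fun u => GR (w 0) k u (fs p) (sn p)) (w 1))
      (hM.prod' h1 h1) ?_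
    refine hM.sep' (Q := fun u w => GR (w 1) k u (fs (w 0)) (sn (w 0))) (DfnF.proj 2) ?_
    exact Dfn.comp4 (Q := fun a b c d => GR a k b c d) ((d0_GR k).dfn hM.trans) (DfnF.proj 2)
      (DfnF.proj 0) (hM.fs' (DfnF.proj 1)) (hM.sn' (DfnF.proj 1))

theorem dfn_Lw : DfnF M M fun w : Fin 1 → ZFSet.{0} => Lw (w 0) := by
  have hB := hM.base
  refine hM.wfrec pr2_wf ?_
    (G := fun p g => ZFSet.sUnion (im (fun q => step (fs p) (sn q)) g)) ?_ Lw_eq
  · exact hM.im' (h := fun u w => pair (fs (w 0)) u) (hM.sn' (DfnF.proj 0))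
      (hB.pair' (hM.fs' (DfnF.proj 1)) (DfnF.proj 0))
  · refine hB.sUnion' (hM.im' (h := fun q w => step (fs (w 0)) (sn q)) (DfnF.proj 1) ?_)
    exact DfnF.comp2 (f := step) (dfn_stepN2 hM 11) (hM.fs' (DfnF.proj 1)) (hM.sn' (DfnF.proj 0))

/-- Relative constructibility is definable. -/
theorem dfn_LC2 {n : ℕ} {F G : (Fin n → ZFSet.{0}) → ZFSet.{0}} (hF : DfnF M M F)
    (hG : DfnF M M G) : Dfn M M fun v => F v ∈ LC M (G v) := by
  have hB := hM.base
  have h : Dfn M M fun v : Fin n → ZFSet.{0} =>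
      ∃ ξ ∈ M, ξ.IsOrdinal ∧ F v ∈ Lw (pair (G v) ξ) := by
    refine Dfn.ex (Q := fun ξ v => ξ.IsOrdinal ∧ F v ∈ Lw (pair (G v) ξ)) ?_
    refine Dfn.and (hB.isOrdinal' (DfnF.proj 0)) ?_
    exact Dfn.mem hF.tail (DfnF.comp1 (f := Lw) (dfn_Lw hM) (hB.pair' hG.tail (DfnF.proj 0)))
  refine h.congr fun v _ => ?_
  refine exists_congr fun ξ => and_congr_right fun _ => and_congr_right fun _ => ?_
  rw [Lw, fs_pair, sn_pair]

end

end Pool.Agent.H158_PC
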