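import Pool.Agent.H158_PC.Lcv
import Pool.Agent.H158_PC.Cho

/-!
# Reals outside of the small inner models
-/

set_option autoImplicit false
set_option linter.unusedSectionVars false
set_option linter.unreachableTactic false
set_option linter.unusedTactic false

namespace Pool.Agent.H158_PC

open Pool.Agent.W868 Pool.Agent.W868.GM Pool.Agent.R597 Pool.Agent.Y588 AM

open ZFSet (pair)

/-- A real with the values `0` and `1` and the set of the numbers at which it is not `0`. -/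
theorem df_iff {K : Set ZFSet.{0}} (hK : IsZF K) {y : ℕ → ℕ} (h01 : ∀ n, y n = 0 ∨ y n = 1) :
    df y (fun _ => 0) ∈ K ↔ code y ∈ K := by
  have hmd : ∀ i : ℕ, nat i ∈ df y (fun _ => 0) ↔ y i ≠ 0 := by
    intro i
    rw [mem_df]
    constructor
    · rintro ⟨n, hn, h⟩
      rwa [nat_injective h]
    · exact fun h => ⟨i, h, rfl⟩
  constructor
  · intro h
    have h1 : code y = ZFSet.sep (fun q => (fs q ∈ df y (fun _ => 0) ∧ sn q = nat 1) ∨
        (¬ fs q ∈ df y (fun _ => 0) ∧ sn q = nat 0)) (ZFSet.prod ZFSet.omega (nat 2)) := by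
      ext q
      rw [mem_code, ZFSet.mem_sep, ZFSet.mem_prod]
      constructor
      · rintro ⟨i, rfl⟩
        rw [fs_pair, sn_pair, hmd]
        rcases h01 i with h2 | h2
        · rw [h2]
          exact ⟨⟨_, nat_mem_om i, _, mem_natK.2 ⟨0, by omega, rfl⟩, rfl⟩,
            Or.inr ⟨by omega, rfl⟩⟩
        · rw [h2]
          exact ⟨⟨_, nat_mem_om i, _, mem_natK.2 ⟨1, by omega, rfl⟩, rfl⟩,
            Or.inl ⟨by omega, rfl⟩⟩
      · rintro ⟨⟨a, ha, b, -, rfl⟩, h2⟩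
        obtain ⟨i, rfl⟩ := mem_omega_iff.1 ha
        rw [fs_pair, sn_pair, hmd] at h2
        refine ⟨i, ?_⟩
        rcases h2 with ⟨h3, rfl⟩ | ⟨h3, rfl⟩
        · rcases h01 i with h4 | h4
          · exact absurd h4 h3
          · rw [h4]
        · rcases h01 i with h4 | h4
          · rw [h4]
          · omega
    rw [h1]
    refine hK.sep_mem (Q := fun q => (fs q ∈ df y (fun _ => 0) ∧ sn q = nat 1) ∨
        (¬ fs q ∈ df y (fun _ => 0) ∧ sn q = nat 0)) ?_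
        (hK.prod_mem hK.infinity (hK.nat_mem 2))
    exact ((Dfn.mem (hK.fs' (DfnF.proj 0)) (DfnF.const h)).and
      (Dfn.eq (hK.sn' (DfnF.proj 0)) (DfnF.const (hK.nat_mem 1)))).or
      (((Dfn.mem (hK.fs' (DfnF.proj 0)) (DfnF.const h)).not).and
      (Dfn.eq (hK.sn' (DfnF.proj 0)) (DfnF.const (hK.nat_mem 0))))
  · intro h
    have h1 : df y (fun _ => 0) =
        ZFSet.sep (fun z => ∃ q ∈ code y, fs q = z ∧ ¬ sn q = nat 0) ZFSet.omega := by
      ext z
      rw [mem_df, ZFSet.mem_sep]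
      constructor
      · rintro ⟨n, hn, rfl⟩
        refine ⟨nat_mem_om n, _, mem_code.2 ⟨n, rfl⟩, fs_pair _ _, ?_⟩
        rw [sn_pair]
        exact fun h => hn (nat_injective h)
      · rintro ⟨-, q, hq, rfl, h2⟩
        obtain ⟨i, rfl⟩ := mem_code.1 hq
        rw [sn_pair] at h2
        refine ⟨i, fun h3 => h2 ?_, fs_pair _ _⟩
        rw [h3]
    rw [h1]
    refine hK.sep_mem (Q := fun z => ∃ q ∈ code y, fs q = z ∧ ¬ sn q = nat 0) ?_ hK.infinity
    refine hK.base.bex (Q := fun q w => fs q = w 0 ∧ ¬ sn q = nat 0) (DfnF.const h) ?_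
    exact (Dfn.eq (hK.fs' (DfnF.proj 0)) (DfnF.proj 1)).and
      (Dfn.eq (hK.sn' (DfnF.proj 0)) (DfnF.const (hK.nat_mem 0))).not

/-! ### The model given by one group -/

/-- The filter generated by one group. -/
noncomputable def Fk (V : Set ZFSet.{0}) (k : ℕ) : ZFSet.{0} := {Hm V (nat k)}

theorem mem_Fk {V : Set ZFSet.{0}} {k : ℕ} {H : ZFSet.{0}} : H ∈ Fk V k ↔ H = Hm V (nat k) :=
  ZFSet.mem_singleton

theorem symSysk {V : Set ZFSet.{0}} (hV : IsZF V) (hA : dA ∈ V) (k : ℕ) :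
    SymSys V PP LL ac (Grp V) (Fk V k) where
  gr := Grp_mem hV
  fl := hV.single_mem ((dfn_Hm hV hA).1 (fun _ => nat k) fun _ => hV.nat_mem k)
  dac := dfn_ac hV
  maps := (symSys hV hA).maps
  mono := (symSys hV hA).mono
  inv := (symSys hV hA).inv
  mul := (symSys hV hA).mul
  ne := ⟨_, mem_Fk.2 rfl⟩
  sub := by
    intro H hH
    rw [mem_Fk.1 hH]
    exact (symSys hV hA).sub _ (mem_Fl.2 ⟨k, rfl⟩)
  hone := by
    intro H hH
    rw [mem_Fk.1 hH]
    exact (symSys hV hA).hone _ (mem_Fl.2 ⟨k, rfl⟩)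
  hinv := fun H _ g hg => ⟨g, hg, fun p hp => ⟨ac_ac g hp, ac_ac g hp⟩⟩
  dir := by
    intro H hH K hK
    rw [mem_Fk] at hH hK
    subst hH
    subst hK
    exact ⟨_, mem_Fk.2 rfl, fun _ h => h, fun _ h => h⟩
  conj := by
    intro H hH g _
    refine ⟨H, hH, fun k hk => ⟨k, hk, fun p hp => ?_⟩⟩
    obtain ⟨n, b, rfl⟩ := mem_PP.1 hp
    rw [ac_cn, ac_cn, ac_cn, ac_cn]
    refine cn_congr fun i _ => ?_
    simp only [mem_xr]
    tauto
  top := (symSys hV hA).top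

/-- The model of the sets with hereditary support `k`. -/
def Wk (V : Set ZFSet.{0}) (g : Set ℕ) (k : ℕ) : Set ZFSet.{0} := Nm V PP ac (Fk V k) (Gf g)

section

variable {V : Set ZFSet.{0}} (hL : IsLA dA V) {g : Set ℕ} (hg : Gn V g)

include hL hg

theorem zfW (k : ℕ) : IsZF (Wk V g k) :=
  isZF_nm hL.zf (forcing_PP hL.zf (bk_of hL.zf hL.mem).eg) (symSysk hL.zf hL.mem k)
    (gen_of_Gn hg)

theorem V_sub_W (k : ℕ) : V ⊆ Wk V g k :=
  sub_nm hL.zf (forcing_PP hL.zf (bk_of hL.zf hL.mem).eg) (symSysk hL.zf hL.mem k)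
    (gen_of_Gn hg)

omit hg in
theorem chk_fixk (k : ℕ) {x : ZFSet.{0}} (hx : x ∈ V) : chk t0 x ∈ Sn V PP ac (Fk V k) ∧
    ∀ t ∈ Grp V, act PP ac t (chk t0 x) = chk t0 x :=
  chk_sn hL.zf (forcing_PP hL.zf (bk_of hL.zf hL.mem).eg) (symSysk hL.zf hL.mem k)
    (cn_mem_PP _ _) (fun t _ => ac_t0 t) hx

omit hg in
/-- The names of the members are symmetric, with support `k`. -/
theorem on_snk {k : ℕ} {v : ZFSet.{0}} (hv : v ∈ V) : on (nat k) v ∈ Sn V PP ac (Fk V k) := by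
  have hV := hL.zf
  have hfix := fun x (hx : IsHF x) => chk_fixk hL k (hf_memK hV hx)
  refine mk_sn (symSysk hV hL.mem k) (on_mem hL (hV.nat_mem k) hv) ?_
    ⟨Hm V (nat k), mem_Fk.2 rfl, ?_⟩
  · intro u hu
    rcases mem_on.1 hu with rfl | ⟨n, b, i, hi, h3, rfl⟩
    · exact ⟨_, _, rfl, cn_mem_PP _ _, (hfix _ ((isHF_nat 0).pair (isHF_nat k))).1.2⟩
    · exact ⟨_, _, rfl, cn_mem_PP _ _, (hfix _ ((isHF_nat 1).pair (isHF_nat i))).1.2⟩
  · intro t ht y c hyc _
    obtain ⟨htG, htm⟩ := mem_Hm.1 ht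
    rcases mem_on.1 hyc with h3 | ⟨n, b, i, hi, h3, h4⟩
    · obtain ⟨rfl, rfl⟩ := ZFSet.pair_inj.1 h3
      rw [(hfix _ ((isHF_nat 0).pair (isHF_nat k))).2 t htG, ac_t0]
      exact hyc
    · obtain ⟨rfl, rfl⟩ := ZFSet.pair_inj.1 h4
      rw [(hfix _ ((isHF_nat 1).pair (isHF_nat i))).2 t htG, ac_cn]
      refine mem_on.2 (Or.inr ⟨n, _, i, hi, ?_, rfl⟩)
      by_cases h5 : i.unpair.1 < k
      · have h6 : ¬ i ∈ st t := fun h => by
          have := htm i h
          omega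
        rw [mem_xr]
        tauto
      · tauto

theorem cut_memW (k : ℕ) : nm (cut g k) ∈ Wk V g k := by
  have h0 : ob g k ∅ ∈ Wk V g k := by
    rw [← st_nm ∅, ← ev_on]
    exact ⟨_, on_snk hL (nm_empty hL hg), rfl⟩
  refine part_mem (zfW hL hg k) h0 (j := 1) (fun x => ?_) fun z hz => ?_
  · rw [mem_ob]
    constructor
    · rintro (h1 | ⟨i, hi, h1⟩)
      · exact absurd (ZFSet.pair_inj.1 h1).1.symm nat0_ne_nat1
      · obtain ⟨-, rfl⟩ := ZFSet.pair_inj.1 h1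
        refine nat_mem_nm.2 ?_
        have : ¬ i ∈ (∅ : Set ℕ) := fun h => h
        rw [mem_cut]
        tauto
    · intro hx
      obtain ⟨i, hi, rfl⟩ := mem_nm.1 hx
      refine Or.inr ⟨i, ?_, rfl⟩
      have : ¬ i ∈ (∅ : Set ℕ) := fun h => h
      rw [mem_cut] at hi
      tauto
  · rcases mem_ob.1 hz with rfl | ⟨i, -, rfl⟩
    · exact ⟨_, _, rfl⟩
    · exact ⟨_, _, rfl⟩

theorem LC_sub_W (k : ℕ) : LC (MM V g) (Ac (nm (cut g k))) ⊆ Wk V g k := by
  rintro x ⟨ξ, h1, h2, h3⟩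
  have hW := zfW hL hg k
  have hA := Ac_mem hW (V_sub_W hL hg k hL.mem) (cut_memW hL hg k)
  exact hW.trans _ (Lv_mem_M hW hA (V_sub_W hL hg k (ord_M hL hg h2 h1))) _ h3

omit hL hg in
theorem d0_cut : D0 fun v : Fin 4 → ZFSet.{0} => ∀ x ∈ v 2, (x ∈ v 1 ↔ (x ∈ v 0 ∧ x ∈ v 3)) := by
  (repeat' first
    | assumption
    | exact D0v.proj _
    | apply D0.not | apply D0.and | apply D0.expair | apply D0.or | apply D0.isPair | apply D0.pairMem
    | apply D0.bex | apply D0.ball | apply D0.imp | apply D0.iff | apply D0.subset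
    | apply D0.eq | apply D0.mem)

/-- The next part of the generic set is not in the model of the sets with support `k`. -/
theorem cut_notW (k : ℕ) : nm (cut g (k + 1)) ∉ Wk V g k := by
  rintro ⟨τ, hτ, hev⟩
  have hV := hL.zf
  obtain ⟨H, hH, hs⟩ := (hs_iff.1 hτ.2).1
  rw [mem_Fk] at hH
  subst hH
  obtain ⟨gn, hgn, hgn'⟩ := exists_gn hL
  have hSm : Sm (nat (k + 1)) ∈ V :=
    (dfn_Sm hV (SS_mem hV hL.mem) (n := 1) (DfnF.proj 0)).1 (fun _ => nat (k + 1))
      fun _ => hV.nat_mem _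
  have hv : ∀ i, (![gn, τ, chk t0 ZFSet.omega, chk t0 (Sm (nat (k + 1)))] :
      Fin 4 → ZFSet.{0}) i ∈ V := by
    intro i
    fin_cases i
    · exact hgn
    · exact hτ.1
    · exact chk_mem_V hL hV.infinity
    · exact chk_mem_V hL hSm
  have hval : ∀ g', ev (Gf g') τ = nm (cut g (k + 1)) → ((∀ x ∈ ev (Gf g') (chk t0 ZFSet.omega),
      (x ∈ ev (Gf g') τ ↔ (x ∈ ev (Gf g') gn ∧ x ∈ ev (Gf g') (chk t0 (Sm (nat (k + 1))))))) ↔
      ∀ i : ℕ, (i ∈ cut g (k + 1) ↔ (i ∈ g' ∧ i.unpair.1 < k + 1))) := by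
    intro g' he
    rw [he, hgn', ev_chk (t0_mem_Gf g'), ev_chk (t0_mem_Gf g')]
    constructor
    · intro h i
      have h1 := h (nat i) (nat_mem_om i)
      rwa [nat_mem_nm, nat_mem_nm, nat_mem_Sm] at h1
    · intro h x hx
      obtain ⟨i, rfl⟩ := mem_omega_iff.1 hx
      rw [nat_mem_nm, nat_mem_nm, nat_mem_Sm]
      exact h i
  obtain ⟨n, hn⟩ := ftg hL hg d0_cut hv ((hval g hev).2 fun i => Iff.rfl)
  set i : ℕ := Nat.pair k n with hi
  have hin : n ≤ i := Nat.right_le_pair k n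
  have him : i.unpair.1 = k := by rw [hi, Nat.unpair_pair]
  have htV : nm {i} ∈ V := by
    have h1 : nm {i} = {nat i} := by
      ext z
      rw [mem_nm, ZFSet.mem_singleton]
      constructor
      · rintro ⟨j, hj, rfl⟩
        have : j = i := hj
        rw [this]
      · rintro rfl
        exact ⟨i, rfl, rfl⟩
    rw [h1]
    exact hV.single_mem (hV.nat_mem i)
  have hst : st (nm {i}) = {i} := st_nm _
  have htH : nm {i} ∈ Hm V (nat k) := by
    refine mem_Hm.2 ⟨nm_mem_Grp hV htV, fun j hj => ?_⟩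
    rw [hst] at hj
    have : j = i := hj
    rw [this, him]
  have h1 := hn (xr g (st (nm {i}))) (Gn_flip hV hg htV) (fun j hj => by
    have h2 : ¬ j ∈ st (nm {i}) := by
      rw [hst]
      intro h
      have : j = i := h
      omega
    rw [mem_xr]
    tauto)
  have h3 : ev (Gf (xr g (st (nm {i})))) τ = nm (cut g (k + 1)) := by
    rw [← ev_act, hs _ htH]
    exact hev
  have h4 := (hval _ h3).1 h1 i
  have h6 : i ∈ xr g (st (nm {i})) ↔ ¬ i ∈ g := by
    have h7 : i ∈ st (nm {i}) := by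
      rw [hst]
      exact rfl
    rw [mem_xr]
    tauto
  rw [h6, mem_cut] at h4
  have h8 : i.unpair.1 < k + 1 := by omega
  tauto

end

end Pool.Agent.H158_PC
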