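import Pool.Agent.H158_PC.Neg

/-!
# Countable choice for `Π¹₂` sets fails in the symmetric model
-/

set_option autoImplicit false
set_option linter.unusedSectionVars false
set_option linter.unreachableTactic false
set_option linter.unusedTactic false

namespace Pool.Agent.H158_PC

open Pool.Agent.W868 Pool.Agent.W868.GM Pool.Agent.R597 Pool.Agent.Y588 AM

open ZFSet (pair)

/-- The second part of a member of the family. -/
noncomputable def cl (o : ZFSet.{0}) : ZFSet.{0} := im sn (ZFSet.sep (fun q => fs q = nat 1) o)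

theorem cl_ob {g : Set ℕ} {k : ℕ} {c : Set ℕ} : cl (ob g k c) = nm (xr (cut g k) c) := by
  ext z
  rw [cl, mem_im, mem_nm]
  constructor
  · rintro ⟨q, hq, rfl⟩
    obtain ⟨h1, h2⟩ := ZFSet.mem_sep.1 hq
    rcases mem_ob.1 h1 with rfl | ⟨i, hi, rfl⟩
    · rw [fs_pair] at h2
      exact absurd h2 nat0_ne_nat1
    · exact ⟨i, hi, sn_pair _ _⟩
  · rintro ⟨i, hi, rfl⟩
    exact ⟨pair (nat 1) (nat i), ZFSet.mem_sep.2 ⟨mem_ob.2 (Or.inr ⟨i, hi, rfl⟩), fs_pair _ _⟩,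
      (sn_pair _ _).symm⟩

section

variable {V : Set ZFSet.{0}} (hL : IsLA dA V) {g : Set ℕ} (hg : Gn V g)

include hL hg

theorem LCc {c : Set ℕ} (hc : nm c ∈ MM V g) :
    IsLA (Ac (nm c)) (LC (MM V g) (Ac (nm c))) :=
  isLA_of_HF (zfM hL hg) (Ac_mem (zfM hL hg) (V_sub_M hL hg hL.mem) hc) fun _ hz =>
    isHF_Ac (fun z hz => by
      obtain ⟨i, -, rfl⟩ := mem_nm.1 hz
      exact isHF_nat i) hz

theorem V_sub_LC {c : Set ℕ} (hc : nm c ∈ MM V g) : V ⊆ LC (MM V g) (Ac (nm c)) := by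
  have hM := zfM hL hg
  have hA := Ac_mem hM (V_sub_M hL hg hL.mem) hc
  have hLm := LCc hL hg hc
  intro x hx
  obtain ⟨ξ, h1, h2, h3⟩ := hL.lev x hx
  have h4 := (of_Ac hLm.zf hLm.mem).1
  exact hLm.zf.trans _ (Lv_mem_M hLm.zf h4 (ord_LC hM hA (V_sub_M hL hg h1) h2)) _ h3

theorem LC_le {c c' : Set ℕ} (hc : nm c ∈ MM V g)
    (h : nm c' ∈ LC (MM V g) (Ac (nm c))) :
    LC (MM V g) (Ac (nm c')) ⊆ LC (MM V g) (Ac (nm c)) := by
  rintro x ⟨ξ, h1, h2, h3⟩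
  have hM := zfM hL hg
  have hK := (LCc hL hg hc).zf
  have hVK := V_sub_LC hL hg hc
  have hA := Ac_mem hK (hVK hL.mem) h
  exact hK.trans _ (Lv_mem_M hK hA (hVK (ord_M hL hg h2 h1))) _ h3

theorem xr_memM {k : ℕ} {c : Set ℕ} (hc : nm c ∈ V) : nm (xr (cut g k) c) ∈ MM V g :=
  xr_mem (zfM hL hg) (cut_mem hL hg k) (V_sub_M hL hg hc)

/-- The inner models do not depend on the member of the family. -/
theorem LC_xr {k : ℕ} {c : Set ℕ} (hc : nm c ∈ V) :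
    LC (MM V g) (Ac (nm (xr (cut g k) c))) = LC (MM V g) (Ac (nm (cut g k))) := by
  have h1 := xr_memM hL hg (k := k) hc
  have h2 := cut_mem hL hg k
  apply Set.Subset.antisymm
  · refine LC_le hL hg h2 ?_
    have hK := (LCc hL hg h2).zf
    exact xr_mem hK (of_Ac hK (LCc hL hg h2).mem).2 (V_sub_LC hL hg h2 hc)
  · refine LC_le hL hg h1 ?_
    have hK := (LCc hL hg h1).zf
    have h3 := xr_mem hK (of_Ac hK (LCc hL hg h1).mem).2 (V_sub_LC hL hg h1 hc)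
    rwa [xr_xr] at h3

variable (V g) in
/-- The family of the sets of the reals outside of the small inner models. -/
def Bf (k : ℕ) : Set (ℕ → ℕ) :=
  {y | y ∈ Rls (MM V g) ∧ (∀ n, y n = 0 ∨ y n = 1) ∧
    ¬ df y (fun _ => 0) ∈ LC (MM V g) (Ac (nm (cut g k)))}

theorem mem_Bf {k : ℕ} {y : ℕ → ℕ} : y ∈ Bf V g k ↔ y ∈ Rls (MM V g) ∧
    (∀ n, y n = 0 ∨ y n = 1) ∧ ¬ code y ∈ LC (MM V g) (Ac (nm (cut g k))) := by
  refine and_congr_right fun _ => and_congr_right fun h => not_congr ?_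
  exact df_iff (LCc hL hg (cut_mem hL hg k)).zf h

theorem Bf_nonempty (k : ℕ) : (Bf V g k).Nonempty := by
  refine ⟨chr (cut g (k + 1)), cut_Rls hL hg (k + 1), chr_01 _, fun h => ?_⟩
  have h1 : df (chr (cut g (k + 1))) (fun _ => 0) = nm (cut g (k + 1)) := by
    ext z
    rw [mem_df, mem_nm]
    refine exists_congr fun n => and_congr_left fun _ => ?_
    by_cases h2 : n ∈ cut g (k + 1)
    · rw [chr_pos h2]
      simp [h2]
    · rw [chr_neg h2]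
      simp [h2]
  rw [h1] at h
  exact cut_notW hL hg k (LC_sub_W hL hg k h)

theorem famB_mem : fam (Bf V g) ∈ MM V g := by
  have hM := zfM hL hg
  have hB := hM.base
  obtain ⟨OO, hOO, h1⟩ := exists_OO hL hg
  have hF := fnX_mem hM hM.infinity
  have hap : ∀ (k : ℕ) (c : Set ℕ), ap (ob g k c) (nat 0) = nat k := by
    intro k c
    refine ap_unique (mem_ob.2 (Or.inl rfl)) fun q hq h => ?_
    rcases mem_ob.1 hq with rfl | ⟨i, -, rfl⟩
    · exact sn_pair _ _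
    · rw [fs_pair] at h
      exact absurd h.symm nat0_ne_nat1
  have h2 : fam (Bf V g) = ZFSet.sep (fun u => (∀ q ∈ sn u, sn q ∈ nat 2) ∧
      ∃ o ∈ OO, ap o (nat 0) = fs u ∧ ¬ sn u ∈ LC (MM V g) (Ac (cl o)))
      (ZFSet.prod ZFSet.omega (fnX (MM V g) ZFSet.omega)) := by
    ext u
    rw [mem_fam, ZFSet.mem_sep, ZFSet.mem_prod]
    constructor
    · rintro ⟨k, y, hy, rfl⟩
      obtain ⟨h3, h4, h5⟩ := (mem_Bf hL hg).1 hy
      refine ⟨⟨_, nat_mem_om k, _, mem_fnX.2 ⟨h3, isFunc_code y⟩, rfl⟩, ?_,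
        ob g k ∅, (h1 _).2 ⟨k, ∅, nm_empty hL hg, rfl⟩, ?_, ?_⟩
      · intro q hq
        rw [sn_pair] at hq
        obtain ⟨i, rfl⟩ := mem_code.1 hq
        rw [sn_pair]
        rcases h4 i with h6 | h6
        · rw [h6]
          exact mem_natK.2 ⟨0, by omega, rfl⟩
        · rw [h6]
          exact mem_natK.2 ⟨1, by omega, rfl⟩
      · rw [hap, fs_pair]
      · rw [sn_pair, cl_ob, LC_xr hL hg (nm_empty hL hg)]
        exact h5
    · rintro ⟨⟨a, ha, b, hb, rfl⟩, h3, o, ho, h4, h5⟩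
      obtain ⟨k, rfl⟩ := mem_omega_iff.1 ha
      obtain ⟨hb1, hb2⟩ := mem_fnX.1 hb
      obtain ⟨y, rfl⟩ := exists_code hb2
      obtain ⟨k', c, hc, rfl⟩ := (h1 _).1 ho
      rw [hap, fs_pair] at h4
      have h6 := nat_injective h4
      subst h6
      rw [sn_pair] at h3
      rw [sn_pair, cl_ob, LC_xr hL hg hc] at h5
      refine ⟨k', y, (mem_Bf hL hg).2 ⟨hb1, fun i => ?_, h5⟩, rfl⟩
      have h7 := h3 _ (mem_code.2 ⟨i, rfl⟩)
      rw [sn_pair] at h7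
      obtain ⟨j, hj, h8⟩ := mem_natK.1 h7
      have h9 := nat_injective h8
      omega
  rw [h2]
  refine hM.sep_mem (Q := fun u => (∀ q ∈ sn u, sn q ∈ nat 2) ∧
      ∃ o ∈ OO, ap o (nat 0) = fs u ∧ ¬ sn u ∈ LC (MM V g) (Ac (cl o))) ?_
      (hM.prod_mem hM.infinity hF)
  refine (hB.ball (Q := fun q w => sn q ∈ nat 2) (hM.sn' (DfnF.proj 0))
    (Dfn.mem (hM.sn' (DfnF.proj 0)) (DfnF.const (hM.nat_mem 2)))).and ?_
  refine hB.bex (Q := fun o w => ap o (nat 0) = fs (w 0) ∧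
    ¬ sn (w 0) ∈ LC (MM V g) (Ac (cl o))) (DfnF.const hOO) ?_
  refine (Dfn.eq (hM.ap' (DfnF.proj 0) (DfnF.const (hM.nat_mem 0))) (hM.fs' (DfnF.proj 1))).and
    (Dfn.not ?_)
  refine dfn_LC2 hM (hM.sn' (DfnF.proj 1)) (dfn_Ac hM (V_sub_M hL hg hL.mem) ?_)
  exact hM.im' (h := fun q _ => sn q) (hM.sep' (Q := fun q w => fs q = nat 1) (DfnF.proj 0)
    (Dfn.eq (hM.fs' (DfnF.proj 0)) (DfnF.const (hM.nat_mem 1)))) (hM.sn' (DfnF.proj 0))

theorem Bf_pi (k : ℕ) : Pi12 (MM V g) (Bf V g k) := by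
  have hM := zfM hL hg
  have hAM := V_sub_M hL hg hL.mem
  have hcut := cut_mem hL hg k
  have hLA := LCc hL hg hcut
  obtain ⟨T, hT, h1⟩ := sig12 (bkM hL hg) (TC_mem hM hAM) (Ac_mem hM hAM hcut)
    (fun _ hz => isHF_Ac (fun z hz => by
      obtain ⟨i, -, rfl⟩ := mem_nm.1 hz
      exact isHF_nat i) hz)
    (bk_of hLA.zf (of_Ac hLA.zf hLA.mem).1) hLA (a := fun _ => 0) (cst_memR hM 0)
  refine ⟨ZFSet.sep (fun q => ∀ u ∈ fs q, sn u ∈ nat 2) T, hM.sep_mem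
    (Q := fun q => ∀ u ∈ fs q, sn u ∈ nat 2) (hM.base.ball (Q := fun u _ => sn u ∈ nat 2)
    (hM.fs' (DfnF.proj 0)) (Dfn.mem (hM.sn' (DfnF.proj 0)) (DfnF.const (hM.nat_mem 2)))) hT,
    fun y => ?_⟩
  have hT' : ∀ (w z : ℕ → ℕ) (n : ℕ), pair (rs y n) (pair (rs w n) (rs z n)) ∈
      ZFSet.sep (fun q => ∀ u ∈ fs q, sn u ∈ nat 2) T ↔
      (∀ i < n, y i = 0 ∨ y i = 1) ∧ pair (rs y n) (pair (rs w n) (rs z n)) ∈ T := by
    intro w z n
    rw [ZFSet.mem_sep, fs_pair]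
    constructor
    · rintro ⟨h2, h3⟩
      refine ⟨fun i hi => ?_, h2⟩
      have h4 := h3 _ (mem_rs.2 ⟨i, hi, rfl⟩)
      rw [sn_pair] at h4
      obtain ⟨j, hj, h5⟩ := mem_natK.1 h4
      have h6 := nat_injective h5
      omega
    · rintro ⟨h2, h3⟩
      refine ⟨h3, fun u hu => ?_⟩
      obtain ⟨i, hi, rfl⟩ := mem_rs.1 hu
      rw [sn_pair]
      rcases h2 i hi with h4 | h4
      · rw [h4]
        exact mem_natK.2 ⟨0, by omega, rfl⟩
      · rw [h4]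
        exact mem_natK.2 ⟨1, by omega, rfl⟩
  simp only [hT']
  constructor
  · rintro ⟨h2, h3, h4⟩
    refine ⟨h2, fun w hw => ?_⟩
    by_contra hcon
    apply h4
    refine ((h1 y).2 ⟨h2, w, hw, fun z hz => ?_⟩).2.2
    by_contra hcon2
    apply hcon
    refine ⟨z, hz, fun n => ⟨fun i _ => h3 i, ?_⟩⟩
    by_contra hcon3
    exact hcon2 ⟨n, hcon3⟩
  · rintro ⟨h2, h3⟩
    have h01 : ∀ n, y n = 0 ∨ y n = 1 := by
      intro n
      obtain ⟨z, -, h4⟩ := h3 _ (cst_memR hM 0)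
      exact (h4 (n + 1)).1 n (by omega)
    refine ⟨h2, h01, fun h4 => ?_⟩
    obtain ⟨-, w, hw, h5⟩ := (h1 y).1 ⟨h2, h01, h4⟩
    obtain ⟨z, hz, h6⟩ := h3 w hw
    obtain ⟨n, hn⟩ := h5 z hz
    exact hn (h6 n).2

omit hL hg in
theorem d0_val : D0 fun v : Fin 3 → ZFSet.{0} => ∃ w ∈ v 2, ∃ a u, w = pair a u ∧ a = v 1 ∧
    v 0 ∈ u := by
  (repeat' first
    | assumption
    | exact D0v.proj _
    | apply D0.not | apply D0.and | apply D0.expair | apply D0.or | apply D0.isPair | apply D0.pairMem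
    | apply D0.bex | apply D0.ball | apply D0.imp | apply D0.iff | apply D0.subset
    | apply D0.eq | apply D0.mem)

/-- The values of a sequence of reals with support `m` are in the inner model of the number
`m`. -/
theorem seq_mem (hc : V.Countable) {f : ℕ → ℕ → ℕ} (hf' : seqr f ∈ MM V g) :
    ∃ m : ℕ, ∀ k : ℕ, code (f k) ∈ LC (MM V g) (Ac (nm (cut g m))) := by
  obtain ⟨τ, hτ, hev⟩ := hf'
  have hV := hL.zf
  have hM := zfM hL hg
  have he := (bk_of hV hL.mem).eg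
  have ht := t0_mem_V hL
  have hP := forcing_PP hV he
  have hH := HFs_mem hV he
  obtain ⟨H, hH', hs⟩ := (hs_iff.1 hτ.2).1
  obtain ⟨m, rfl⟩ := mem_Fl.1 hH'
  refine ⟨m, fun k => ?_⟩
  have hF0 : ∀ i : Fin 3, DfnF V V
      ((![fun w : Fin 1 → ZFSet.{0} => chk t0 (sn (w 0)), fun _ => chk t0 (nat k), fun _ => τ] :
        Fin 3 → (Fin 1 → ZFSet.{0}) → ZFSet.{0}) i) := by
    intro i
    fin_cases i
    · exact DfnF.comp1 (f := chk t0) (dfn_chk hV ht) (hV.sn' (DfnF.proj 0))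
    · exact DfnF.const (chk_mem_V hL (hV.nat_mem k))
    · exact DfnF.const hτ.1
  have hfd := Pool.Agent.H158_IT.fd hV hP hc d0_val hF0 (hV.fs' (DfnF.proj (0 : Fin 1)))
  have hFV := hV.sep_mem (Q := fun u => fs u ∈ PP ∧ ∀ G, IsGeneric V PP LL G → fs u ∈ G →
    ∃ w ∈ ev G τ, ∃ a x, w = pair a x ∧ a = ev G (chk t0 (nat k)) ∧
      ev G (chk t0 (sn u)) ∈ x) hfd (hV.prod_mem hP.mem hH)
  set F := ZFSet.sep (fun u => fs u ∈ PP ∧ ∀ G, IsGeneric V PP LL G → fs u ∈ G →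
    ∃ w ∈ ev G τ, ∃ a x, w = pair a x ∧ a = ev G (chk t0 (nat k)) ∧
      ev G (chk t0 (sn u)) ∈ x) (ZFSet.prod PP HFs) with hFdef
  have hcM := cut_mem hL hg m
  have hLm := LCc hL hg hcM
  have hK := hLm.zf
  have hVK := V_sub_LC hL hg hcM
  have hcK := (of_Ac hK hLm.mem).2
  have hSmV : Sm (nat m) ∈ V :=
    (dfn_Sm hV (SS_mem hV hL.mem) (n := 1) (DfnF.proj 0)).1 (fun _ => nat m)
      fun _ => hV.nat_mem _
  have hval : ∀ z : ZFSet.{0}, z ∈ V → (z ∈ code (f k) ↔ ∃ (n : ℕ) (b : Set ℕ),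
      (∀ i < n, i.unpair.1 < m → (i ∈ b ↔ i ∈ g)) ∧ ∀ G', IsGeneric V PP LL G' → cn n b ∈ G' →
        ∃ w ∈ ev G' τ, ∃ a x, w = pair a x ∧ a = ev G' (chk t0 (nat k)) ∧
          ev G' (chk t0 z) ∈ x) := by
    intro z hz
    have h1 := supp_iff hL hg d0_val (v := ![chk t0 z, chk t0 (nat k), τ]) (by
      intro i
      fin_cases i
      · exact chk_mem_V hL hz
      · exact chk_mem_V hL (hV.nat_mem k)
      · exact hτ.1) (m := m) (by
      intro t htH i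
      have htG := (mem_Hm.1 htH).1
      fin_cases i
      · exact (chk_fix hL hz).2 t htG
      · exact (chk_fix hL (hV.nat_mem k)).2 t htG
      · exact hs t htH)
    refine Iff.trans ?_ h1
    show z ∈ code (f k) ↔ ∃ w ∈ ev (Gf g) τ, ∃ a x, w = pair a x ∧
      a = ev (Gf g) (chk t0 (nat k)) ∧ ev (Gf g) (chk t0 z) ∈ x
    rw [hev, ev_chk (t0_mem_Gf g), ev_chk (t0_mem_Gf g)]
    constructor
    · intro h2
      exact ⟨_, mem_seqr'.2 ⟨k, rfl⟩, _, _, rfl, rfl, h2⟩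
    · rintro ⟨w, hw, a, x, rfl, rfl, h2⟩
      obtain ⟨k', h3⟩ := mem_seqr'.1 hw
      obtain ⟨h4, rfl⟩ := ZFSet.pair_inj.1 h3
      rwa [nat_injective h4]
  have h2 : code (f k) = ZFSet.sep (fun z => ∃ u ∈ F, sn u = z ∧ ∀ x ∈ fs (fs u),
      x ∈ Sm (nat m) → (x ∈ sn (fs u) ↔ x ∈ nm (cut g m))) HFs := by
    ext z
    rw [ZFSet.mem_sep, mem_HFs]
    constructor
    · intro hz
      have hzH := isHF_of_code hz
      refine ⟨hzH, ?_⟩
      obtain ⟨n, b, h3, h4⟩ := (hval z (hf_memK hV hzH)).1 hz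
      refine ⟨pair (cn n b) z, ZFSet.mem_sep.2 ⟨ZFSet.pair_mem_prod.2 ⟨cn_mem_PP _ _,
        mem_HFs.2 hzH⟩, ?_, ?_⟩, sn_pair _ _, ?_⟩
      · rw [fs_pair]
        exact cn_mem_PP _ _
      · rw [fs_pair, sn_pair]
        exact h4
      · intro x hx hxm
        rw [fs_pair] at hx ⊢
        rw [cn, fs_pair] at hx
        rw [cn, sn_pair]
        obtain ⟨i, hi, rfl⟩ := mem_natK.1 hx
        have h5 := nat_mem_Sm.1 hxm
        rw [nat_mem_sb, nat_mem_nm, mem_cut]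
        have h6 := h3 i hi h5
        tauto
    · rintro ⟨hzH, u, hu, rfl, h3⟩
      obtain ⟨h4, h5, h6⟩ := ZFSet.mem_sep.1 hu
      obtain ⟨p, hp, x, hx, rfl⟩ := ZFSet.mem_prod.1 h4
      obtain ⟨n, b, rfl⟩ := mem_PP.1 hp
      rw [fs_pair] at h3
      rw [fs_pair, sn_pair] at h6
      rw [sn_pair] at hzH ⊢
      refine (hval x (hf_memK hV hzH)).2 ⟨n, b, fun i hi him => ?_, h6⟩
      have h7 := h3 (nat i) (by
        rw [cn, fs_pair]
        exact mem_natK.2 ⟨i, hi, rfl⟩) (nat_mem_Sm.2 him)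
      rw [cn, sn_pair, nat_mem_sb, nat_mem_nm, mem_cut] at h7
      tauto
  rw [h2]
  refine hK.sep_mem (Q := fun z => ∃ u ∈ F, sn u = z ∧ ∀ x ∈ fs (fs u),
      x ∈ Sm (nat m) → (x ∈ sn (fs u) ↔ x ∈ nm (cut g m))) ?_ (hVK hH)
  refine hK.base.bex (Q := fun u w => sn u = w 0 ∧ ∀ x ∈ fs (fs u),
      x ∈ Sm (nat m) → (x ∈ sn (fs u) ↔ x ∈ nm (cut g m))) (DfnF.const (hVK hFV)) ?_
  refine (Dfn.eq (hK.sn' (DfnF.proj 0)) (DfnF.proj 1)).and ?_
  refine hK.base.ball (Q := fun x w => x ∈ Sm (nat m) → (x ∈ sn (fs (w 0)) ↔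
    x ∈ nm (cut g m))) (hK.fs' (hK.fs' (DfnF.proj 0))) ?_
  refine (Dfn.mem (DfnF.proj 0) (DfnF.const (hVK hSmV))).imp ?_
  exact (Dfn.mem (DfnF.proj 0) (hK.sn' (hK.fs' (DfnF.proj 1)))).iff
    (Dfn.mem (DfnF.proj 0) (DfnF.const hcK))

/-- Countable choice for `Π¹₂` sets fails in the symmetric model. -/
theorem not_AC_pi2 (hc : V.Countable) : ¬ ACw (MM V g) (Pi12 (MM V g)) := by
  intro h
  obtain ⟨f, h1, h2⟩ := h (Bf V g) (Bf_nonempty hL hg) (Bf_pi hL hg) (famB_mem hL hg)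
  obtain ⟨m, hm⟩ := seq_mem hL hg hc h2
  exact ((mem_Bf hL hg).1 (h1 m)).2.2 (hm m)

end

/-- The theorem on the separation of countable choice for `Π¹₁` sets and for `Π¹₂` sets. -/
theorem main_pi : ∃ M : Set ZFSet.{0}, M.Countable ∧ IsZF M ∧ ACw M (Pi11 M) ∧
    ¬ ACw M (Sigma12 M) ∧ ¬ ACw M (Pi12 M) := by
  obtain ⟨V, hc, hL, hst⟩ := exists_ground
  have he := (bk_of hL.zf hL.mem).eg
  obtain ⟨G, hG, -⟩ := exists_gen hc (forcing_PP hL.zf he) (cn_mem_PP 0 ∅)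
  obtain ⟨g, rfl, hg⟩ := Gn_of_gen hL.zf he hG
  exact ⟨MM V g, (hc.image _).mono nm_sub, zfM hL hg, AC_pi hc hL hst hg, not_AC_sigma hL hg,
    not_AC_pi2 hL hg hc⟩

end Pool.Agent.H158_PC
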