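import Pool.Agent.H158_PC.Fam
import Pool.Agent.H158_PC.Bra

/-!
# Members of coanalytic sets in small inner models
-/

set_option autoImplicit false
set_option linter.unusedSectionVars false
set_option linter.unreachableTactic false
set_option linter.unusedTactic false

namespace Pool.Agent.H158_PC

open Pool.Agent.W868 Pool.Agent.W868.GM Pool.Agent.R597 Pool.Agent.Y588 AM
open ZFSet (pair)

/-- The value of the relation `F` at `h`. -/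
noncomputable def Rv (F : ZFSet.{0}) (h : Set ℕ) : ZFSet.{0} :=
  ZFSet.sep (fun z => ∃ n : ℕ, pair (cn n h) z ∈ F) HFs

theorem mem_Rv {F : ZFSet.{0}} {h : Set ℕ} {z : ZFSet.{0}} :
    z ∈ Rv F h ↔ IsHF z ∧ ∃ n : ℕ, pair (cn n h) z ∈ F := by
  rw [Rv, ZFSet.mem_sep, mem_HFs]

/-- The values of a relation in a model. -/
theorem Rv_mem {K : Set ZFSet.{0}} (hK : IsZF K) (he : eg ∈ K) {F : ZFSet.{0}} (hF : F ∈ K)
    {h : Set ℕ} (hh : nm h ∈ K) : Rv F h ∈ K := by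
  have hB := hK.base
  have hω := hK.infinity
  have h1 : Rv F h = ZFSet.sep (fun z => ∃ n ∈ (ZFSet.omega : ZFSet.{0}),
      pair (pair n (ZFSet.sep (fun x => x ∈ nm h) n)) z ∈ F) HFs := by
    ext z
    rw [mem_Rv, ZFSet.mem_sep, mem_HFs]
    refine and_congr_right fun _ => ?_
    have h2 : ∀ n : ℕ, ZFSet.sep (fun x => x ∈ nm h) (nat n) = sb h n := by
      intro n
      ext x
      rw [ZFSet.mem_sep, mem_natK]
      constructor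
      · rintro ⟨⟨i, hi, rfl⟩, h3⟩
        exact nat_mem_sb.2 ⟨hi, nat_mem_nm.1 h3⟩
      · intro hx
        obtain ⟨i, hi, h3, rfl⟩ := mem_sb.1 hx
        exact ⟨⟨i, hi, rfl⟩, nat_mem_nm.2 h3⟩
    constructor
    · rintro ⟨n, hn⟩
      refine ⟨_, nat_mem_om n, ?_⟩
      rw [h2]
      exact hn
    · rintro ⟨n, hn, h3⟩
      obtain ⟨n, rfl⟩ := mem_omega_iff.1 hn
      rw [h2] at h3
      exact ⟨n, h3⟩
  rw [h1]
  refine hK.sep_mem (Q := fun z => ∃ n ∈ (ZFSet.omega : ZFSet.{0}),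
      pair (pair n (ZFSet.sep (fun x => x ∈ nm h) n)) z ∈ F) ?_ (HFs_mem hK he)
  refine hB.bex (Q := fun n w => pair (pair n (ZFSet.sep (fun x => x ∈ nm h) n)) (w 0) ∈ F)
    (DfnF.const hω) ?_
  refine Dfn.mem (hB.pair' (hB.pair' (DfnF.proj 0) ?_) (DfnF.proj 1)) (DfnF.const hF)
  exact hK.sep' (Q := fun x w => x ∈ nm h) (DfnF.proj 0)
    (Dfn.mem (DfnF.proj 0) (DfnF.const hh))

/-- The top condition. -/
noncomputable def t2 : ZFSet.{0} := cn2 0 ∅ ∅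

theorem t2_mem_Gf2 (g h : Set ℕ) : t2 ∈ Gf2 g h :=
  mem_Gf2.2 ⟨0, cn2_congr (fun i hi => by omega) fun i hi => by omega⟩

/-- The name for the value of the relation `F`, evaluated along `q`. -/
noncomputable def nme (F : ZFSet.{0}) (q : ZFSet.{0} → ZFSet.{0}) : ZFSet.{0} :=
  im (fun u => pair (chk t2 (sn u)) (fs u))
    (ZFSet.sep (fun u => pair (q (fs u)) (sn u) ∈ F) (ZFSet.prod PP2 HFs))

theorem mem_ev_nme {F : ZFSet.{0}} {q : ZFSet.{0} → ZFSet.{0}} {g h : Set ℕ} {z : ZFSet.{0}} :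
    z ∈ ev (Gf2 g h) (nme F q) ↔ IsHF z ∧ ∃ n, pair (q (cn2 n g h)) z ∈ F := by
  rw [mem_ev]
  constructor
  · rintro ⟨y, p, h1, h2, rfl⟩
    obtain ⟨u, hu, h3⟩ := mem_im.1 h1
    obtain ⟨h4, h5⟩ := ZFSet.mem_sep.1 hu
    obtain ⟨c, hc, x, hx, rfl⟩ := ZFSet.mem_prod.1 h4
    rw [fs_pair, sn_pair] at h3 h5
    obtain ⟨rfl, rfl⟩ := ZFSet.pair_inj.1 h3
    obtain ⟨n, rfl⟩ := mem_Gf2.1 h2
    rw [ev_chk (t2_mem_Gf2 g h)]
    exact ⟨mem_HFs.1 hx, n, h5⟩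
  · rintro ⟨hz, n, hn⟩
    refine ⟨chk t2 z, cn2 n g h, mem_im.2 ⟨pair (cn2 n g h) z, ZFSet.mem_sep.2
      ⟨ZFSet.pair_mem_prod.2 ⟨cn2_mem _ _ _, mem_HFs.2 hz⟩, ?_⟩, ?_⟩, mem_Gf2.2 ⟨n, rfl⟩,
      ev_chk (t2_mem_Gf2 g h) z⟩
    · rw [fs_pair, sn_pair]
      exact hn
    · rw [fs_pair, sn_pair]

theorem nme_mem {K : Set ZFSet.{0}} (hK : IsZF K) (he : eg ∈ K) {F : ZFSet.{0}} (hF : F ∈ K)
    {q : ZFSet.{0} → ZFSet.{0}} (hq : DfnF K K fun w : Fin 1 → ZFSet.{0} => q (w 0)) :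
    nme F q ∈ K := by
  have hB := hK.base
  have hP := PP2_mem hK he
  have ht : t2 ∈ K := hK.trans _ hP _ (cn2_mem _ _ _)
  refine hK.im_mem (hK.sep_mem (Q := fun u => pair (q (fs u)) (sn u) ∈ F) ?_
    (hK.prod_mem hP (HFs_mem hK he))) ?_
  · exact Dfn.mem (hB.pair' (DfnF.comp1 (f := q) hq (hK.fs' (DfnF.proj 0)))
      (hK.sn' (DfnF.proj 0))) (DfnF.const hF)
  · exact hB.pair' (DfnF.comp1 (f := chk t2) (dfn_chk hK ht) (hK.sn' (DfnF.proj 0)))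
      (hK.fs' (DfnF.proj 0))

/-- The mixture of two reals: the second real is used outside of the first `m` columns and above
`k`. -/
def mxs (m k : ℕ) (b c : Set ℕ) : Set ℕ :=
  xr b {i | i ∈ c ∧ m ≤ i.unpair.1 ∧ k ≤ i}

/-- The mixture, on conditions. -/
noncomputable def mxc (m k : ℕ) (u : ZFSet.{0}) : ZFSet.{0} := pair (fs u)
  (ZFSet.sep (fun x => ¬ (x ∈ fs (sn u) ↔ (x ∈ sn (sn u) ∧ ¬ x ∈ Sm (nat m) ∧ ¬ x ∈ nat k)))
    (fs u))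

theorem mxc_cn2 (m k n : ℕ) (b c : Set ℕ) : mxc m k (cn2 n b c) = cn n (mxs m k b c) := by
  rw [mxc, cn2, cn, fs_pair, sn_pair, fs_pair, sn_pair]
  congr 1
  ext x
  rw [ZFSet.mem_sep, mem_natK]
  have h1 : ∀ i : ℕ, nat i ∈ nat k ↔ i < k := by
    intro i
    rw [mem_natK]
    constructor
    · rintro ⟨j, hj, h⟩
      rwa [nat_injective h]
    · exact fun h => ⟨i, h, rfl⟩
  have h2 : ∀ i : ℕ, i < n → (¬ (nat i ∈ sb b n ↔ (nat i ∈ sb c n ∧ ¬ nat i ∈ Sm (nat m) ∧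
      ¬ nat i ∈ nat k)) ↔ i ∈ mxs m k b c) := by
    intro i hi
    rw [nat_mem_sb, nat_mem_sb, nat_mem_Sm, h1, mxs, mem_xr, Set.mem_setOf_eq]
    have h3 : ¬ i.unpair.1 < m ↔ m ≤ i.unpair.1 := not_lt
    have h4 : ¬ i < k ↔ k ≤ i := not_lt
    rw [h3, h4]
    tauto
  constructor
  · rintro ⟨⟨i, hi, rfl⟩, h⟩
    exact nat_mem_sb.2 ⟨hi, (h2 i hi).1 h⟩
  · intro hx
    obtain ⟨i, hi, h, rfl⟩ := mem_sb.1 hx
    exact ⟨⟨i, hi, rfl⟩, (h2 i hi).2 h⟩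

theorem dfn_mxc {K : Set ZFSet.{0}} (hK : IsZF K) (hA : dA ∈ K) (m k : ℕ) :
    DfnF K K fun w : Fin 1 → ZFSet.{0} => mxc m k (w 0) := by
  have hB := hK.base
  refine hB.pair' (hK.fs' (DfnF.proj 0)) (hK.sep' (Q := fun x w => ¬ (x ∈ fs (sn (w 0)) ↔
    (x ∈ sn (sn (w 0)) ∧ ¬ x ∈ Sm (nat m) ∧ ¬ x ∈ nat k))) (hK.fs' (DfnF.proj 0)) ?_)
  refine ((Dfn.mem (DfnF.proj 0) (hK.fs' (hK.sn' (DfnF.proj 1)))).iff ?_).not
  refine (Dfn.mem (DfnF.proj 0) (hK.sn' (hK.sn' (DfnF.proj 1)))).and (Dfn.and ?_ ?_)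
  · exact (Dfn.mem (DfnF.proj 0) (dfn_Sm hK (SS_mem hK hA) (DfnF.const (hK.nat_mem m)))).not
  · exact (Dfn.mem (DfnF.proj 0) (DfnF.const (hK.nat_mem k))).not

section

variable {V : Set ZFSet.{0}} (hc : V.Countable) (hL : IsLA dA V)
  (hst : ∀ F ∈ V, (∀ z ∈ F, IsHF z) → ∃ N ∈ V, (∀ x ∈ N, ∀ y ∈ x, y ∈ N) ∧
    IsZF {x | x ∈ N} ∧ dA ∈ N ∧ F ∈ N ∧ Inj V N ZFSet.omega)
  {g : Set ℕ} (hg : Gn V g)

include hL hc

/-- Relations for the hereditarily finite parts of the values of names. -/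
theorem exists_rel {θ : ZFSet.{0}} (hθ : θ ∈ V) : ∃ F ∈ V, (∀ z ∈ F, IsHF z) ∧
    ∀ g', Gn V g' → ∀ z, z ∈ Rv F g' ↔ IsHF z ∧ z ∈ ev (Gf g') θ := by
  have hV := hL.zf
  have hB := hV.base
  have he := (bk_of hV hL.mem).eg
  have ht := t0_mem_V hL
  have hP := forcing_PP hV he
  have hH := HFs_mem hV he
  have hD : D0 fun v : Fin 2 → ZFSet.{0} => v 0 ∈ v 1 := D0.mem (D0v.proj 0) (D0v.proj 1)
  have hF0 : ∀ i : Fin 2, DfnF V V
      ((![fun w : Fin 1 → ZFSet.{0} => chk t0 (sn (w 0)), fun _ => θ] :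
        Fin 2 → (Fin 1 → ZFSet.{0}) → ZFSet.{0}) i) := by
    intro i
    fin_cases i
    · exact DfnF.comp1 (f := chk t0) (dfn_chk hV ht) (hV.sn' (DfnF.proj 0))
    · exact DfnF.const hθ
  have hfd := Pool.Agent.H158_IT.fd hV hP hc hD hF0 (hV.fs' (DfnF.proj (0 : Fin 1)))
  have hFV := hV.sep_mem (Q := fun u => fs u ∈ PP ∧ ∀ G, IsGeneric V PP LL G → fs u ∈ G →
    ev G (chk t0 (sn u)) ∈ ev G θ) hfd (hV.prod_mem hP.mem hH)
  refine ⟨_, hFV, fun z hz => ?_, fun g' hg' z => ?_⟩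
  · obtain ⟨p, hp, x, hx, rfl⟩ := ZFSet.mem_prod.1 (ZFSet.mem_sep.1 hz).1
    obtain ⟨n, b, rfl⟩ := mem_PP.1 hp
    exact (isHF_cn n b).pair (mem_HFs.1 hx)
  · rw [mem_Rv]
    refine and_congr_right fun hz => ?_
    constructor
    · rintro ⟨n, hn⟩
      obtain ⟨-, -, h1⟩ := ZFSet.mem_sep.1 hn
      have h2 := h1 _ (gen_of_Gn hg') (by rw [fs_pair]; exact mem_Gf.2 ⟨n, rfl⟩)
      rwa [sn_pair, ev_chk (t0_mem_Gf g')] at h2
    · intro h1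
      have hz' : z ∈ V := hf_memK hV hz
      obtain ⟨k, hk⟩ := ftg hL hg' hD (v := ![chk t0 z, θ]) (by
        intro i
        fin_cases i
        · exact chk_mem_V hL hz'
        · exact hθ) (by
        show ev (Gf g') (chk t0 z) ∈ ev (Gf g') θ
        rwa [ev_chk (t0_mem_Gf g')])
      refine ⟨k, ZFSet.mem_sep.2 ⟨ZFSet.pair_mem_prod.2 ⟨cn_mem_PP _ _, mem_HFs.2 hz⟩, ?_, ?_⟩⟩
      · rw [fs_pair]
        exact cn_mem_PP _ _
      · intro G' hG' hkG'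
        rw [fs_pair] at hkG'
        rw [sn_pair]
        obtain ⟨g'', rfl, hg''⟩ := Gn_of_gen hV he hG'
        exact hk g'' hg'' fun i hi => ((cn_mem_Gf.1 hkG') i hi).symm

include hst hg

omit hc in
/-- The small inner models. -/
theorem V_sub_Vm (m : ℕ) : V ⊆ LC (MM V g) (Ac (nm (cut g m))) := by
  have hM := zfM hL hg
  have hA := Ac_mem hM (V_sub_M hL hg hL.mem) (cut_mem hL hg m)
  have hLm := isLA_of_HF hM hA fun z hz => isHF_Ac (fun z hz => by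
    obtain ⟨i, -, rfl⟩ := mem_nm.1 hz
    exact isHF_nat i) hz
  intro x hx
  obtain ⟨ξ, h1, h2, h3⟩ := hL.lev x hx
  have h4 := (of_Ac hLm.zf hLm.mem).1
  exact hLm.zf.trans _ (Lv_mem_M hLm.zf h4 (ord_LC hM hA (V_sub_M hL hg h1) h2)) _ h3

/-- Nonempty coanalytic sets in a family in the symmetric model have members in a fixed inner
model. -/
theorem pi_real {B : ℕ → Set (ℕ → ℕ)} (hne : ∀ k, (B k).Nonempty)
    (hpi : ∀ k, Pi11 (MM V g) (B k)) (hfam : fam B ∈ MM V g) :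
    ∃ m : ℕ, ∀ k, ∃ x ∈ B k, code x ∈ LC (MM V g) (Ac (nm (cut g m))) := by
  have hV := hL.zf
  have hM := zfM hL hg
  have hVM := V_sub_M hL hg
  have he := (bk_of hV hL.mem).eg
  have hBM := bkM hL hg
  obtain ⟨β, hβ, hβe⟩ := hfam
  obtain ⟨H, hH, hs⟩ := (hs_iff.1 hβ.2).1
  obtain ⟨m, rfl⟩ := mem_Fl.1 hH
  refine ⟨m, fun k => ?_⟩
  obtain ⟨x, hx⟩ := hne k
  obtain ⟨T, hT, hBT⟩ := hpi k
  have hxM : code x ∈ MM V g := ((hBT x).1 hx).1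
  have hHM : HFs ∈ MM V g := HFs_mem hM hBM.eg
  -- the hereditarily finite part of the tree
  set T' : ZFSet.{0} := ZFSet.sep (fun z => z ∈ T) HFs with hT'
  have hT'M : T' ∈ MM V g := hM.sep_mem (Dfn.mem (DfnF.proj 0) (DfnF.const hT)) hHM
  have hTT' : ∀ (y z : ℕ → ℕ) (n : ℕ), pair (rs y n) (rs z n) ∈ T' ↔
      pair (rs y n) (rs z n) ∈ T := by
    intro y z n
    rw [hT', ZFSet.mem_sep, mem_HFs]
    exact ⟨fun h => h.2, fun h => ⟨(isHF_rs y n).pair (isHF_rs z n), h⟩⟩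
  obtain ⟨θ, hθ, hθe⟩ := hxM
  obtain ⟨υ, hυ, hυe⟩ := id hT'M
  obtain ⟨Fθ, hFθ, hFθH, hFθr⟩ := exists_rel hc hL hθ.1
  obtain ⟨Fυ, hFυ, hFυH, hFυr⟩ := exists_rel hc hL hυ.1
  -- the condition that forces that `θ` names a member
  have hD : D0 fun v : Fin 3 → ZFSet.{0} => pair (v 0) (v 1) ∈ v 2 :=
    D0.pairMem (D0v.proj 0) (D0v.proj 1) (D0v.proj 2)
  obtain ⟨n₀, hn₀⟩ := ftg hL hg hD (v := ![chk t0 (nat k), θ, β]) (by
    intro i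
    fin_cases i
    · exact chk_mem_V hL (hV.nat_mem k)
    · exact hθ.1
    · exact hβ.1) (by
    show pair (ev (Gf g) (chk t0 (nat k))) (ev (Gf g) θ) ∈ ev (Gf g) β
    rw [ev_chk (t0_mem_Gf g), hθe, hβe, fam, ZFSet.mem_range]
    exact ⟨⟨⟨k, x⟩, hx⟩, rfl⟩)
  -- the values at flips
  have hflip : ∀ c : Set ℕ, nm c ∈ V → (∀ i ∈ c, m ≤ i.unpair.1 ∧ n₀ ≤ i) →
      ∃ x' ∈ B k, Rv Fθ (xr g c) = code x' := by
    intro c hcV hcE
    have hstc : st (nm c) = c := st_nm c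
    have hg' : Gn V (xr g c) := by
      have := Gn_flip hV hg hcV
      rwa [hstc] at this
    have h1 := hn₀ (xr g c) hg' (fun i hi => by
      have h2 : i ∉ c := fun h => by
        have := (hcE i h).2
        omega
      rw [mem_xr]
      tauto)
    have h2 : ev (Gf (xr g c)) β = fam B := by
      have h3 := hs (nm c) (mem_Hm.2 ⟨nm_mem_Grp hV hcV, fun i hi => by
        rw [hstc] at hi
        exact (hcE i hi).1⟩)
      rw [← hstc, ← ev_act, h3]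
      exact hβe
    have h1' : pair (ev (Gf (xr g c)) (chk t0 (nat k))) (ev (Gf (xr g c)) θ) ∈
        ev (Gf (xr g c)) β := h1
    rw [ev_chk (t0_mem_Gf _), h2, fam, ZFSet.mem_range] at h1'
    obtain ⟨⟨⟨k', x'⟩, hx'⟩, h3⟩ := h1'
    obtain ⟨h4, h5⟩ := ZFSet.pair_inj.1 h3
    have h6 := nat_injective h4
    have hx'' : x' ∈ B k := by
      rw [← h6]
      exact hx'
    refine ⟨x', hx'', ?_⟩
    ext z
    rw [hFθr _ hg' z]
    have h7 : ev (Gf (xr g c)) θ = code x' := h5.symm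
    rw [h7]
    exact ⟨fun h => h.2, fun h => ⟨isHF_of_code h, h⟩⟩
  -- the small model
  set F : ZFSet.{0} := im (fun z => pair (nat 0) z) Fθ ∪ im (fun z => pair (nat 1) z) Fυ with hF
  have hFV : F ∈ V := hV.union_mem
    (hV.im_mem hFθ (hV.base.pair' (DfnF.const (hV.nat_mem 0)) (DfnF.proj 0)))
    (hV.im_mem hFυ (hV.base.pair' (DfnF.const (hV.nat_mem 1)) (DfnF.proj 0)))
  have hmF : ∀ z, z ∈ F ↔ (∃ y ∈ Fθ, z = pair (nat 0) y) ∨ ∃ y ∈ Fυ, z = pair (nat 1) y := by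
    intro z
    rw [hF, ZFSet.mem_union, mem_im, mem_im]
  obtain ⟨N, hNV, hNt, hNZ, hAN, hFN, hNi⟩ := hst F hFV (by
    intro z hz
    rcases (hmF z).1 hz with ⟨y, hy, rfl⟩ | ⟨y, hy, rfl⟩
    · exact (isHF_nat 0).pair (hFθH y hy)
    · exact (isHF_nat 1).pair (hFυH y hy))
  have hpF : ∀ z ∈ F, ∃ a b, z = pair a b := by
    intro z hz
    rcases (hmF z).1 hz with ⟨y, hy, rfl⟩ | ⟨y, hy, rfl⟩
    · exact ⟨_, _, rfl⟩
    · exact ⟨_, _, rfl⟩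
  have hFθN : Fθ ∈ N := by
    refine part_mem hNZ hFN (j := 0) (fun z => ?_) hpF
    rw [hmF]
    constructor
    · rintro (⟨y, hy, h1⟩ | ⟨y, hy, h1⟩)
      · obtain ⟨-, rfl⟩ := ZFSet.pair_inj.1 h1
        exact hy
      · exact absurd (ZFSet.pair_inj.1 h1).1 nat0_ne_nat1
    · exact fun hz => Or.inl ⟨z, hz, rfl⟩
  have hFυN : Fυ ∈ N := by
    refine part_mem hNZ hFN (j := 1) (fun z => ?_) hpF
    rw [hmF]
    constructor
    · rintro (⟨y, hy, h1⟩ | ⟨y, hy, h1⟩)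
      · exact absurd (ZFSet.pair_inj.1 h1).1.symm nat0_ne_nat1
      · obtain ⟨-, rfl⟩ := ZFSet.pair_inj.1 h1
        exact hy
    · exact fun hz => Or.inr ⟨z, hz, rfl⟩
  have heN : eg ∈ N := (bk_of hNZ hAN).eg
  have hP2 := forcing_PP2 hNZ heN
  obtain ⟨ψ, hψ⟩ := exists_psiB
  have ht2N : t2 ∈ N := hNt _ (PP2_mem hNZ heN) _ (cn2_mem _ _ _)
  have hθ2 : nme Fθ (mxc m n₀) ∈ N := nme_mem hNZ heN hFθN (dfn_mxc hNZ hAN m n₀)
  have hυ2 : nme Fυ c1 ∈ N := nme_mem hNZ heN hFυN (c1' hNZ (DfnF.proj 0))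
  have hv : ∀ i, (![nme Fθ (mxc m n₀), nme Fυ c1, chk t2 ZFSet.omega] :
      Fin 3 → ZFSet.{0}) i ∈ {x | x ∈ N} := by
    intro i
    fin_cases i
    · exact hθ2
    · exact hυ2
    · exact chk_mem hNZ ht2N hNZ.infinity
  have hevθ : ∀ h : Set ℕ, ev (Gf2 g h) (nme Fθ (mxc m n₀)) = Rv Fθ (mxs m n₀ g h) := by
    intro h
    ext z
    rw [mem_ev_nme, mem_Rv]
    refine and_congr_right fun _ => exists_congr fun n => ?_
    rw [mxc_cn2]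
  have hevυ : ∀ h : Set ℕ, ev (Gf2 g h) (nme Fυ c1) = T' := by
    intro h
    ext z
    rw [mem_ev_nme]
    have h1 := hFυr g hg z
    rw [mem_Rv, hυe] at h1
    have h2 : ∀ n, c1 (cn2 n g h) = cn n g := fun n => c1_cn2 _ _ _
    simp only [h2]
    rw [h1]
    exact ⟨fun h => h.2, fun h => ⟨mem_HFs.1 (ZFSet.mem_sep.1 h).1, h⟩⟩
  have hsat : ∀ h : Set ℕ, Gn2 {x | x ∈ N} g h →
      (Sat (ext {x | x ∈ N} (Gf2 g h)) Empty.elim ψ (ev (Gf2 g h) ∘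
        ![nme Fθ (mxc m n₀), nme Fυ c1, chk t2 ZFSet.omega]) ↔
        FN ZFSet.omega ZFSet.omega (Rv Fθ (mxs m n₀ g h)) ∧
        ¬ ∃ y ∈ ext {x | x ∈ N} (Gf2 g h), BR y (Rv Fθ (mxs m n₀ g h)) T' ZFSet.omega) := by
    intro h hh
    refine (hψ _ (ext_trans hNZ) (ev (Gf2 g h) ∘
      ![nme Fθ (mxc m n₀), nme Fυ c1, chk t2 ZFSet.omega]) fun i => ⟨_, hv i, rfl⟩).trans ?_
    have e0 : (ev (Gf2 g h) ∘ ![nme Fθ (mxc m n₀), nme Fυ c1, chk t2 ZFSet.omega]) 0 =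
        Rv Fθ (mxs m n₀ g h) := hevθ h
    have e1 : (ev (Gf2 g h) ∘ ![nme Fθ (mxc m n₀), nme Fυ c1, chk t2 ZFSet.omega]) 1 = T' :=
      hevυ h
    have e2 : (ev (Gf2 g h) ∘ ![nme Fθ (mxc m n₀), nme Fυ c1, chk t2 ZFSet.omega]) 2 =
        ZFSet.omega := ev_chk (t2_mem_Gf2 g h) _
    rw [e0, e1, e2]
  -- the first generic real
  obtain ⟨X, hXV, hXg, -⟩ := exists_genV hL hNV hNi 0 ∅
  have hgX : Gn2 {x | x ∈ N} g X := Gn2_of hV he hNV hNZ heN hg hXg hXV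
  have hcV : ∀ Y : Set ℕ, nm Y ∈ V → nm {i | i ∈ Y ∧ m ≤ i.unpair.1 ∧ n₀ ≤ i} ∈ V := by
    intro Y hY
    have h1 : nm {i | i ∈ Y ∧ m ≤ i.unpair.1 ∧ n₀ ≤ i} =
        ZFSet.sep (fun z => ¬ z ∈ Sm (nat m) ∧ ¬ z ∈ nat n₀) (nm Y) := by
      ext z
      rw [ZFSet.mem_sep]
      constructor
      · intro hz
        obtain ⟨i, ⟨h2, h3, h4⟩, rfl⟩ := mem_nm.1 hz
        refine ⟨nat_mem_nm.2 h2, fun h => ?_, fun h => ?_⟩
        · have := nat_mem_Sm.1 h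
          omega
        · obtain ⟨j, hj, h5⟩ := mem_natK.1 h
          have := nat_injective h5
          omega
      · rintro ⟨hz, h2, h3⟩
        obtain ⟨i, hi, rfl⟩ := mem_nm.1 hz
        refine nat_mem_nm.2 ⟨hi, ?_, ?_⟩
        · by_contra h4
          exact h2 (nat_mem_Sm.2 (by omega))
        · by_contra h4
          exact h3 (mem_natK.2 ⟨i, by omega, rfl⟩)
    rw [h1]
    refine hV.sep_mem (Q := fun z => ¬ z ∈ Sm (nat m) ∧ ¬ z ∈ nat n₀) ?_ hY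
    exact (Dfn.mem (DfnF.proj 0) (dfn_Sm hV (SS_mem hV hL.mem)
      (DfnF.const (hV.nat_mem m)))).not.and (Dfn.mem (DfnF.proj 0)
      (DfnF.const (hV.nat_mem n₀))).not
  obtain ⟨x₁, hx₁, hx₁e⟩ := hflip _ (hcV X hXV) fun i hi => hi.2
  have hx₁e' : Rv Fθ (mxs m n₀ g X) = code x₁ := hx₁e
  have hsat1 := (hsat X hgX).2 (by
    rw [hx₁e']
    refine ⟨FN_iff.2 (isFunc_code x₁), ?_⟩
    rintro ⟨y, -, hy⟩
    obtain ⟨y', rfl, hy'⟩ := BR_iff.1 hy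
    obtain ⟨h1, h2⟩ := (hBT x₁).1 hx₁
    obtain ⟨z, hz, hz'⟩ := bra hM hBM.eg h1 hT'M hy'
    obtain ⟨n, hn⟩ := h2 z hz
    exact hn ((hTT' _ _ _).1 (hz' n)))
  obtain ⟨p, hp, hp'⟩ := ftF hNZ hP2 ψ hv (gen_of_Gn2 hgX) hsat1
  obtain ⟨n₁, rfl⟩ := mem_Gf2.1 hp
  -- the second generic real
  obtain ⟨X', hX'V, hX'g, hX'i⟩ := exists_genV hL hNV hNi n₁ (xr g X)
  have hgX' : Gn2 {x | x ∈ N} g (xr g X') :=
    (Gn2_of hV he hNV hNZ heN hg hX'g hX'V).xr hNZ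
  have hsat2 := hp' _ (gen_of_Gn2 hgX') (mem_Gf2.2 ⟨n₁, cn2_congr (fun _ _ => Iff.rfl)
    fun i hi => by
      have h1 := hX'i i hi
      rw [mem_xr] at h1 ⊢
      rw [h1]
      tauto⟩)
  obtain ⟨h1, h2⟩ := (hsat _ hgX').1 hsat2
  obtain ⟨x₂, hx₂⟩ := exists_code (FN_iff.1 h1)
  -- the mixture is in the inner model
  have hAc := Ac_mem hM (hVM hL.mem) (cut_mem hL hg m)
  have hLm := isLA_of_HF hM hAc fun z hz => isHF_Ac (fun z hz => by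
    obtain ⟨i, -, rfl⟩ := mem_nm.1 hz
    exact isHF_nat i) hz
  have hVVm := V_sub_Vm hL hst hg m
  have hcutVm : nm (cut g m) ∈ LC (MM V g) (Ac (nm (cut g m))) := (of_Ac hLm.zf hLm.mem).2
  have hmix : nm (mxs m n₀ g (xr g X')) ∈ LC (MM V g) (Ac (nm (cut g m))) := by
    have hKZ := hLm.zf
    have hg0 : nm {i | i < n₀ ∧ i ∈ g} ∈ LC (MM V g) (Ac (nm (cut g m))) :=
      hVVm (finite_mem hL)
    have hX'K := hVVm (hcV X' hX'V)
    have h3 : nm (mxs m n₀ g (xr g X')) = (nm (cut g m) ∪ nm {i | i < n₀ ∧ i ∈ g}) ∪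
        nm {i | i ∈ X' ∧ m ≤ i.unpair.1 ∧ n₀ ≤ i} := by
      have h4 : ∀ i : ℕ, i ∈ mxs m n₀ g (xr g X') ↔ (i ∈ cut g m ∨ (i < n₀ ∧ i ∈ g)) ∨
          (i ∈ X' ∧ m ≤ i.unpair.1 ∧ n₀ ≤ i) := by
        intro i
        rw [mxs, mem_xr, Set.mem_setOf_eq, mem_xr, mem_cut]
        by_cases h5 : i.unpair.1 < m
        · have h6 : ¬ m ≤ i.unpair.1 := by omega
          tauto
        · by_cases h7 : i < n₀
          · have h6 : ¬ n₀ ≤ i := by omega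
            tauto
          · have h6 : n₀ ≤ i := by omega
            have h8 : m ≤ i.unpair.1 := by omega
            tauto
      ext z
      rw [ZFSet.mem_union, ZFSet.mem_union]
      constructor
      · intro hz
        obtain ⟨i, hi, rfl⟩ := mem_nm.1 hz
        rw [nat_mem_nm, nat_mem_nm, nat_mem_nm]
        exact (h4 i).1 hi
      · intro hz
        have hzi : ∃ i, z = nat i := by
          rcases hz with (hz | hz) | hz
          · obtain ⟨i, -, rfl⟩ := mem_nm.1 hz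
            exact ⟨i, rfl⟩
          · obtain ⟨i, -, rfl⟩ := mem_nm.1 hz
            exact ⟨i, rfl⟩
          · obtain ⟨i, -, rfl⟩ := mem_nm.1 hz
            exact ⟨i, rfl⟩
        obtain ⟨i, rfl⟩ := hzi
        rw [nat_mem_nm, nat_mem_nm, nat_mem_nm] at hz
        exact nat_mem_nm.2 ((h4 i).2 hz)
    rw [h3]
    exact hKZ.union_mem (hKZ.union_mem hcutVm hg0) hX'K
  have hx₂K : code x₂ ∈ LC (MM V g) (Ac (nm (cut g m))) := by
    rw [← hx₂]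
    exact Rv_mem hLm.zf (bk_of hLm.zf (hVVm hL.mem)).eg (hVVm hFθ) hmix
  refine ⟨x₂, (hBT x₂).2 ⟨LC_subset hM hAc hx₂K, fun y hy => ?_⟩, hx₂K⟩
  by_contra hcon
  push Not at hcon
  rw [hx₂] at h2
  apply h2
  have hG2 := gen_of_Gn2 hgX'
  have hext := ZE.zf_ext hNZ hP2 hG2
  have hsub := ZE.sub_ext' hNZ hP2 hG2
  have hx₂E : code x₂ ∈ ext {x | x ∈ N} (Gf2 g (xr g X')) := by
    rw [← hx₂, ← hevθ]
    exact ⟨_, hθ2, rfl⟩
  have hT'E : T' ∈ ext {x | x ∈ N} (Gf2 g (xr g X')) := by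
    rw [← hevυ (xr g X')]
    exact ⟨_, hυ2, rfl⟩
  obtain ⟨y', hy', hy''⟩ := bra hext (hsub heN) hx₂E hT'E (y := y) fun n =>
    (hTT' _ _ _).2 (hcon n)
  exact ⟨code y', hy', BR_iff.2 ⟨y', rfl, hy''⟩⟩

end

end Pool.Agent.H158_PC
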