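import Pool.Agent.H158_PC.Hf

/-!
# Closure properties of the set of the reals of a model
-/

set_option autoImplicit false
set_option linter.unusedSectionVars false
set_option linter.unreachableTactic false
set_option linter.unusedTactic false

namespace Pool.Agent.H158_PC

open Pool.Agent.W868
open ZFSet (pair)

theorem exists_nu (n : ℕ) : ∃ m, nat n = hf m := isHF_nat n

/-- The number of the hereditarily finite set `nat n`. -/
noncomputable def nu (n : ℕ) : ℕ := (exists_nu n).choose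

theorem hf_nu (n : ℕ) : hf (nu n) = nat n := (exists_nu n).choose_spec.symm

open Classical in
/-- Auxiliary functions. -/
noncomputable def Fx : ℕ → ℕ → ℕ
  | 0 => fun n => n.unpair.1
  | 1 => fun n => n.unpair.2
  | 2 => fun n => if n = 0 then 1 else 0
  | 3 => fun n => if n.unpair.1 ≠ 0 ∧ n.unpair.2 ≠ 0 then 1 else 0
  | 4 => fun n => if n.unpair.1 = 0 then n.unpair.2.unpair.1 else
      if n.unpair.1 = 1 then n.unpair.2.unpair.2.unpair.1 else n.unpair.2.unpair.2.unpair.2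
  | 5 => fun n => if (n.unpair.1 ≠ 0 ↔ n.unpair.2 ≠ 0) then 0 else 1
  | 6 => fun n => n - 1
  | 7 => fun n => nu n
  | (n + 8) => fun _ => n

/-- The basic requirements on the models. -/
structure Bk (K : Set ZFSet.{0}) : Prop where
  zf : IsZF K
  eg : eg ∈ K
  pr : PRg ∈ K
  fx : ∀ i, Fx i ∈ Rls K

section

variable {K : Set ZFSet.{0}} (hK : IsZF K)

include hK

theorem mkR {Q : ZFSet.{0} → ZFSet.{0} → Prop} (f : ℕ → ℕ)
    (hQ : Dfn K K fun w : Fin 2 → ZFSet.{0} => Q (w 0) (w 1))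
    (h : ∀ n l : ℕ, Q (nat n) (nat l) ↔ l = f n) : f ∈ Rls K := by
  have hB := hK.base
  have h1 : code f = ZFSet.sep (fun u => Q (fs u) (sn u)) (ZFSet.prod ZFSet.omega ZFSet.omega) := by
    ext z
    rw [mem_code, ZFSet.mem_sep, ZFSet.mem_prod]
    constructor
    · rintro ⟨i, rfl⟩
      refine ⟨⟨_, nat_mem_om i, _, nat_mem_om _, rfl⟩, ?_⟩
      rw [fs_pair, sn_pair, h]
    · rintro ⟨⟨a, ha, b, hb, rfl⟩, h2⟩
      obtain ⟨i, rfl⟩ := mem_omega_iff.1 ha
      obtain ⟨j, rfl⟩ := mem_omega_iff.1 hb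
      rw [fs_pair, sn_pair, h] at h2
      exact ⟨i, by rw [h2]⟩
  show code f ∈ K
  rw [h1]
  refine hK.sep_mem (Q := fun u => Q (fs u) (sn u)) ?_ (hK.prod_mem hK.infinity hK.infinity)
  exact Dfn.comp2 (Q := Q) hQ (hK.fs' (DfnF.proj 0)) (hK.sn' (DfnF.proj 0))

theorem comp_mem {f g : ℕ → ℕ} (hf' : f ∈ Rls K) (hg : g ∈ Rls K) :
    (fun n => f (g n)) ∈ Rls K := by
  have hB := hK.base
  have h1 : code f ∈ K := hf'
  have h2 : code g ∈ K := hg
  have hω := hK.infinity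
  refine mkR hK (Q := fun a b => ∃ m ∈ (ZFSet.omega : ZFSet.{0}), pair a m ∈ code g ∧
    pair m b ∈ code f) _ ?_ ?_
  · repeat' first
      | exact DfnF.proj _
      | exact DfnF.const (by assumption)
      | apply hB.bex | apply hB.ball | apply Dfn.and | apply Dfn.or | apply Dfn.not
      | apply hB.pair' | apply Dfn.mem | apply Dfn.eq
  · intro n l
    constructor
    · rintro ⟨m, hm, h3, h4⟩
      obtain ⟨m, rfl⟩ := mem_omega_iff.1 hm
      rw [pair_mem_code] at h3 h4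
      rw [h3, h4]
    · rintro rfl
      exact ⟨_, nat_mem_om (g n), pair_mem_code.2 rfl, pair_mem_code.2 rfl⟩

theorem pr_mem (hp : PRg ∈ K) {f g : ℕ → ℕ} (hf' : f ∈ Rls K) (hg : g ∈ Rls K) :
    (fun n => Nat.pair (f n) (g n)) ∈ Rls K := by
  have hB := hK.base
  have h1 : code f ∈ K := hf'
  have h2 : code g ∈ K := hg
  have hω := hK.infinity
  refine mkR hK (Q := fun a b => ∃ i ∈ (ZFSet.omega : ZFSet.{0}), ∃ j ∈ (ZFSet.omega : ZFSet.{0}),
    pair a i ∈ code f ∧ pair a j ∈ code g ∧ pair (pair i j) b ∈ PRg) _ ?_ ?_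
  · repeat' first
      | exact DfnF.proj _
      | exact DfnF.const (by assumption)
      | apply hB.bex | apply hB.ball | apply Dfn.and | apply Dfn.or | apply Dfn.not
      | apply hB.pair' | apply Dfn.mem | apply Dfn.eq
  · intro n l
    constructor
    · rintro ⟨i, hi, j, hj, h3, h4, h5⟩
      obtain ⟨i, rfl⟩ := mem_omega_iff.1 hi
      obtain ⟨j, rfl⟩ := mem_omega_iff.1 hj
      rw [pair_mem_code] at h3 h4
      rw [pair_mem_PRg] at h5
      rw [h3, h4, h5]
    · rintro rfl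
      exact ⟨_, nat_mem_om (f n), _, nat_mem_om (g n), pair_mem_code.2 rfl, pair_mem_code.2 rfl,
        pair_mem_PRg.2 rfl⟩

end

theorem mem_natK {n : ℕ} {x : ZFSet.{0}} : x ∈ nat n ↔ ∃ i < n, x = nat i := by
  induction n with
  | zero =>
    constructor
    · exact fun h => absurd h (ZFSet.notMem_empty _)
    · rintro ⟨i, hi, -⟩
      omega
  | succ n ih =>
    rw [nat, ZFSet.mem_insert_iff, ih]
    constructor
    · rintro (rfl | ⟨i, hi, rfl⟩)
      · exact ⟨n, by omega, rfl⟩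
      · exact ⟨i, by omega, rfl⟩
    · rintro ⟨i, hi, rfl⟩
      rcases Nat.lt_succ_iff_lt_or_eq.1 hi with h | rfl
      · exact Or.inr ⟨i, h, rfl⟩
      · exact Or.inl rfl

open Classical in
/-- The least witness, plus one. -/
noncomputable def mu (t : ℕ → ℕ) (s : ℕ) : ℕ :=
  if h : ∃ a, t (Nat.pair a s) ≠ 0 then Nat.find h + 1 else 0

theorem mu_zero {t : ℕ → ℕ} {s : ℕ} : mu t s = 0 ↔ ∀ a, t (Nat.pair a s) = 0 := by
  classical
  unfold mu
  split_ifs with h
  · constructor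
    · intro h1
      exact h1.elim
    · intro h1
      obtain ⟨a, ha⟩ := h
      exact absurd (h1 a) ha
  · push Not at h
    exact ⟨fun _ => h, fun _ => rfl⟩

theorem mu_spec {t : ℕ → ℕ} {s : ℕ} (h : mu t s ≠ 0) : t (Nat.pair (mu t s - 1) s) ≠ 0 := by
  classical
  have h1 : ∃ a, t (Nat.pair a s) ≠ 0 := by
    by_contra h2
    push Not at h2
    exact h (mu_zero.2 h2)
  have h2 : mu t s = Nat.find h1 + 1 := by
    unfold mu
    rw [dif_pos h1]
  rw [h2, Nat.add_sub_cancel]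
  exact Nat.find_spec h1

theorem mu_mem {K : Set ZFSet.{0}} (hK : IsZF K) (hp : PRg ∈ K) {t : ℕ → ℕ} (ht : t ∈ Rls K) :
    mu t ∈ Rls K := by
  classical
  have hB := hK.base
  have h1 : code t ∈ K := ht
  have hω := hK.infinity
  have h0 : (∅ : ZFSet.{0}) ∈ K := hK.empty_mem
  let P : ZFSet.{0} → ZFSet.{0} → Prop := fun i a =>
    ∃ k ∈ (ZFSet.omega : ZFSet.{0}), pair (pair i a) k ∈ PRg ∧ ¬ pair k ∅ ∈ code t
  have hP : ∀ i a : ℕ, P (nat i) (nat a) ↔ t (Nat.pair i a) ≠ 0 := by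
    intro i a
    constructor
    · rintro ⟨k, hk, h3, h4⟩
      obtain ⟨k, rfl⟩ := mem_omega_iff.1 hk
      rw [pair_mem_PRg] at h3
      subst h3
      intro h5
      exact h4 (show pair (nat _) (nat 0) ∈ code t from pair_mem_code.2 h5)
    · intro h3
      refine ⟨_, nat_mem_om (Nat.pair i a), pair_mem_PRg.2 rfl, fun h4 => h3 ?_⟩
      exact pair_mem_code.1 (show pair (nat _) (nat 0) ∈ code t from h4)
  refine mkR hK (Q := fun a b => (b = ∅ ∧ ¬ ∃ i ∈ (ZFSet.omega : ZFSet.{0}), P i a) ∨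
    ∃ i ∈ (ZFSet.omega : ZFSet.{0}), b = insert i i ∧ P i a ∧ ∀ j ∈ i, ¬ P j a) _ ?_ ?_
  · simp only [P]
    repeat' first
      | exact DfnF.proj _
      | exact DfnF.const (by assumption)
      | apply hB.bex | apply hB.ball | apply Dfn.and | apply Dfn.or | apply Dfn.not
      | apply hB.pair' | apply hB.insert' | apply Dfn.mem | apply Dfn.eq
  · intro n l
    by_cases h : ∃ a, t (Nat.pair a n) ≠ 0
    · have h2 : mu t n = Nat.find h + 1 := by
        unfold mu
        rw [dif_pos h]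
      rw [h2]
      constructor
      · rintro (⟨-, h3⟩ | ⟨i, hi, h3, h4, h5⟩)
        · exact absurd ⟨_, nat_mem_om (Nat.find h), (hP _ _).2 (Nat.find_spec h)⟩ h3
        · obtain ⟨i, rfl⟩ := mem_omega_iff.1 hi
          have h6 : l = i + 1 := nat_injective (h3.trans rfl)
          rw [h6]
          congr 1
          refine ((Nat.find_eq_iff h).2 ⟨(hP _ _).1 h4, fun j hj => ?_⟩).symm
          intro h7
          exact h5 _ (mem_natK.2 ⟨j, hj, rfl⟩) ((hP _ _).2 h7)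
      · rintro rfl
        refine Or.inr ⟨_, nat_mem_om (Nat.find h), rfl, (hP _ _).2 (Nat.find_spec h), ?_⟩
        intro j hj
        obtain ⟨j, hj', rfl⟩ := mem_natK.1 hj
        rw [hP]
        exact Nat.find_min h hj'
    · have h2 : mu t n = 0 := by
        unfold mu
        rw [dif_neg h]
      rw [h2]
      constructor
      · rintro (⟨h3, -⟩ | ⟨i, hi, h3, h4, h5⟩)
        · exact nat_injective h3
        · obtain ⟨i, rfl⟩ := mem_omega_iff.1 hi
          exact absurd ⟨i, (hP _ _).1 h4⟩ h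
      · rintro rfl
        refine Or.inl ⟨rfl, ?_⟩
        rintro ⟨i, hi, h3⟩
        obtain ⟨i, rfl⟩ := mem_omega_iff.1 hi
        exact h ⟨i, (hP _ _).1 h3⟩

section

variable {K : Set ZFSet.{0}} (hK : Bk K)

include hK

theorem Bk.comp {f g : ℕ → ℕ} (h1 : f ∈ Rls K) (h2 : g ∈ Rls K) : (fun n => f (g n)) ∈ Rls K :=
  comp_mem hK.zf h1 h2

theorem Bk.mk2 {f g : ℕ → ℕ} (h1 : f ∈ Rls K) (h2 : g ∈ Rls K) :
    (fun n => Nat.pair (f n) (g n)) ∈ Rls K := pr_mem hK.zf hK.pr h1 h2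

theorem Bk.un1 {f : ℕ → ℕ} (h1 : f ∈ Rls K) : (fun n => (f n).unpair.1) ∈ Rls K := by
  have h := hK.comp (hK.fx 0) h1
  simpa only [Fx] using h

theorem Bk.un2 {f : ℕ → ℕ} (h1 : f ∈ Rls K) : (fun n => (f n).unpair.2) ∈ Rls K := by
  have h := hK.comp (hK.fx 1) h1
  simpa only [Fx] using h

theorem Bk.cst (c : ℕ) : (fun _ => c) ∈ Rls K := by
  have h := hK.fx (c + 8)
  simpa only [Fx] using h

theorem Bk.idf : (fun n => n) ∈ Rls K := by
  have h := hK.mk2 (hK.fx 0) (hK.fx 1)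
  simpa only [Fx, Nat.pair_unpair] using h

/-- Closure under finite joins. -/
theorem Bk.join {w0 w1 w2 : ℕ → ℕ} (h0 : w0 ∈ Rls K) (h1 : w1 ∈ Rls K) (h2 : w2 ∈ Rls K) :
    ∃ w ∈ Rls K, (∀ s, w (Nat.pair 0 s) = w0 s) ∧ (∀ s, w (Nat.pair 1 s) = w1 s) ∧
      ∀ s, w (Nat.pair 2 s) = w2 s := by
  refine ⟨_, hK.comp (hK.fx 4) (hK.mk2 (hK.fx 0) (hK.mk2 (hK.comp h0 (hK.fx 1))
    (hK.mk2 (hK.comp h1 (hK.fx 1)) (hK.comp h2 (hK.fx 1))))), fun s => ?_, fun s => ?_,
    fun s => ?_⟩ <;> simp [Fx]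

end

end Pool.Agent.H158_PC
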