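import Pool.Agent.H158_PC.Ex
import Pool.Agent.R597.Tree
import Pool.Agent.R597.LS

/-!
# The constructible reals form a `Σ¹₂` set
-/

set_option autoImplicit false
set_option linter.unusedSectionVars false
set_option linter.unreachableTactic false
set_option linter.unusedTactic false

namespace Pool.Agent.H158_PC

open Pool.Agent.W868 Pool.Agent.R597
open ZFSet (pair)

/-- A pruned tree of finite sequences of natural numbers has a branch in the model. -/
theorem exists_branch' {M : Set ZFSet.{0}} (hZ : IsZF M) {S : ZFSet.{0}} (hS : S ∈ M)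
    (h0 : ∅ ∈ S) (h : ∀ t ∈ S, ∃ a ∈ (ZFSet.omega : ZFSet.{0}), pair t a ∈ S) :
    ∃ g : ℕ → ℕ, g ∈ Rls M ∧ ∀ n, seq (fun k => nat (g k)) n ∈ S := by
  have hB := hZ.base
  have hω := hZ.infinity
  have hord : ∀ t, ∀ s ∈ ZFSet.sep (fun a => pair t a ∈ S) ZFSet.omega, s.IsOrdinal := by
    intro t s hs
    exact isOrdinal_omega.mem (ZFSet.mem_sep.1 hs).1
  have hdm : DfnF M M fun w : Fin 1 → ZFSet.{0} => mn (ZFSet.sep (fun a => pair (w 0) a ∈ S)
      ZFSet.omega) := by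
    have h1 : DfnF M M fun w : Fin 1 → ZFSet.{0} => ZFSet.sep (fun a => pair (w 0) a ∈ S)
        ZFSet.omega := by
      refine hZ.sep' (Q := fun a w => pair (w 0) a ∈ S) (DfnF.const hω) ?_
      exact Dfn.mem (hB.pair' (DfnF.proj 1) (DfnF.proj 0)) (DfnF.const hS)
    refine hZ.sep' (Q := fun z w => ∀ s ∈ ZFSet.sep (fun a => pair (w 0) a ∈ S)
      ZFSet.omega, z ∈ s) (hB.sUnion' h1) ?_
    refine hB.ball ?_ (Dfn.mem (DfnF.proj 1) (DfnF.proj 0))
    refine hZ.sep' (Q := fun a w => pair (w 1) a ∈ S) (DfnF.const hω) ?_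
    exact Dfn.mem (hB.pair' (DfnF.proj 2) (DfnF.proj 0)) (DfnF.const hS)
  set m : ZFSet.{0} → ZFSet.{0} := fun t => mn (ZFSet.sep (fun a => pair t a ∈ S) ZFSet.omega)
    with hm
  have hm1 : ∀ t ∈ S, m t ∈ (ZFSet.omega : ZFSet.{0}) ∧ pair t (m t) ∈ S := by
    intro t ht
    obtain ⟨a, ha, h1⟩ := h t ht
    have h2 := mn_mem (hord t) ⟨a, ZFSet.mem_sep.2 ⟨ha, h1⟩⟩
    exact ZFSet.mem_sep.1 h2
  have hc : im (fun t => pair t (m t)) S ∈ M :=
    hZ.im_mem hS (hB.pair' (DfnF.proj 0) hdm)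
  set c := im (fun t => pair t (m t)) S with hcd
  have hap : ∀ t ∈ S, ap c t = m t := by
    intro t ht
    refine ap_unique (mem_im.2 ⟨t, ht, rfl⟩) fun q hq hqt => ?_
    obtain ⟨t', -, rfl⟩ := mem_im.1 hq
    rw [fs_pair] at hqt
    subst hqt
    exact sn_pair _ _
  have hS' : ∀ n, Nd c (nat n) ∈ S := by
    intro n
    induction n with
    | zero => rw [Nd_zero]; exact h0
    | succ n ih => rw [Nd_succ, hap _ ih]; exact (hm1 _ ih).2
  have hg0 : ∀ n : ℕ, ∃ k : ℕ, ap c (Nd c (nat n)) = nat k := by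
    intro n
    rw [hap _ (hS' n)]
    obtain ⟨k, hk⟩ := mem_omega_iff.1 (hm1 _ (hS' n)).1
    exact ⟨k, hk⟩
  choose g hg using hg0
  have hd : DfnF M M fun w : Fin 1 → ZFSet.{0} => pair (w 0) (ap c (Nd c (w 0))) :=
    hB.pair' (DfnF.proj 0) (hZ.ap' (DfnF.const hc) (dfn_Nd hZ hc))
  refine ⟨g, ?_, fun n => ?_⟩
  · have h1 := hZ.im_mem (h := fun z => pair z (ap c (Nd c z))) hω hd
    have h2 : im (fun z => pair z (ap c (Nd c z))) ZFSet.omega = code g := by
      ext z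
      rw [mem_im, mem_code]
      constructor
      · rintro ⟨x, hx, rfl⟩
        obtain ⟨i, rfl⟩ := mem_omega_iff.1 hx
        exact ⟨i, by rw [hg]⟩
      · rintro ⟨i, rfl⟩
        exact ⟨nat i, nat_mem_om i, by rw [hg]⟩
    show code g ∈ M
    rw [← h2]
    exact h1
  · have h2 : ∀ n, seq (fun k => nat (g k)) n = Nd c (nat n) := by
      intro n
      induction n with
      | zero => rw [Nd_zero]; rfl
      | succ n ih => rw [Nd_succ, seq, ih, hg]
    rw [h2]
    exact hS' n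

/-- The relation that is coded by `w` as a set. -/
noncomputable def Es (w : ℕ → ℕ) : ZFSet.{0} :=
  ZFSet.range fun p : {p : ℕ × ℕ // wE w p.1 p.2} => pair (nat p.1.1) (nat p.1.2)

theorem mem_Es {w : ℕ → ℕ} {z : ZFSet.{0}} :
    z ∈ Es w ↔ ∃ a b, wE w a b ∧ z = pair (nat a) (nat b) := by
  rw [Es, ZFSet.mem_range]
  constructor
  · rintro ⟨⟨⟨a, b⟩, h⟩, rfl⟩
    exact ⟨a, b, h, rfl⟩
  · rintro ⟨a, b, h, rfl⟩
    exact ⟨⟨⟨a, b⟩, h⟩, rfl⟩

theorem pair_mem_Es {w : ℕ → ℕ} {a b : ℕ} : pair (nat a) (nat b) ∈ Es w ↔ wE w a b := by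
  rw [mem_Es]
  constructor
  · rintro ⟨a', b', h, h1⟩
    obtain ⟨h2, h3⟩ := ZFSet.pair_inj.1 h1
    rwa [nat_injective h2, nat_injective h3]
  · exact fun h => ⟨a, b, h, rfl⟩

theorem Es_mem {M : Set ZFSet.{0}} (hB : Bk M) {w : ℕ → ℕ} (hw : w ∈ Rls M) : Es w ∈ M := by
  have hM := hB.zf
  have hK := hM.base
  have hω := hM.infinity
  have h0 := hM.empty_mem
  have hp := hB.pr
  have h1 : (fun s => w (Nat.pair 0 (Nat.pair 0 s))) ∈ Rls M :=
    hB.comp hw (hB.mk2 (hB.cst 0) (hB.mk2 (hB.cst 0) hB.idf))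
  have h2 : code (fun s => w (Nat.pair 0 (Nat.pair 0 s))) ∈ M := h1
  have h3 : Es w = ZFSet.sep (fun q => ∃ k ∈ (ZFSet.omega : ZFSet.{0}),
      ∃ l ∈ (ZFSet.omega : ZFSet.{0}), pair q k ∈ PRg ∧
      pair k l ∈ code (fun s => w (Nat.pair 0 (Nat.pair 0 s))) ∧ ¬ l = ∅)
      (ZFSet.prod ZFSet.omega ZFSet.omega) := by
    ext z
    rw [mem_Es, ZFSet.mem_sep, ZFSet.mem_prod]
    constructor
    · rintro ⟨a, b, h, rfl⟩
      refine ⟨⟨_, nat_mem_om a, _, nat_mem_om b, rfl⟩, _, nat_mem_om _, _, nat_mem_om _,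
        pair_mem_PRg.2 rfl, pair_mem_code.2 rfl, ?_⟩
      intro h4
      exact h (nat_injective (show nat _ = nat 0 from h4))
    · rintro ⟨⟨x, hx, y, hy, rfl⟩, k, hk, l, hl, h4, h5, h6⟩
      obtain ⟨a, rfl⟩ := mem_omega_iff.1 hx
      obtain ⟨b, rfl⟩ := mem_omega_iff.1 hy
      obtain ⟨k, rfl⟩ := mem_omega_iff.1 hk
      obtain ⟨l, rfl⟩ := mem_omega_iff.1 hl
      rw [pair_mem_PRg] at h4
      rw [pair_mem_code] at h5
      refine ⟨a, b, ?_, rfl⟩
      rw [h4] at h5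
      show w (Nat.pair 0 (Nat.pair 0 (Nat.pair a b))) ≠ 0
      rw [h5]
      rintro rfl
      exact h6 rfl
  rw [h3]
  refine hM.sep_mem ?_ (hM.prod_mem hω hω)
  repeat' first
    | exact DfnF.proj _
    | exact DfnF.const (by assumption)
    | apply hK.bex | apply hK.ball | apply Dfn.and | apply Dfn.or | apply Dfn.not
    | apply hK.pair' | apply Dfn.mem | apply Dfn.eq

/-- Illfoundedness is absolute. -/
theorem exists_desc {M : Set ZFSet.{0}} (hB : Bk M) {w : ℕ → ℕ} (hw : w ∈ Rls M)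
    (h : ¬ WellFounded (wE w)) : ∃ c ∈ Rls M, c 0 = 0 ∧ ∀ n, wE w (c (n + 2)) (c (n + 1)) := by
  have hM := hB.zf
  have hK := hM.base
  have hω := hM.infinity
  have h0 := hM.empty_mem
  have hH := HFs_mem hM hB.eg
  have hE := Es_mem hB hw
  -- an external descending sequence
  obtain ⟨f, hf⟩ : ∃ f : ℕ → ℕ, ∀ n, wE w (f (n + 1)) (f n) := by
    by_contra hc
    apply h
    have h1 : IsEmpty ((fun a b => wE w b a) ↪r ((· > ·) : ℕ → ℕ → Prop)) ∨ True := Or.inr trivial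
    by_contra h2
    apply hc
    rw [wellFounded_iff_isEmpty_descending_chain] at h2
    rw [not_isEmpty_iff] at h2
    obtain ⟨f, hf⟩ := h2
    exact ⟨f, hf⟩
  have hseq : ∀ n, IsHF (seq (fun k => nat (f k)) n) := by
    intro n
    induction n with
    | zero => exact isHF_empty
    | succ n ih => exact ih.pair (isHF_nat _)
  set T : ZFSet.{0} := ZFSet.sep (fun t => ∀ u ∈ HFs, ∀ a ∈ (ZFSet.omega : ZFSet.{0}),
    ∀ b ∈ (ZFSet.omega : ZFSet.{0}), ¬ (t = pair (pair u a) b ∧ ¬ pair b a ∈ Es w)) HFs with hT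
  have hTM : T ∈ M := by
    refine hM.sep_mem ?_ hH
    repeat' first
      | exact DfnF.proj _
      | exact DfnF.const (by assumption)
      | apply hK.bex | apply hK.ball | apply Dfn.and | apply Dfn.or | apply Dfn.not
      | apply hK.pair' | apply Dfn.mem | apply Dfn.eq
  have hfT : ∀ n, seq (fun k => nat (f k)) n ∈ T := by
    intro n
    refine ZFSet.mem_sep.2 ⟨mem_HFs.2 (hseq n), fun u _ a _ b _ h1 => ?_⟩
    obtain ⟨h1, h2⟩ := h1
    match n, h1 with
    | 0, h1 => exact pair_ne_empty _ _ h1.symm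
    | 1, h1 =>
      obtain ⟨h3, -⟩ := ZFSet.pair_inj.1 h1
      exact pair_ne_empty _ _ h3.symm
    | n + 2, h1 =>
      obtain ⟨h3, h4⟩ := ZFSet.pair_inj.1 h1
      obtain ⟨-, h5⟩ := ZFSet.pair_inj.1 h3
      apply h2
      rw [← h4, ← h5]
      exact pair_mem_Es.2 (hf n)
  obtain ⟨S, hS, hST, hS0, hSn⟩ := exists_pruned hM hTM hω (f := fun k => nat (f k))
    (fun n => nat_mem_om _) hfT
  obtain ⟨g, hg, hg'⟩ := exists_branch' hM hS hS0 hSn
  have hgE : ∀ n, wE w (g (n + 1)) (g n) := by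
    intro n
    have h1 := (ZFSet.mem_sep.1 (hST (hg' (n + 2)))).2 (seq (fun k => nat (g k)) n)
      (mem_HFs.2 ?_) _ (nat_mem_om (g n)) _ (nat_mem_om (g (n + 1)))
    · by_contra h2
      exact h1 ⟨rfl, fun h3 => h2 (pair_mem_Es.1 h3)⟩
    · exact mem_HFs.1 (ZFSet.mem_sep.1 (hST (hg' n))).1
  refine ⟨fun n => if n = 0 then 0 else g (n - 1), ?_, by simp, fun n => ?_⟩
  · have hg1 : code g ∈ M := hg
    refine mkR hM (Q := fun n l => (n = ∅ ∧ l = ∅) ∨ ∃ m ∈ (ZFSet.omega : ZFSet.{0}),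
      n = insert m m ∧ pair m l ∈ code g) _ ?_ ?_
    · repeat' first
        | exact DfnF.proj _
        | exact DfnF.const (by assumption)
        | apply hK.bex | apply hK.ball | apply Dfn.and | apply Dfn.or | apply Dfn.not
        | apply hK.pair' | apply hK.insert' | apply Dfn.mem | apply Dfn.eq
    · intro n l
      constructor
      · rintro (⟨h1, h2⟩ | ⟨m, hm, h1, h2⟩)
        · have h3 : n = 0 := nat_injective (show nat n = nat 0 from h1)
          have h4 : l = 0 := nat_injective (show nat l = nat 0 from h2)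
          rw [h3, h4, if_pos rfl]
        · obtain ⟨m, rfl⟩ := mem_omega_iff.1 hm
          have h3 : n = m + 1 := nat_injective (show nat n = nat (m + 1) from h1)
          rw [pair_mem_code] at h2
          rw [h3, if_neg (by omega), Nat.add_sub_cancel, h2]
      · rintro rfl
        cases n with
        | zero => exact Or.inl ⟨rfl, by rw [if_pos rfl]; rfl⟩
        | succ n =>
          refine Or.inr ⟨nat n, nat_mem_om n, rfl, ?_⟩
          rw [if_neg (by omega), Nat.add_sub_cancel]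
          exact pair_mem_code.2 rfl
  · show wE w (if n + 2 = 0 then 0 else g (n + 2 - 1)) (if n + 1 = 0 then 0 else g (n + 1 - 1))
    rw [if_neg (by omega), if_neg (by omega)]
    exact hgE n

/-- The values of the collapse are in the model. -/
theorem vl_mem {M : Set ZFSet.{0}} (hB : Bk M) {w : ℕ → ℕ} (hw : w ∈ Rls M)
    (h : WellFounded (wE w)) (p : ℕ) : vl h p ∈ M := by
  have hM := hB.zf
  have hK := hM.base
  have hω := hM.infinity
  have hE := Es_mem hB hw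
  set pw : ZFSet.{0} → ZFSet.{0} := fun z => ZFSet.sep (fun q => pair q z ∈ Es w) ZFSet.omega
    with hpw
  have hpr : DfnF M M fun w : Fin 1 → ZFSet.{0} => pw (w 0) := by
    refine hM.sep' (Q := fun q v => pair q (v 0) ∈ Es w) (DfnF.const hω) ?_
    exact Dfn.mem (hK.pair' (DfnF.proj 0) (DfnF.proj 1)) (DfnF.const hE)
  have hmem : ∀ u z, u ∈ pw z ↔ ∃ a b, wE w a b ∧ u = nat a ∧ z = nat b := by
    intro u z
    rw [hpw, ZFSet.mem_sep, mem_Es]
    constructor
    · rintro ⟨-, a, b, h1, h2⟩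
      obtain ⟨rfl, rfl⟩ := ZFSet.pair_inj.1 h2
      exact ⟨a, b, h1, rfl, rfl⟩
    · rintro ⟨a, b, h1, rfl, rfl⟩
      exact ⟨nat_mem_om a, a, b, h1, rfl⟩
  have hacc : ∀ b : ℕ, Acc (fun u z => u ∈ pw z) (nat b) := by
    intro b
    induction b using h.induction with
    | _ b ih =>
    refine ⟨_, fun u hu => ?_⟩
    obtain ⟨a, b', h1, rfl, h2⟩ := (hmem _ _).1 hu
    rw [← nat_injective h2] at h1
    exact ih a h1
  have hwf : WellFounded fun u z => u ∈ pw z := by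
    refine ⟨fun z => ⟨_, fun u hu => ?_⟩⟩
    obtain ⟨a, b', h1, rfl, h2⟩ := (hmem _ _).1 hu
    exact hacc a
  set F : ZFSet.{0} → ZFSet.{0} := wfF pw hwf fun _ g => im sn g with hF
  have hFe : ∀ z, F z = im sn (gr F (pw z)) := fun z => wfF_eq _ _ _ _
  have hFd : DfnF M M fun w : Fin 1 → ZFSet.{0} => F (w 0) := by
    refine hM.wfrec hwf hpr (G := fun _ g => im sn g) ?_ hFe
    exact hM.im' (h := fun u _ => sn u) (DfnF.proj 1) (hM.sn' (DfnF.proj 0))
  have hFv : ∀ b : ℕ, F (nat b) = vl h b := by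
    intro b
    induction b using h.induction with
    | _ b ih =>
    ext z
    rw [hFe, mem_im, mem_vl]
    constructor
    · rintro ⟨q, hq, rfl⟩
      obtain ⟨u, hu, rfl⟩ := mem_gr.1 hq
      obtain ⟨a, b', h1, rfl, h2⟩ := (hmem _ _).1 hu
      rw [← nat_injective h2] at h1
      exact ⟨a, h1, by rw [sn_pair, ih a h1]⟩
    · rintro ⟨a, h1, rfl⟩
      exact ⟨pair (nat a) (F (nat a)), mem_gr.2 ⟨_, (hmem _ _).2 ⟨a, b, h1, rfl, rfl⟩, rfl⟩,
        by rw [sn_pair, ih a h1]⟩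
  rw [← hFv]
  exact hFd.1 (fun _ => nat p) fun _ => hM.nat_mem p

end Pool.Agent.H158_PC
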