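import Pool.Agent.H158_PC.Sig

/-!
# The constructible reals form a `Σ¹₂` set, part 2
-/

set_option autoImplicit false
set_option linter.unusedSectionVars false
set_option linter.unreachableTactic false
set_option linter.unusedTactic false

namespace Pool.Agent.H158_PC

open Pool.Agent.W868 Pool.Agent.R597
open ZFSet (pair)

/-- The conditions into which `Cond` is decomposed. -/
noncomputable def Qc : ℕ → (Fin 4 → ℕ → ℕ) → Prop := cp_cond.choose

theorem Qc_ld (k : ℕ) : LD (Qc k) := cp_cond.choose_spec.1 k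

theorem Qc_iff (y w χ a : ℕ → ℕ) : Cond y w χ a ↔ ∀ k, Qc k ![y, w, χ, a] :=
  cp_cond.choose_spec.2 ![y, w, χ, a]

/-- The closed condition, for `y`, `w`, `c`, `χ`, `a`: the real `c` witnesses that the relation
that is coded by `w` is not wellfounded, or that a condition fails. -/
def Dc (v : Fin 5 → ℕ → ℕ) : Prop :=
  (v 2 0 = 0 → ∀ n, wE (v 1) (v 2 (n + 2)) (v 2 (n + 1))) ∧
    ∀ k, v 2 0 = k + 1 → ¬ Qc k ![v 0, v 1, v 3, v 4]

theorem cp_Dc : CP Dc := by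
  have c : ∀ n : ℕ, LF fun _ : Fin 5 → ℕ → ℕ => n := LF.cst
  unfold Dc
  refine CP.and ?_ ?_
  · have h : CP fun v : Fin 5 → ℕ → ℕ => ∀ n, (v 2 0 = 0 → wE (v 1) (v 2 (n + 2)) (v 2 (n + 1))) :=
      CP.all fun n => CP.of ((LD.of ((c 0).app 2) fun m => m = 0).imp
        (ld_wE 1 ((c (n + 2)).app 2) ((c (n + 1)).app 2)))
    obtain ⟨Q, h1, h2⟩ := h
    refine ⟨Q, h1, fun v => ?_⟩
    rw [← h2 v]
    exact ⟨fun h n h0 => h h0 n, fun h h0 n => h n h0⟩
  · refine CP.all fun k => CP.of ((LD.of ((c 0).app 2) fun m => m = k + 1).imp (LD.not ?_))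
    refine ((Qc_ld k).pull (![0, 1, 3, 4] : Fin 4 → Fin 5)).congr fun v => ?_
    have h : (fun i => v ((![0, 1, 3, 4] : Fin 4 → Fin 5) i)) = ![v 0, v 1, v 3, v 4] := by
      funext i
      fin_cases i <;> rfl
    rw [h]

/-- The tuple of the restrictions. -/
noncomputable def tpl (v : Fin 5 → ℕ → ℕ) (n : ℕ) : ZFSet.{0} :=
  pair (pair (rs (v 0) n) (pair (rs (v 1) n) (rs (v 2) n))) (pair (rs (v 3) n) (rs (v 4) n))

/-- The tree of the closed condition. -/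
noncomputable def TC : ZFSet.{0} :=
  ZFSet.range fun p : {p : (Fin 5 → ℕ → ℕ) × ℕ // Dc p.1} => tpl p.1.1 p.1.2

theorem mem_TC {z : ZFSet.{0}} : z ∈ TC ↔ ∃ v n, Dc v ∧ z = tpl v n := by
  rw [TC, ZFSet.mem_range]
  constructor
  · rintro ⟨⟨⟨v, n⟩, h⟩, rfl⟩
    exact ⟨v, n, h, rfl⟩
  · rintro ⟨v, n, h, rfl⟩
    exact ⟨⟨⟨v, n⟩, h⟩, rfl⟩

theorem Dc_iff (v : Fin 5 → ℕ → ℕ) : Dc v ↔ ∀ n, tpl v n ∈ TC := by
  constructor
  · exact fun h n => mem_TC.2 ⟨v, n, h, rfl⟩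
  · intro h
    refine cp_Dc.closed fun n => ?_
    obtain ⟨v', m, h1, h2⟩ := mem_TC.1 (h n)
    refine ⟨v', h1, ?_⟩
    obtain ⟨h3, h4⟩ := ZFSet.pair_inj.1 h2
    obtain ⟨h5, h6⟩ := ZFSet.pair_inj.1 h3
    obtain ⟨h7, h8⟩ := ZFSet.pair_inj.1 h6
    obtain ⟨h9, h10⟩ := ZFSet.pair_inj.1 h4
    intro i j hj
    fin_cases i
    · exact ((rs_inj h5).2 j hj).symm
    · exact ((rs_inj h7).2 j hj).symm
    · exact ((rs_inj h8).2 j hj).symm
    · exact ((rs_inj h9).2 j hj).symm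
    · exact ((rs_inj h10).2 j hj).symm

theorem isHF_TC {z : ZFSet.{0}} (h : z ∈ TC) : IsHF z := by
  obtain ⟨v, n, -, rfl⟩ := mem_TC.1 h
  exact ((isHF_rs _ _).pair ((isHF_rs _ _).pair (isHF_rs _ _))).pair
    ((isHF_rs _ _).pair (isHF_rs _ _))

/-- The restriction of `x` to the domain of `s`. -/
noncomputable def rst (x s : ZFSet.{0}) : ZFSet.{0} :=
  ZFSet.sep (fun q => ∃ q' ∈ s, fs q = fs q') x

theorem rst_code (x y : ℕ → ℕ) (n : ℕ) : rst (code x) (rs y n) = rs x n := by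
  ext z
  rw [rst, ZFSet.mem_sep, mem_code, mem_rs]
  constructor
  · rintro ⟨⟨i, rfl⟩, q', h1, h2⟩
    obtain ⟨j, hj, rfl⟩ := mem_rs.1 h1
    rw [fs_pair, fs_pair] at h2
    rw [nat_injective h2]
    exact ⟨j, hj, rfl⟩
  · rintro ⟨i, hi, rfl⟩
    exact ⟨⟨i, rfl⟩, pair (nat i) (nat (y i)), pair_mem_rs.2 ⟨hi, rfl⟩, by rw [fs_pair, fs_pair]⟩

theorem rst_mem {M : Set ZFSet.{0}} (hM : IsZF M) {x s : ZFSet.{0}} (hx : x ∈ M) (hs : s ∈ M) :
    rst x s ∈ M := by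
  refine hM.sep_mem ?_ hx
  refine hM.base.bex (DfnF.const hs) ?_
  exact Dfn.eq (hM.fs' (DfnF.proj 1)) (hM.fs' (DfnF.proj 0))

theorem dfn_rst {M : Set ZFSet.{0}} (hM : IsZF M) {n : ℕ} {x : ZFSet.{0}} (hx : x ∈ M)
    {F : (Fin n → ZFSet.{0}) → ZFSet.{0}} (hF : DfnF M M F) :
    DfnF M M fun v => rst x (F v) := by
  refine hM.sep' (Q := fun q v => ∃ q' ∈ F v, fs q = fs q') (DfnF.const hx) ?_
  refine hM.base.bex hF.tail ?_
  exact Dfn.eq (hM.fs' (DfnF.proj 1)) (hM.fs' (DfnF.proj 0))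

/-- The section of the tree `TC` given by two reals. -/
theorem exists_section {M : Set ZFSet.{0}} (hM : IsZF M) (he : eg ∈ M) (hT : TC ∈ M)
    {χ a : ℕ → ℕ} (hχ : χ ∈ Rls M) (ha : a ∈ Rls M) :
    ∃ T ∈ M, ∀ y w c : ℕ → ℕ, Dc ![y, w, c, χ, a] ↔
      ∀ n, pair (rs y n) (pair (rs w n) (rs c n)) ∈ T := by
  have hK := hM.base
  have hH := HFs_mem hM he
  have hχ' : code χ ∈ M := hχ
  have ha' : code a ∈ M := ha
  refine ⟨ZFSet.sep (fun u => ∃ s ∈ HFs, ∃ t ∈ HFs, u = pair s t ∧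
    pair u (pair (rst (code χ) s) (rst (code a) s)) ∈ TC) HFs, ?_, fun y w c => ?_⟩
  · refine hM.sep_mem ?_ hH
    repeat' first
      | exact DfnF.proj _
      | exact DfnF.const (by assumption)
      | apply hK.bex | apply hK.ball | apply Dfn.and | apply Dfn.or | apply Dfn.not
      | apply hK.pair' | apply hK.insert' | apply Dfn.mem | apply Dfn.eq
      | apply dfn_rst hM (by assumption)
  · rw [Dc_iff]
    refine forall_congr' fun n => ?_
    have h1 : tpl ![y, w, c, χ, a] n =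
        pair (pair (rs y n) (pair (rs w n) (rs c n))) (pair (rs χ n) (rs a n)) := rfl
    rw [h1, ZFSet.mem_sep]
    constructor
    · intro h
      refine ⟨mem_HFs.2 ((isHF_rs _ _).pair ((isHF_rs _ _).pair (isHF_rs _ _))), _,
        mem_HFs.2 (isHF_rs y n), _, mem_HFs.2 ((isHF_rs w n).pair (isHF_rs c n)), rfl, ?_⟩
      rw [rst_code, rst_code]
      exact h
    · rintro ⟨-, s, -, t, -, h2, h3⟩
      obtain ⟨rfl, rfl⟩ := ZFSet.pair_inj.1 h2
      rwa [rst_code, rst_code] at h3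

/-- The set of the numbers at which the reals differ. -/
noncomputable def df (y a : ℕ → ℕ) : ZFSet.{0} :=
  ZFSet.range fun n : {n : ℕ // y n ≠ a n} => nat n.1

theorem mem_df {y a : ℕ → ℕ} {z : ZFSet.{0}} : z ∈ df y a ↔ ∃ n, y n ≠ a n ∧ z = nat n := by
  rw [df, ZFSet.mem_range]
  constructor
  · rintro ⟨⟨n, h⟩, rfl⟩
    exact ⟨n, h, rfl⟩
  · rintro ⟨n, h, rfl⟩
    exact ⟨⟨n, h⟩, rfl⟩

/-- The characteristic function of a set of hereditarily finite sets is in the model. -/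
theorem chi_mem {M : Set ZFSet.{0}} (hM : IsZF M) (he : eg ∈ M) {A' : ZFSet.{0}} (hA : A' ∈ M) :
    ∃ χ ∈ Rls M, ∀ i, χ i ≠ 0 ↔ hf i ∈ A' := by
  classical
  have hK := hM.base
  have hω := hM.infinity
  have h0 := hM.empty_mem
  have hn1 := hM.nat_mem 1
  have hH := HFs_mem hM he
  refine ⟨fun i => if hf i ∈ A' then 1 else 0, ?_, fun i => ?_⟩
  · refine mkR hM (Q := fun i l => ∃ x ∈ HFs, pair i x ∈ eg ∧
      ((x ∈ A' ∧ l = nat 1) ∨ (¬ x ∈ A' ∧ l = ∅))) _ ?_ ?_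
    · repeat' first
        | exact DfnF.proj _
        | exact DfnF.const (by assumption)
        | apply hK.bex | apply hK.ball | apply Dfn.and | apply Dfn.or | apply Dfn.not
        | apply hK.pair' | apply hK.insert' | apply Dfn.mem | apply Dfn.eq
    · intro i l
      constructor
      · rintro ⟨x, hx, h1, h2⟩
        obtain ⟨k, h3⟩ := mem_eg.1 h1
        obtain ⟨h4, rfl⟩ := ZFSet.pair_inj.1 h3
        rw [← nat_injective h4] at h2
        rcases h2 with ⟨h5, h6⟩ | ⟨h5, h6⟩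
        · rw [if_pos h5]
          exact nat_injective h6
        · rw [if_neg h5]
          exact nat_injective (show nat l = nat 0 from h6)
      · rintro rfl
        refine ⟨hf i, mem_HFs.2 ⟨i, rfl⟩, mem_eg.2 ⟨i, rfl⟩, ?_⟩
        split_ifs with h
        · exact Or.inl ⟨h, rfl⟩
        · exact Or.inr ⟨h, rfl⟩
  · by_cases h : hf i ∈ A'
    · simp [h]
    · simp [h]

theorem cst_memR {M : Set ZFSet.{0}} (hM : IsZF M) (k : ℕ) : (fun _ => k : ℕ → ℕ) ∈ Rls M := by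
  have hK := hM.base
  have hn := hM.nat_mem k
  refine mkR hM (Q := fun _ l => l = nat k) _ ?_ ?_
  · exact Dfn.eq (DfnF.proj 1) (DfnF.const hn)
  · exact fun n l => ⟨fun h => nat_injective h, fun h => by rw [h]⟩

/-- The constructible reals are a `Σ¹₂` set. -/
theorem sig12 {M : Set ZFSet.{0}} (hB : Bk M) (hT : TC ∈ M) {A' : ZFSet.{0}} (hA : A' ∈ M)
    (hAH : ∀ z ∈ A', IsHF z) (hBK : Bk (LC M A')) (hL : IsLA A' (LC M A')) {a : ℕ → ℕ}
    (ha : a ∈ Rls M) :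
    ∃ T ∈ M, ∀ y : ℕ → ℕ, (y ∈ Rls M ∧ (∀ n, y n = 0 ∨ y n = 1) ∧ df y a ∈ LC M A') ↔
      y ∈ Rls M ∧ ∃ w ∈ Rls M, ∀ z ∈ Rls M, ∃ n,
        pair (rs y n) (pair (rs w n) (rs z n)) ∉ T := by
  have hM := hB.zf
  obtain ⟨χ, hχ, hχ'⟩ := chi_mem hM hB.eg hA
  obtain ⟨T, hTM, hTD⟩ := exists_section hM hB.eg hT hχ ha
  refine ⟨T, hTM, fun y => and_congr_right fun hy => ?_⟩
  have key : ∀ w ∈ Rls M, (∀ z ∈ Rls M, ∃ n, pair (rs y n) (pair (rs w n) (rs z n)) ∉ T) ↔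
      WellFounded (wE w) ∧ Cond y w χ a := by
    intro w hw
    have h1 : (∀ z ∈ Rls M, ∃ n, pair (rs y n) (pair (rs w n) (rs z n)) ∉ T) ↔
        ∀ z ∈ Rls M, ¬ Dc ![y, w, z, χ, a] := by
      refine forall_congr' fun z => forall_congr' fun hz => ?_
      rw [hTD]
      push Not
      exact Iff.rfl
    rw [h1]
    constructor
    · intro h
      constructor
      · by_contra h2
        obtain ⟨c, hc, h3, h4⟩ := exists_desc hB hw h2
        refine h c hc ⟨fun _ => h4, fun k hk => ?_⟩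
        have h5 : c 0 = k + 1 := hk
        omega
      · rw [Qc_iff]
        intro k
        by_contra h2
        refine h (fun _ => k + 1) (cst_memR hM _) ⟨fun h3 => ?_, fun k' hk' => ?_⟩
        · have h5 : k + 1 = 0 := h3
          omega
        · have h5 : k + 1 = k' + 1 := hk'
          have h6 : k = k' := by omega
          subst h6
          exact h2
    · rintro ⟨h2, h3⟩ c hc ⟨h4, h5⟩
      rcases Nat.eq_zero_or_pos (c 0) with h6 | h6
      · have h7 : ∀ n, wE w (c (n + 2)) (c (n + 1)) := h4 h6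
        have h8 : WellFounded (fun a b => wE w a b) := h2
        rw [wellFounded_iff_isEmpty_descending_chain] at h8
        exact h8.false ⟨fun n => c (n + 1), fun n => h7 n⟩
      · obtain ⟨k, hk⟩ : ∃ k, c 0 = k + 1 := ⟨c 0 - 1, by omega⟩
        exact h5 k hk ((Qc_iff _ _ _ _).1 h3 k)
  have hsub : ∀ x ∈ LC M A', x ∈ M := LC_subset hM hA
  constructor
  · rintro ⟨hy01, hdf⟩
    obtain ⟨w, hw, h1, h2⟩ := ex_cond hL hBK hAH hdf (by
      intro z hz
      obtain ⟨n, -, rfl⟩ := mem_df.1 hz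
      exact nat_mem_om n)
    have hwM : w ∈ Rls M := hsub _ hw
    refine ⟨w, hwM, (key w hwM).2 ⟨h1, h2 y χ a hχ' (fun n => ?_) hy01⟩⟩
    rw [mem_df]
    constructor
    · exact fun h => ⟨n, h, rfl⟩
    · rintro ⟨m, h, h3⟩
      rwa [nat_injective h3]
  · rintro ⟨w, hw, h⟩
    obtain ⟨h1, h2⟩ := (key w hw).1 h
    have e1 : vl h1 ixA = A' := by
      ext x
      rw [vl_A h1 h2]
      constructor
      · rintro ⟨i, hi, rfl⟩
        exact (hχ' i).1 hi
      · intro hx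
        obtain ⟨i, rfl⟩ := hAH x hx
        exact ⟨i, (hχ' i).2 hx, rfl⟩
    have e2 : vl h1 ixY = df y a := by
      ext x
      rw [vl_Y h1 h2, mem_df]
    have h3 := vl_psi h1 h2
    rw [e1, e2] at h3
    obtain ⟨ξ, X, h4, h5, h6⟩ := h3.spec
    refine ⟨h2.2.2.2.2.2.2.2.2.2.2, ξ, ?_, h5, h6⟩
    exact (hM.of_pair_mem (hM.trans _ (vl_mem hB hw h1 _) _ h4)).1

end Pool.Agent.H158_PC
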