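import Pool.Agent.H158_PC.Rl

/-!
# Coded structures
-/

set_option autoImplicit false
set_option linter.unusedSectionVars false
set_option linter.unreachableTactic false
set_option linter.unusedTactic false

namespace Pool.Agent.H158_PC

open Pool.Agent.W868
open ZFSet (pair)

/-! ### Conditions that depend on finitely many values -/

section ld

variable {ι κ : Type}

/-- The condition depends on finitely many values. -/
def LD (P : (ι → ℕ → ℕ) → Prop) : Prop :=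
  ∀ v, ∃ n, ∀ v' : ι → ℕ → ℕ, (∀ i, ∀ j < n, v' i j = v i j) → (P v' ↔ P v)

/-- The value depends on finitely many values. -/
def LF (f : (ι → ℕ → ℕ) → ℕ) : Prop :=
  ∀ v, ∃ n, ∀ v' : ι → ℕ → ℕ, (∀ i, ∀ j < n, v' i j = v i j) → f v' = f v

theorem LF.cst (c : ℕ) : LF fun _ : ι → ℕ → ℕ => c := fun _ => ⟨0, fun _ _ => rfl⟩

theorem LF.map {f : (ι → ℕ → ℕ) → ℕ} (h : LF f) (g : ℕ → ℕ) : LF fun v => g (f v) := by
  intro v
  obtain ⟨n, hn⟩ := h v
  exact ⟨n, fun v' hv => congrArg g (hn v' hv)⟩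

theorem LF.map2 {f f' : (ι → ℕ → ℕ) → ℕ} (h : LF f) (h' : LF f') (g : ℕ → ℕ → ℕ) :
    LF fun v => g (f v) (f' v) := by
  intro v
  obtain ⟨n, hn⟩ := h v
  obtain ⟨m, hm⟩ := h' v
  refine ⟨max n m, fun v' hv => ?_⟩
  show g (f v') (f' v') = g (f v) (f' v)
  rw [hn v' fun i j hj => hv i j (lt_of_lt_of_le hj (le_max_left _ _)),
    hm v' fun i j hj => hv i j (lt_of_lt_of_le hj (le_max_right _ _))]

theorem LF.app {f : (ι → ℕ → ℕ) → ℕ} (h : LF f) (i : ι) : LF fun v => v i (f v) := by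
  intro v
  obtain ⟨n, hn⟩ := h v
  refine ⟨max n (f v + 1), fun v' hv => ?_⟩
  show v' i (f v') = v i (f v)
  rw [hn v' fun i j hj => hv i j (lt_of_lt_of_le hj (le_max_left _ _))]
  exact hv i _ (lt_of_lt_of_le (Nat.lt_succ_self _) (le_max_right _ _))

theorem LD.of {f : (ι → ℕ → ℕ) → ℕ} (h : LF f) (g : ℕ → Prop) : LD fun v => g (f v) := by
  intro v
  obtain ⟨n, hn⟩ := h v
  exact ⟨n, fun v' hv => iff_of_eq (congrArg g (hn v' hv))⟩

theorem LD.of2 {f f' : (ι → ℕ → ℕ) → ℕ} (h : LF f) (h' : LF f') (g : ℕ → ℕ → Prop) :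
    LD fun v => g (f v) (f' v) := by
  intro v
  obtain ⟨n, hn⟩ := h v
  obtain ⟨m, hm⟩ := h' v
  refine ⟨max n m, fun v' hv => ?_⟩
  show g (f v') (f' v') ↔ g (f v) (f' v)
  rw [hn v' fun i j hj => hv i j (lt_of_lt_of_le hj (le_max_left _ _)),
    hm v' fun i j hj => hv i j (lt_of_lt_of_le hj (le_max_right _ _))]

theorem LD.not {P : (ι → ℕ → ℕ) → Prop} (h : LD P) : LD fun v => ¬ P v := by
  intro v
  obtain ⟨n, hn⟩ := h v
  exact ⟨n, fun v' hv => not_congr (hn v' hv)⟩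

theorem LD.and {P P' : (ι → ℕ → ℕ) → Prop} (h : LD P) (h' : LD P') :
    LD fun v => P v ∧ P' v := by
  intro v
  obtain ⟨n, hn⟩ := h v
  obtain ⟨m, hm⟩ := h' v
  exact ⟨max n m, fun v' hv => and_congr
    (hn v' fun i j hj => hv i j (lt_of_lt_of_le hj (le_max_left _ _)))
    (hm v' fun i j hj => hv i j (lt_of_lt_of_le hj (le_max_right _ _)))⟩

theorem LD.congr {P P' : (ι → ℕ → ℕ) → Prop} (h : LD P) (h' : ∀ v, P v ↔ P' v) : LD P' := by
  intro v
  obtain ⟨n, hn⟩ := h v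
  exact ⟨n, fun v' hv => by rw [← h', ← h', hn v' hv]⟩

theorem LD.imp {P P' : (ι → ℕ → ℕ) → Prop} (h : LD P) (h' : LD P') :
    LD fun v => P v → P' v :=
  (h.and h'.not).not.congr fun v => by tauto

theorem LD.iff {P P' : (ι → ℕ → ℕ) → Prop} (h : LD P) (h' : LD P') :
    LD fun v => (P v ↔ P' v) :=
  ((h.imp h').and (h'.imp h)).congr fun v => by tauto

theorem LD.or {P P' : (ι → ℕ → ℕ) → Prop} (h : LD P) (h' : LD P') :
    LD fun v => P v ∨ P' v :=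
  (h.not.and h'.not).not.congr fun v => by tauto

theorem LD.pull {P : (ι → ℕ → ℕ) → Prop} (h : LD P) (σ : ι → κ) :
    LD fun v : κ → ℕ → ℕ => P fun i => v (σ i) := by
  intro v
  obtain ⟨n, hn⟩ := h fun i => v (σ i)
  exact ⟨n, fun v' hv => hn _ fun i j hj => hv _ j hj⟩

/-- Conjunctions of countably many conditions of this kind. -/
def CP (P : (ι → ℕ → ℕ) → Prop) : Prop :=
  ∃ Q : ℕ → (ι → ℕ → ℕ) → Prop, (∀ k, LD (Q k)) ∧ ∀ v, P v ↔ ∀ k, Q k v

theorem CP.of {P : (ι → ℕ → ℕ) → Prop} (h : LD P) : CP P :=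
  ⟨fun _ => P, fun _ => h, fun _ => ⟨fun h _ => h, fun h => h 0⟩⟩

theorem CP.all {P : ℕ → (ι → ℕ → ℕ) → Prop} (h : ∀ k, CP (P k)) : CP fun v => ∀ k, P k v := by
  choose Q hQ hQ' using h
  refine ⟨fun k => Q k.unpair.1 k.unpair.2, fun k => hQ _ _, fun v => ?_⟩
  constructor
  · intro h1 k
    exact (hQ' _ v).1 (h1 _) _
  · intro h1 k
    refine (hQ' k v).2 fun l => ?_
    have h2 := h1 (Nat.pair k l)
    simpa only [Nat.unpair_pair] using h2

theorem CP.and {P P' : (ι → ℕ → ℕ) → Prop} (h : CP P) (h' : CP P') :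
    CP fun v => P v ∧ P' v := by
  have h1 : CP fun v => ∀ k : ℕ, (fun k : ℕ => if k = 0 then P else P') k v := by
    refine CP.all fun k => ?_
    split_ifs
    · exact h
    · exact h'
  obtain ⟨Q, h2, h3⟩ := h1
  refine ⟨Q, h2, fun v => ?_⟩
  rw [← h3 v]
  constructor
  · rintro ⟨h4, h5⟩ k
    split_ifs
    · exact h4
    · exact h5
  · intro h4
    exact ⟨by simpa using h4 0, by simpa using h4 1⟩

theorem CP.closed {P : (ι → ℕ → ℕ) → Prop} (h : CP P) {v : ι → ℕ → ℕ}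
    (h' : ∀ n, ∃ v' : ι → ℕ → ℕ, P v' ∧ ∀ i, ∀ j < n, v' i j = v i j) : P v := by
  obtain ⟨Q, h1, h2⟩ := h
  refine (h2 v).2 fun k => ?_
  obtain ⟨n, hn⟩ := h1 k v
  obtain ⟨v', h3, h4⟩ := h' n
  exact (hn v' h4).1 ((h2 v').1 h3 k)

end ld

/-! ### Assignments and tables -/

/-- The assignment with the number `s`. -/
def asn : ℕ → ℕ → ℕ
  | s, 0 => s.unpair.1
  | s, i + 1 => asn s.unpair.2 i

theorem asn_pair_zero (a s : ℕ) : asn (Nat.pair a s) 0 = a := by simp [asn]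

theorem asn_pair_succ (a s i : ℕ) : asn (Nat.pair a s) (i + 1) = asn s i := by simp [asn]

/-- The value of a term. -/
def tv {n : ℕ} : Fin n ⊕ Empty → ℕ → ℕ
  | .inl i, s => asn s i
  | .inr e, _ => e.elim

/-- The table `w` is correct for the formula. -/
def Good (E Q : ℕ → ℕ → Prop) : {n : ℕ} → Fml Empty n → (ℕ → ℕ) → Prop
  | _, .mem s t, w => ∀ k, (w (Nat.pair 0 k) ≠ 0 ↔ E (tv s k) (tv t k))
  | _, .eq s t, w => ∀ k, (w (Nat.pair 0 k) ≠ 0 ↔ Q (tv s k) (tv t k))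
  | _, .neg φ, w => Good E Q φ (fun n => w (Nat.pair 1 n)) ∧
      ∀ k, (w (Nat.pair 0 k) ≠ 0 ↔ w (Nat.pair 1 (Nat.pair 0 k)) = 0)
  | _, .and φ ψ, w => Good E Q φ (fun n => w (Nat.pair 1 n)) ∧
      Good E Q ψ (fun n => w (Nat.pair 2 n)) ∧
      ∀ k, (w (Nat.pair 0 k) ≠ 0 ↔ w (Nat.pair 1 (Nat.pair 0 k)) ≠ 0 ∧
        w (Nat.pair 2 (Nat.pair 0 k)) ≠ 0)
  | _, .ex φ, w => Good E Q φ (fun n => w (Nat.pair 1 n)) ∧
      (∀ k, w (Nat.pair 0 k) ≠ 0 →
        w (Nat.pair 1 (Nat.pair 0 (Nat.pair (w (Nat.pair 0 k) - 1) k))) ≠ 0) ∧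
      ∀ k a, w (Nat.pair 1 (Nat.pair 0 (Nat.pair a k))) ≠ 0 → w (Nat.pair 0 k) ≠ 0

theorem good_sound {E Q : ℕ → ℕ → Prop} {c : ℕ → ZFSet.{0}} (hE : ∀ a b, E a b ↔ c a ∈ c b)
    (hQ : ∀ a b, Q a b ↔ c a = c b) : {n : ℕ} → (φ : Fml Empty n) → (w : ℕ → ℕ) →
    Good E Q φ w → ∀ k, (w (Nat.pair 0 k) ≠ 0 ↔
      Sat (Set.range c) Empty.elim φ fun i : Fin n => c (asn k i))
  | _, .mem s t, w, h, k => by
    rw [h k, hE]
    rcases s with i | e
    · rcases t with j | e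
      · exact Iff.rfl
      · exact e.elim
    · exact e.elim
  | _, .eq s t, w, h, k => by
    rw [h k, hQ]
    rcases s with i | e
    · rcases t with j | e
      · exact Iff.rfl
      · exact e.elim
    · exact e.elim
  | _, .neg φ, w, h, k => by
    have h1 := good_sound hE hQ φ _ h.1 k
    rw [h.2 k]
    simp only [Sat]
    rw [← h1]
    tauto
  | _, .and φ ψ, w, h, k => by
    rw [h.2.2 k]
    exact and_congr (good_sound hE hQ φ _ h.1 k) (good_sound hE hQ ψ _ h.2.1 k)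
  | n, .ex φ, w, h, k => by
    have h0 : ∀ a, (Fin.cons (c a) fun i : Fin n => c (asn k i)) =
        fun i : Fin (n + 1) => c (asn (Nat.pair a k) i) := by
      intro a
      funext i
      refine Fin.cases ?_ (fun i => ?_) i
      · simp [asn]
      · simp [asn]
    simp only [Sat]
    constructor
    · intro h1
      refine ⟨_, ⟨w (Nat.pair 0 k) - 1, rfl⟩, ?_⟩
      rw [h0]
      exact (good_sound hE hQ φ _ h.1 _).1 (h.2.1 k h1)
    · rintro ⟨_, ⟨a, rfl⟩, h1⟩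
      rw [h0] at h1
      exact h.2.2 k a ((good_sound hE hQ φ _ h.1 _).2 h1)

theorem good_cp {ι : Type} {E Q : (ι → ℕ → ℕ) → ℕ → ℕ → Prop}
    (hE : ∀ a b, LD fun v => E v a b) (hQ : ∀ a b, LD fun v => Q v a b) :
    {n : ℕ} → (φ : Fml Empty n) → (W : (ι → ℕ → ℕ) → ℕ → ℕ) →
    (∀ f : (ι → ℕ → ℕ) → ℕ, LF f → LF fun v => W v (f v)) → CP fun v => Good (E v) (Q v) φ (W v)
  | _, .mem s t, W, hW => CP.all fun k => CP.of (LD.iff
      (LD.of (hW (fun _ => Nat.pair 0 k) (LF.cst _)) fun m => m ≠ 0) (hE _ _))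
  | _, .eq s t, W, hW => CP.all fun k => CP.of (LD.iff
      (LD.of (hW (fun _ => Nat.pair 0 k) (LF.cst _)) fun m => m ≠ 0) (hQ _ _))
  | _, .neg φ, W, hW => (good_cp hE hQ φ (fun v n => W v (Nat.pair 1 n))
      (fun f hf => hW _ (hf.map fun m => Nat.pair 1 m))).and
      (CP.all fun k => CP.of (LD.iff
        (LD.of (hW (fun _ => Nat.pair 0 k) (LF.cst _)) fun m => m ≠ 0)
        (LD.of (hW (fun _ => Nat.pair 1 (Nat.pair 0 k)) (LF.cst _)) fun m => m = 0)))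
  | _, .and φ ψ, W, hW => (good_cp hE hQ φ (fun v n => W v (Nat.pair 1 n))
      (fun f hf => hW _ (hf.map fun m => Nat.pair 1 m))).and
      ((good_cp hE hQ ψ (fun v n => W v (Nat.pair 2 n))
      (fun f hf => hW _ (hf.map fun m => Nat.pair 2 m))).and
      (CP.all fun k => CP.of (LD.iff
        (LD.of (hW (fun _ => Nat.pair 0 k) (LF.cst _)) fun m => m ≠ 0)
        ((LD.of (hW (fun _ => Nat.pair 1 (Nat.pair 0 k)) (LF.cst _)) fun m => m ≠ 0).and
          (LD.of (hW (fun _ => Nat.pair 2 (Nat.pair 0 k)) (LF.cst _)) fun m => m ≠ 0)))))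
  | _, .ex φ, W, hW => (good_cp hE hQ φ (fun v n => W v (Nat.pair 1 n))
      (fun f hf => hW _ (hf.map fun m => Nat.pair 1 m))).and
      ((CP.all fun k => CP.of (LD.imp
        (LD.of (hW (fun _ => Nat.pair 0 k) (LF.cst _)) fun m => m ≠ 0)
        (LD.of (hW (fun v => Nat.pair 1 (Nat.pair 0 (Nat.pair (W v (Nat.pair 0 k) - 1) k)))
          ((hW (fun _ => Nat.pair 0 k) (LF.cst _)).map
            fun m => Nat.pair 1 (Nat.pair 0 (Nat.pair (m - 1) k)))) fun m => m ≠ 0))).and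
      (CP.all fun k => CP.all fun a => CP.of (LD.imp
        (LD.of (hW (fun _ => Nat.pair 1 (Nat.pair 0 (Nat.pair a k))) (LF.cst _)) fun m => m ≠ 0)
        (LD.of (hW (fun _ => Nat.pair 0 k) (LF.cst _)) fun m => m ≠ 0))))

section

variable {K : Set ZFSet.{0}} (hK : Bk K)

include hK

theorem asn_mem (i : ℕ) : ∀ f ∈ Rls K, (fun s => asn (f s) i) ∈ Rls K := by
  induction i with
  | zero =>
    intro f hf
    exact hK.un1 hf
  | succ i ih =>
    intro f hf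
    exact ih _ (hK.un2 hf)

/-- Correct tables exist. -/
theorem ex_good {E Q : ℕ → ℕ → Prop} {e q : ℕ → ℕ} (he : e ∈ Rls K) (hq : q ∈ Rls K)
    (hE : ∀ a b, E a b ↔ e (Nat.pair a b) ≠ 0) (hQ : ∀ a b, Q a b ↔ q (Nat.pair a b) ≠ 0) :
    {n : ℕ} → (φ : Fml Empty n) → ∃ w ∈ Rls K, Good E Q φ w
  | _, .mem (.inl i) (.inl j) => by
    obtain ⟨w, hw, h1, -⟩ := hK.join (hK.comp he (hK.mk2 (asn_mem hK i _ hK.idf)
      (asn_mem hK j _ hK.idf))) hK.idf hK.idf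
    exact ⟨w, hw, fun k => by rw [h1, hE]; rfl⟩
  | _, .mem (.inl i) (.inr e) => e.elim
  | _, .mem (.inr e) _ => e.elim
  | _, .eq (.inl i) (.inl j) => by
    obtain ⟨w, hw, h1, -⟩ := hK.join (hK.comp hq (hK.mk2 (asn_mem hK i _ hK.idf)
      (asn_mem hK j _ hK.idf))) hK.idf hK.idf
    exact ⟨w, hw, fun k => by rw [h1, hQ]; rfl⟩
  | _, .eq (.inl i) (.inr e) => e.elim
  | _, .eq (.inr e) _ => e.elim
  | _, .neg φ => by
    obtain ⟨w', hw', h'⟩ := ex_good he hq hE hQ φ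
    obtain ⟨w, hw, h1, h2, -⟩ := hK.join (hK.comp (hK.fx 2) (hK.comp hw' (hK.mk2 (hK.cst 0)
      hK.idf))) hw' hK.idf
    refine ⟨w, hw, ?_, fun k => ?_⟩
    · simp only [h2]
      exact h'
    · rw [h1, h2]
      simp [Fx]
  | _, .and φ ψ => by
    obtain ⟨w', hw', h'⟩ := ex_good he hq hE hQ φ
    obtain ⟨w'', hw'', h''⟩ := ex_good he hq hE hQ ψ
    obtain ⟨w, hw, h1, h2, h3⟩ := hK.join (hK.comp (hK.fx 3) (hK.mk2
      (hK.comp hw' (hK.mk2 (hK.cst 0) hK.idf)) (hK.comp hw'' (hK.mk2 (hK.cst 0) hK.idf))))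
      hw' hw''
    refine ⟨w, hw, ?_, ?_, fun k => ?_⟩
    · simp only [h2]
      exact h'
    · simp only [h3]
      exact h''
    · rw [h1, h2, h3]
      simp [Fx]
  | _, .ex φ => by
    obtain ⟨w', hw', h'⟩ := ex_good he hq hE hQ φ
    obtain ⟨w, hw, h1, h2, -⟩ := hK.join (mu_mem hK.zf hK.pr (hK.comp hw' (hK.mk2 (hK.cst 0)
      hK.idf))) hw' hK.idf
    refine ⟨w, hw, ?_, fun k hk => ?_, fun k a hk => ?_⟩
    · simp only [h2]
      exact h'
    · rw [h1] at hk ⊢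
      rw [h2]
      exact mu_spec hk
    · rw [h2] at hk
      rw [h1]
      intro h3
      exact hk (mu_zero.1 h3 a)

end

end Pool.Agent.H158_PC
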