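import Pool.Agent.H158_PC.Gen

/-!
# The symmetric model
-/

set_option autoImplicit false
set_option linter.unusedSectionVars false
set_option linter.unreachableTactic false
set_option linter.unusedTactic false

namespace Pool.Agent.H158_PC

open Pool.Agent.W868 Pool.Agent.W868.GM Pool.Agent.R597 Pool.Agent.Y588 AM
open ZFSet (pair)

/-- The symmetric model. -/
def MM (V : Set ZFSet.{0}) (g : Set ℕ) : Set ZFSet.{0} := Nm V PP ac (Fl V) (Gf g)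

/-- The top condition. -/
noncomputable def t0 : ZFSet.{0} := cn 0 ∅

theorem t0_mem_Gf (g : Set ℕ) : t0 ∈ Gf g := cn_mem_Gf.2 fun i hi => by omega

theorem ac_t0 (t : ZFSet.{0}) : ac t t0 = t0 := by
  rw [t0, ac_cn]
  exact cn_congr fun i hi => by omega

/-- The part of `g` in the first `m` columns. -/
def cut (g : Set ℕ) (m : ℕ) : Set ℕ := {i | i ∈ g ∧ i.unpair.1 < m}

theorem mem_cut {g : Set ℕ} {m i : ℕ} : i ∈ cut g m ↔ i ∈ g ∧ i.unpair.1 < m := Iff.rfl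

section

variable {V : Set ZFSet.{0}} (hL : IsLA dA V) {g : Set ℕ} (hg : Gn V g)

include hL hg

theorem zfM : IsZF (MM V g) :=
  isZF_nm hL.zf (forcing_PP hL.zf (bk_of hL.zf hL.mem).eg) (symSys hL.zf hL.mem) (gen_of_Gn hg)

theorem V_sub_M : V ⊆ MM V g :=
  sub_nm hL.zf (forcing_PP hL.zf (bk_of hL.zf hL.mem).eg) (symSys hL.zf hL.mem) (gen_of_Gn hg)

theorem ord_M {x : ZFSet.{0}} (hx : x.IsOrdinal) (h : x ∈ MM V g) : x ∈ V :=
  (ord_nm hL.zf (forcing_PP hL.zf (bk_of hL.zf hL.mem).eg) (symSys hL.zf hL.mem)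
    (gen_of_Gn hg) x hx).1 h

omit hg in
theorem t0_mem_V : t0 ∈ V :=
  hL.zf.trans _ (PP_mem hL.zf (bk_of hL.zf hL.mem).eg) _ (cn_mem_PP _ _)

omit hg in
theorem chk_mem_V {x : ZFSet.{0}} (hx : x ∈ V) : chk t0 x ∈ V :=
  chk_mem hL.zf (t0_mem_V hL) hx

omit hg in
theorem chk_fix {x : ZFSet.{0}} (hx : x ∈ V) : chk t0 x ∈ Sn V PP ac (Fl V) ∧
    ∀ t ∈ Grp V, act PP ac t (chk t0 x) = chk t0 x :=
  chk_sn hL.zf (forcing_PP hL.zf (bk_of hL.zf hL.mem).eg) (symSys hL.zf hL.mem)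
    (cn_mem_PP _ _) (fun t _ => ac_t0 t) hx

/-- Bounded relations between the values of names depend on a condition. -/
theorem ftg {n : ℕ} {R : (Fin n → ZFSet.{0}) → Prop} (h : D0 R) {v : Fin n → ZFSet.{0}}
    (hv : ∀ i, v i ∈ V) (hr : R (ev (Gf g) ∘ v)) :
    ∃ k : ℕ, ∀ g', Gn V g' → (∀ i < k, (i ∈ g' ↔ i ∈ g)) → R (ev (Gf g') ∘ v) := by
  obtain ⟨p, hp, h1⟩ := Pool.Agent.H158_IT.ft hL.zf
    (forcing_PP hL.zf (bk_of hL.zf hL.mem).eg) h hv (gen_of_Gn hg) hr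
  obtain ⟨k, rfl⟩ := mem_Gf.1 hp
  exact ⟨k, fun g' hg' h2 => h1 _ (gen_of_Gn hg') (cn_mem_Gf.2 fun i hi => (h2 i hi).symm)⟩

omit hg in
theorem finite_mem {b : Set ℕ} {n : ℕ} : nm {i | i < n ∧ i ∈ b} ∈ V := by
  have h1 : nm {i | i < n ∧ i ∈ b} = sb b n := by
    ext x
    rw [mem_nm, mem_sb]
    exact exists_congr fun i => by
      rw [Set.mem_setOf_eq]
      tauto
  rw [h1]
  exact hf_memK hL.zf (isHF_sb b n)

/-- The values of a name with support `m` are determined by the first `m` columns. -/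
theorem supp_iff {n : ℕ} {R : (Fin n → ZFSet.{0}) → Prop} (h : D0 R) {v : Fin n → ZFSet.{0}}
    (hv : ∀ i, v i ∈ V) {m : ℕ} (hs : ∀ t ∈ Hm V (nat m), ∀ i, act PP ac t (v i) = v i) :
    R (ev (Gf g) ∘ v) ↔ ∃ (k : ℕ) (b : Set ℕ), (∀ i < k, i.unpair.1 < m → (i ∈ b ↔ i ∈ g)) ∧
      ∀ G', IsGeneric V PP LL G' → cn k b ∈ G' → R (ev G' ∘ v) := by
  have hV := hL.zf
  have he := (bk_of hV hL.mem).eg
  constructor
  · intro hr
    obtain ⟨k, hk⟩ := ftg hL hg h hv hr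
    refine ⟨k, g, fun _ _ _ => Iff.rfl, fun G' hG' hc => ?_⟩
    obtain ⟨g', rfl, hg'⟩ := Gn_of_gen hV he hG'
    exact hk g' hg' fun i hi => ((cn_mem_Gf.1 hc) i hi).symm
  · rintro ⟨k, b, h1, h2⟩
    set t : ZFSet.{0} := nm {i | i < k ∧ i ∈ xr b g} with ht
    have htV : t ∈ V := finite_mem hL
    have hst : st t = {i | i < k ∧ i ∈ xr b g} := st_nm _
    have htH : t ∈ Hm V (nat m) := by
      refine mem_Hm.2 ⟨nm_mem_Grp hV htV, fun i hi => ?_⟩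
      rw [hst] at hi
      by_contra hc
      exact hi.2 (h1 i hi.1 (by omega))
    have h3 := h2 (Gf (xr g (st t))) (gen_of_Gn (Gn_flip hV hg htV)) (cn_mem_Gf.2 fun i hi => by
      have h4 : i ∈ st t ↔ i ∈ xr b g := by
        rw [hst]
        exact ⟨fun h => h.2, fun h => ⟨hi, h⟩⟩
      rw [mem_xr, h4, mem_xr]
      tauto)
    have h4 : ev (Gf (xr g (st t))) ∘ v = ev (Gf g) ∘ v := by
      funext i
      show ev (Gf (xr g (st t))) (v i) = ev (Gf g) (v i)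
      rw [← ev_act, hs t htH i]
    rwa [h4] at h3

/-! ### The sets of the family -/

omit hL hg in
variable (g) in
/-- The members of the family, as sets of hereditarily finite sets. -/
noncomputable def ob (k : ℕ) (c : Set ℕ) : ZFSet.{0} :=
  insert (pair (nat 0) (nat k)) (im (fun z => pair (nat 1) z)
    (nm {i | ¬ ((i ∈ g ∧ i.unpair.1 < k) ↔ i ∈ c)}))

omit hL hg in
theorem mem_ob {k : ℕ} {c : Set ℕ} {z : ZFSet.{0}} : z ∈ ob g k c ↔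
    z = pair (nat 0) (nat k) ∨ ∃ i, ¬ ((i ∈ g ∧ i.unpair.1 < k) ↔ i ∈ c) ∧
      z = pair (nat 1) (nat i) := by
  rw [ob, ZFSet.mem_insert_iff, mem_im]
  refine or_congr Iff.rfl ?_
  constructor
  · rintro ⟨x, hx, rfl⟩
    obtain ⟨i, hi, rfl⟩ := mem_nm.1 hx
    exact ⟨i, hi, rfl⟩
  · rintro ⟨i, hi, rfl⟩
    exact ⟨nat i, mem_nm.2 ⟨i, hi, rfl⟩, rfl⟩

/-- The names of the members. -/
noncomputable def on (k v : ZFSet.{0}) : ZFSet.{0} :=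
  insert (pair (chk t0 (pair (nat 0) k)) t0)
    (im (fun u => pair (chk t0 (pair (nat 1) (sn u))) (fs u))
      (ZFSet.sep (fun u => sn u ∈ fs (fs u) ∧ ¬ ((sn u ∈ sn (fs u) ∧ sn u ∈ Sm k) ↔ sn u ∈ v))
        (ZFSet.prod PP ZFSet.omega)))

omit hL hg in
theorem mem_on {k : ℕ} {v u : ZFSet.{0}} : u ∈ on (nat k) v ↔
    u = pair (chk t0 (pair (nat 0) (nat k))) t0 ∨ ∃ n b i, i < n ∧
      ¬ ((i ∈ b ∧ i.unpair.1 < k) ↔ i ∈ st v) ∧
      u = pair (chk t0 (pair (nat 1) (nat i))) (cn n b) := by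
  rw [on, ZFSet.mem_insert_iff, mem_im]
  refine or_congr Iff.rfl ?_
  constructor
  · rintro ⟨w, hw, rfl⟩
    obtain ⟨h1, h2, h3⟩ := ZFSet.mem_sep.1 hw
    obtain ⟨p, hp, x, hx, rfl⟩ := ZFSet.mem_prod.1 h1
    obtain ⟨n, b, rfl⟩ := mem_PP.1 hp
    obtain ⟨i, rfl⟩ := mem_omega_iff.1 hx
    simp only [fs_pair, sn_pair, cn] at h2 h3
    obtain ⟨j, hj, h4⟩ := mem_natK.1 h2
    have h5 := nat_injective h4
    subst h5
    rw [nat_mem_sb, nat_mem_Sm] at h3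
    refine ⟨n, b, i, hj, ?_, ?_⟩
    · rw [mem_st]
      tauto
    · rw [sn_pair, fs_pair]
  · rintro ⟨n, b, i, hi, h1, rfl⟩
    refine ⟨pair (cn n b) (nat i), ZFSet.mem_sep.2 ⟨ZFSet.pair_mem_prod.2
      ⟨cn_mem_PP n b, nat_mem_om i⟩, ?_, ?_⟩, ?_⟩
    · rw [sn_pair, fs_pair, cn, fs_pair]
      exact mem_natK.2 ⟨i, hi, rfl⟩
    · rw [sn_pair, fs_pair, cn, sn_pair, nat_mem_sb, nat_mem_Sm]
      rw [mem_st] at h1
      tauto
    · rw [sn_pair, fs_pair]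

omit hL hg in
theorem ev_on {k : ℕ} {v : ZFSet.{0}} (g' : Set ℕ) :
    ev (Gf g') (on (nat k) v) = ob g' k (st v) := by
  ext z
  rw [mem_ev, mem_ob]
  constructor
  · rintro ⟨y, p, h1, h2, rfl⟩
    rcases mem_on.1 h1 with h3 | ⟨n, b, i, hi, h3, h4⟩
    · obtain ⟨rfl, rfl⟩ := ZFSet.pair_inj.1 h3
      exact Or.inl (ev_chk (t0_mem_Gf g') _)
    · obtain ⟨rfl, rfl⟩ := ZFSet.pair_inj.1 h4
      refine Or.inr ⟨i, ?_, ev_chk (t0_mem_Gf g') _⟩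
      have h5 := cn_mem_Gf.1 h2 i hi
      rw [← h5]
      exact h3
  · rintro (rfl | ⟨i, hi, rfl⟩)
    · exact ⟨_, t0, mem_on.2 (Or.inl rfl), t0_mem_Gf g', ev_chk (t0_mem_Gf g') _⟩
    · exact ⟨_, cn (i + 1) g', mem_on.2 (Or.inr ⟨i + 1, g', i, Nat.lt_succ_self i, hi, rfl⟩),
        mem_Gf.2 ⟨_, rfl⟩, ev_chk (t0_mem_Gf g') _⟩

omit hg in
theorem dfn_on {n : ℕ} {F H : (Fin n → ZFSet.{0}) → ZFSet.{0}} (hF : DfnF V V F)
    (hH : DfnF V V H) : DfnF V V fun v => on (F v) (H v) := by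
  have hV := hL.zf
  have hB := hV.base
  have he := (bk_of hV hL.mem).eg
  have ht := t0_mem_V hL
  refine hB.insert' (hB.pair' (DfnF.comp1 (f := chk t0) (dfn_chk hV ht)
    (hB.pair' (DfnF.const (hV.nat_mem 0)) hF)) (DfnF.const ht)) ?_
  refine hV.im' (h := fun u _ => pair (chk t0 (pair (nat 1) (sn u))) (fs u))
    (hV.sep' (Q := fun u v => sn u ∈ fs (fs u) ∧
      ¬ ((sn u ∈ sn (fs u) ∧ sn u ∈ Sm (F v)) ↔ sn u ∈ H v))
      (DfnF.const (hV.prod_mem (PP_mem hV he) hV.infinity)) ?_) ?_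
  · refine (Dfn.mem (hV.sn' (DfnF.proj 0)) (hV.fs' (hV.fs' (DfnF.proj 0)))).and (Dfn.not ?_)
    refine Dfn.iff ((Dfn.mem (hV.sn' (DfnF.proj 0)) (hV.sn' (hV.fs' (DfnF.proj 0)))).and
      (Dfn.mem (hV.sn' (DfnF.proj 0)) (dfn_Sm hV (SS_mem hV hL.mem) hF.tail)))
      (Dfn.mem (hV.sn' (DfnF.proj 0)) hH.tail)
  · exact hB.pair' (DfnF.comp1 (f := chk t0) (dfn_chk hV ht)
      (hB.pair' (DfnF.const (hV.nat_mem 1)) (hV.sn' (DfnF.proj 0)))) (hV.fs' (DfnF.proj 0))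

omit hg in
theorem on_mem {k v : ZFSet.{0}} (hk : k ∈ V) (hv : v ∈ V) : on k v ∈ V :=
  (dfn_on hL (n := 0) (DfnF.const hk) (DfnF.const hv)).1 Fin.elim0 fun i => i.elim0

omit hg in
/-- The names of the members are symmetric, with support `k`. -/
theorem on_sn {k : ℕ} {v : ZFSet.{0}} (hv : v ∈ V) : on (nat k) v ∈ Sn V PP ac (Fl V) := by
  have hV := hL.zf
  have hfix := fun x (hx : IsHF x) => chk_fix hL (hf_memK hV hx)
  refine mk_sn (symSys hV hL.mem) (on_mem hL (hV.nat_mem k) hv) ?_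
    ⟨Hm V (nat k), mem_Fl.2 ⟨k, rfl⟩, ?_⟩
  · intro u hu
    rcases mem_on.1 hu with rfl | ⟨n, b, i, hi, h3, rfl⟩
    · exact ⟨_, _, rfl, cn_mem_PP _ _, (hfix _ ((isHF_nat 0).pair (isHF_nat k))).1.2⟩
    · exact ⟨_, _, rfl, cn_mem_PP _ _, (hfix _ ((isHF_nat 1).pair (isHF_nat i))).1.2⟩
  · intro t ht y c hyc _
    obtain ⟨htG, htm⟩ := mem_Hm.1 ht
    rcases mem_on.1 hyc with h3 | ⟨n, b, i, hi, h3, h4⟩
    · obtain ⟨rfl, rfl⟩ := ZFSet.pair_inj.1 h3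
      rw [(hfix _ ((isHF_nat 0).pair (isHF_nat k))).2 t htG, ac_t0]
      exact hyc
    · obtain ⟨rfl, rfl⟩ := ZFSet.pair_inj.1 h4
      rw [(hfix _ ((isHF_nat 1).pair (isHF_nat i))).2 t htG, ac_cn]
      refine mem_on.2 (Or.inr ⟨n, _, i, hi, ?_, rfl⟩)
      by_cases h5 : i.unpair.1 < k
      · have h6 : ¬ i ∈ st t := fun h => by
          have := htm i h
          omega
        rw [mem_xr]
        tauto
      · tauto

omit hg in
/-- The action on the names of the members. -/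
theorem act_on {k : ℕ} {v t : ZFSet.{0}} (hv : v ∈ Grp V) (ht : t ∈ Grp V) :
    ∃ v' ∈ Grp V, act PP ac t (on (nat k) v) = on (nat k) v' := by
  have hV := hL.zf
  obtain ⟨hvV, hvω⟩ := mem_Grp.1 hv
  obtain ⟨htV, htω⟩ := mem_Grp.1 ht
  have hfix := fun x (hx : IsHF x) => chk_fix hL (hf_memK hV hx)
  have hcut : nm (cut (st t) k) ∈ V := by
    have h1 : nm (cut (st t) k) = ZFSet.sep (fun x => x ∈ Sm (nat k)) t := by
      ext x
      rw [ZFSet.mem_sep]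
      constructor
      · intro hx
        obtain ⟨i, ⟨h1, h2⟩, rfl⟩ := mem_nm.1 hx
        exact ⟨h1, nat_mem_Sm.2 h2⟩
      · rintro ⟨h1, h2⟩
        obtain ⟨i, hi, rfl⟩ := mem_Sm.1 h2
        exact nat_mem_nm.2 ⟨h1, hi⟩
    rw [h1]
    exact hV.sep_mem (Dfn.mem (DfnF.proj 0) (dfn_Sm hV (SS_mem hV hL.mem)
      (DfnF.const (hV.nat_mem k)))) htV
  have hvV' : nm (st v) ∈ V := by rwa [nm_st hvω]
  refine ⟨nm (xr (st v) (cut (st t) k)), nm_mem_Grp hV (xr_mem hV hvV' hcut), ?_⟩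
  have key : ∀ (v₁ v₂ : ZFSet.{0}), (∀ i, i ∈ st v₂ ↔ ¬ (i ∈ st v₁ ↔ i ∈ cut (st t) k)) →
      ∀ y c, pair y c ∈ on (nat k) v₁ →
        pair (act PP ac t y) (ac t c) ∈ on (nat k) v₂ := by
    intro v₁ v₂ h y c hyc
    rcases mem_on.1 hyc with h3 | ⟨n, b, i, hi, h3, h4⟩
    · obtain ⟨rfl, rfl⟩ := ZFSet.pair_inj.1 h3
      rw [(hfix _ ((isHF_nat 0).pair (isHF_nat k))).2 t ht, ac_t0]
      exact mem_on.2 (Or.inl rfl)
    · obtain ⟨rfl, rfl⟩ := ZFSet.pair_inj.1 h4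
      rw [(hfix _ ((isHF_nat 1).pair (isHF_nat i))).2 t ht, ac_cn]
      refine mem_on.2 (Or.inr ⟨n, _, i, hi, ?_, rfl⟩)
      rw [h i, mem_xr, mem_cut]
      tauto
  have hst : ∀ i, i ∈ st (nm (xr (st v) (cut (st t) k))) ↔
      ¬ (i ∈ st v ↔ i ∈ cut (st t) k) := by
    intro i
    rw [st_nm]
    exact Iff.rfl
  ext u
  rw [mem_act]
  constructor
  · rintro ⟨y, c, h1, h2, rfl⟩
    exact key v _ hst y c h1
  · intro hu
    have hu' : ∃ y c, u = pair y c ∧ c ∈ PP ∧ act PP ac t y = y := by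
      rcases mem_on.1 hu with rfl | ⟨n, b, i, hi, h3, rfl⟩
      · exact ⟨_, _, rfl, cn_mem_PP _ _, (hfix _ ((isHF_nat 0).pair (isHF_nat k))).2 t ht⟩
      · exact ⟨_, _, rfl, cn_mem_PP _ _, (hfix _ ((isHF_nat 1).pair (isHF_nat i))).2 t ht⟩
    obtain ⟨y, c, rfl, hc, hy⟩ := hu'
    have h1 := key _ v (fun i => by rw [hst]; tauto) y c hu
    rw [hy] at h1
    exact ⟨y, ac t c, h1, ac_mem t hc, by rw [hy, ac_ac t hc]⟩

theorem ob_mem {k : ℕ} {c : Set ℕ} (hc : nm c ∈ V) : ob g k c ∈ MM V g := by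
  rw [← st_nm c, ← ev_on]
  exact ⟨_, on_sn hL hc, rfl⟩

/-- The set of all members of the family. -/
theorem exists_OO : ∃ OO ∈ MM V g, ∀ z, z ∈ OO ↔ ∃ (k : ℕ) (c : Set ℕ), nm c ∈ V ∧
    z = ob g k c := by
  have hV := hL.zf
  have hX : im (fun u => on (fs u) (sn u)) (ZFSet.prod ZFSet.omega (Grp V)) ∈ V :=
    hV.im_mem (hV.prod_mem hV.infinity (Grp_mem hV))
      (dfn_on hL (hV.fs' (DfnF.proj 0)) (hV.sn' (DfnF.proj 0)))
  have hmX : ∀ x, x ∈ im (fun u => on (fs u) (sn u)) (ZFSet.prod ZFSet.omega (Grp V)) ↔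
      ∃ k : ℕ, ∃ v ∈ Grp V, x = on (nat k) v := by
    intro x
    rw [mem_im]
    constructor
    · rintro ⟨u, hu, rfl⟩
      obtain ⟨a, ha, v, hv, rfl⟩ := ZFSet.mem_prod.1 hu
      obtain ⟨k, rfl⟩ := mem_omega_iff.1 ha
      exact ⟨k, v, hv, by rw [fs_pair, sn_pair]⟩
    · rintro ⟨k, v, hv, rfl⟩
      exact ⟨pair (nat k) v, ZFSet.pair_mem_prod.2 ⟨nat_mem_om k, hv⟩, by rw [fs_pair, sn_pair]⟩
  obtain ⟨OO, hOO, h1⟩ := coverS hV (forcing_PP hV (bk_of hV hL.mem).eg) (symSys hV hL.mem)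
    (gen_of_Gn hg) hX (by
      intro x hx
      obtain ⟨k, v, hv, rfl⟩ := (hmX x).1 hx
      exact (on_sn hL (mem_Grp.1 hv).1).2) ⟨Hm V (nat 0), mem_Fl.2 ⟨0, rfl⟩, by
      intro t ht x hx
      obtain ⟨k, v, hv, rfl⟩ := (hmX x).1 hx
      obtain ⟨v', hv', h2⟩ := act_on hL (k := k) hv (mem_Hm.1 ht).1
      exact (hmX _).2 ⟨k, v', hv', h2⟩⟩
  refine ⟨OO, hOO, fun z => ?_⟩
  rw [h1]
  constructor
  · rintro ⟨x, hx, rfl⟩
    obtain ⟨k, v, hv, rfl⟩ := (hmX x).1 hx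
    obtain ⟨h2, h3⟩ := mem_Grp.1 hv
    exact ⟨k, st v, by rwa [nm_st h3], ev_on g⟩
  · rintro ⟨k, c, hc, rfl⟩
    exact ⟨_, (hmX _).2 ⟨k, nm c, nm_mem_Grp hV hc, rfl⟩, by rw [ev_on, st_nm]⟩

/-- The empty set is a set of numbers in the model. -/
theorem nm_empty : nm ∅ ∈ V := by
  have h1 : nm (∅ : Set ℕ) = ∅ := by
    rw [ZFSet.eq_empty]
    intro z hz
    obtain ⟨i, hi, -⟩ := mem_nm.1 hz
    exact hi
  rw [h1]
  exact hL.zf.empty_mem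

theorem cut_mem (k : ℕ) : nm (cut g k) ∈ MM V g := by
  refine part_mem (zfM hL hg) (ob_mem hL hg (k := k) (nm_empty hL hg)) (j := 1) (fun x => ?_)
    fun z hz => ?_
  · rw [mem_ob]
    constructor
    · rintro (h1 | ⟨i, hi, h1⟩)
      · exact absurd (ZFSet.pair_inj.1 h1).1.symm nat0_ne_nat1
      · obtain ⟨-, rfl⟩ := ZFSet.pair_inj.1 h1
        refine nat_mem_nm.2 ?_
        have : ¬ i ∈ (∅ : Set ℕ) := fun h => h
        rw [mem_cut]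
        tauto
    · intro hx
      obtain ⟨i, hi, rfl⟩ := mem_nm.1 hx
      refine Or.inr ⟨i, ?_, rfl⟩
      have : ¬ i ∈ (∅ : Set ℕ) := fun h => h
      rw [mem_cut] at hi
      tauto
  · rcases mem_ob.1 hz with rfl | ⟨i, -, rfl⟩
    · exact ⟨_, _, rfl⟩
    · exact ⟨_, _, rfl⟩

end

end Pool.Agent.H158_PC
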