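import Pool.Agent.H158_PC.Act

/-!
# Symmetric systems in a transitive model of ZF: the forcing relation and the truth lemma
-/

set_option autoImplicit false
set_option linter.unreachableTactic false
set_option linter.unusedTactic false
set_option linter.unusedSectionVars false

namespace Pool.Agent.H158_PC.AM

open Pool.Agent.W868 Pool.Agent.W868.GM Pool.Agent.Y588
open ZFSet (pair)

/-- The hereditarily symmetric names in `M`. -/
def Sn (M : Set ZFSet.{0}) (P : ZFSet.{0}) (ac : ZFSet.{0} → ZFSet.{0} → ZFSet.{0})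
    (Fl : ZFSet.{0}) : Set ZFSet.{0} := {x | x ∈ M ∧ HS P ac Fl x}

/-- The symmetric submodel. -/
def Nm (M : Set ZFSet.{0}) (P : ZFSet.{0}) (ac : ZFSet.{0} → ZFSet.{0} → ZFSet.{0})
    (Fl G : ZFSet.{0}) : Set ZFSet.{0} := ev G '' Sn M P ac Fl

/-- Monotonicity of the forcing relation. -/
theorem frc_mono {M S : Set ZFSet.{0}} {P Le : ZFSet.{0}} (hP : IsForcing M P Le) :
    {n : ℕ} → {φ : Fml ZFSet.{0} n} → {v : Fin n → ZFSet.{0}} →
    {p q : ZFSet.{0}} → p ∈ P → Frc P Le S φ v p → q ∈ P → pair q p ∈ Le → Frc P Le S φ v q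
  | _, .mem _ _, _, _, _, hp, h, hq, hqp => Qmem.mono hP hp h hq hqp
  | _, .eq _ _, _, _, _, _, h, hq, hqp => Qeq.mono hP h hq hqp
  | _, .neg _, _, p, q, hp, h, hq, hqp =>
    fun r hr hrq => h r hr (hP.trans p hp q hq r hr hrq hqp)
  | _, .and φ ψ, _, _, _, hp, h, hq, hqp =>
    ⟨frc_mono hP (φ := φ) hp h.1 hq hqp, frc_mono hP (φ := ψ) hp h.2 hq hqp⟩
  | _, .ex _, _, p, q, hp, h, hq, hqp =>
    fun r hr hrq => h r hr (hP.trans p hp q hq r hr hrq hqp)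

theorem depth_map {A B : Type*} (f : A → B) : {n : ℕ} → (φ : Fml A n) →
    (φ.map f).depth = φ.depth
  | _, .mem _ _ => rfl
  | _, .eq _ _ => rfl
  | _, .neg φ => by simp only [Fml.map, Fml.depth, depth_map f φ]
  | _, .and φ ψ => by simp only [Fml.map, Fml.depth, depth_map f φ, depth_map f ψ]
  | _, .ex φ => by simp only [Fml.map, Fml.depth, depth_map f φ]

/-! ### Formulas whose parameters are fixed -/

section fml

theorem tmap_eq {S : Set ZFSet.{0}} {f : ZFSet.{0} → ZFSet.{0}} (h : ∀ a ∈ S, f a = a) {n : ℕ}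
    {s : Fin n ⊕ ZFSet.{0}} (hs : TOver S s) : Sum.map id f s = s := by
  cases s with
  | inl i => rfl
  | inr a => exact congrArg Sum.inr (h a (hs a rfl))

theorem map_eq {S : Set ZFSet.{0}} {f : ZFSet.{0} → ZFSet.{0}} (h : ∀ a ∈ S, f a = a) :
    {n : ℕ} → (φ : Fml ZFSet.{0} n) → φ.Over S → φ.map f = φ
  | _, .mem s t, hφ => by rw [Fml.map, tmap_eq h hφ.1, tmap_eq h hφ.2]
  | _, .eq s t, hφ => by rw [Fml.map, tmap_eq h hφ.1, tmap_eq h hφ.2]
  | _, .neg φ, hφ => by rw [Fml.map, map_eq h φ hφ]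
  | _, .and φ ψ, hφ => by rw [Fml.map, map_eq h φ hφ.1, map_eq h ψ hφ.2]
  | _, .ex φ, hφ => by rw [Fml.map, map_eq h φ hφ]

theorem elim_act {n : ℕ} (f : ZFSet.{0} → ZFSet.{0}) (v : Fin n → ZFSet.{0})
    (s : Fin n ⊕ ZFSet.{0}) :
    Sum.elim (f ∘ v) id (Sum.map id f s) = f (Sum.elim v id s) := by
  cases s <;> rfl

end fml

section inv

variable {M : Set ZFSet.{0}} (hM : IsZF M) {P Le Gr Fl : ZFSet.{0}}
  {ac : ZFSet.{0} → ZFSet.{0} → ZFSet.{0}} (hP : IsForcing M P Le)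
  (hS : SymSys M P Le ac Gr Fl)

include hP hS

/-- The inverse of an automorphism preserves the order. -/
theorem le_inv {g g' : ZFSet.{0}} (hg' : g' ∈ Gr)
    (h : ∀ p ∈ P, ac g' (ac g p) = p ∧ ac g (ac g' p) = p) {p q : ZFSet.{0}} (hp : p ∈ P)
    (hq : q ∈ P) (hg : ac g p ∈ P) (hle : pair q (ac g p) ∈ Le) : pair (ac g' q) p ∈ Le := by
  have h1 := hS.mono g' hg' _ hg _ hq hle
  rwa [(h p hp).1] at h1

theorem qeq_act {g x y p : ZFSet.{0}} (hg : g ∈ Gr) (h : Qeq P Le x y p) :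
    Qeq P Le (act P ac g x) (act P ac g y) (ac g p) := by
  obtain ⟨g', hg', hi⟩ := hS.inv g hg
  induction x using dm_ind generalizing y p with
  | _ x ih =>
  have hp := h.mem
  rw [qeq_iff] at h ⊢
  obtain ⟨-, h1, h2⟩ := h
  refine ⟨hS.maps g hg p hp, ?_, ?_⟩
  · intro a c hac hc q hq hqp hqc
    obtain ⟨a', c', ha', hc', h3⟩ := mem_act.1 hac
    obtain ⟨rfl, rfl⟩ := ZFSet.pair_inj.1 h3
    have hq' := hS.maps g' hg' q hq
    obtain ⟨r, hr, hrq, b, d, hbd, hd, hrd, he⟩ := h1 a' c' ha' hc' (ac g' q) hq'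
      (le_inv hP hS hg' hi hp hq (hS.maps g hg p hp) hqp)
      (le_inv hP hS hg' hi hc' hq (hS.maps g hg c' hc') hqc)
    refine ⟨ac g r, hS.maps g hg r hr, ?_, act P ac g b, ac g d, mem_act.2 ⟨b, d, hbd, hd, rfl⟩,
      hS.maps g hg d hd, hS.mono g hg d hd r hr hrd, ih a' (mem_dm ha') he⟩
    have := hS.mono g hg _ hq' r hr hrq
    rwa [(hi q hq).2] at this
  · intro b d hbd hd q hq hqp hqd
    obtain ⟨b', d', hb', hd', h3⟩ := mem_act.1 hbd
    obtain ⟨rfl, rfl⟩ := ZFSet.pair_inj.1 h3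
    have hq' := hS.maps g' hg' q hq
    obtain ⟨r, hr, hrq, a, c, hac, hc, hrc, he⟩ := h2 b' d' hb' hd' (ac g' q) hq'
      (le_inv hP hS hg' hi hp hq (hS.maps g hg p hp) hqp)
      (le_inv hP hS hg' hi hd' hq (hS.maps g hg d' hd') hqd)
    refine ⟨ac g r, hS.maps g hg r hr, ?_, act P ac g a, ac g c, mem_act.2 ⟨a, c, hac, hc, rfl⟩,
      hS.maps g hg c hc, hS.mono g hg c hc r hr hrc, ih a (mem_dm hac) he⟩
    have := hS.mono g hg _ hq' r hr hrq
    rwa [(hi q hq).2] at this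

theorem qmem_act {g x y p : ZFSet.{0}} (hg : g ∈ Gr) (hp : p ∈ P) (h : Qmem P Le x y p) :
    Qmem P Le (act P ac g x) (act P ac g y) (ac g p) := by
  obtain ⟨g', hg', hi⟩ := hS.inv g hg
  rw [qmem_iff] at h ⊢
  intro q hq hqp
  have hq' := hS.maps g' hg' q hq
  obtain ⟨r, hr, hrq, b, d, hbd, hd, hrd, he⟩ := h (ac g' q) hq'
    (le_inv hP hS hg' hi hp hq (hS.maps g hg p hp) hqp)
  refine ⟨ac g r, hS.maps g hg r hr, ?_, act P ac g b, ac g d, mem_act.2 ⟨b, d, hbd, hd, rfl⟩,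
    hS.maps g hg d hd, hS.mono g hg d hd r hr hrd, qeq_act hP hS hg he⟩
  have := hS.mono g hg _ hq' r hr hrq
  rwa [(hi q hq).2] at this

include hM

theorem sn_act {g x : ZFSet.{0}} (hg : g ∈ Gr) (hx : x ∈ Sn M P ac Fl) :
    act P ac g x ∈ Sn M P ac Fl :=
  ⟨act_mem hM hP.mem hS.dac (hM.trans _ hS.gr _ hg) hx.1, hs_act hS hx.2 hg⟩

omit hM hP in
theorem sn_inv {g g' x : ZFSet.{0}} (hg : g ∈ Gr) (hx : x ∈ Sn M P ac Fl)
    (h : ∀ p ∈ P, ac g' (ac g p) = p) : act P ac g' (act P ac g x) = x :=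
  act_inv hS (hs_iff.1 hx.2).1 hg h

/-- The symmetry lemma. -/
theorem frc_act : {n : ℕ} → (φ : Fml ZFSet.{0} n) → φ.Over (Sn M P ac Fl) →
    {v : Fin n → ZFSet.{0}} → (∀ i, v i ∈ Sn M P ac Fl) → {p : ZFSet.{0}} → p ∈ P →
    {g : ZFSet.{0}} → g ∈ Gr → Frc P Le (Sn M P ac Fl) φ v p →
    Frc P Le (Sn M P ac Fl) (φ.map (act P ac g)) (act P ac g ∘ v) (ac g p)
  | _, .mem s t, _, v, _, p, hp, g, hg, h => by
    simp only [Frc, Fml.map, elim_act] at h ⊢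
    exact qmem_act hP hS hg hp h
  | _, .eq s t, _, v, _, p, hp, g, hg, h => by
    simp only [Frc, Fml.map, elim_act] at h ⊢
    exact qeq_act hP hS hg h
  | n, .neg φ, hφ, v, hv, p, hp, g, hg, h => by
    obtain ⟨g', hg', hi⟩ := hS.inv g hg
    intro q hq hqp hf
    have h1 := frc_act (φ.map (act P ac g)) ((over_map _ φ).2 (Fml.Over.mono
      (fun a ha => sn_act hM hP hS hg ha) hφ)) (v := act P ac g ∘ v)
      (fun i => sn_act hM hP hS hg (hv i)) hq hg' hf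
    have h2 : (φ.map (act P ac g)).map (act P ac g') = φ := by
      rw [map_map]
      exact map_eq (S := Sn M P ac Fl) (fun a ha => sn_inv hS hg ha fun p hp => (hi p hp).1) φ hφ
    have h3 : act P ac g' ∘ (act P ac g ∘ v) = v := by
      funext i
      exact sn_inv hS hg (hv i) fun p hp => (hi p hp).1
    rw [h2, h3] at h1
    exact h (ac g' q) (hS.maps g' hg' q hq)
      (le_inv hP hS hg' hi hp hq (hS.maps g hg p hp) hqp) h1
  | _, .and φ ψ, hφ, v, hv, p, hp, g, hg, h =>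
    ⟨frc_act φ hφ.1 hv hp hg h.1, frc_act ψ hφ.2 hv hp hg h.2⟩
  | n, .ex φ, hφ, v, hv, p, hp, g, hg, h => by
    obtain ⟨g', hg', hi⟩ := hS.inv g hg
    intro q hq hqp
    obtain ⟨r, hr, hrq, x, hx, hf⟩ := h (ac g' q) (hS.maps g' hg' q hq)
      (le_inv hP hS hg' hi hp hq (hS.maps g hg p hp) hqp)
    have h1 := frc_act φ hφ (cons_mem hx hv) hr hg hf
    rw [comp_cons] at h1
    refine ⟨ac g r, hS.maps g hg r hr, ?_, act P ac g x, sn_act hM hP hS hg hx, h1⟩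
    have := hS.mono g hg _ (hS.maps g' hg' q hq) r hr hrq
    rwa [(hi q hq).2] at this
termination_by _ φ => φ.depth
decreasing_by
  all_goals simp only [Fml.depth, depth_map]
  all_goals omega

/-- The symmetry lemma, for fixed parameters. -/
theorem frc_fix {n : ℕ} (φ : Fml ZFSet.{0} n) (hφ : φ.Over (Sn M P ac Fl))
    {v : Fin n → ZFSet.{0}} (hv : ∀ i, v i ∈ Sn M P ac Fl) {p : ZFSet.{0}} (hp : p ∈ P)
    {g : ZFSet.{0}} (hg : g ∈ Gr) (h1 : φ.Over {a | act P ac g a = a})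
    (h : Frc P Le (Sn M P ac Fl) φ v p) :
    Frc P Le (Sn M P ac Fl) φ (act P ac g ∘ v) (ac g p) := by
  have h2 := frc_act hM hP hS φ hφ hv hp hg h
  rwa [map_eq (S := {a | act P ac g a = a}) (fun a ha => ha) φ h1] at h2

omit hM in
/-- The parameters of a formula have a common support. -/
theorem supp_tm {n : ℕ} (s : Fin n ⊕ ZFSet.{0}) (hs : TOver (Sn M P ac Fl) s) :
    ∃ H ∈ Fl, ∀ g ∈ H, TOver {a | act P ac g a = a} s := by
  cases s with
  | inl i =>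
    obtain ⟨H, hH⟩ := hS.ne
    exact ⟨H, hH, fun g _ => TOver.inl _⟩
  | inr a =>
    obtain ⟨H, hH, h⟩ := (hs_iff.1 (hs a rfl).2).1
    exact ⟨H, hH, fun g hg => tOver_inr.2 (h g hg)⟩

omit hM in
theorem supp_fml : {n : ℕ} → (φ : Fml ZFSet.{0} n) → φ.Over (Sn M P ac Fl) →
    ∃ H ∈ Fl, ∀ g ∈ H, φ.Over {a | act P ac g a = a}
  | _, .mem s t, h => by
    obtain ⟨H, hH, h1⟩ := supp_tm hP hS s h.1
    obtain ⟨K, hK, h2⟩ := supp_tm hP hS t h.2
    obtain ⟨L, hL, hLH, hLK⟩ := hS.dir H hH K hK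
    exact ⟨L, hL, fun g hg => ⟨h1 g (hLH hg), h2 g (hLK hg)⟩⟩
  | _, .eq s t, h => by
    obtain ⟨H, hH, h1⟩ := supp_tm hP hS s h.1
    obtain ⟨K, hK, h2⟩ := supp_tm hP hS t h.2
    obtain ⟨L, hL, hLH, hLK⟩ := hS.dir H hH K hK
    exact ⟨L, hL, fun g hg => ⟨h1 g (hLH hg), h2 g (hLK hg)⟩⟩
  | _, .neg φ, h => supp_fml φ h
  | _, .and φ ψ, h => by
    obtain ⟨H, hH, h1⟩ := supp_fml φ h.1
    obtain ⟨K, hK, h2⟩ := supp_fml ψ h.2
    obtain ⟨L, hL, hLH, hLK⟩ := hS.dir H hH K hK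
    exact ⟨L, hL, fun g hg => ⟨h1 g (hLH hg), h2 g (hLK hg)⟩⟩
  | _, .ex φ, h => supp_fml φ h

omit hM in
theorem supp_vec {n : ℕ} (v : Fin n → ZFSet.{0}) (hv : ∀ i, v i ∈ Sn M P ac Fl) :
    ∃ H ∈ Fl, ∀ g ∈ H, ∀ i, act P ac g (v i) = v i := by
  induction n with
  | zero =>
    obtain ⟨H, hH⟩ := hS.ne
    exact ⟨H, hH, fun g _ i => i.elim0⟩
  | succ n ih =>
    obtain ⟨H, hH, h1⟩ := ih (fun i => v i.succ) fun i => hv _
    obtain ⟨K, hK, h2⟩ := (hs_iff.1 (hv 0).2).1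
    obtain ⟨L, hL, hLH, hLK⟩ := hS.dir H hH K hK
    refine ⟨L, hL, fun g hg i => ?_⟩
    refine Fin.cases ?_ (fun i => ?_) i
    · exact h2 g (hLK hg)
    · exact h1 g (hLH hg) i

end inv

/-! ### Definability of the forcing relation -/

section dfn

variable {M : Set ZFSet.{0}} (hM : IsZF M) {P Le Gr Fl : ZFSet.{0}}
  {ac : ZFSet.{0} → ZFSet.{0} → ZFSet.{0}} (hP : IsForcing M P Le)
  (hS : SymSys M P Le ac Gr Fl)

include hM hP hS

/-- The forcing relation is definable. -/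
theorem dfn_frcS : {k : ℕ} → (φ : Fml ZFSet.{0} k) → φ.Over M → {m : ℕ} →
    (G : Fin k → (Fin m → ZFSet.{0}) → ZFSet.{0}) → (∀ i, DfnF M M (G i)) →
    {H : (Fin m → ZFSet.{0}) → ZFSet.{0}} → DfnF M M H →
    Dfn M M fun w : Fin m → ZFSet.{0} => Frc P Le (Sn M P ac Fl) φ (fun i => G i w) (H w)
  | _, .mem s t, h, _, G, hG, _, hH =>
    dfn_qmem hM hP.mem hP.le_mem (dfn_tm hG s h.1) (dfn_tm hG t h.2) hH
  | _, .eq s t, h, _, G, hG, _, hH =>
    dfn_qeq hM hP.mem hP.le_mem (dfn_tm hG s h.1) (dfn_tm hG t h.2) hH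
  | k, .neg φ, h, m, G, hG, H, hH => by
    have hB := hM.base
    have h1 := dfn_frcS φ h (m := m + 1) (fun i w => G i (Fin.tail w)) (fun i => (hG i).tail)
      (H := fun w => w 0) (DfnF.proj 0)
    refine hB.ball (Q := fun q w => pair q (H w) ∈ Le →
      ¬ Frc P Le (Sn M P ac Fl) φ (fun i => G i w) q) (DfnF.const hP.mem) ?_
    exact (Dfn.mem (hB.pair' (DfnF.proj 0) hH.tail) (DfnF.const hP.le_mem)).imp h1.not
  | _, .and φ ψ, h, _, G, hG, _, hH => (dfn_frcS φ h.1 G hG hH).and (dfn_frcS ψ h.2 G hG hH)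
  | k, .ex φ, h, m, G, hG, H, hH => by
    have hB := hM.base
    refine hB.ball (Q := fun q w => pair q (H w) ∈ Le → ∃ r ∈ P, pair r q ∈ Le ∧
      ∃ x ∈ Sn M P ac Fl, Frc P Le (Sn M P ac Fl) φ (Fin.cons x fun i => G i w) r)
      (DfnF.const hP.mem) ?_
    refine (Dfn.mem (hB.pair' (DfnF.proj 0) hH.tail) (DfnF.const hP.le_mem)).imp ?_
    refine hB.bex (Q := fun r w => pair r (w 0) ∈ Le ∧
      ∃ x ∈ Sn M P ac Fl, Frc P Le (Sn M P ac Fl) φ (Fin.cons x fun i => G i (Fin.tail w)) r)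
      (DfnF.const hP.mem) ?_
    refine (Dfn.mem (hB.pair' (DfnF.proj 0) (DfnF.proj 1)) (DfnF.const hP.le_mem)).and ?_
    have h2 := dfn_frcS φ h (m := m + 3)
      (Fin.cons (fun w => w 0) fun i w => G i (Fin.tail (Fin.tail (Fin.tail w)))) (by
        intro i
        refine Fin.cases ?_ (fun i => ?_) i
        · exact DfnF.proj 0
        · exact (hG i).tail.tail.tail) (H := fun w => w 1) (DfnF.proj 1)
    have h4 : Dfn M M fun w : Fin (m + 2) → ZFSet.{0} => ∃ x ∈ M, HS P ac Fl x ∧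
        Frc P Le (Sn M P ac Fl) φ (Fin.cons x fun i => G i (Fin.tail (Fin.tail w))) (w 0) := by
      refine Dfn.ex (Q := fun x w => HS P ac Fl x ∧ Frc P Le (Sn M P ac Fl) φ
        (Fin.cons x fun i => G i (Fin.tail (Fin.tail w))) (w 0)) ?_
      refine (dfn_hs hM hP.mem hS.dac hS.fl (DfnF.proj 0)).and (h2.congr fun w _ => ?_)
      have h3 : (fun i => (Fin.cons (fun w => w 0)
          (fun i w => G i (Fin.tail (Fin.tail (Fin.tail w)))) :
          Fin (k + 1) → (Fin (m + 3) → ZFSet.{0}) → ZFSet.{0}) i w) =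
          Fin.cons (w 0) fun i => G i (Fin.tail (Fin.tail (Fin.tail w))) := by
        funext i
        refine Fin.cases ?_ (fun i => ?_) i
        · rfl
        · rfl
      rw [h3]
      rfl
    refine h4.congr fun w _ => ?_
    constructor
    · rintro ⟨x, hx, h5, h6⟩
      exact ⟨x, ⟨hx, h5⟩, h6⟩
    · rintro ⟨x, ⟨hx, h5⟩, h6⟩
      exact ⟨x, hx, h5, h6⟩

/-- For fixed names, the set of conditions that force a formula is definable. -/
theorem dfn_frcS1 {k : ℕ} (φ : Fml ZFSet.{0} k) (h : φ.Over M) {v : Fin k → ZFSet.{0}}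
    (hv : ∀ i, v i ∈ M) :
    Dfn M M fun w : Fin 1 → ZFSet.{0} => Frc P Le (Sn M P ac Fl) φ v (w 0) :=
  dfn_frcS hM hP hS φ h (fun i _ => v i) (fun i => DfnF.const (hv i)) (DfnF.proj 0)

theorem dfn_frcS2 {k : ℕ} (φ : Fml ZFSet.{0} (k + 1)) (h : φ.Over M) {v : Fin k → ZFSet.{0}}
    (hv : ∀ i, v i ∈ M) {m : ℕ} {F H : (Fin m → ZFSet.{0}) → ZFSet.{0}} (hF : DfnF M M F)
    (hH : DfnF M M H) :
    Dfn M M fun w : Fin m → ZFSet.{0} =>
      Frc P Le (Sn M P ac Fl) φ (Fin.cons (F w) v) (H w) := by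
  refine (dfn_frcS hM hP hS φ h (Fin.cons F fun i _ => v i) (by
    intro i
    refine Fin.cases ?_ (fun i => ?_) i
    · exact hF
    · exact DfnF.const (hv i)) hH).congr fun w _ => ?_
  have h3 : (fun i => (Fin.cons F (fun i _ => v i) :
      Fin (k + 1) → (Fin m → ZFSet.{0}) → ZFSet.{0}) i w) = Fin.cons (F w) v := by
    funext i
    refine Fin.cases ?_ (fun i => ?_) i
    · rfl
    · rfl
  rw [h3]

end dfn

/-! ### The truth lemma -/

section truth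

variable {M : Set ZFSet.{0}} (hM : IsZF M) {P Le Gr Fl : ZFSet.{0}}
  {ac : ZFSet.{0} → ZFSet.{0} → ZFSet.{0}} (hP : IsForcing M P Le)
  (hS : SymSys M P Le ac Gr Fl) {G : ZFSet.{0}} (hG : IsGeneric M P Le G)

include hM hP hS hG

/-- The truth lemma. -/
theorem truthS : {n : ℕ} → (φ : Fml ZFSet.{0} n) → φ.Over (Sn M P ac Fl) →
    (v : Fin n → ZFSet.{0}) → (∀ i, v i ∈ Sn M P ac Fl) →
    (Sat (Nm M P ac Fl G) (ev G) φ (ev G ∘ v) ↔ ∃ p ∈ G, Frc P Le (Sn M P ac Fl) φ v p)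
  | _, .mem s t, hφ, v, hv => by
    simp only [Sat, elim_ev, Frc]
    exact ev_mem_iff hM hP hG (tm_mem (fun i => (hv i).1) (hφ.1.mono fun _ h => h.1))
      (tm_mem (fun i => (hv i).1) (hφ.2.mono fun _ h => h.1))
  | _, .eq s t, hφ, v, hv => by
    simp only [Sat, elim_ev, Frc]
    exact ev_eq_iff hM hP hG (tm_mem (fun i => (hv i).1) (hφ.1.mono fun _ h => h.1))
      (tm_mem (fun i => (hv i).1) (hφ.2.mono fun _ h => h.1))
  | n, .neg φ, hφ, v, hv => by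
    simp only [Sat, Frc]
    rw [truthS φ hφ v hv]
    have hB := hM.base
    have hPM := hP.mem
    have hLM := hP.le_mem
    have h1 := dfn_frcS1 hM hP hS φ (Fml.Over.mono (S := Sn M P ac Fl) (fun _ h => h.1) hφ)
      (v := v) fun i => (hv i).1
    constructor
    · intro h
      have hd : Dfn M M fun w : Fin 1 → ZFSet.{0} => Frc P Le (Sn M P ac Fl) φ v (w 0) ∨
          ∀ q ∈ P, pair q (w 0) ∈ Le → ¬ Frc P Le (Sn M P ac Fl) φ v q := by
        refine h1.or (hB.ball (DfnF.const hPM) ?_)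
        refine (Dfn.mem (hB.pair' (DfnF.proj 0) (DfnF.proj 1)) (DfnF.const hLM)).imp ?_
        exact (Dfn.comp1 (Q := fun p => Frc P Le (Sn M P ac Fl) φ v p) h1 (DfnF.proj 0)).not
      obtain ⟨p, hp, h2 | h2⟩ := gen_dense hM hP hG (Q := fun p =>
          Frc P Le (Sn M P ac Fl) φ v p ∨
          ∀ q ∈ P, pair q p ∈ Le → ¬ Frc P Le (Sn M P ac Fl) φ v q) hd (by
        intro q hq
        by_cases h2 : ∃ r ∈ P, pair r q ∈ Le ∧ Frc P Le (Sn M P ac Fl) φ v r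
        · obtain ⟨r, hr, hrq, h3⟩ := h2
          exact ⟨r, hr, hrq, Or.inl h3⟩
        · exact ⟨q, hq, hP.refl q hq, Or.inr fun r hr hrq h3 => h2 ⟨r, hr, hrq, h3⟩⟩)
      · exact absurd ⟨p, hp, h2⟩ h
      · exact ⟨p, hp, h2⟩
    · rintro ⟨p, hp, h2⟩ ⟨q, hq, h3⟩
      obtain ⟨r, hr, hrp, hrq⟩ := hG.dir p hp q hq
      exact h2 r (hG.sub hr) hrp (frc_mono hP (hG.sub hq) h3 (hG.sub hr) hrq)
  | _, .and φ ψ, hφ, v, hv => by
    simp only [Sat, Frc]
    rw [truthS φ hφ.1 v hv, truthS ψ hφ.2 v hv]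
    constructor
    · rintro ⟨⟨p, hp, h1⟩, ⟨q, hq, h2⟩⟩
      obtain ⟨r, hr, hrp, hrq⟩ := hG.dir p hp q hq
      exact ⟨r, hr, frc_mono hP (hG.sub hp) h1 (hG.sub hr) hrp,
        frc_mono hP (hG.sub hq) h2 (hG.sub hr) hrq⟩
    · rintro ⟨p, hp, h1, h2⟩
      exact ⟨⟨p, hp, h1⟩, ⟨p, hp, h2⟩⟩
  | n, .ex φ, hφ, v, hv => by
    have ih := fun x (hx : x ∈ Sn M P ac Fl) => truthS φ hφ (Fin.cons x v) (cons_mem hx hv)
    simp only [comp_cons] at ih
    simp only [Sat]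
    have hB := hM.base
    have hPM := hP.mem
    have hLM := hP.le_mem
    constructor
    · rintro ⟨_, ⟨x, hx, rfl⟩, hs⟩
      obtain ⟨p, hp, h1⟩ := (ih x hx).1 hs
      exact ⟨p, hp, fun q hq hqp => ⟨q, hq, hP.refl q hq, x, hx,
        frc_mono hP (hG.sub hp) h1 hq hqp⟩⟩
    · rintro ⟨p, hp, h1⟩
      have hd : Dfn M M fun w : Fin 1 → ZFSet.{0} =>
          ∃ x ∈ Sn M P ac Fl, Frc P Le (Sn M P ac Fl) φ (Fin.cons x v) (w 0) := by
        have hd1 : Dfn M M fun w : Fin 1 → ZFSet.{0} =>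
            ∃ x ∈ M, HS P ac Fl x ∧ Frc P Le (Sn M P ac Fl) φ (Fin.cons x v) (w 0) := by
          refine Dfn.ex (Q := fun x w => HS P ac Fl x ∧
            Frc P Le (Sn M P ac Fl) φ (Fin.cons x v) (w 0)) ?_
          refine (dfn_hs hM hPM hS.dac hS.fl (DfnF.proj 0)).and ?_
          exact dfn_frcS2 hM hP hS φ (Fml.Over.mono (S := Sn M P ac Fl) (fun _ h => h.1) hφ)
            (v := v) (fun i => (hv i).1) (DfnF.proj 0) (DfnF.proj 1)
        refine hd1.congr fun w _ => ?_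
        constructor
        · rintro ⟨x, hx, h5, h6⟩
          exact ⟨x, ⟨hx, h5⟩, h6⟩
        · rintro ⟨x, ⟨hx, h5⟩, h6⟩
          exact ⟨x, hx, h5, h6⟩
      obtain ⟨r, hr, -, x, hx, h2⟩ := gen_below hM hP hG
        (Q := fun p => ∃ x ∈ Sn M P ac Fl, Frc P Le (Sn M P ac Fl) φ (Fin.cons x v) p) hd hp (by
        intro q hq hqp
        obtain ⟨r, hr, hrq, x, hx, h2⟩ := h1 q hq hqp
        exact ⟨r, hr, hrq, x, hx, h2⟩)
      exact ⟨_, ⟨x, hx, rfl⟩, (ih x hx).2 ⟨r, hr, h2⟩⟩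

end truth

end Pool.Agent.H158_PC.AM
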